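import Pool.Agent.Helper10.RS.Goals

/-! Packet RS-CEN (MP_82322d_al): regular elements of a group `G = K C_G(K)`. -/

namespace Pool.Agent.Helper49.RS

open Pool.Agent.Helper10.RS

universe u

theorem reg_mul {G : Type u} [Group G] {p : ℕ} (hp : p.Prime) {a b : G} (hab : Commute a b)
    (ha : ¬ p ∣ orderOf a) (hb : ¬ p ∣ orderOf b) : ¬ p ∣ orderOf (a * b) := by
  intro h
  have h1 : orderOf (a * b) ∣ orderOf a * orderOf b :=
    (hab.orderOf_mul_dvd_lcm).trans (Nat.lcm_dvd_mul _ _)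
  rcases hp.dvd_mul.1 (h.trans h1) with h | h
  · exact ha h
  · exact hb h

theorem p_cen : CEN.{u} := by
  intro G _ _ K _ p hp hK
  have hsec : ∀ q : G ⧸ K, ¬ p ∣ orderOf q → ∃ c : G, c ∈ Subgroup.centralizer (K : Set G) ∧
      ¬ p ∣ orderOf c ∧ (QuotientGroup.mk c : G ⧸ K) = q := by
    intro q hq
    obtain ⟨g, rfl⟩ := QuotientGroup.mk_surjective q
    have hg : g ∈ K ⊔ Subgroup.centralizer (K : Set G) := by
      rw [hK]
      exact Subgroup.mem_top g
    rw [Subgroup.mem_sup_of_normal_left] at hg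
    obtain ⟨k, hk, c0, hc0, rfl⟩ := hg
    have e1 : (QuotientGroup.mk (k * c0) : G ⧸ K) = QuotientGroup.mk c0 := by
      rw [QuotientGroup.mk_mul, (QuotientGroup.eq_one_iff k).2 hk, one_mul]
    rw [e1] at hq ⊢
    obtain ⟨a, m, hm, hN⟩ := Nat.exists_eq_pow_mul_and_not_dvd
      (orderOf_pos c0).ne' p hp.ne_one
    have hcop : Nat.Coprime m (p ^ a) := by
      apply Nat.Coprime.pow_right
      exact ((Nat.Prime.coprime_iff_not_dvd hp).2 hm).symm
    obtain ⟨e, he1, he2⟩ := Nat.chineseRemainder hcop 1 0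
    refine ⟨c0 ^ e, Subgroup.pow_mem _ hc0 e, ?_, ?_⟩
    · intro h
      apply hm
      refine h.trans ?_
      rw [orderOf_dvd_iff_pow_eq_one, ← pow_mul]
      obtain ⟨t, ht⟩ := (Nat.modEq_zero_iff_dvd).1 he2
      rw [ht, show p ^ a * t * m = p ^ a * m * t by ring, ← hN, pow_mul, pow_orderOf_eq_one,
        one_pow]
    · have h1 : orderOf (QuotientGroup.mk c0 : G ⧸ K) ∣ orderOf c0 :=
        orderOf_map_dvd (QuotientGroup.mk' K) c0
      have h2 : orderOf (QuotientGroup.mk c0 : G ⧸ K) ∣ m := by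
        rw [hN] at h1
        refine (Nat.Coprime.dvd_mul_left ?_).1 h1
        apply Nat.Coprime.pow_right
        exact ((Nat.Prime.coprime_iff_not_dvd hp).2 hq).symm
      rw [QuotientGroup.mk_pow]
      conv_rhs => rw [← pow_one (QuotientGroup.mk c0 : G ⧸ K)]
      rw [pow_eq_pow_iff_modEq]
      exact he1.of_dvd h2
  choose! s hs1 hs2 hs3 using hsec
  have hcomm : ∀ (k : G), k ∈ K → ∀ q : G ⧸ K, ¬ p ∣ orderOf q → Commute k (s q) := by
    intro k hk q hq
    exact (Subgroup.mem_centralizer_iff.1 (hs1 q hq) k hk)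
  rw [reg, reg, reg, ← Nat.card_prod]
  symm
  refine Nat.card_congr (Equiv.ofBijective (fun x : {g : K // ¬ p ∣ orderOf g} ×
    {q : G ⧸ K // ¬ p ∣ orderOf q} => (⟨(x.1.1 : G) * s x.2.1, reg_mul hp
      (hcomm _ x.1.1.2 _ x.2.2) (by rw [Subgroup.orderOf_coe]; exact x.1.2)
      (hs2 _ x.2.2)⟩ : {g : G // ¬ p ∣ orderOf g})) ⟨?_, ?_⟩)
  · rintro ⟨⟨⟨k, hk⟩, hk'⟩, ⟨q, hq⟩⟩ ⟨⟨⟨k2, hk2⟩, hk2'⟩, ⟨q2, hq2⟩⟩ h
    have h1 : k * s q = k2 * s q2 := congrArg Subtype.val h
    have h2 : q = q2 := by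
      have := congrArg (QuotientGroup.mk : G → G ⧸ K) h1
      rw [QuotientGroup.mk_mul, QuotientGroup.mk_mul, (QuotientGroup.eq_one_iff k).2 hk,
        (QuotientGroup.eq_one_iff k2).2 hk2, one_mul, one_mul, hs3 q hq, hs3 q2 hq2] at this
      exact this
    subst h2
    have h3 : k = k2 := mul_right_cancel h1
    subst h3
    rfl
  · rintro ⟨g, hg⟩
    set q : G ⧸ K := QuotientGroup.mk g with hqdef
    have hq : ¬ p ∣ orderOf q := fun h =>
      hg (h.trans (orderOf_map_dvd (QuotientGroup.mk' K) g))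
    have hk : g * (s q)⁻¹ ∈ K := by
      rw [← QuotientGroup.eq_one_iff, QuotientGroup.mk_mul, QuotientGroup.mk_inv, hs3 q hq,
        ← hqdef, mul_inv_cancel]
    have hc := hcomm _ hk q hq
    have hgs : Commute g (s q) := by
      have : Commute (g * (s q)⁻¹ * s q) (s q) := hc.mul_left (Commute.refl _)
      rwa [inv_mul_cancel_right] at this
    have hkr : ¬ p ∣ orderOf (g * (s q)⁻¹) := by
      apply reg_mul hp hgs.inv_right hg
      rw [orderOf_inv]
      exact hs2 q hq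
    refine ⟨(⟨⟨g * (s q)⁻¹, hk⟩, ?_⟩, ⟨q, hq⟩), ?_⟩
    · rw [← Subgroup.orderOf_coe]
      exact hkr
    · apply Subtype.ext
      change g * (s q)⁻¹ * s q = g
      rw [inv_mul_cancel_right]

end Pool.Agent.Helper49.RS
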