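import Pool.Agent.Helper38.RS.Goals2

namespace Pool.Agent.Helper49.RSV

open NumberField Polynomial Module IsDedekindDomain Pool.Agent.Helper38.RS WithZero

variable {M : Type} [Field M] [NumberField M]

/-- weak approximation -/
lemma weakApprox (S : Finset (HeightOneSpectrum (𝓞 M))) (t : HeightOneSpectrum (𝓞 M) → M)
    (n : ℕ) : ∃ y : M, ∀ w ∈ S, w.valuation M (y - t w) ≤ WithZero.exp (-(n : ℤ)) := by
  classical
  obtain ⟨b, hb⟩ := IsLocalization.exist_integer_multiples_of_finset (nonZeroDivisors (𝓞 M))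
    (S.image t)
  have hz : ∀ w ∈ S, ∃ z : 𝓞 M, algebraMap (𝓞 M) M z = algebraMap (𝓞 M) M b * t w := by
    intro w hw
    obtain ⟨z, hz⟩ := hb (t w) (Finset.mem_image_of_mem _ hw)
    exact ⟨z, by rw [hz, Algebra.smul_def]⟩
  choose! z hz using hz
  have hb0 : algebraMap (𝓞 M) M b ≠ 0 := by
    intro h
    have : (b : 𝓞 M) = 0 := by
      apply FaithfulSMul.algebraMap_injective (𝓞 M) M
      rw [h, map_zero]
    exact nonZeroDivisors.ne_zero b.2 this
  have hm : ∀ w : HeightOneSpectrum (𝓞 M), ∃ m : ℕ,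
      WithZero.exp (-(m : ℤ)) ≤ w.valuation M (algebraMap (𝓞 M) M b) := by
    intro w
    have h1 : w.valuation M (algebraMap (𝓞 M) M b) ≠ 0 := by
      rw [Ne, map_eq_zero]; exact hb0
    refine ⟨(-WithZero.log (w.valuation M (algebraMap (𝓞 M) M b))).toNat, ?_⟩
    rw [← WithZero.le_log_iff_exp_le h1]
    have := Int.self_le_toNat (-WithZero.log (w.valuation M (algebraMap (𝓞 M) M b)))
    omega
  choose m hm using hm
  obtain ⟨y, hy⟩ := IsDedekindDomain.exists_forall_sub_mem_ideal (s := S)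
    (fun w : HeightOneSpectrum (𝓞 M) => w.asIdeal) (fun w => n + m w)
    (fun w _ => w.prime) (fun w _ w' _ hne h => hne (HeightOneSpectrum.ext h))
    (fun w => z w.1)
  refine ⟨algebraMap (𝓞 M) M y / algebraMap (𝓞 M) M b, ?_⟩
  intro w hw
  have h1 : algebraMap (𝓞 M) M y / algebraMap (𝓞 M) M b - t w =
      algebraMap (𝓞 M) M (y - z w) / algebraMap (𝓞 M) M b := by
    rw [map_sub, hz w hw]
    field_simp
  have h2 : w.valuation M (algebraMap (𝓞 M) M (y - z w)) ≤ WithZero.exp (-((n + m w : ℕ) : ℤ)) := by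
    rw [HeightOneSpectrum.valuation_of_algebraMap, HeightOneSpectrum.intValuation_le_pow_iff_mem]
    exact hy w hw
  rw [h1, map_div₀]
  have h3 : w.valuation M (algebraMap (𝓞 M) M b) ≠ 0 := by
    rw [Ne, map_eq_zero]; exact hb0
  rw [div_le_iff₀ (zero_lt_iff.2 h3)]
  refine h2.trans ?_
  have h4 : WithZero.exp (-((n + m w : ℕ) : ℤ)) = WithZero.exp (-(n : ℤ)) *
      WithZero.exp (-(m w : ℤ)) := by
    rw [← WithZero.exp_add]; congr 1; push_cast; ring
  rw [h4]
  exact mul_le_mul_right (hm w) _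

lemma locSq_one (w : HeightOneSpectrum (𝓞 M)) : LocSq w (1 : M) := ⟨1, by simp⟩

lemma locSq_of_close (w : HeightOneSpectrum (𝓞 M)) {x : M} (h : w.valuation M (x - 1) < 1) :
    LocSq w x := ⟨1, by simpa using h⟩

lemma locSq_mul (w : HeightOneSpectrum (𝓞 M)) {x y : M} (hx : LocSq w x) (hy : LocSq w y) :
    LocSq w (x * y) := by
  obtain ⟨c, hc⟩ := hx
  obtain ⟨d, hd⟩ := hy
  refine ⟨c * d, ?_⟩
  have h1 : x * y * (c * d) ^ 2 - 1 = (x * c ^ 2 - 1) * (y * d ^ 2 - 1) +
      ((x * c ^ 2 - 1) + (y * d ^ 2 - 1)) := by ring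
  rw [h1]
  refine (w.valuation M).map_add_lt ?_ ((w.valuation M).map_add_lt hc hd)
  rw [map_mul]
  exact mul_lt_one_of_lt_of_le hc hd.le

lemma locSq_sq_mul (w : HeightOneSpectrum (𝓞 M)) {c x : M} (hc : c ≠ 0) :
    LocSq w (c ^ 2 * x) ↔ LocSq w x := by
  constructor
  · rintro ⟨y, hy⟩
    exact ⟨c * y, by rw [show x * (c * y) ^ 2 = c ^ 2 * x * y ^ 2 by ring]; exact hy⟩
  · rintro ⟨y, hy⟩
    refine ⟨y / c, ?_⟩
    rw [show c ^ 2 * x * (y / c) ^ 2 = x * y ^ 2 by field_simp]
    exact hy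

lemma val_of_close (w : HeightOneSpectrum (𝓞 M)) {x y : M}
    (h : w.valuation M (x - y) < w.valuation M y) : w.valuation M x = w.valuation M y := by
  have := (w.valuation M).map_add_eq_of_lt_right h
  rwa [sub_add_cancel] at this

lemma val_one_of_close (w : HeightOneSpectrum (𝓞 M)) {x : M}
    (h : w.valuation M (x - 1) < 1) : w.valuation M x = 1 := by
  have := val_of_close w (x := x) (y := 1) (by rwa [map_one])
  rwa [map_one] at this

lemma locSq_ne_zero (w : HeightOneSpectrum (𝓞 M)) {x : M} (h : LocSq w x) : x ≠ 0 := by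
  rintro rfl
  obtain ⟨y, hy⟩ := h
  have := val_one_of_close w hy
  simp at this

lemma ordv_mul (w : HeightOneSpectrum (𝓞 M)) {x y : M} (hx : x ≠ 0) (hy : y ≠ 0) :
    ordv w (x * y) = ordv w x + ordv w y := by
  unfold ordv
  rw [map_mul, WithZero.log_mul]
  · ring
  · rwa [Ne, map_eq_zero]
  · rwa [Ne, map_eq_zero]

lemma ordv_eq_zero (w : HeightOneSpectrum (𝓞 M)) {x : M} (h : w.valuation M x = 1) :
    ordv w x = 0 := by
  unfold ordv
  rw [h]
  simp

lemma ordv_sq (w : HeightOneSpectrum (𝓞 M)) {x : M} (hx : x ≠ 0) :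
    ordv w (x ^ 2) = 2 * ordv w x := by
  rw [sq, ordv_mul w hx hx]; ring

lemma locSq_even (w : HeightOneSpectrum (𝓞 M)) {x : M} (h : LocSq w x) : Even (ordv w x) := by
  have hx := locSq_ne_zero w h
  obtain ⟨y, hy⟩ := h
  have h1 := val_one_of_close w hy
  have hy0 : y ≠ 0 := by
    rintro rfl
    simp at h1
  have h2 := ordv_eq_zero w h1
  rw [ordv_mul w hx (pow_ne_zero 2 hy0), ordv_sq w hy0] at h2
  exact ⟨-ordv w y, by omega⟩

lemma tame_mul (w : HeightOneSpectrum (𝓞 M)) {a x y : M} (ha : a ≠ 0) (hx : Tame w a x)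
    (hy : Tame w a y) : Tame w a (x * y) := by
  rcases hx with hx | hx <;> rcases hy with hy | hy
  · exact Or.inl (locSq_mul w hx hy)
  · right
    have := locSq_mul w hx hy
    rwa [show x * -(a * y) = -(a * (x * y)) by ring] at this
  · right
    have := locSq_mul w hx hy
    rwa [show -(a * x) * y = -(a * (x * y)) by ring] at this
  · left
    have := locSq_mul w hx hy
    rw [show -(a * x) * -(a * y) = a ^ 2 * (x * y) by ring, locSq_sq_mul w ha] at this
    exact this

lemma tame_sq_mul (w : HeightOneSpectrum (𝓞 M)) {a x c : M} (hc : c ≠ 0) :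
    Tame w a (c ^ 2 * x) ↔ Tame w a x := by
  unfold Tame
  rw [locSq_sq_mul w hc, show -(a * (c ^ 2 * x)) = c ^ 2 * -(a * x) by ring,
    locSq_sq_mul w hc]

lemma tame_right (w : HeightOneSpectrum (𝓞 M)) {a x y : M} (ha : a ≠ 0) (hx0 : x ≠ 0)
    (hx : Tame w a x) (hxy : Tame w a (x * y)) : Tame w a y := by
  have := tame_mul w ha hx hxy
  rw [show x * (x * y) = x ^ 2 * y by ring, tame_sq_mul w hx0] at this
  exact this

lemma mem_iff_val (w : HeightOneSpectrum (𝓞 M)) (r : 𝓞 M) :
    w.valuation M (r : M) < 1 ↔ r ∈ w.asIdeal := w.valuation_lt_one_iff_mem r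

lemma approx (w : HeightOneSpectrum (𝓞 M)) {x : M} (hx : w.valuation M x ≤ 1) :
    ∃ r : 𝓞 M, w.valuation M ((r : M) - x) < 1 := by
  obtain ⟨r, hr⟩ := w.exists_valuation_sub_lt_of_integer hx 1
  exact ⟨r, by simpa using hr⟩

lemma res_sq (w : HeightOneSpectrum (𝓞 M)) {x : M} (hx : w.valuation M x = 1) (r : 𝓞 M)
    (hr : w.valuation M ((r : M) - x) < 1) :
    LocSq w x ↔ IsSquare (Ideal.Quotient.mk w.asIdeal r) := by
  have hmax : w.asIdeal.IsMaximal := w.isMaximal
  let _ : Field (𝓞 M ⧸ w.asIdeal) := Ideal.Quotient.field w.asIdeal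
  have hrv : w.valuation M (r : M) = 1 := by rw [← hx]; exact val_of_close w (by rwa [hx])
  constructor
  · rintro ⟨y, hy⟩
    have h1 := val_one_of_close w hy
    have hyv : w.valuation M y = 1 := by
      rw [map_mul, hx, one_mul, map_pow] at h1
      exact (pow_eq_one_iff.1 h1).resolve_right two_ne_zero
    obtain ⟨s, hs⟩ := approx w hyv.le
    have hsv : w.valuation M (s : M) = 1 := by rw [← hyv]; exact val_of_close w (by rwa [hyv])
    have h2 : w.valuation M ((r * s ^ 2 - 1 : 𝓞 M) : M) < 1 := by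
      have e : ((r * s ^ 2 - 1 : 𝓞 M) : M) = (r - x) * (s : M) ^ 2 +
          (x * (((s : M) - y) * (s + y)) + (x * y ^ 2 - 1)) := by
        push_cast; ring
      rw [e]
      refine (w.valuation M).map_add_lt ?_ ((w.valuation M).map_add_lt ?_ hy)
      · rw [map_mul, map_pow, hsv]; simpa using hr
      · rw [map_mul, hx, one_mul, map_mul]
        refine mul_lt_one_of_lt_of_le hs ?_
        exact (w.valuation M).map_add_le hsv.le hyv.le
    rw [mem_iff_val] at h2
    have h3 := Ideal.Quotient.eq_zero_iff_mem.2 h2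
    rw [map_sub, map_mul, map_pow, map_one, sub_eq_zero] at h3
    refine ⟨(Ideal.Quotient.mk w.asIdeal s)⁻¹, ?_⟩
    have hs0 : Ideal.Quotient.mk w.asIdeal s ≠ 0 := by
      intro h
      rw [h] at h3
      simp at h3
    field_simp
    exact h3
  · rintro ⟨zb, hz⟩
    obtain ⟨z, rfl⟩ := Ideal.Quotient.mk_surjective zb
    have h1 : r - z * z ∈ w.asIdeal := by
      rw [← Ideal.Quotient.eq_zero_iff_mem, map_sub, map_mul, hz, sub_self]
    rw [← mem_iff_val] at h1
    have hzv : w.valuation M (z : M) = 1 := by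
      by_contra hne
      have hlt : w.valuation M (z : M) < 1 := lt_of_le_of_ne (w.valuation_le_one z) hne
      have h2 : w.valuation M (r : M) < 1 := by
        have e : (r : M) = ((r - z * z : 𝓞 M) : M) + (z : M) * z := by push_cast; ring
        rw [e]
        refine (w.valuation M).map_add_lt h1 ?_
        rw [map_mul]
        exact mul_lt_one_of_lt_of_le hlt hlt.le
      rw [hrv] at h2
      exact lt_irrefl _ h2
    have hz0 : (z : M) ≠ 0 := by
      intro h
      rw [h, map_zero] at hzv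
      exact zero_ne_one hzv
    refine ⟨(z : M)⁻¹, ?_⟩
    have e : x * (z : M)⁻¹ ^ 2 - 1 = (((r - z * z : 𝓞 M) : M) - (r - x)) / (z : M) ^ 2 := by
      push_cast; field_simp; ring
    rw [e, map_div₀, map_pow, hzv]
    simp only [one_pow, div_one]
    exact (w.valuation M).map_sub_lt h1 hr

lemma char_ne_two (w : HeightOneSpectrum (𝓞 M)) (h2 : w.valuation M 2 = 1) :
    ringChar (𝓞 M ⧸ w.asIdeal) ≠ 2 := by
  intro h
  have h1 : ((2 : ℕ) : 𝓞 M ⧸ w.asIdeal) = 0 := (ringChar.spec _ 2).2 (by rw [h])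
  have h3 : (2 : 𝓞 M) ∈ w.asIdeal := by
    rw [← Ideal.Quotient.eq_zero_iff_mem, map_ofNat]
    rw [Nat.cast_ofNat] at h1
    exact h1
  rw [← mem_iff_val] at h3
  simp only [map_ofNat] at h3
  rw [h2] at h3
  exact lt_irrefl _ h3

lemma nonsq_mul (w : HeightOneSpectrum (𝓞 M)) {x y : M}
    (hx : w.valuation M x = 1) (hy : w.valuation M y = 1) (hxn : ¬ LocSq w x)
    (hyn : ¬ LocSq w y) : LocSq w (x * y) := by
  classical
  have hmax : w.asIdeal.IsMaximal := w.isMaximal
  let _ : Field (𝓞 M ⧸ w.asIdeal) := Ideal.Quotient.field w.asIdeal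
  have : Finite (𝓞 M ⧸ w.asIdeal) := Ideal.finiteQuotientOfFreeOfNeBot w.asIdeal w.ne_bot
  have := Fintype.ofFinite (𝓞 M ⧸ w.asIdeal)
  obtain ⟨r, hr⟩ := approx w hx.le
  obtain ⟨s, hs⟩ := approx w hy.le
  rw [res_sq w hx r hr] at hxn
  rw [res_sq w hy s hs] at hyn
  have hxy : w.valuation M (x * y) = 1 := by rw [map_mul, hx, hy, one_mul]
  have hrv : w.valuation M (r : M) = 1 := by rw [← hx]; exact val_of_close w (by rwa [hx])
  rw [res_sq w hxy (r * s) ?_]
  · rw [← quadraticChar_neg_one_iff_not_isSquare] at hxn hyn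
    have h3 : quadraticChar (𝓞 M ⧸ w.asIdeal) (Ideal.Quotient.mk w.asIdeal (r * s)) = 1 := by
      rw [map_mul, map_mul, hxn, hyn]; norm_num
    have h4 : Ideal.Quotient.mk w.asIdeal (r * s) ≠ 0 := by
      intro h
      rw [h] at h3
      simp at h3
    exact (quadraticChar_one_iff_isSquare h4).1 h3
  · have e : ((r * s : 𝓞 M) : M) - x * y = (r : M) * ((s : M) - y) + ((r : M) - x) * y := by
      push_cast; ring
    rw [e]
    refine (w.valuation M).map_add_lt ?_ ?_
    · rw [map_mul, hrv, one_mul]; exact hs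
    · rw [map_mul, hy, mul_one]; exact hr

lemma exists_nonsq (w : HeightOneSpectrum (𝓞 M)) (h2 : w.valuation M 2 = 1) :
    ∃ g : M, w.valuation M g = 1 ∧ ¬ LocSq w g := by
  classical
  have hmax : w.asIdeal.IsMaximal := w.isMaximal
  let _ : Field (𝓞 M ⧸ w.asIdeal) := Ideal.Quotient.field w.asIdeal
  have : Finite (𝓞 M ⧸ w.asIdeal) := Ideal.finiteQuotientOfFreeOfNeBot w.asIdeal w.ne_bot
  have := Fintype.ofFinite (𝓞 M ⧸ w.asIdeal)
  obtain ⟨gb, hgb⟩ := FiniteField.exists_nonsquare (F := 𝓞 M ⧸ w.asIdeal) (char_ne_two w h2)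
  obtain ⟨g, rfl⟩ := Ideal.Quotient.mk_surjective gb
  have hg : w.valuation M (g : M) = 1 := by
    by_contra hne
    have hlt : w.valuation M (g : M) < 1 := lt_of_le_of_ne (w.valuation_le_one g) hne
    rw [mem_iff_val] at hlt
    rw [Ideal.Quotient.eq_zero_iff_mem.2 hlt] at hgb
    exact hgb (IsSquare.zero)
  refine ⟨g, hg, ?_⟩
  rw [res_sq w hg g (by simp)]
  exact hgb

lemma exists_normalize (w : HeightOneSpectrum (𝓞 M)) {u : M} (hu : u ≠ 0)
    (he : Even (ordv w u)) : ∃ c : M, c ≠ 0 ∧ w.valuation M (c ^ 2 * u) = 1 := by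
  obtain ⟨j, hj⟩ := he
  obtain ⟨c, hc⟩ := w.valuation_surjective M (WithZero.exp j)
  refine ⟨c, ?_, ?_⟩
  · rintro rfl
    rw [map_zero] at hc
    exact WithZero.exp_ne_zero hc.symm
  · have hu' : w.valuation M u ≠ 0 := by rwa [Ne, map_eq_zero]
    have h1 : w.valuation M u = WithZero.exp (-(j + j)) := by
      unfold ordv at hj
      rw [← WithZero.exp_log hu']
      congr 1
      omega
    rw [map_mul, map_pow, hc, h1, sq, ← WithZero.exp_add, ← WithZero.exp_add]
    rw [show j + j + -(j + j) = 0 by ring]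
    exact WithZero.exp_zero

lemma tame_index (w : HeightOneSpectrum (𝓞 M)) {a x y : M}
    (ha : a ≠ 0) (hx0 : x ≠ 0) (hy0 : y ≠ 0) (hodd : ¬ Even (ordv w a)) (hx : ¬ Tame w a x)
    (hy : ¬ Tame w a y) : Tame w a (x * y) := by
  have key : ∀ z : M, z ≠ 0 → ¬ Tame w a z → ∃ u : M, (u = z ∨ u = -(a * z)) ∧ u ≠ 0 ∧
      Even (ordv w u) ∧ ¬ LocSq w u := by
    intro z hz0 hz
    unfold Tame at hz
    push Not at hz
    by_cases he : Even (ordv w z)
    · exact ⟨z, Or.inl rfl, hz0, he, hz.1⟩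
    · refine ⟨-(a * z), Or.inr rfl, neg_ne_zero.2 (mul_ne_zero ha hz0), ?_, hz.2⟩
      have h1 : ordv w (-(a * z)) = ordv w a + ordv w z := by
        rw [← ordv_mul w ha hz0]
        unfold ordv
        rw [Valuation.map_neg]
      rw [h1, Int.even_add]
      tauto
  obtain ⟨u, hu, hu0, hue, hun⟩ := key x hx0 hx
  obtain ⟨v, hv, hv0, hve, hvn⟩ := key y hy0 hy
  obtain ⟨c, hc0, hc⟩ := exists_normalize w hu0 hue
  obtain ⟨d, hd0, hd⟩ := exists_normalize w hv0 hve
  have h3 := nonsq_mul w hc hd (by rwa [locSq_sq_mul w hc0]) (by rwa [locSq_sq_mul w hd0])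
  rw [show c ^ 2 * u * (d ^ 2 * v) = (c * d) ^ 2 * (u * v) by ring,
    locSq_sq_mul w (mul_ne_zero hc0 hd0)] at h3
  rcases hu with rfl | rfl <;> rcases hv with rfl | rfl
  · exact Or.inl h3
  · right; rwa [show u * -(a * y) = -(a * (u * y)) by ring] at h3
  · right; rwa [show -(a * x) * v = -(a * (x * v)) by ring] at h3
  · left
    rwa [show -(a * x) * -(a * y) = a ^ 2 * (x * y) by ring, locSq_sq_mul w ha] at h3

section norm

variable {k : Type} [NormedField k] [NormedAlgebra ℚ_[2] k] [IsUltrametricDist k]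

omit [IsUltrametricDist k] in
lemma norm_two : ‖(2 : k)‖ = 1 / 2 := by
  have h : (2 : k) = algebraMap ℚ_[2] k 2 := by rw [map_ofNat]
  rw [h, norm_algebraMap']
  have := Padic.norm_p (p := 2)
  rw [Nat.cast_ofNat] at this
  rw [this]
  norm_num

omit [IsUltrametricDist k] in
lemma norm_eight : ‖(8 : k)‖ = 1 / 8 := by
  rw [show (8 : k) = 2 ^ 3 by norm_num, norm_pow, norm_two]
  norm_num

omit [NormedAlgebra ℚ_[2] k] [NumberField M] in
lemma norm_int_le (τ : M →+* k) (b : 𝓞 M) : ‖τ (b : M)‖ ≤ 1 := by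
  have h1 : IsIntegral ℤ (τ (b : M)) := (b.2 : IsIntegral ℤ (b : M)).map τ.toIntAlgHom
  have h2 : IsIntegral (NormedField.valuation (K := k)).integer (τ (b : M)) := h1.tower_top
  have h3 := (Valuation.integer.integers (NormedField.valuation (K := k))).isIntegral_iff_v_le_one.1
    h2
  rw [NormedField.valuation_apply] at h3
  exact_mod_cast h3

/-- the prime of an embedding -/
def PI (τ : M →+* k) : Ideal (𝓞 M) where
  carrier := {b | ‖τ (b : M)‖ < 1}
  add_mem' := by
    intro a b ha hb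
    simp only [Set.mem_ofPred_eq] at ha hb ⊢
    have e : ((a + b : 𝓞 M) : M) = (a : M) + b := by push_cast; rfl
    rw [e, map_add]
    exact lt_of_le_of_lt (IsUltrametricDist.norm_add_le_max _ _) (max_lt ha hb)
  zero_mem' := by simp
  smul_mem' := by
    intro c b hb
    simp only [Set.mem_ofPred_eq] at hb ⊢
    have e : ((c • b : 𝓞 M) : M) = (c : M) * b := by rw [smul_eq_mul]; push_cast; rfl
    rw [e, map_mul, norm_mul]
    have := norm_int_le τ c
    nlinarith [norm_nonneg (τ (c : M)), norm_nonneg (τ (b : M))]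

omit [NormedAlgebra ℚ_[2] k] [NumberField M] in
lemma mem_PI (τ : M →+* k) (b : 𝓞 M) : b ∈ PI τ ↔ ‖τ (b : M)‖ < 1 := Iff.rfl

/-- the prime of an embedding -/
def wt (τ : M →+* k) : HeightOneSpectrum (𝓞 M) where
  asIdeal := PI τ
  isPrime := by
    constructor
    · rw [Ideal.ne_top_iff_one, mem_PI]
      simp
    · intro a b hab
      by_contra hcon
      push Not at hcon
      rw [mem_PI] at hab
      rw [mem_PI, mem_PI] at hcon
      have h1 : ‖τ (a : M)‖ = 1 := le_antisymm (norm_int_le τ a) (not_lt.1 hcon.1)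
      have h2 : ‖τ (b : M)‖ = 1 := le_antisymm (norm_int_le τ b) (not_lt.1 hcon.2)
      have e : ((a * b : 𝓞 M) : M) = (a : M) * b := by push_cast; rfl
      rw [e, map_mul, norm_mul, h1, h2] at hab
      norm_num at hab
  ne_bot := by
    intro h
    have h2 : (2 : 𝓞 M) ∈ PI τ := by
      rw [mem_PI]
      have e : ((2 : 𝓞 M) : M) = 2 := map_ofNat (algebraMap (𝓞 M) M) 2
      rw [e, map_ofNat, norm_two]
      norm_num
    rw [h, Ideal.mem_bot] at h2
    exact two_ne_zero h2

lemma wt_two (τ : M →+* k) : (wt τ).valuation M 2 < 1 := by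
  have h2 : (2 : 𝓞 M) ∈ (wt τ).asIdeal := by
    show (2 : 𝓞 M) ∈ PI τ
    rw [mem_PI]
    have e : ((2 : 𝓞 M) : M) = 2 := map_ofNat (algebraMap (𝓞 M) M) 2
    rw [e, map_ofNat, norm_two]
    norm_num
  rw [← mem_iff_val] at h2
  have e : ((2 : 𝓞 M) : M) = 2 := map_ofNat (algebraMap (𝓞 M) M) 2
  rwa [e] at h2

lemma norm_one_of_notMem (τ : M →+* k) (d : (wt τ).asIdeal.primeCompl) :
    ‖τ ((d : 𝓞 M) : M)‖ = 1 := by
  have h : (d : 𝓞 M) ∉ PI τ := d.2
  rw [mem_PI] at h
  exact le_antisymm (norm_int_le τ _) (not_lt.1 h)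

lemma norm_le_one_of_val (τ : M →+* k) {b : M} (hb : (wt τ).valuation M b ≤ 1) :
    ‖τ b‖ ≤ 1 := by
  obtain ⟨n, d, h⟩ := (wt τ).exists_primeCompl_mul_eq_of_integer b hb
  have h1 : ‖τ b‖ * ‖τ ((d : 𝓞 M) : M)‖ = ‖τ (n : M)‖ := by
    rw [← norm_mul, ← map_mul]
    exact congrArg (fun z => ‖τ z‖) h
  rw [norm_one_of_notMem, mul_one] at h1
  rw [h1]
  exact norm_int_le τ n

lemma norm_small_of_val (τ : M →+* k) {b : M}
    (hb : (wt τ).valuation M b ≤ (wt τ).valuation M 8) : ‖τ b‖ ≤ 1 / 8 := by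
  have h8 : (8 : M) ≠ 0 := by norm_num
  have h1 : (wt τ).valuation M (b / 8) ≤ 1 := by
    rw [map_div₀]
    refine div_le_one_of_le₀ hb zero_le
  have h2 := norm_le_one_of_val τ h1
  rw [map_div₀, map_ofNat, norm_div, norm_eight] at h2
  rw [div_le_iff₀ (by norm_num)] at h2
  linarith

lemma val_of_norm (τ : M →+* k) {x : M} (hx : ‖τ x‖ = 1) : (wt τ).valuation M x = 1 := by
  have hd : ∀ d : (wt τ).asIdeal.primeCompl, (wt τ).valuation M ((d : 𝓞 M) : M) = 1 := by
    intro d
    exact (wt τ).valuation_eq_one_iff_notMem.2 d.2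
  have hn : ∀ n : 𝓞 M, ‖τ (n : M)‖ = 1 → (wt τ).valuation M (n : M) = 1 := by
    intro n hn
    refine (wt τ).valuation_eq_one_iff_notMem.2 ?_
    show n ∉ PI τ
    rw [mem_PI, hn]
    norm_num
  obtain ⟨n, d, h | h⟩ := (wt τ).exists_primeCompl_mul_eq_or_mul_eq x
  · have h1 : ‖τ x‖ * ‖τ ((d : 𝓞 M) : M)‖ = ‖τ (n : M)‖ := by
      rw [← norm_mul, ← map_mul]
      exact congrArg (fun z => ‖τ z‖) h
    rw [norm_one_of_notMem, mul_one, hx] at h1
    have h2 : (wt τ).valuation M x * (wt τ).valuation M ((d : 𝓞 M) : M) =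
        (wt τ).valuation M (n : M) := by
      rw [← map_mul]
      exact congrArg _ h
    rw [hd, mul_one, hn n h1.symm] at h2
    exact h2
  · have h1 : ‖τ x‖ * ‖τ (n : M)‖ = ‖τ ((d : 𝓞 M) : M)‖ := by
      rw [← norm_mul, ← map_mul]
      exact congrArg (fun z => ‖τ z‖) h
    rw [norm_one_of_notMem, hx, one_mul] at h1
    have h2 : (wt τ).valuation M x * (wt τ).valuation M (n : M) =
        (wt τ).valuation M ((d : 𝓞 M) : M) := by
      rw [← map_mul]
      exact congrArg _ h
    rw [hd, hn n h1, mul_one] at h2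
    exact h2

end norm

lemma weakApproxUnits (S : Finset (HeightOneSpectrum (𝓞 M)))
    (t : HeightOneSpectrum (𝓞 M) → Mˣ) (γ : HeightOneSpectrum (𝓞 M) → WithZero (Multiplicative ℤ))
    (hγ : ∀ w, γ w ≠ 0) : ∃ y : Mˣ, ∀ w ∈ S,
      w.valuation M ((y : M) - t w) ≤ γ w ∧
      w.valuation M ((y : M) - t w) < w.valuation M (t w : M) := by
  rcases S.eq_empty_or_nonempty with hS | hS
  · exact ⟨1, by simp [hS]⟩
  have hn : ∀ w : HeightOneSpectrum (𝓞 M), ∃ n : ℕ, WithZero.exp (-(n : ℤ)) < γ w ∧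
      WithZero.exp (-(n : ℤ)) < w.valuation M (t w : M) := by
    intro w
    have h1 : w.valuation M (t w : M) ≠ 0 := by
      rw [Ne, map_eq_zero]; exact (t w).ne_zero
    exact WithZero.exists_exp_neg_natCast_lt_and_lt (hγ w) h1
  choose n hn using hn
  obtain ⟨y, hy⟩ := weakApprox S (fun w => (t w : M)) (S.sup n)
  have hy2 : ∀ w ∈ S, w.valuation M (y - t w) ≤ WithZero.exp (-(n w : ℤ)) := by
    intro w hw
    refine (hy w hw).trans ?_
    rw [WithZero.exp_le_exp]
    have : n w ≤ S.sup n := Finset.le_sup hw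
    omega
  have hy0 : y ≠ 0 := by
    obtain ⟨w, hw⟩ := hS
    intro h0
    have h1 := (hy2 w hw).trans_lt (hn w).2
    have h2 := val_of_close w h1
    rw [h0, map_zero] at h2
    exact (t w).ne_zero ((map_eq_zero (w.valuation M)).1 h2.symm)
  refine ⟨Units.mk0 y hy0, ?_⟩
  intro w hw
  exact ⟨(hy2 w hw).trans (hn w).1.le, (hy2 w hw).trans_lt (hn w).2⟩

/-- **S_VAL** -/
theorem _root_.Pool.Agent.Helper49.RS.s_val : Pool.Agent.Helper38.RS.S_VAL := by
  intro k _ _ _ K M _ _ _ _ _ δ T a ha h8 S hS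
  classical
  set aM : M := algebraMap K M a with haMdef
  have haM : aM ≠ 0 := by
    rw [haMdef, Ne, map_eq_zero]
    intro h
    exact ha (by exact_mod_cast h)
  -- a is a unit above 2
  have hval : ∀ w : HeightOneSpectrum (𝓞 M), w.valuation M 2 < 1 → w.valuation M aM = 1 := by
    intro w hw
    obtain ⟨c, hc⟩ := h8
    have hcint : IsIntegral ℤ (algebraMap K M (c : K)) :=
      (c.2 : IsIntegral ℤ (c : K)).map (algebraMap K M).toIntAlgHom
    have h1 : aM - 1 = 8 * algebraMap K M (c : K) := by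
      have h2 : ((a : K) - 1) = 8 * (c : K) := by
        have := congrArg (algebraMap (𝓞 K) K) hc
        rw [map_sub, map_mul, map_one, map_ofNat] at this
        exact this
      rw [haMdef]
      have h3 := congrArg (algebraMap K M) h2
      rw [map_sub, map_mul, map_one, map_ofNat] at h3
      exact h3
    apply val_one_of_close w
    rw [h1, map_mul]
    have h4 : w.valuation M (algebraMap K M (c : K)) ≤ 1 :=
      w.valuation_le_one (⟨algebraMap K M (c : K), hcint⟩ : 𝓞 M)
    have h5 : w.valuation M 8 < 1 := by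
      rw [show (8 : M) = 2 ^ 3 by norm_num, map_pow]
      exact pow_lt_one₀ zero_le hw (by norm_num)
    exact mul_lt_one_of_lt_of_le h5 h4
  have hodd2 : ∀ w : HeightOneSpectrum (𝓞 M), ¬ Even (ordv w aM) → w.valuation M 2 = 1 := by
    intro w hw
    by_contra hne
    have h2 : w.valuation M 2 ≤ 1 := by
      have h2a : w.valuation M (algebraMap (𝓞 M) M 2) ≤ 1 := w.valuation_le_one _
      rwa [map_ofNat] at h2a
    have h3 := hval w (lt_of_le_of_ne h2 hne)
    rw [ordv_eq_zero w h3] at hw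
    exact hw (by decide)
  set v : Mˣ → HeightOneSpectrum (𝓞 M) → ZMod 2 := fun x w =>
    if Even (ordv w aM) then (if Even (ordv w (x : M)) then 0 else 1)
    else (if Tame w aM (x : M) then 0 else 1) with hv
  have vadd : ∀ x y w, v (x * y) w = v x w + v y w := by
    intro x y w
    have hx0 : (x : M) ≠ 0 := x.ne_zero
    have hy0 : (y : M) ≠ 0 := y.ne_zero
    by_cases he : Even (ordv w aM)
    · simp only [hv, if_pos he, Units.val_mul, ordv_mul w hx0 hy0, Int.even_add]
      by_cases h1 : Even (ordv w (x : M)) <;> by_cases h2 : Even (ordv w (y : M))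
      · simp [h1, h2]
      · simp [h1, h2]
      · simp [h1, h2]
      · simp only [h1, h2, if_true, if_false]
        decide
    · simp only [hv, if_neg he, Units.val_mul]
      by_cases h1 : Tame w aM (x : M) <;> by_cases h2 : Tame w aM (y : M)
      · have h3 := tame_mul w haM h1 h2
        simp [h1, h2, h3]
      · have h3 : ¬ Tame w aM ((x : M) * y) := fun h => h2 (tame_right w haM hx0 h1 h)
        simp [h1, h2, h3]
      · have h3 : ¬ Tame w aM ((x : M) * y) := fun h =>
          h1 (tame_right w haM hy0 h2 (by rwa [mul_comm]))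
        simp [h1, h2, h3]
      · have h3 := tame_index w haM hx0 hy0 he h1 h2
        simp only [h1, h2, h3, if_true, if_false]
        decide
  have v0 : ∀ x w, (v x w = 0 ↔ if Even (ordv w aM) then Even (ordv w (x : M))
      else Tame w aM (x : M)) := by
    intro x w
    simp only [hv]
    split_ifs <;> simp_all
  have vloc : ∀ (x y : Mˣ) w, w.valuation M ((x : M) - y) < w.valuation M (y : M) →
      v x w = v y w := by
    intro x y w h
    have hy0 : (y : M) ≠ 0 := y.ne_zero
    have hyv : w.valuation M (y : M) ≠ 0 := by rwa [Ne, map_eq_zero]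
    have h1 : w.valuation M (((x / y : Mˣ) : M) - 1) < 1 := by
      have e : ((x / y : Mˣ) : M) - 1 = ((x : M) - y) / y := by
        rw [Units.val_div_eq_div_val]; field_simp
      rw [e, map_div₀, div_lt_iff₀ (zero_lt_iff.2 hyv), one_mul]
      exact h
    have h2 : v (x / y) w = 0 := by
      rw [v0]
      split_ifs
      · rw [ordv_eq_zero w (val_one_of_close w h1)]
        decide
      · exact Or.inl (locSq_of_close w h1)
    have h3 := vadd (x / y) y w
    rw [div_mul_cancel, h2, zero_add] at h3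
    exact h3
  refine ⟨v, fun x y w _ => vadd x y w, fun x w _ => v0 x w, ?_, ?_, ?_⟩
  · -- compatibility
    intro x w hw w' hww'
    have hord : ∀ y : M, ordv w (δ y) = ordv w' y := by
      intro y
      unfold ordv
      rw [hww' y]
    have hδa : δ aM = aM := by rw [haMdef]; exact δ.commutes _
    have horda : ordv w aM = ordv w' aM := by
      rw [← hord, hδa]
    have hloc : ∀ y : M, LocSq w (δ y) ↔ LocSq w' y := by
      intro y
      constructor
      · rintro ⟨z, hz⟩
        refine ⟨δ.symm z, ?_⟩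
        rw [← hww']
        have e : δ (y * (δ.symm z) ^ 2 - 1) = δ y * z ^ 2 - 1 := by
          rw [map_sub, map_mul, map_pow, AlgEquiv.apply_symm_apply, map_one]
        rwa [e]
      · rintro ⟨z, hz⟩
        refine ⟨δ z, ?_⟩
        have e : δ y * (δ z) ^ 2 - 1 = δ (y * z ^ 2 - 1) := by
          rw [map_sub, map_mul, map_pow, map_one]
        rw [e, hww']
        exact hz
    have htame : Tame w aM (δ (x : M)) ↔ Tame w' aM (x : M) := by
      unfold Tame
      rw [hloc, ← hloc (-(aM * (x : M)))]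
      rw [map_neg, map_mul, hδa]
    have hxδ : ((Units.map ((δ : M →+* M) : M →* M) x : Mˣ) : M) = δ (x : M) := rfl
    simp only [hv]
    rw [hxδ, horda, hord]
    simp only [htame]
  · -- prescribed values
    intro c
    have ht : ∀ w : HeightOneSpectrum (𝓞 M), ∃ t : Mˣ, v t w = c w := by
      intro w
      by_cases hc : c w = 0
      · refine ⟨1, ?_⟩
        rw [hc, v0]
        split_ifs
        · rw [Units.val_one, ordv_eq_zero w (map_one _)]; decide
        · exact Or.inl (locSq_one w)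
      · have hc1 : c w = 1 := by
          generalize c w = z at hc
          revert z
          decide
        by_cases he : Even (ordv w aM)
        · obtain ⟨π, hπ⟩ := w.valuation_exists_uniformizer M
          have hπ0 : π ≠ 0 := by
            rintro rfl
            rw [map_zero] at hπ
            exact WithZero.exp_ne_zero hπ.symm
          refine ⟨Units.mk0 π hπ0, ?_⟩
          have h1 : ordv w π = 1 := by
            unfold ordv
            rw [hπ]
            simp
          simp only [hv, if_pos he, Units.val_mk0, h1, hc1]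
          simp
        · obtain ⟨g, hg, hgn⟩ := exists_nonsq w (hodd2 w he)
          have hg0 : g ≠ 0 := by
            rintro rfl
            rw [map_zero] at hg
            exact zero_ne_one hg
          refine ⟨Units.mk0 g hg0, ?_⟩
          have h1 : ¬ Tame w aM g := by
            rintro (h | h)
            · exact hgn h
            · have h2 := locSq_even w h
              have h3 : ordv w (-(aM * g)) = ordv w aM + ordv w g := by
                rw [← ordv_mul w haM hg0]
                unfold ordv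
                rw [Valuation.map_neg]
              rw [h3, ordv_eq_zero w hg, add_zero] at h2
              exact he h2
          simp only [hv, if_neg he, Units.val_mk0, if_neg h1, hc1]
    choose t ht using ht
    obtain ⟨y, hy⟩ := weakApproxUnits hS.fin.toFinset t (fun _ => 1) (fun _ => one_ne_zero)
    refine ⟨y, ?_⟩
    intro w hw
    rw [← ht w]
    exact vloc y (t w) w (hy w (hS.fin.mem_toFinset.2 hw)).2
  · -- approximation
    intro x hx
    set W : Set (HeightOneSpectrum (𝓞 M)) := {w | ∃ τ ∈ (above T : Set (M →+* k)), wt τ = w}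
      with hW
    obtain ⟨y, hy⟩ := weakApproxUnits hS.fin.toFinset (fun w => if w ∈ W then x else 1)
      (fun w => w.valuation M 8) (fun w => by rw [Ne, map_eq_zero]; norm_num)
    refine ⟨y, ?_, ?_⟩
    · intro w hw
      have h1 := (hy w (hS.fin.mem_toFinset.2 hw)).2
      rw [vloc y _ w h1]
      by_cases hwW : w ∈ W
      · rw [if_pos hwW]
        obtain ⟨τ, hτ, rfl⟩ := hwW
        rw [v0]
        rw [if_pos]
        · rw [ordv_eq_zero _ (val_of_norm τ (hx τ hτ))]; decide
        · rw [ordv_eq_zero _ (hval _ (wt_two τ))]; decide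
      · rw [if_neg hwW, v0]
        split_ifs
        · rw [Units.val_one, ordv_eq_zero w (map_one _)]; decide
        · exact Or.inl (locSq_one w)
    · intro τ hτ
      have hwS : wt τ ∈ S := hS.two _ (wt_two τ)
      have h1 := (hy (wt τ) (hS.fin.mem_toFinset.2 hwS)).1
      have hwW : wt τ ∈ W := ⟨τ, hτ, rfl⟩
      rw [if_pos hwW] at h1
      have h2 := norm_small_of_val τ h1
      have h3 : τ ((y / x : Mˣ) : M) - 1 = τ ((y : M) - x) / τ (x : M) := by
        have hx0 : τ (x : M) ≠ 0 := by rw [Ne, map_eq_zero]; exact x.ne_zero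
        rw [Units.val_div_eq_div_val, map_div₀, map_sub]
        field_simp
      rw [h3, norm_div, hx τ hτ, div_one]
      exact h2

end Pool.Agent.Helper49.RSV
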