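import Pool.Agent.Helper49.RS.Param

set_option autoImplicit false
open MeasureTheory Filter Topology

namespace Pool.Agent.Helper49.RS

set_option linter.unusedSectionVars false

/-- Size information valid for all large `M`. -/
structure BaseAt (a b ε τ : ℝ) (M : ℕ) : Prop where
  M3 : 3 ≤ M
  f1 : 12 * (M : ℝ) ^ (2 * ε) ≤ (M : ℝ) ^ (3 * ε)
  f2 : 8 * Real.log M ≤ (M : ℝ) ^ (3 * ε)
  f3 : 2 * (M : ℝ) ^ (1 - a) ≤ (M : ℝ) ^ (1 - a + ε)
  f4 : 4 * (M : ℝ) ^ τ ≤ (M : ℝ) ^ (3 : ℝ)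
  f5 : 16 * (M : ℝ) ^ (1 - a) ≤ (M : ℝ) ^ (1 - a + 2 * ε)
  f6 : 224 * Real.log M ≤ (M : ℝ) ^ (1 - a + 2 * ε)
  f7 : 16 * (M : ℝ) ^ (3 * ε) ≤ (M : ℝ) ^ (4 * ε)
  f8 : (24 * 32) * Real.log M ≤ (M : ℝ) ^ (4 * ε)
  f9 : 32 / (1 - 2 * b) * (M : ℝ) ^ ((1 - 2 * b) * τ) ≤ (M : ℝ) ^ ((1 - 2 * b) * τ + ε)
  f10 : 72 * Real.log M ≤ (M : ℝ) ^ ((1 - 2 * b) * τ + ε)
  f11 : 48 * (M : ℝ) ^ (1 - 2 * a + ε) ≤ (M : ℝ) ^ (1 - 2 * a + 2 * ε)
  f12 : 16 / (1 - 2 * a) * (M : ℝ) ^ (1 - 2 * a) ≤ (M : ℝ) ^ (1 - 2 * a + 2 * ε)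
  f13 : 48 * Real.log M ≤ (M : ℝ) ^ (1 - 2 * a + 2 * ε)
  f14 : 4 * Real.log M ≤ (M : ℝ) ^ (1 - a)

variable {a b ε τ : ℝ}

lemma base_ev (e : Exps a b ε τ) : ∀ᶠ M : ℕ in atTop, BaseAt a b ε τ M := by
  have hε := e.ε0
  have ha1 := e.a1
  have hb1 := e.b1
  have hτ := e.τ0
  have hτ3 := e.τ3
  have hbt : 0 < (1 - 2 * b) * τ := mul_pos (by linarith) hτ
  filter_upwards [eventually_ge_atTop 3, ev_pow 12 (2 * ε) (3 * ε) (by linarith),
    ev_log 8 (3 * ε) (by norm_num) (by linarith), ev_pow 2 (1 - a) (1 - a + ε) (by linarith),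
    ev_pow 4 τ 3 (by linarith), ev_pow 16 (1 - a) (1 - a + 2 * ε) (by linarith),
    ev_log 224 (1 - a + 2 * ε) (by norm_num) (by linarith),
    ev_pow 16 (3 * ε) (4 * ε) (by linarith),
    ev_log (24 * 32) (4 * ε) (by norm_num) (by linarith),
    ev_pow (32 / (1 - 2 * b)) ((1 - 2 * b) * τ) ((1 - 2 * b) * τ + ε) (by linarith),
    ev_log 72 ((1 - 2 * b) * τ + ε) (by norm_num) (by linarith),
    ev_pow 48 (1 - 2 * a + ε) (1 - 2 * a + 2 * ε) (by linarith),
    ev_pow (16 / (1 - 2 * a)) (1 - 2 * a) (1 - 2 * a + 2 * ε) (by linarith),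
    ev_log 48 (1 - 2 * a + 2 * ε) (by norm_num) (by linarith),
    ev_log 4 (1 - a) (by norm_num) (by linarith)] with M h1 h2 h3 h4 h5 h6 h7 h8 h9 h10 h11 h12 h13 h14 h15
  exact ⟨h1, h2, h3, h4, h5, h6, h7, h8, h9, h10, h11, h12, h13, h14, h15⟩

lemma good_sum_up {p : ℕ → Prop} [DecidablePred p] {c : ℝ} {L : ℕ} (hg : GoodAt (ind p) (prb c) L)
    (hc0 : 0 ≤ c) (hc1 : c < 1) (j : ℕ) (hj : j ≤ L) :
    (Nat.count p j : ℝ) ≤ 2 * ((j : ℝ) ^ (1 - c) / (1 - c)) + 4 * Real.log L := by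
  have h1 := hg.up 0 j (Nat.zero_le _) hj
  rw [← Finset.range_eq_Ico, sum_ind_range] at h1
  have h2 := sum_rpow_le c hc0 hc1 j
  unfold prb at h1
  linarith

section Fix
variable {M : ℕ} (e : Exps a b ε τ) (hb : BaseAt a b ε τ M)
include e hb

lemma M1 : (1:ℝ) ≤ M := by exact_mod_cast (by have := hb.M3; omega : 1 ≤ M)

lemma Mpos : (0:ℝ) < M := lt_of_lt_of_le one_pos (M1 e hb)

lemma log_nn : 0 ≤ Real.log M := Real.log_nonneg (M1 e hb)

lemma H_le : (pH a ε M : ℝ) ≤ 2 * (M : ℝ) ^ (a + ε) := by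
  apply ceil_le_two
  exact Real.one_le_rpow (M1 e hb) (by have := e.a0; have := e.ε0; linarith)

lemma HPb : (pH a ε M : ℝ) * pPb a ε M ≤ 2 * (M : ℝ) ^ (2 * ε) := by
  have h1 := H_le e hb
  have h2 : (0:ℝ) ≤ pPb a ε M := by unfold pPb; positivity
  calc _ ≤ 2 * (M : ℝ) ^ (a + ε) * pPb a ε M := by gcongr
    _ = 2 * (M : ℝ) ^ (2 * ε) := by
        unfold pPb
        rw [mul_assoc, ← Real.rpow_add (Mpos e hb)]; congr 2; ring

lemma B_le : (pB τ M : ℝ) ≤ 2 * (M : ℝ) ^ τ := by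
  apply ceil_le_two
  exact Real.one_le_rpow (M1 e hb) e.τ0.le

lemma D_le' : (pD b ε τ M : ℝ) ≤ 2 * (M : ℝ) ^ (b * τ + 4 * ε) := by
  apply ceil_le_two
  exact Real.one_le_rpow (M1 e hb) (by
    have := e.τ0; have := e.ε0; have := mul_pos e.b0 e.τ0; linarith)

lemma D_le : (pD b ε τ M : ℝ) ≤ 2 * (M : ℝ) ^ τ := by
  refine (D_le' e hb).trans ?_
  have := Real.rpow_le_rpow_of_exponent_le (M1 e hb) e.bτ
  linarith

lemma L_le : ((pB τ M + pD b ε τ M : ℕ) : ℝ) ≤ 4 * (M : ℝ) ^ τ := by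
  have h1 := B_le e hb
  have h2 := D_le e hb
  push_cast; linarith

lemma L_log : Real.log ((pB τ M + pD b ε τ M : ℕ) : ℝ) ≤ 3 * Real.log M := by
  have h1 := L_le e hb
  have h2 := hb.f4
  have h3 : (1:ℝ) ≤ pB τ M := by
    have : 0 < pB τ M := Nat.ceil_pos.mpr (Real.rpow_pos_of_pos (Mpos e hb) _)
    exact_mod_cast this
  have h4 : (0:ℝ) < ((pB τ M + pD b ε τ M : ℕ) : ℝ) := by
    push_cast
    have : (0:ℝ) ≤ (pD b ε τ M : ℝ) := Nat.cast_nonneg _
    linarith
  calc _ ≤ Real.log ((M : ℝ) ^ (3 : ℝ)) := Real.log_le_log h4 (h1.trans h2)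
    _ = 3 * Real.log M := Real.log_rpow (Mpos e hb) 3

lemma sumPi_le : ∑ n ∈ Finset.range M, prb a n ≤ 2 * (M : ℝ) ^ (1 - a) := by
  have h1 := sum_rpow_le a e.a0.le (by have := e.a1; linarith) M
  unfold prb
  refine h1.trans ?_
  rw [div_le_iff₀ (by have := e.a1; linarith)]
  have : 0 ≤ (M : ℝ) ^ (1 - a) := by positivity
  have := e.a1
  nlinarith

lemma cntX_le {pX : ℕ → Prop} [DecidablePred pX] (hg : GoodAt (ind pX) (prb a) M) (j : ℕ)
    (hj : j ≤ M) : (Nat.count pX j : ℝ) ≤ 5 * (M : ℝ) ^ (1 - a) := by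
  have h1 := hg.up 0 M (Nat.zero_le _) le_rfl
  rw [← Finset.range_eq_Ico, sum_ind_range] at h1
  have h2 := sumPi_le e hb
  have h3 := hb.f14
  have h4 : (Nat.count pX j : ℝ) ≤ Nat.count pX M := by exact_mod_cast Nat.count_monotone pX hj
  linarith

lemma win_sum {pX : ℕ → Prop} [DecidablePred pX] (hg : GoodAt (ind pX) (prb a) M)
    (i j : ℕ) (hi : pM0 ε M ≤ i) (hij : i ≤ j) (hj : j ≤ M) (hjH : j ≤ i + pH a ε M) :
    ∑ n ∈ Finset.Ico i j, (ind pX n + prb a n) ≤ pW ε M := by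
  have h1 := hg.up i j hij hj
  have h2 : ∑ n ∈ Finset.Ico i j, prb a n ≤ pH a ε M * pPb a ε M := by
    calc _ ≤ ∑ n ∈ Finset.Ico i j, pPb a ε M := by
          refine Finset.sum_le_sum fun n hn => ?_
          unfold prb pPb
          have h3 : (M : ℝ) ^ (1 - ε) ≤ (n : ℝ) + 1 := by
            have h4 : (M : ℝ) ^ (1 - ε) ≤ pM0 ε M := Nat.le_ceil _
            have h5 : (pM0 ε M : ℝ) ≤ n := by
              exact_mod_cast hi.trans (Finset.mem_Ico.mp hn).1
            linarith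
          calc ((n : ℝ) + 1) ^ (-a) ≤ ((M : ℝ) ^ (1 - ε)) ^ (-a) :=
                Real.rpow_le_rpow_of_nonpos (Real.rpow_pos_of_pos (Mpos e hb) _) h3
                  (by have := e.a0; linarith)
            _ = (M : ℝ) ^ ((1 - ε) * (-a)) := by rw [← Real.rpow_mul (Mpos e hb).le]
            _ ≤ (M : ℝ) ^ (-a + ε) := by
                apply Real.rpow_le_rpow_of_exponent_le (M1 e hb)
                have := e.a0; have := e.a1; have := e.ε0
                nlinarith
      _ = ((j - i : ℕ) : ℝ) * pPb a ε M := by rw [Finset.sum_const, Nat.card_Ico, nsmul_eq_mul]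
      _ ≤ _ := by
          have h5 : ((j - i : ℕ) : ℝ) ≤ pH a ε M := by exact_mod_cast (by omega : j - i ≤ pH a ε M)
          have : (0:ℝ) ≤ pPb a ε M := by unfold pPb; positivity
          gcongr
  have h3 := HPb e hb
  rw [Finset.sum_add_distrib]
  have h4 := hb.f1
  have h5 := hb.f2
  unfold pW
  have h6 := log_nn e hb
  linarith

lemma πPb_le (n : ℕ) (hn : pM0 ε M ≤ n) : prb a n ≤ pPb a ε M := by
  unfold prb pPb
  have h3 : (M : ℝ) ^ (1 - ε) ≤ (n : ℝ) + 1 := by
    have h4 : (M : ℝ) ^ (1 - ε) ≤ pM0 ε M := Nat.le_ceil _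
    have h5 : (pM0 ε M : ℝ) ≤ n := by exact_mod_cast hn
    linarith
  calc ((n : ℝ) + 1) ^ (-a) ≤ ((M : ℝ) ^ (1 - ε)) ^ (-a) :=
        Real.rpow_le_rpow_of_nonpos (Real.rpow_pos_of_pos (Mpos e hb) _) h3
          (by have := e.a0; linarith)
    _ = (M : ℝ) ^ ((1 - ε) * (-a)) := by rw [← Real.rpow_mul (Mpos e hb).le]
    _ ≤ (M : ℝ) ^ (-a + ε) := by
        apply Real.rpow_le_rpow_of_exponent_le (M1 e hb)
        have := e.a0; have := e.a1; have := e.ε0
        nlinarith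

lemma bB_ev {pX pY : ℕ → Prop} [DecidablePred pX] [DecidablePred pY]
    (hg : GoodAt (ind pX) (prb a) M)
    (hg2 : GoodAt (ind pY) (prb b) (pB τ M + pD b ε τ M)) (n : ℕ) (hn : n < M) :
    bt pX pY n < pB τ M := by
  unfold bt
  apply Nat.nth_lt_of_lt_count
  have h1 := cntX_le e hb hg n hn.le
  have h2 := hg2.lo 0 (pB τ M) (Nat.zero_le _) (Nat.le_add_right _ _)
  rw [← Finset.range_eq_Ico, sum_ind_range] at h2
  have h3 := L_log e hb
  have hB0 : (0:ℝ) < pB τ M := by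
    have : 0 < pB τ M := Nat.ceil_pos.mpr (Real.rpow_pos_of_pos (Mpos e hb) _)
    exact_mod_cast this
  have h4 := sum_prb_lower b e.b0.le 0 (pB τ M) (pB τ M) (Nat.zero_le _) le_rfl
  rw [← Finset.range_eq_Ico] at h4
  have h5 : (M : ℝ) ^ (1 - a + 2 * ε) ≤ ((pB τ M : ℝ) - (0 : ℕ)) * (pB τ M : ℝ) ^ (-b) := by
    have e1 : ((pB τ M : ℝ) - (0 : ℕ)) * (pB τ M : ℝ) ^ (-b) = (pB τ M : ℝ) ^ (1 - b) := by
      rw [show (1 - b) = 1 + (-b) by ring, Real.rpow_add hB0, Real.rpow_one]; simp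
    rw [e1, ← e.hτ, Real.rpow_mul (Mpos e hb).le]
    apply Real.rpow_le_rpow (by positivity) (Nat.le_ceil _) (by have := e.b1; linarith)
  have h6 := hb.f5
  have h7 := hb.f6
  have h8 := log_nn e hb
  have h9 : 0 < (M : ℝ) ^ (1 - a) := Real.rpow_pos_of_pos (Mpos e hb) _
  have h10 : (Nat.count pX n : ℝ) < Nat.count pY (pB τ M) := by
    have h11 := hb.f14
    linarith
  exact_mod_cast h10

lemma cntY_ev {pY : ℕ → Prop} [DecidablePred pY]
    (hg2 : GoodAt (ind pY) (prb b) (pB τ M + pD b ε τ M)) (k : ℕ) (hk : k < pB τ M) :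
    Nat.count pY k + ⌊pW ε M⌋₊ < Nat.count pY (k + pD b ε τ M) := by
  have h2 := hg2.lo k (k + pD b ε τ M) (Nat.le_add_right _ _) (by omega)
  rw [sum_ind pY k _ (Nat.le_add_right _ _)] at h2
  have h3 := L_log e hb
  have h4 := sum_prb_lower b e.b0.le k (k + pD b ε τ M) (4 * (M : ℝ) ^ τ) (Nat.le_add_right _ _)
    (by
      refine le_trans ?_ (L_le e hb)
      exact_mod_cast (by omega : k + pD b ε τ M ≤ pB τ M + pD b ε τ M))
  have h5 : (1 / 4) * (M : ℝ) ^ (4 * ε)
      ≤ (((k + pD b ε τ M : ℕ) : ℝ) - k) * (4 * (M : ℝ) ^ τ) ^ (-b) := by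
    have e1 : (((k + pD b ε τ M : ℕ) : ℝ) - k) = pD b ε τ M := by push_cast; ring
    have e2 : (M : ℝ) ^ (b * τ + 4 * ε) ≤ pD b ε τ M := Nat.le_ceil _
    have e3 : (4 * (M : ℝ) ^ τ) ^ (-b) = (4:ℝ) ^ (-b) * (M : ℝ) ^ (τ * (-b)) := by
      rw [Real.mul_rpow (by norm_num) (by positivity), Real.rpow_mul (Mpos e hb).le]
    have e4 : (1 / 4 : ℝ) ≤ (4:ℝ) ^ (-b) := by
      calc (1 / 4 : ℝ) = (4:ℝ) ^ (-1 : ℝ) := by rw [Real.rpow_neg_one]; norm_num
        _ ≤ _ := Real.rpow_le_rpow_of_exponent_le (by norm_num) (by have := e.b1; linarith)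
    rw [e1, e3]
    calc (1 / 4) * (M : ℝ) ^ (4 * ε) = (M : ℝ) ^ (b * τ + 4 * ε) * ((1 / 4) * (M : ℝ) ^ (τ * (-b))) := by
          rw [mul_left_comm, ← Real.rpow_add (Mpos e hb)]; congr 2; ring
      _ ≤ _ := by gcongr
  have h6 := hb.f7
  have h7 := hb.f8
  have h8 := log_nn e hb
  have h9 : 0 < (M : ℝ) ^ (4 * ε) := Real.rpow_pos_of_pos (Mpos e hb) _
  have h10 : (⌊pW ε M⌋₊ : ℝ) ≤ (M : ℝ) ^ (3 * ε) := Nat.floor_le (by unfold pW; positivity)
  have h11 : (Nat.count pY k : ℝ) + ⌊pW ε M⌋₊ < Nat.count pY (k + pD b ε τ M) := by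
    linarith
  exact_mod_cast h11

lemma pairs_ev {pY : ℕ → Prop} [DecidablePred pY]
    (hg2 : GoodAt (ind pY) (prb b) (pB τ M + pD b ε τ M)) (l : ℕ)
    (hl : l ∈ Finset.Ico 1 (pD b ε τ M)) :
    (((Finset.range (pB τ M)).filter (fun m => pY m ∧ pY (m + l))).card : ℝ) ≤ pCN b ε τ M := by
  have hl' := Finset.mem_Ico.mp hl
  set L := pB τ M + pD b ε τ M with hL
  have h2 := hg2.pair l hl'.1 (by omega)
  have h3 := L_log e hb
  rw [← hL] at h3
  have hb2 : 0 < 1 - 2 * b := by have := e.b1; linarith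
  have h4 : ∑ p ∈ Finset.range L, (prb b p) ^ 2 ≤ 4 * (M : ℝ) ^ ((1 - 2 * b) * τ) / (1 - 2 * b) := by
    calc ∑ p ∈ Finset.range L, (prb b p) ^ 2 = ∑ p ∈ Finset.range L, prb (2 * b) p :=
          Finset.sum_congr rfl fun p _ => prb_sq b p
      _ ≤ (L : ℝ) ^ (1 - 2 * b) / (1 - 2 * b) :=
          sum_rpow_le (2 * b) (by have := e.b0; linarith) (by linarith) L
      _ ≤ _ := by
          gcongr
          calc (L : ℝ) ^ (1 - 2 * b) ≤ (4 * (M : ℝ) ^ τ) ^ (1 - 2 * b) :=
                Real.rpow_le_rpow (Nat.cast_nonneg _) (L_le e hb) hb2.le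
            _ = 4 ^ (1 - 2 * b) * (M : ℝ) ^ ((1 - 2 * b) * τ) := by
                rw [Real.mul_rpow (by norm_num) (by positivity), ← Real.rpow_mul (Mpos e hb).le,
                  mul_comm τ]
            _ ≤ 4 * (M : ℝ) ^ ((1 - 2 * b) * τ) := by
                have : (4:ℝ) ^ (1 - 2 * b) ≤ 4 ^ (1:ℝ) :=
                  Real.rpow_le_rpow_of_exponent_le (by norm_num) (by have := e.b0; linarith)
                rw [Real.rpow_one] at this
                gcongr
  have h5 : (((Finset.range (pB τ M)).filter (fun m => pY m ∧ pY (m + l))).card : ℝ)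
      ≤ ∑ p ∈ Finset.Ico l L, ind pY (p - l) * ind pY p := by
    rw [Finset.sum_Ico_eq_sum_range]
    rw [Finset.card_filter]
    push_cast
    calc _ ≤ ∑ k ∈ Finset.range (L - l), (if pY k ∧ pY (k + l) then (1:ℝ) else 0) := by
          refine Finset.sum_le_sum_of_subset_of_nonneg ?_ fun k _ _ => ?_
          · intro k hk; rw [Finset.mem_range] at hk ⊢; omega
          · split_ifs <;> norm_num
      _ = _ := by
          refine Finset.sum_congr rfl fun k _ => ?_
          rw [Nat.add_sub_cancel_left, add_comm l k]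
          unfold ind
          split_ifs <;> simp_all
  refine h5.trans (h2.trans ?_)
  unfold pCN
  have h6 := hb.f9
  have h7 := hb.f10
  have h8 : 4 * (4 * (M : ℝ) ^ ((1 - 2 * b) * τ) / (1 - 2 * b))
      = (1 / 2) * (32 / (1 - 2 * b) * (M : ℝ) ^ ((1 - 2 * b) * τ)) := by ring
  linarith

lemma cx_ev {pX : ℕ → Prop} [DecidablePred pX] (hg : GoodAt (ind pX) (prb a) M)
    (r : ℕ) (hr : r ∈ Finset.Ico 1 (pH a ε M)) :
    ∑ n ∈ Finset.range M, |xw pX (prb a) (pM0 ε M) M n * xw pX (prb a) (pM0 ε M) M (n + r)|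
      ≤ pCX a ε M := by
  have hr' := Finset.mem_Ico.mp hr
  have hind0 : ∀ n, 0 ≤ ind pX n := by intro n; unfold ind; split_ifs <;> norm_num
  have hind1 : ∀ n, ind pX n ≤ 1 := by intro n; unfold ind; split_ifs <;> norm_num
  have hp0 := prb_nonneg a
  by_cases hrM : M < r
  · rw [Finset.sum_eq_zero]
    · unfold pCX; positivity
    · intro n _
      rw [xw_zero pX (prb a) (pM0 ε M) M (n + r) (Or.inr (by omega))]; simp
  rw [not_lt] at hrM
  have ha2 : 0 < 1 - 2 * a := by have := e.a1; linarith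
  have hterm : ∀ n ∈ Finset.range M,
      |xw pX (prb a) (pM0 ε M) M n * xw pX (prb a) (pM0 ε M) M (n + r)|
        ≤ (if n + r < M then ind pX n * ind pX (n + r) else 0)
          + pPb a ε M * ((if n + r < M then ind pX n + ind pX (n + r) else 0) + prb a n) := by
    intro n hn
    have hPb : (0:ℝ) ≤ pPb a ε M := by unfold pPb; positivity
    by_cases hc : pM0 ε M ≤ n ∧ n + r < M
    · have h1 := πPb_le e hb n hc.1
      have h2 := πPb_le e hb (n + r) (by omega)
      have x1 : xw pX (prb a) (pM0 ε M) M n = ind pX n - prb a n := by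
        unfold xw; rw [if_pos ⟨hc.1, by omega⟩]
      have x2 : xw pX (prb a) (pM0 ε M) M (n + r) = ind pX (n + r) - prb a (n + r) := by
        unfold xw; rw [if_pos ⟨by omega, hc.2⟩]
      rw [x1, x2, if_pos hc.2, if_pos hc.2, abs_mul]
      have y1 : |ind pX n - prb a n| ≤ ind pX n + prb a n := by
        rw [abs_le]; constructor <;> linarith [hind0 n, hp0 n]
      have y2 : |ind pX (n + r) - prb a (n + r)| ≤ ind pX (n + r) + prb a (n + r) := by
        rw [abs_le]; constructor <;> linarith [hind0 (n + r), hp0 (n + r)]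
      calc _ ≤ (ind pX n + prb a n) * (ind pX (n + r) + prb a (n + r)) := by
            have := hind0 n; have := hp0 n; gcongr
        _ = ind pX n * ind pX (n + r) + (ind pX n * prb a (n + r) + prb a n * ind pX (n + r)
              + prb a n * prb a (n + r)) := by ring
        _ ≤ ind pX n * ind pX (n + r) + (ind pX n * pPb a ε M + pPb a ε M * ind pX (n + r)
              + prb a n * pPb a ε M) := by
            have := hind0 n; have := hp0 n; have := hind0 (n + r)
            gcongr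
        _ = _ := by ring
    · have : xw pX (prb a) (pM0 ε M) M n * xw pX (prb a) (pM0 ε M) M (n + r) = 0 := by
        rw [not_and_or] at hc
        rcases hc with hc | hc
        · rw [xw_zero pX (prb a) (pM0 ε M) M n (Or.inl (by omega))]; ring
        · rw [xw_zero pX (prb a) (pM0 ε M) M (n + r) (Or.inr (by omega))]; ring
      rw [this, abs_zero]
      have h1 := hind0 n; have h2 := hind0 (n + r); have h3 := hp0 n
      split_ifs <;> positivity
  refine (Finset.sum_le_sum hterm).trans ?_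
  rw [Finset.sum_add_distrib, ← Finset.mul_sum, Finset.sum_add_distrib]
  have hA : ∑ n ∈ Finset.range M, (if n + r < M then ind pX n * ind pX (n + r) else 0)
      ≤ 4 * ((M : ℝ) ^ (1 - 2 * a) / (1 - 2 * a)) + 12 * Real.log M := by
    have h1 := hg.pair r hr'.1 hrM
    have h2 : ∑ n ∈ Finset.range M, (if n + r < M then ind pX n * ind pX (n + r) else 0)
        = ∑ p ∈ Finset.Ico r M, ind pX (p - r) * ind pX p := by
      rw [Finset.sum_Ico_eq_sum_range, ← Finset.sum_filter]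
      have : (Finset.range M).filter (fun n => n + r < M) = Finset.range (M - r) := by
        ext n; simp only [Finset.mem_filter, Finset.mem_range]; omega
      rw [this]
      refine Finset.sum_congr rfl fun n _ => ?_
      rw [Nat.add_sub_cancel_left, add_comm]
    have h3 : ∑ p ∈ Finset.range M, (prb a p) ^ 2 ≤ (M : ℝ) ^ (1 - 2 * a) / (1 - 2 * a) := by
      rw [Finset.sum_congr rfl fun p _ => prb_sq a p]
      exact sum_rpow_le (2 * a) (by have := e.a0; linarith) (by linarith) M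
    rw [h2]
    linarith
  have hcntM := cntX_le e hb hg M le_rfl
  have hB1 : ∑ n ∈ Finset.range M, (if n + r < M then ind pX n + ind pX (n + r) else 0)
      ≤ 10 * (M : ℝ) ^ (1 - a) := by
    have h1 : ∑ n ∈ Finset.range M, (if n + r < M then ind pX n + ind pX (n + r) else 0)
        ≤ ∑ n ∈ Finset.range M, ind pX n + ∑ n ∈ Finset.range M, ind pX n := by
      have h2 : ∑ n ∈ Finset.range M, (if n + r < M then ind pX (n + r) else 0)
          ≤ ∑ n ∈ Finset.range M, ind pX n := by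
        rw [← Finset.sum_filter]
        have : ∑ n ∈ (Finset.range M).filter (fun n => n + r < M), ind pX (n + r)
            = ∑ k ∈ ((Finset.range M).filter (fun n => n + r < M)).image (fun n => n + r), ind pX k := by
          rw [Finset.sum_image]
          intro x _ y _ hxy
          simp only at hxy; omega
        rw [this]
        refine Finset.sum_le_sum_of_subset_of_nonneg ?_ fun k _ _ => hind0 k
        intro k hk
        obtain ⟨n, hn, rfl⟩ := Finset.mem_image.mp hk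
        rw [Finset.mem_range]; exact (Finset.mem_filter.mp hn).2
      calc _ ≤ ∑ n ∈ Finset.range M, (ind pX n + (if n + r < M then ind pX (n + r) else 0)) := by
            refine Finset.sum_le_sum fun n _ => ?_
            have := hind0 n
            split_ifs
            · exact le_rfl
            · linarith
        _ ≤ _ := by rw [Finset.sum_add_distrib]; linarith
    rw [sum_ind_range] at h1
    linarith
  have hC1 := sumPi_le e hb
  have hPb : (0:ℝ) ≤ pPb a ε M := by unfold pPb; positivity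
  have hD1 : pPb a ε M * (∑ n ∈ Finset.range M, (if n + r < M then ind pX n + ind pX (n + r) else 0)
      + ∑ n ∈ Finset.range M, prb a n) ≤ 12 * (M : ℝ) ^ (1 - 2 * a + ε) := by
    calc _ ≤ pPb a ε M * (10 * (M : ℝ) ^ (1 - a) + 2 * (M : ℝ) ^ (1 - a)) := by gcongr
      _ = 12 * ((M : ℝ) ^ (-a + ε) * (M : ℝ) ^ (1 - a)) := by unfold pPb; ring
      _ = _ := by rw [← Real.rpow_add (Mpos e hb)]; congr 2; ring
  unfold pCX
  have h6 := hb.f11
  have h7 := hb.f12
  have h8 := hb.f13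
  have h9 : 4 * ((M : ℝ) ^ (1 - 2 * a) / (1 - 2 * a))
      = (1 / 4) * (16 / (1 - 2 * a) * (M : ℝ) ^ (1 - 2 * a)) := by ring
  have h10 : 0 ≤ (M : ℝ) ^ (1 - 2 * a + 2 * ε) := by positivity
  linarith

end Fix

theorem scale_ev (e : Exps a b ε τ) {pX pY : ℕ → Prop} [DecidablePred pX] [DecidablePred pY]
    (hgX : ∀ᶠ L : ℕ in atTop, GoodAt (ind pX) (prb a) L)
    (hgY : ∀ᶠ L : ℕ in atTop, GoodAt (ind pY) (prb b) L)
    (hprob : ∀ᶠ M : ℕ in atTop, ProbAt pX (prb a) (bt pX pY) M (pB τ M) (pH a ε M) (pD b ε τ M)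
      (pM0 ε M) (pκ M) (lamf (pPb a ε M) (pPi a ε M) (pW ε M) (pκ M)
        (pPb a ε M * pW ε M * (pW ε M * pCN b ε τ M)))) :
    ∀ᶠ M : ℕ in atTop, BaseAt a b ε τ M ∧ GoodAt (ind pX) (prb a) M ∧
      ScaleData pX pY (prb a) M (pB τ M) (pH a ε M) (pD b ε τ M)
      (pM0 ε M) ⌊pW ε M⌋₊ (pW ε M) (pPb a ε M) (pCX a ε M) (pCN b ε τ M) (pκ M) (pPi a ε M) := by
  have hLt : Tendsto (fun M : ℕ => pB τ M + pD b ε τ M) atTop atTop := by
    refine tendsto_atTop_mono (fun M => Nat.le_add_right _ _) ?_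
    unfold pB
    exact tendsto_nat_ceil_atTop.comp (tends_nat_rpow τ e.τ0)
  filter_upwards [base_ev e, hgX, hLt.eventually hgY, hprob] with M hb hg hg2 hp
  have hM1 := M1 e hb
  have hM0 := Mpos e hb
  refine ⟨hb, hg, ?_⟩
  refine
    { M_pos := by have := hb.M3; omega
      B_pos := Nat.ceil_pos.mpr (Real.rpow_pos_of_pos hM0 _)
      H_pos := Nat.ceil_pos.mpr (Real.rpow_pos_of_pos hM0 _)
      HM0 := ?_
      π0 := prb_nonneg a
      π1 := prb_le_one a e.a0.le
      Pb_pos := Real.rpow_pos_of_pos hM0 _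
      πPb := πPb_le e hb
      W_pos := Real.rpow_pos_of_pos hM0 _
      CX0 := by unfold pCX; positivity
      CN_pos := Real.rpow_pos_of_pos hM0 _
      κ_pos := ?_
      Pi1 := Real.one_le_rpow hM1 (by have := e.a1; have := e.ε0; linarith)
      sumPi := ?_
      bB := bB_ev e hb hg hg2
      win := ?_
      cx := cx_ev e hb hg
      pairs := pairs_ev e hb hg2
      cntX := ?_
      cntY := cntY_ev e hb hg2
      prob := hp }
  · apply Nat.ceil_le_ceil
    apply Real.rpow_le_rpow_of_exponent_le hM1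
    have := e.c2; have := e.ε0; have := e.a1; linarith
  · unfold pκ
    have : 0 < Real.log M := Real.log_pos (by
      have : (3:ℝ) ≤ M := by exact_mod_cast hb.M3
      linarith)
    linarith
  · have h1 := sumPi_le e hb
    have h2 := hb.f3
    unfold pPi; linarith
  · intro i
    set i' := max i (pM0 ε M) with hi'
    set j' := min (i + pH a ε M) M with hj'
    have e1 : ∑ n ∈ Finset.Ico i (i + pH a ε M), |xw pX (prb a) (pM0 ε M) M n|
        ≤ ∑ n ∈ Finset.Ico i' j', (ind pX n + prb a n) := by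
      rw [← Finset.sum_subset (s₁ := Finset.Ico i' j')]
      · refine Finset.sum_le_sum fun n hn => ?_
        have h0 : 0 ≤ ind pX n := by unfold ind; split_ifs <;> norm_num
        have h1 := prb_nonneg a n
        unfold xw
        split_ifs
        · rw [abs_le]; constructor <;> linarith
        · rw [abs_zero]; linarith
      · intro n hn
        rw [Finset.mem_Ico] at hn ⊢
        omega
      · intro n hn hn2
        rw [Finset.mem_Ico] at hn hn2
        rw [xw_zero pX (prb a) (pM0 ε M) M n (by omega), abs_zero]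
    refine e1.trans ?_
    by_cases hc : i' ≤ j'
    · exact win_sum e hb hg i' j' (le_max_right _ _) hc (min_le_right _ _) (by omega)
    · rw [Finset.Ico_eq_empty (by omega), Finset.sum_empty]
      unfold pW; positivity
  · intro i j hi hij hj hjH
    have h1 := win_sum e hb hg i j hi hij hj hjH
    rw [Finset.sum_add_distrib, sum_ind pX i j hij] at h1
    have h2 : 0 ≤ ∑ n ∈ Finset.Ico i j, prb a n := Finset.sum_nonneg fun n _ => prb_nonneg a n
    have h3 : Nat.count pX i ≤ Nat.count pX j := Nat.count_monotone pX hij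
    have h4 : ((Nat.count pX j - Nat.count pX i : ℕ) : ℝ) ≤ pW ε M := by
      rw [Nat.cast_sub h3]; linarith
    have h5 : Nat.count pX j - Nat.count pX i ≤ ⌊pW ε M⌋₊ := Nat.le_floor h4
    omega

end Pool.Agent.Helper49.RS
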