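import Pool.Agent.Helper49.RS.Erg

set_option autoImplicit false
open MeasureTheory ProbabilityTheory Filter Topology

namespace Pool.Agent.Helper49.RS

set_option linter.unusedSectionVars false

variable {pX pY : ℕ → Prop} [DecidablePred pX] [DecidablePred pY]

section
variable {α : Type} [MeasurableSpace α] {μ : Measure α} [IsProbabilityMeasure μ] {T S : α → α}

/-- Functions with zero ergodic averages give zero double averages. -/
theorem prod_zero (hT : MeasurePreserving T μ μ) (hS : MeasurePreserving S μ μ)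
    (hTS : ∀ z, T (S z) = S (T z)) (hX : (Set.ofPred pX).Infinite)
    {π : ℕ → ℝ} {c : ℝ} (hc : 0 < c)
    (hπ : Antitone π) (h0 : ∀ n, 0 ≤ π n) (hπ0 : Tendsto π atTop (𝓝 0))
    (hPt : Tendsto (fun M => ∑ n ∈ Finset.range M, π n) atTop atTop)
    (hE : ErrBound pX pY π c) (f g : α → ℝ) (hf : Measurable f) (hg : Measurable g)
    (hf1 : ∀ z, |f z| ≤ 1) (hg1 : ∀ z, |g z| ≤ 1)
    (hF : ∀ᵐ z ∂μ, Tendsto (fun n => avg T f n z) atTop (𝓝 0)) :
    ∀ᵐ z ∂μ, Tendsto (fun N : ℕ => (N : ℝ)⁻¹ * ∑ k ∈ Finset.range N,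
      f (T^[Nat.nth pX k] z) * g (S^[Nat.nth pY k] z)) atTop (𝓝 0) := by
  obtain ⟨p, hp⟩ := exists_nat_gt (1 / c)
  have hp' : 1 < p * c := by rwa [div_lt_iff₀ hc] at hp
  have hp1 : 1 ≤ p := by
    rcases Nat.eq_zero_or_pos p with h | h
    · subst h; simp at hp'; linarith
    · exact h
  have hl := lln_sub hT hS hTS hX hc hE p hp'
  -- the error functions
  set φ : ℕ → α → ℝ := fun m z => |avg T f m z| with hφ
  have hφm : ∀ m, Measurable (φ m) := fun m =>
    continuous_abs.measurable.comp (avg_meas hT.measurable f hf m)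
  have hφ1 : ∀ m z, |φ m z| ≤ 1 := fun m z => by
    simp only [hφ, abs_abs]; exact avg_bdd (T := T) f 1 zero_le_one hf1 m z
  choose Lm hL1 hL2 hL3 hL4 using fun m => exists_lim (μ := μ) T (φ m) (hφm m) 1 zero_le_one (hφ1 m)
  have hB : ∀ᵐ z ∂μ, ∀ m, Tendsto (fun n => avg T (φ m) n z) atTop (𝓝 (Lm m z)) := by
    rw [ae_all_iff]
    intro m
    exact birkhoff hT (φ m) (hφm m) 1 (hφ1 m) (Lm m) (hL1 m) (hL2 m) (hL3 m)
  have hLn : ∀ m, ∀ᵐ z ∂μ, 0 ≤ Lm m z := by
    intro m
    filter_upwards [hB] with z hz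
    refine ge_of_tendsto (hz m) (Eventually.of_forall fun n => ?_)
    unfold avg
    exact mul_nonneg (by positivity) (Finset.sum_nonneg fun k _ => abs_nonneg _)
  have hLmm : ∀ m, Measurable (Lm m) := fun m =>
    (hL1 m).mono (MeasurableSpace.invariants_le T) le_rfl
  have hint : Tendsto (fun m => ∫ z, Lm m z ∂μ) atTop (𝓝 0) := by
    have h1 : ∀ m, ∫ z, Lm m z ∂μ = ∫ z, φ m z ∂μ := by
      intro m
      have := hL3 m Set.univ (@MeasurableSet.univ _ (MeasurableSpace.invariants T))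
      rw [setIntegral_univ, setIntegral_univ] at this
      exact this.symm
    simp_rw [h1]
    have h2 := tendsto_integral_of_dominated_convergence (μ := μ) (F := φ) (f := fun _ => (0:ℝ))
      (fun _ => (1:ℝ)) (fun m => (hφm m).aestronglyMeasurable) (integrable_const 1)
      (fun m => Eventually.of_forall fun z => by rw [Real.norm_eq_abs]; exact hφ1 m z)
      (by
        filter_upwards [hF] with z hz
        have := hz.abs
        rw [abs_zero] at this
        exact this)
    simpa using h2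
  have hC : ∀ᵐ z ∂μ, ∀ k : ℕ, ∃ m, 1 ≤ m ∧ Lm m z < 1 / ((k : ℝ) + 1) := by
    rw [ae_all_iff]
    intro k
    rw [ae_iff]
    set Bk := {z | ¬ ∃ m, 1 ≤ m ∧ Lm m z < 1 / ((k : ℝ) + 1)} with hBk
    have hkpos : (0:ℝ) < 1 / ((k : ℝ) + 1) := by positivity
    have h1 : ∀ m, 1 ≤ m → (1 / ((k : ℝ) + 1)) * μ.real Bk ≤ ∫ z, Lm m z ∂μ := by
      intro m hm
      have h2 := mul_meas_ge_le_integral_of_nonneg (hLn m)
        (int_of_bdd (Lm m) (hLmm m) 1 (hL2 m)) (1 / ((k : ℝ) + 1))
      refine le_trans ?_ h2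
      refine mul_le_mul_of_nonneg_left ?_ hkpos.le
      refine measureReal_mono ?_
      intro z hz
      have hz' : ¬ ∃ m, 1 ≤ m ∧ Lm m z < 1 / ((k : ℝ) + 1) := hz
      show 1 / ((k : ℝ) + 1) ≤ Lm m z
      by_contra hcon
      exact hz' ⟨m, hm, not_le.mp hcon⟩
    have h3 : (1 / ((k : ℝ) + 1)) * μ.real Bk ≤ 0 := by
      refine ge_of_tendsto hint ?_
      filter_upwards [eventually_ge_atTop 1] with m hm
      exact h1 m hm
    have h4 : μ.real Bk = 0 := by
      have : 0 ≤ μ.real Bk := measureReal_nonneg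
      nlinarith
    rw [Measure.real, ENNReal.toReal_eq_zero_iff] at h4
    rcases h4 with h | h
    · exact h
    · exact absurd h (measure_ne_top _ _)
  have hN : Tendsto (fun j : ℕ => ((j ^ p : ℕ) : ℝ)⁻¹) atTop (𝓝 0) := by
    have h1 : Tendsto (fun j : ℕ => j ^ p) atTop atTop := tendsto_pow_atTop (by omega)
    exact tendsto_inv_atTop_nhds_zero_nat.comp h1
  have hces : Tendsto (fun j : ℕ => ((j ^ p : ℕ) : ℝ)⁻¹ *
      ∑ n ∈ Finset.range (Nat.nth pX (j ^ p)), ind pX n * π n) atTop (𝓝 0) := by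
    have h1 : Tendsto (fun k => π (Nat.nth pX k)) atTop (𝓝 0) :=
      hπ0.comp (tendsto_atTop_mono (nth_ge hX) tendsto_id)
    have h2 := h1.cesaro
    have h3 : Tendsto (fun j : ℕ => j ^ p) atTop atTop := tendsto_pow_atTop (by omega)
    have h4 := h2.comp h3
    refine h4.congr fun j => ?_
    have e1 := pair_sum (pX := pX) (pY := pY) (fun n _ => π n) (Nat.nth pX (j ^ p))
    rw [Nat.count_nth_of_infinite hX] at e1
    simp only [Function.comp_apply]
    rw [← e1]
  filter_upwards [hB, hC, err_ae hT hS hTS hX hc hE f g hf hg hf1 hg1 p hp'] with z hBz hCz hEz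
  refine avg_of_subseq (fun k => f (T^[Nat.nth pX k] z) * g (S^[Nat.nth pY k] z)) 1 (fun k => ?_)
    p hp1 0 ?_
  · rw [abs_mul]
    have := hf1 (T^[Nat.nth pX k] z)
    have := hg1 (S^[Nat.nth pY k] z)
    calc _ ≤ (1:ℝ) * 1 := by gcongr
      _ = 1 := one_mul 1
  have hsec : Tendsto (fun j : ℕ => ((j ^ p : ℕ) : ℝ)⁻¹ *
      ∑ n ∈ Finset.range (Nat.nth pX (j ^ p)), π n * (f (T^[n] z) * g (S^[bt pX pY n] z)))
      atTop (𝓝 0) := by
    rw [Metric.tendsto_atTop]
    intro δ hδ
    obtain ⟨k, hk⟩ := exists_nat_one_div_lt hδ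
    obtain ⟨m, hm, hLm⟩ := hCz k
    have hwa := wavg_sub hπ h0 hPt hX p hp1 hl (fun n => φ m (T^[n] z)) (Lm m z) (hBz m)
    have hr : Tendsto (fun j : ℕ => (((j ^ p : ℕ) : ℝ)⁻¹ * (2 * m * π 0)
        + (2 * m) * (((j ^ p : ℕ) : ℝ)⁻¹ * ∑ n ∈ Finset.range (Nat.nth pX (j ^ p)), ind pX n * π n))
        + ((j ^ p : ℕ) : ℝ)⁻¹ * ∑ n ∈ Finset.range (Nat.nth pX (j ^ p)), π n * φ m (T^[n] z))
        atTop (𝓝 ((0 * (2 * m * π 0) + (2 * m) * 0) + Lm m z)) :=
      ((hN.mul_const _).add (hces.const_mul _)).add hwa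
    have hlim : (0 * (2 * (m:ℝ) * π 0) + (2 * (m:ℝ)) * 0) + Lm m z < δ := by
      have : (0 * (2 * (m:ℝ) * π 0) + (2 * (m:ℝ)) * 0) + Lm m z = Lm m z := by ring
      rw [this]; exact hLm.trans hk
    obtain ⟨j0, hj0⟩ := (hr.eventually_lt_const hlim).exists_forall_of_atTop
    refine ⟨j0, fun j hj => ?_⟩
    have h5 := hj0 j hj
    refine lt_of_le_of_lt ?_ h5
    rw [Real.dist_eq, sub_zero, abs_mul, abs_of_nonneg (by positivity : (0:ℝ) ≤ ((j ^ p : ℕ) : ℝ)⁻¹)]
    set M := Nat.nth pX (j ^ p) with hM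
    have hcob := cobdry (pX := pX) π hπ h0 (fun n => trf T f m (T^[n] z))
      (fun n => g (S^[bt pX pY n] z)) m (fun n => trf_bdd (T := T) f hf1 m _) (fun n => hg1 _)
      (fun n hn => by
        show g (S^[bt pX pY (n + 1)] z) = g (S^[bt pX pY n] z)
        have : bt pX pY (n + 1) = bt pX pY n := by
          unfold bt; rw [Nat.count_succ, if_neg hn, add_zero]
        rw [this]) M
    have hsplit : ∑ n ∈ Finset.range M, π n * (f (T^[n] z) * g (S^[bt pX pY n] z))
        = ∑ n ∈ Finset.range M, π n * ((trf T f m (T^[n] z) - trf T f m (T^[n + 1] z)) *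
            g (S^[bt pX pY n] z))
          + ∑ n ∈ Finset.range M, π n * (avg T f m (T^[n] z) * g (S^[bt pX pY n] z)) := by
      rw [← Finset.sum_add_distrib]
      refine Finset.sum_congr rfl fun n _ => ?_
      have := trf_eq (T := T) f m hm (T^[n] z)
      rw [Function.iterate_succ_apply']
      conv_lhs => rw [this]
      ring
    have hsecond : |∑ n ∈ Finset.range M, π n * (avg T f m (T^[n] z) * g (S^[bt pX pY n] z))|
        ≤ ∑ n ∈ Finset.range M, π n * φ m (T^[n] z) := by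
      refine (Finset.abs_sum_le_sum_abs _ _).trans (Finset.sum_le_sum fun n _ => ?_)
      rw [abs_mul, abs_mul, abs_of_nonneg (h0 n)]
      have a1 := hg1 (S^[bt pX pY n] z)
      have a2 := h0 n
      simp only [hφ]
      calc _ ≤ π n * (|avg T f m (T^[n] z)| * 1) := by gcongr
        _ = _ := by ring
    rw [hsplit]
    calc _ ≤ ((j ^ p : ℕ) : ℝ)⁻¹ * (m * (2 * π 0 + 2 * ∑ n ∈ Finset.range M, ind pX n * π n)
          + ∑ n ∈ Finset.range M, π n * φ m (T^[n] z)) := by
          refine mul_le_mul_of_nonneg_left ?_ (by positivity)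
          exact (abs_add_le _ _).trans (add_le_add hcob hsecond)
      _ = _ := by ring
  have h6 := hEz.add hsec
  rw [zero_add] at h6
  refine h6.congr fun j => ?_
  have e1 := pair_sum (pX := pX) (pY := pY) (fun n b => f (T^[n] z) * g (S^[b] z))
    (Nat.nth pX (j ^ p))
  rw [Nat.count_nth_of_infinite hX] at e1
  rw [← e1, ← mul_add, ← Finset.sum_add_distrib]
  congr 1
  exact Finset.sum_congr rfl fun n _ => by ring

/-- The pointwise theorem for functions bounded by one. -/
theorem prod_main (hT : MeasurePreserving T μ μ) (hS : MeasurePreserving S μ μ)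
    (hTS : ∀ z, T (S z) = S (T z)) (hX : (Set.ofPred pX).Infinite) (hY : (Set.ofPred pY).Infinite)
    {π q : ℕ → ℝ} {c c' : ℝ} (hc : 0 < c) (hc' : 0 < c')
    (hπ : Antitone π) (h0 : ∀ n, 0 ≤ π n) (hπ0 : Tendsto π atTop (𝓝 0))
    (hPt : Tendsto (fun M => ∑ n ∈ Finset.range M, π n) atTop atTop)
    (hq : Antitone q) (hq0 : ∀ n, 0 ≤ q n)
    (hQt : Tendsto (fun M => ∑ n ∈ Finset.range M, q n) atTop atTop)
    (hE : ErrBound pX pY π c) (hE' : ErrBound pY pX q c')
    (f g : α → ℝ) (hf : Measurable f) (hg : Measurable g)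
    (hf1 : ∀ z, |f z| ≤ 1) (hg1 : ∀ z, |g z| ≤ 1) (F G : α → ℝ) (hFm : Measurable F)
    (hF1 : ∀ z, |F z| ≤ 1) (hFT : ∀ z, F (T z) = F z)
    (hF : ∀ᵐ z ∂μ, Tendsto (fun n => avg T f n z) atTop (𝓝 (F z)))
    (hG : ∀ᵐ z ∂μ, Tendsto (fun n => avg S g n z) atTop (𝓝 (G z))) :
    ∀ᵐ z ∂μ, Tendsto (fun N : ℕ => (N : ℝ)⁻¹ * ∑ k ∈ Finset.range N,
      f (T^[Nat.nth pX k] z) * g (S^[Nat.nth pY k] z)) atTop (𝓝 (F z * G z)) := by
  have hFit : ∀ k z, F (T^[k] z) = F z := by
    intro k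
    induction k with
    | zero => intro z; rfl
    | succ k ih => intro z; rw [Function.iterate_succ_apply, ih, hFT]
  have h1 := prod_zero hT hS hTS hX hc hπ h0 hπ0 hPt hE (fun z => (f z - F z) / 2) g
    ((hf.sub hFm).div_const 2) hg (fun z => by
      rw [abs_div, abs_of_pos (by norm_num : (0:ℝ) < 2), div_le_one (by norm_num)]
      calc _ ≤ |f z| + |F z| := abs_sub _ _
        _ ≤ 2 := by have := hf1 z; have := hF1 z; linarith) hg1
    (by
      filter_upwards [hF] with z hz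
      have h2 := (hz.sub_const (F z)).div_const 2
      rw [sub_self, zero_div] at h2
      refine h2.congr' ?_
      filter_upwards [eventually_ge_atTop 1] with n hn
      have hn' : (0:ℝ) < n := by exact_mod_cast hn
      unfold avg
      rw [← Finset.sum_div, Finset.sum_sub_distrib, Finset.sum_congr rfl fun k _ => hFit k z]
      simp only [Finset.sum_const, Finset.card_range, nsmul_eq_mul]
      field_simp)
  have h2 := single_ae (pX := pY) (pY := pX) hS hT (fun z => (hTS z).symm) hY hc' hq hq0 hQt hE' g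
    hg hg1 G hG
  filter_upwards [h1, h2] with z hz1 hz2
  have h3 := (hz2.const_mul (F z)).add (hz1.const_mul 2)
  rw [mul_zero, add_zero] at h3
  refine h3.congr fun N => ?_
  rw [← mul_assoc, mul_comm (F z), mul_assoc, ← mul_assoc 2, mul_comm (2:ℝ), mul_assoc, ← mul_add]
  congr 1
  rw [Finset.mul_sum, Finset.mul_sum, ← Finset.sum_add_distrib]
  refine Finset.sum_congr rfl fun k _ => ?_
  rw [hFit]; ring

end

lemma prb_tendsto (a : ℝ) (ha : 0 < a) : Tendsto (prb a) atTop (𝓝 0) := by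
  have h1 : Tendsto (fun n : ℕ => ((n : ℝ) + 1)) atTop atTop :=
    tendsto_atTop_add_const_right _ _ tendsto_natCast_atTop_atTop
  exact (tendsto_rpow_neg_atTop ha).comp h1

lemma prb_sum_tendsto (a : ℝ) (ha : 0 ≤ a) (ha1 : a < 1) :
    Tendsto (fun M => ∑ n ∈ Finset.range M, prb a n) atTop atTop := by
  refine tendsto_atTop_mono' _ ?_ (tends_nat_rpow (1 - a) (by linarith))
  filter_upwards [eventually_ge_atTop 1] with M hM
  have hM0 : (0:ℝ) < M := by exact_mod_cast hM
  have h6 := sum_prb_lower a ha 0 M M (Nat.zero_le _) le_rfl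
  rw [← Finset.range_eq_Ico] at h6
  have h7 : ((M : ℝ) - (0 : ℕ)) * (M : ℝ) ^ (-a) = (M : ℝ) ^ (1 - a) := by
    rw [show (1 - a) = 1 + (-a) by ring, Real.rpow_add hM0, Real.rpow_one]; simp
  rwa [h7] at h6

/-- A good pair of sequences. -/
structure GoodPair (a b : ℝ) (pX pY : ℕ → Prop) [DecidablePred pX] [DecidablePred pY] : Prop where
  iX : (Set.ofPred pX).Infinite
  iY : (Set.ofPred pY).Infinite
  eX : ∃ c, 0 < c ∧ ErrBound pX pY (prb a) c
  eY : ∃ c, 0 < c ∧ ErrBound pY pX (prb b) c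

section
variable {α : Type} [MeasurableSpace α] {μ : Measure α} [IsProbabilityMeasure μ] {T S : α → α}

/-- Pointwise convergence, measurable functions bounded by one, identified limit. -/
theorem main_one {a b : ℝ} (ha0 : 0 < a) (ha1 : a < 1) (hb0 : 0 < b) (hb1 : b < 1)
    (hgp : GoodPair a b pX pY) (hT : MeasurePreserving T μ μ) (hS : MeasurePreserving S μ μ)
    (hTS : ∀ z, T (S z) = S (T z)) (f g : α → ℝ) (hf : Measurable f) (hg : Measurable g)
    (hf1 : ∀ z, |f z| ≤ 1) (hg1 : ∀ z, |g z| ≤ 1) :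
    ∀ᵐ z ∂μ, Tendsto (fun N : ℕ => (N : ℝ)⁻¹ * ∑ k ∈ Finset.range N,
      f (T^[Nat.nth pX k + 1] z) * g (S^[Nat.nth pY k + 1] z)) atTop
        (𝓝 ((μ[f | MeasurableSpace.invariants T] z) * (μ[g | MeasurableSpace.invariants S] z))) := by
  obtain ⟨c, hc, hE⟩ := hgp.eX
  obtain ⟨c', hc', hE'⟩ := hgp.eY
  obtain ⟨F, hF1, hF2, hF3, hF4⟩ := exists_lim (μ := μ) T f hf 1 zero_le_one hf1
  obtain ⟨G, hG1, hG2, hG3, hG4⟩ := exists_lim (μ := μ) S g hg 1 zero_le_one hg1
  have hbF := birkhoff hT f hf 1 hf1 F hF1 hF2 hF3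
  have hbG := birkhoff hS g hg 1 hg1 G hG1 hG2 hG3
  have hFT : ∀ z, F (T z) = F z := fun z =>
    congrFun (MeasurableSpace.comp_eq_of_measurable_invariants hF1) z
  have hshift : ∀ (R : α → α) (u : α → ℝ) (_ : ∀ z, |u z| ≤ 1) (z : α) (L : ℝ),
      Tendsto (fun n => avg R u n z) atTop (𝓝 L) →
      Tendsto (fun n => avg R (fun y => u (R y)) n z) atTop (𝓝 L) := by
    intro R u hu z L hL
    have h1 : Tendsto (fun n => avg R u n (R z) - avg R u n z) atTop (𝓝 0) := by
      refine squeeze_zero_norm (fun n => ?_)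
        (by simpa only [zero_mul] using
          (tendsto_inv_atTop_nhds_zero_nat (𝕜 := ℝ)).mul_const (2 * 1) :
          Tendsto (fun n : ℕ => (n : ℝ)⁻¹ * (2 * 1)) atTop (𝓝 0))
      rw [Real.norm_eq_abs]
      exact avg_shift (T := R) u 1 hu n z
    have h2 := h1.add hL
    rw [zero_add] at h2
    refine h2.congr fun n => ?_
    rw [sub_add_cancel]
    unfold avg
    congr 1
    refine Finset.sum_congr rfl fun k _ => ?_
    rw [← Function.iterate_succ_apply, Function.iterate_succ_apply']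
  have key := prod_main hT hS hTS hgp.iX hgp.iY hc hc' (prb_anti a ha0.le) (prb_nonneg a)
    (prb_tendsto a ha0) (prb_sum_tendsto a ha0.le ha1) (prb_anti b hb0.le) (prb_nonneg b)
    (prb_sum_tendsto b hb0.le hb1) hE hE' (fun y => f (T y)) (fun y => g (S y))
    (hf.comp hT.measurable) (hg.comp hS.measurable) (fun z => hf1 _) (fun z => hg1 _) F G
    (hF1.mono (MeasurableSpace.invariants_le T) le_rfl) hF2 hFT
    (by filter_upwards [hbF] with z hz using hshift T f hf1 z (F z) hz)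
    (by filter_upwards [hbG] with z hz using hshift S g hg1 z (G z) hz)
  filter_upwards [key, hF4, hG4] with z h1 h2 h3
  rw [← h2, ← h3]
  refine h1.congr fun N => ?_
  congr 1
  refine Finset.sum_congr rfl fun k _ => ?_
  rw [Function.iterate_succ_apply', Function.iterate_succ_apply']

lemma memLp_top_normalize (f : α → ℝ) (hf : MemLp f ⊤ μ) :
    ∃ C : ℝ, 0 < C ∧ ∃ f' : α → ℝ, Measurable f' ∧ (∀ z, |f' z| ≤ 1) ∧ f =ᵐ[μ] fun z => C * f' z := by
  have h1 : eLpNormEssSup f μ < ⊤ := by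
    have := hf.2
    rwa [eLpNorm_exponent_top] at this
  set C := (eLpNormEssSup f μ).toReal + 1 with hC
  have hC0 : 0 < C := by have := ENNReal.toReal_nonneg (a := eLpNormEssSup f μ); linarith
  have hb : ∀ᵐ z ∂μ, |f z| ≤ C := by
    filter_upwards [ae_le_eLpNormEssSup (f := f) (μ := μ)] with z hz
    have h2 : ‖f z‖ₑ.toReal ≤ (eLpNormEssSup f μ).toReal := ENNReal.toReal_mono h1.ne hz
    rw [toReal_enorm, Real.norm_eq_abs] at h2
    linarith
  set f1 := hf.1.mk f with hf1
  have hf1m : Measurable f1 := hf.1.stronglyMeasurable_mk.measurable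
  have hae : f =ᵐ[μ] f1 := hf.1.ae_eq_mk
  refine ⟨C, hC0, fun z => max (min (f1 z / C) 1) (-1), ?_, ?_, ?_⟩
  · exact ((hf1m.div_const C).min measurable_const).max measurable_const
  · intro z
    rw [abs_le]
    exact ⟨le_max_right _ _, max_le (min_le_right _ _) (by norm_num)⟩
  · filter_upwards [hb, hae] with z h2 h3
    rw [h3] at h2 ⊢
    rw [abs_le] at h2
    have h4 : f1 z / C ≤ 1 := by rw [div_le_one hC0]; exact h2.2
    have h5 : -1 ≤ f1 z / C := by rw [le_div_iff₀ hC0]; linarith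
    rw [min_eq_left h4, max_eq_left h5]
    field_simp

/-- Pointwise and mean convergence for essentially bounded functions. -/
theorem main_top {a b : ℝ} (ha0 : 0 < a) (ha1 : a < 1) (hb0 : 0 < b) (hb1 : b < 1)
    (hgp : GoodPair a b pX pY) (hT : MeasurePreserving T μ μ) (hS : MeasurePreserving S μ μ)
    (hTS : ∀ z, T (S z) = S (T z)) (f g : α → ℝ) (hf : MemLp f ⊤ μ) (hg : MemLp g ⊤ μ) :
    (∀ᵐ z ∂μ, Tendsto (fun N : ℕ => (N : ℝ)⁻¹ * ∑ k ∈ Finset.range N,
      f (T^[Nat.nth pX k + 1] z) * g (S^[Nat.nth pY k + 1] z)) atTop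
        (𝓝 ((μ[f | MeasurableSpace.invariants T] z) * (μ[g | MeasurableSpace.invariants S] z)))) ∧
    Tendsto (fun N : ℕ => eLpNorm (fun z => (N : ℝ)⁻¹ * ∑ k ∈ Finset.range N,
      f (T^[Nat.nth pX k + 1] z) * g (S^[Nat.nth pY k + 1] z)
      - (μ[f | MeasurableSpace.invariants T] z) * (μ[g | MeasurableSpace.invariants S] z)) 2 μ)
      atTop (𝓝 0) := by
  obtain ⟨C, hC, f', hf'm, hf'1, hff'⟩ := memLp_top_normalize f hf
  obtain ⟨D, hD, g', hg'm, hg'1, hgg'⟩ := memLp_top_normalize g hg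
  have hcf : μ[f | MeasurableSpace.invariants T] =ᵐ[μ]
      fun z => C * μ[f' | MeasurableSpace.invariants T] z := by
    have h1 : μ[f | MeasurableSpace.invariants T] =ᵐ[μ]
        μ[C • f' | MeasurableSpace.invariants T] := condExp_congr_ae hff'
    have h2 := condExp_smul (μ := μ) C f' (MeasurableSpace.invariants T)
    filter_upwards [h1, h2] with z h3 h4
    rw [h3, h4]; rfl
  have hcg : μ[g | MeasurableSpace.invariants S] =ᵐ[μ]
      fun z => D * μ[g' | MeasurableSpace.invariants S] z := by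
    have h1 : μ[g | MeasurableSpace.invariants S] =ᵐ[μ]
        μ[D • g' | MeasurableSpace.invariants S] := condExp_congr_ae hgg'
    have h2 := condExp_smul (μ := μ) D g' (MeasurableSpace.invariants S)
    filter_upwards [h1, h2] with z h3 h4
    rw [h3, h4]; rfl
  have horb : ∀ᵐ z ∂μ, ∀ N : ℕ, (N : ℝ)⁻¹ * ∑ k ∈ Finset.range N,
      f (T^[Nat.nth pX k + 1] z) * g (S^[Nat.nth pY k + 1] z)
      = (C * D) * ((N : ℝ)⁻¹ * ∑ k ∈ Finset.range N,
      f' (T^[Nat.nth pX k + 1] z) * g' (S^[Nat.nth pY k + 1] z)) := by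
    have h1 : ∀ᵐ z ∂μ, ∀ k : ℕ, f (T^[k] z) = C * f' (T^[k] z) := by
      rw [ae_all_iff]
      intro k
      exact (hT.iterate k).quasiMeasurePreserving.ae hff'
    have h2 : ∀ᵐ z ∂μ, ∀ k : ℕ, g (S^[k] z) = D * g' (S^[k] z) := by
      rw [ae_all_iff]
      intro k
      exact (hS.iterate k).quasiMeasurePreserving.ae hgg'
    filter_upwards [h1, h2] with z h3 h4 N
    rw [mul_left_comm]
    congr 1
    rw [Finset.mul_sum]
    refine Finset.sum_congr rfl fun k _ => ?_
    rw [h3, h4]; ring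
  have hmain := main_one ha0 ha1 hb0 hb1 hgp hT hS hTS f' g' hf'm hg'm hf'1 hg'1
  have hae : ∀ᵐ z ∂μ, Tendsto (fun N : ℕ => (N : ℝ)⁻¹ * ∑ k ∈ Finset.range N,
      f (T^[Nat.nth pX k + 1] z) * g (S^[Nat.nth pY k + 1] z)) atTop
        (𝓝 ((μ[f | MeasurableSpace.invariants T] z) *
          (μ[g | MeasurableSpace.invariants S] z))) := by
    filter_upwards [hmain, hcf, hcg, horb] with z h1 h2 h3 h4
    have h5 := h1.const_mul (C * D)
    have h6 : (C * D) * (μ[f' | MeasurableSpace.invariants T] z *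
        μ[g' | MeasurableSpace.invariants S] z)
        = μ[f | MeasurableSpace.invariants T] z * μ[g | MeasurableSpace.invariants S] z := by
      rw [h2, h3]; ring
    rw [h6] at h5
    exact h5.congr fun N => (h4 N).symm
  refine ⟨hae, ?_⟩
  -- mean convergence
  set Aw : ℕ → α → ℝ := fun N z => (C * D) * ((N : ℝ)⁻¹ * ∑ k ∈ Finset.range N,
      f' (T^[Nat.nth pX k + 1] z) * g' (S^[Nat.nth pY k + 1] z)) with hAw
  set Lim : α → ℝ := fun z => μ[f | MeasurableSpace.invariants T] z *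
    μ[g | MeasurableSpace.invariants S] z with hLim
  have hAm : ∀ N, Measurable (Aw N) := by
    intro N
    refine measurable_const.mul (measurable_const.mul (Finset.measurable_sum _ fun k _ => ?_))
    exact (hf'm.comp (hT.iterate _).measurable).mul (hg'm.comp (hS.iterate _).measurable)
  have hLm : AEStronglyMeasurable Lim μ :=
    (integrable_condExp.aestronglyMeasurable).mul (integrable_condExp.aestronglyMeasurable)
  have hAb : ∀ N z, |Aw N z| ≤ C * D := by
    intro N z
    simp only [hAw]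
    rw [abs_mul, abs_of_pos (mul_pos hC hD)]
    have : |(N : ℝ)⁻¹ * ∑ k ∈ Finset.range N,
      f' (T^[Nat.nth pX k + 1] z) * g' (S^[Nat.nth pY k + 1] z)| ≤ 1 := by
      rcases Nat.eq_zero_or_pos N with h | h
      · subst h; simp
      · have hN : (0:ℝ) < N := by exact_mod_cast h
        rw [abs_mul, abs_inv, abs_of_pos hN, inv_mul_le_iff₀ hN]
        calc _ ≤ ∑ k ∈ Finset.range N, |f' (T^[Nat.nth pX k + 1] z) * g' (S^[Nat.nth pY k + 1] z)| :=
              Finset.abs_sum_le_sum_abs _ _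
          _ ≤ ∑ k ∈ Finset.range N, (1:ℝ) := by
              refine Finset.sum_le_sum fun k _ => ?_
              rw [abs_mul]
              have a1 := hf'1 (T^[Nat.nth pX k + 1] z)
              have a2 := hg'1 (S^[Nat.nth pY k + 1] z)
              calc _ ≤ (1:ℝ) * 1 := by gcongr
                _ = 1 := one_mul 1
          _ = N * 1 := by simp
    have hCD : 0 < C * D := mul_pos hC hD
    nlinarith
  have hae' : ∀ᵐ z ∂μ, Tendsto (fun N => Aw N z) atTop (𝓝 (Lim z)) := by
    filter_upwards [hae, horb] with z h1 h2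
    exact h1.congr h2
  have hLb : ∀ᵐ z ∂μ, |Lim z| ≤ C * D := by
    filter_upwards [hae'] with z hz
    exact le_of_tendsto hz.abs (Eventually.of_forall fun N => hAb N z)
  have hcongr : ∀ N : ℕ, eLpNorm (fun z => (N : ℝ)⁻¹ * ∑ k ∈ Finset.range N,
      f (T^[Nat.nth pX k + 1] z) * g (S^[Nat.nth pY k + 1] z)
      - (μ[f | MeasurableSpace.invariants T] z) * (μ[g | MeasurableSpace.invariants S] z)) 2 μ
      = (∫⁻ z, ‖Aw N z - Lim z‖ₑ ^ (2:ℝ) ∂μ) ^ (1 / (2:ℝ)) := by
    intro N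
    rw [eLpNorm_congr_ae (g := fun z => Aw N z - Lim z)]
    · rw [eLpNorm_eq_lintegral_rpow_enorm_toReal (by norm_num) (by norm_num)]
      norm_num
    · filter_upwards [horb] with z hz
      rw [hz N]
  simp_rw [hcongr]
  have hlim0 : Tendsto (fun N => ∫⁻ z, ‖Aw N z - Lim z‖ₑ ^ (2:ℝ) ∂μ) atTop (𝓝 0) := by
    have h1 := tendsto_lintegral_of_dominated_convergence' (μ := μ)
      (F := fun N z => ‖Aw N z - Lim z‖ₑ ^ (2:ℝ)) (f := fun _ => 0)
      (fun _ => (ENNReal.ofReal (2 * (C * D))) ^ (2:ℝ))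
      (fun N => ((((hAm N).aestronglyMeasurable).sub hLm).enorm).pow_const _)
      (fun N => by
        filter_upwards [hLb] with z hz
        gcongr
        rw [← ofReal_norm, Real.norm_eq_abs]
        apply ENNReal.ofReal_le_ofReal
        calc _ ≤ |Aw N z| + |Lim z| := abs_sub _ _
          _ ≤ _ := by have := hAb N z; linarith)
      (by
        rw [lintegral_const, measure_univ, mul_one]
        exact (ENNReal.rpow_lt_top_of_nonneg (by norm_num) ENNReal.ofReal_ne_top).ne)
      (by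
        filter_upwards [hae'] with z hz
        have h2 : Tendsto (fun N => Aw N z - Lim z) atTop (𝓝 0) := by
          have := hz.sub_const (Lim z)
          rwa [sub_self] at this
        have h3 : Tendsto (fun N => ‖Aw N z - Lim z‖ₑ) atTop (𝓝 0) := by
          have := h2.enorm
          simpa using this
        have h4 := (ENNReal.continuous_rpow_const (y := (2:ℝ))).tendsto 0 |>.comp h3
        simpa [Function.comp_def] using h4)
    simpa using h1
  have h5 := (ENNReal.continuous_rpow_const (y := 1 / (2:ℝ))).tendsto 0 |>.comp hlim0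
  simpa [Function.comp_def] using h5

end

end Pool.Agent.Helper49.RS
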