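import Mathlib

set_option autoImplicit false
open MeasureTheory ProbabilityTheory Filter Topology

namespace Pool.Agent.Helper49.RS

set_option linter.unusedSectionVars false

/-- Bernoulli variables `X n` with means `q n`, each independent of the past `F n`. -/
structure PredBern {Ω : Type*} [m0 : MeasurableSpace Ω] (P : Measure Ω) (X : ℕ → Ω → ℝ)
    (q : ℕ → ℝ) (F : ℕ → MeasurableSpace Ω) : Prop where
  le : ∀ n, F n ≤ m0
  meas : ∀ n, Measurable[F (n + 1)] (X n)
  mono : Monotone F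
  zo : ∀ n ω, X n ω = 0 ∨ X n ω = 1
  q0 : ∀ n, 0 ≤ q n
  q1 : ∀ n, q n ≤ 1
  fac : ∀ n (Φ : Ω → ℝ), Measurable[F n] Φ → (∃ C, ∀ ω, |Φ ω| ≤ C) →
    ∫ ω, X n ω * Φ ω ∂P = q n * ∫ ω, Φ ω ∂P

lemma scalar_ineq (p z : ℝ) (hp0 : 0 ≤ p) (hp1 : p ≤ 1) (hz : |z| ≤ 1) :
    p * Real.exp ((1 - p) * z) + (1 - p) * Real.exp (-p * z) ≤ Real.exp (p * z ^ 2) := by
  have h1 : ∀ u : ℝ, |u| ≤ 1 → Real.exp u ≤ 1 + u + u ^ 2 := by
    intro u hu
    have := Real.abs_exp_sub_one_sub_id_le hu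
    have := (abs_le.mp this).2
    linarith
  have ha : |(1 - p) * z| ≤ 1 := by
    rw [abs_mul, abs_of_nonneg (by linarith : (0:ℝ) ≤ 1 - p)]
    nlinarith [abs_nonneg z]
  have hb : |(-p) * z| ≤ 1 := by
    rw [abs_mul, abs_neg, abs_of_nonneg hp0]
    nlinarith [abs_nonneg z]
  have e1 := h1 _ ha
  have e2 := h1 _ hb
  have e3 : p * z ^ 2 + 1 ≤ Real.exp (p * z ^ 2) := Real.add_one_le_exp _
  have : p * Real.exp ((1 - p) * z) + (1 - p) * Real.exp (-p * z)
      ≤ p * (1 + (1 - p) * z + ((1 - p) * z) ^ 2) + (1 - p) * (1 + -p * z + (-p * z) ^ 2) := by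
    have := mul_le_mul_of_nonneg_left e1 hp0
    have := mul_le_mul_of_nonneg_left e2 (by linarith : (0:ℝ) ≤ 1 - p)
    linarith
  have h4 : p * (1 + (1 - p) * z + ((1 - p) * z) ^ 2) + (1 - p) * (1 + -p * z + (-p * z) ^ 2)
      = 1 + p * z ^ 2 - p ^ 2 * z ^ 2 := by ring
  nlinarith [mul_nonneg (sq_nonneg p) (sq_nonneg z)]

variable {Ω : Type*} [m0 : MeasurableSpace Ω] {P : Measure Ω} [IsProbabilityMeasure P]
  {X : ℕ → Ω → ℝ} {q : ℕ → ℝ} {F : ℕ → MeasurableSpace Ω}

/-- The exponent of the supermartingale. -/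
noncomputable def expo (X : ℕ → Ω → ℝ) (q : ℕ → ℝ) (Z : ℕ → Ω → ℝ) (n : ℕ) (ω : Ω) : ℝ :=
  ∑ p ∈ Finset.range n, ((X p ω - q p) * Z p ω - q p * (Z p ω) ^ 2)

lemma PredBern.meas_le (h : PredBern P X q F) {i n : ℕ} (hi : i < n) : Measurable[F n] (X i) :=
  (h.meas i).mono (h.mono hi) le_rfl

lemma expo_meas (h : PredBern P X q F) (Z : ℕ → Ω → ℝ) (hZ : ∀ n, Measurable[F n] (Z n))
    (n : ℕ) : Measurable[F n] (expo X q Z n) := by
  unfold expo
  refine Finset.measurable_sum _ fun p hp => ?_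
  have hp' := Finset.mem_range.mp hp
  have h1 : Measurable[F n] (X p) := h.meas_le hp'
  have h2 : Measurable[F n] (Z p) := (hZ p).mono (h.mono hp'.le) le_rfl
  exact ((h1.sub measurable_const).mul h2).sub (measurable_const.mul (h2.pow_const 2))

lemma expo_bound (h : PredBern P X q F) (Z : ℕ → Ω → ℝ) (hZ1 : ∀ n ω, |Z n ω| ≤ 1)
    (n : ℕ) (ω : Ω) : |expo X q Z n ω| ≤ 2 * n := by
  unfold expo
  refine (Finset.abs_sum_le_sum_abs _ _).trans ?_
  have : ∀ p ∈ Finset.range n, |(X p ω - q p) * Z p ω - q p * (Z p ω) ^ 2| ≤ 2 := by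
    intro p _
    have h1 : |X p ω - q p| ≤ 1 := by
      rcases h.zo p ω with h0 | h0 <;> rw [h0, abs_le] <;> constructor <;>
        linarith [h.q0 p, h.q1 p]
    have h2 := hZ1 p ω
    have h3 : (Z p ω) ^ 2 ≤ 1 := by
      rw [← sq_abs]; nlinarith [abs_nonneg (Z p ω)]
    have h4 : |(X p ω - q p) * Z p ω| ≤ 1 := by
      rw [abs_mul]; nlinarith [abs_nonneg (Z p ω), abs_nonneg (X p ω - q p)]
    have h5 : |q p * (Z p ω) ^ 2| ≤ 1 := by
      rw [abs_of_nonneg (mul_nonneg (h.q0 p) (sq_nonneg _))]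
      nlinarith [h.q0 p, h.q1 p, sq_nonneg (Z p ω)]
    calc _ ≤ |(X p ω - q p) * Z p ω| + |q p * (Z p ω) ^ 2| := abs_sub _ _
      _ ≤ 2 := by linarith
  calc _ ≤ ∑ p ∈ Finset.range n, (2:ℝ) := Finset.sum_le_sum this
    _ = 2 * n := by simp [mul_comm]

lemma bdd_integrable (Φ : Ω → ℝ) (hΦ : Measurable Φ) (C : ℝ) (hC : ∀ ω, |Φ ω| ≤ C) :
    Integrable Φ P :=
  Integrable.of_bound hΦ.aestronglyMeasurable C (Eventually.of_forall fun ω => by
    simpa using hC ω)

lemma expo_integral_le (h : PredBern P X q F) (Z : ℕ → Ω → ℝ) (hZ : ∀ n, Measurable[F n] (Z n))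
    (hZ1 : ∀ n ω, |Z n ω| ≤ 1) (n : ℕ) : ∫ ω, Real.exp (expo X q Z n ω) ∂P ≤ 1 := by
  induction n with
  | zero => simp [expo]
  | succ n ih =>
    refine le_trans ?_ ih
    have hU : Measurable[F n] (fun ω => Real.exp (expo X q Z n ω)) := by
      exact Real.measurable_exp.comp (expo_meas h Z hZ n)
    have hUb : ∀ ω, Real.exp (expo X q Z n ω) ≤ Real.exp (2 * n) := fun ω =>
      Real.exp_le_exp.mpr ((le_abs_self _).trans (expo_bound h Z hZ1 n ω))
    set A : Ω → ℝ := fun ω => Real.exp (expo X q Z n ω) * Real.exp (-(q n * (Z n ω) ^ 2)) *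
      Real.exp ((1 - q n) * Z n ω) with hA
    set B : Ω → ℝ := fun ω => Real.exp (expo X q Z n ω) * Real.exp (-(q n * (Z n ω) ^ 2)) *
      Real.exp (-q n * Z n ω) with hB
    have hZn : Measurable[F n] (Z n) := hZ n
    have hAm : Measurable[F n] A := by
      refine Measurable.mul (Measurable.mul hU ?_) ?_
      · exact Real.measurable_exp.comp ((measurable_const.mul (hZn.pow_const 2)).neg)
      · exact Real.measurable_exp.comp (measurable_const.mul hZn)
    have hBm : Measurable[F n] B := by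
      refine Measurable.mul (Measurable.mul hU ?_) ?_
      · exact Real.measurable_exp.comp ((measurable_const.mul (hZn.pow_const 2)).neg)
      · exact Real.measurable_exp.comp (measurable_const.mul hZn)
    have hAb : ∀ ω, |A ω| ≤ Real.exp (2 * n) * 1 * Real.exp 1 := by
      intro ω
      rw [hA]
      simp only [abs_mul, Real.abs_exp]
      have h1 := hUb ω
      have h2 : Real.exp (-(q n * (Z n ω) ^ 2)) ≤ 1 := by
        rw [Real.exp_le_one_iff]
        have := mul_nonneg (h.q0 n) (sq_nonneg (Z n ω)); linarith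
      have h3 : Real.exp ((1 - q n) * Z n ω) ≤ Real.exp 1 := by
        rw [Real.exp_le_exp]
        have := (abs_le.mp (hZ1 n ω))
        nlinarith [h.q0 n, h.q1 n]
      gcongr
    have hBb : ∀ ω, |B ω| ≤ Real.exp (2 * n) * 1 * Real.exp 1 := by
      intro ω
      rw [hB]
      simp only [abs_mul, Real.abs_exp]
      have h1 := hUb ω
      have h2 : Real.exp (-(q n * (Z n ω) ^ 2)) ≤ 1 := by
        rw [Real.exp_le_one_iff]
        have := mul_nonneg (h.q0 n) (sq_nonneg (Z n ω)); linarith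
      have h3 : Real.exp (-q n * Z n ω) ≤ Real.exp 1 := by
        rw [Real.exp_le_exp]
        have := (abs_le.mp (hZ1 n ω))
        nlinarith [h.q0 n, h.q1 n]
      gcongr
    have hAm' : Measurable A := hAm.mono (h.le n) le_rfl
    have hBm' : Measurable B := hBm.mono (h.le n) le_rfl
    have hXm : Measurable (X n) := (h.meas n).mono (h.le _) le_rfl
    have hXb : ∀ ω, |X n ω| ≤ 1 := fun ω => by rcases h.zo n ω with h0 | h0 <;> simp [h0]
    have iA : Integrable A P := bdd_integrable A hAm' _ hAb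
    have iB : Integrable B P := bdd_integrable B hBm' _ hBb
    have iXA : Integrable (fun ω => X n ω * A ω) P := by
      refine bdd_integrable _ (hXm.mul hAm') (1 * (Real.exp (2 * n) * 1 * Real.exp 1)) fun ω => ?_
      rw [abs_mul]
      exact mul_le_mul (hXb ω) (hAb ω) (abs_nonneg _) (by norm_num)
    have iXB : Integrable (fun ω => X n ω * B ω) P := by
      refine bdd_integrable _ (hXm.mul hBm') (1 * (Real.exp (2 * n) * 1 * Real.exp 1)) fun ω => ?_
      rw [abs_mul]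
      exact mul_le_mul (hXb ω) (hBb ω) (abs_nonneg _) (by norm_num)
    have key : ∀ ω, Real.exp (expo X q Z (n + 1) ω) = X n ω * A ω + (B ω - X n ω * B ω) := by
      intro ω
      have e : expo X q Z (n + 1) ω = expo X q Z n ω + (-(q n * (Z n ω) ^ 2))
          + (X n ω - q n) * Z n ω := by
        unfold expo; rw [Finset.sum_range_succ]; ring
      rw [e, Real.exp_add, Real.exp_add]
      rcases h.zo n ω with h0 | h0
      · rw [h0, hB]; simp
      · rw [h0, hA]; simp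
    have e1 : ∫ ω, Real.exp (expo X q Z (n + 1) ω) ∂P
        = q n * ∫ ω, A ω ∂P + (∫ ω, B ω ∂P - q n * ∫ ω, B ω ∂P) := by
      rw [integral_congr_ae (Eventually.of_forall key), ← h.fac n A hAm ⟨_, hAb⟩,
        ← h.fac n B hBm ⟨_, hBb⟩, ← integral_sub iB iXB]
      exact integral_add iXA (iB.sub iXB)
    rw [e1]
    have e2 : q n * ∫ ω, A ω ∂P + (∫ ω, B ω ∂P - q n * ∫ ω, B ω ∂P)
        = ∫ ω, (q n * A ω + (1 - q n) * B ω) ∂P := by
      rw [integral_add (iA.const_mul _) (iB.const_mul _), integral_const_mul, integral_const_mul]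
      ring
    rw [e2]
    refine integral_mono ((iA.const_mul _).add (iB.const_mul _)) ?_ fun ω => ?_
    · refine bdd_integrable _ (hU.mono (h.le n) le_rfl) (Real.exp (2 * n)) fun ω => ?_
      rw [Real.abs_exp]; exact hUb ω
    · have := scalar_ineq (q n) (Z n ω) (h.q0 n) (h.q1 n) (hZ1 n ω)
      have e3 : q n * A ω + (1 - q n) * B ω = Real.exp (expo X q Z n ω) *
          Real.exp (-(q n * (Z n ω) ^ 2)) * (q n * Real.exp ((1 - q n) * Z n ω)
            + (1 - q n) * Real.exp (-q n * Z n ω)) := by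
        rw [hA, hB]; ring
      show q n * A ω + (1 - q n) * B ω ≤ _
      rw [e3]
      calc _ ≤ Real.exp (expo X q Z n ω) * Real.exp (-(q n * (Z n ω) ^ 2)) *
            Real.exp (q n * (Z n ω) ^ 2) := by gcongr
        _ = Real.exp (expo X q Z n ω) := by
            rw [mul_assoc, ← Real.exp_add]; simp

lemma expo_markov (h : PredBern P X q F) (Z : ℕ → Ω → ℝ) (hZ : ∀ n, Measurable[F n] (Z n))
    (hZ1 : ∀ n ω, |Z n ω| ≤ 1) (n : ℕ) (K : ℝ) :
    P {ω | K ≤ expo X q Z n ω} ≤ ENNReal.ofReal (Real.exp (-K)) := by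
  have hm : Measurable (expo X q Z n) := (expo_meas h Z hZ n).mono (h.le n) le_rfl
  have hi : Integrable (fun ω => Real.exp (expo X q Z n ω)) P := by
    refine bdd_integrable _ (Real.measurable_exp.comp hm) (Real.exp (2 * n)) fun ω => ?_
    rw [Real.abs_exp]
    exact Real.exp_le_exp.mpr ((le_abs_self _).trans (expo_bound h Z hZ1 n ω))
  have h1 := mul_meas_ge_le_integral_of_nonneg (μ := P)
    (Eventually.of_forall fun ω => (Real.exp_pos (expo X q Z n ω)).le) hi (Real.exp K)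
  have h2 := expo_integral_le h Z hZ hZ1 n
  have h3 : {ω | K ≤ expo X q Z n ω} = {ω | Real.exp K ≤ Real.exp (expo X q Z n ω)} := by
    ext ω; simp
  rw [h3]
  have h4 : P.real {ω | Real.exp K ≤ Real.exp (expo X q Z n ω)} ≤ Real.exp (-K) := by
    have := h1.trans h2
    rw [Real.exp_neg, ← one_div, le_div_iff₀ (Real.exp_pos K)]
    linarith
  have := (ENNReal.le_ofReal_iff_toReal_le (measure_ne_top P _) (Real.exp_pos _).le).mpr h4
  exact this

/-- Borel-Cantelli for a family of predictable sums. -/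
theorem bern_bc' (h : PredBern P X q F) {ι : ℕ → Type*} (I : ∀ M, Finset (ι M)) (L : ℕ → ℕ)
    (Z : ∀ M, ι M → ℕ → Ω → ℝ) (K : ∀ M, ι M → ℝ)
    (hZ : ∀ M, ∀ i ∈ I M, ∀ p, Measurable[F p] (Z M i p))
    (hK : Summable fun M => ∑ i ∈ I M, Real.exp (-K M i)) :
    ∀ᵐ ω ∂P, ∀ᶠ M in atTop, ∀ i ∈ I M, (∀ p < L M, |Z M i p ω| ≤ 1) →
      ∑ p ∈ Finset.range (L M), (X p ω - q p) * Z M i p ω
        ≤ ∑ p ∈ Finset.range (L M), q p * (Z M i p ω) ^ 2 + K M i := by
  classical
  set Z' : ∀ M, ι M → ℕ → Ω → ℝ := fun M i p ω => if |Z M i p ω| ≤ 1 then Z M i p ω else 0 with hZ'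
  have hZ'm : ∀ M, ∀ i ∈ I M, ∀ p, Measurable[F p] (Z' M i p) := by
    intro M i hi p
    have h0 : Measurable[F p] (fun ω => |Z M i p ω|) := 
      continuous_abs.measurable.comp (hZ M i hi p)
    have h1 : MeasurableSet[F p] {ω | |Z M i p ω| ≤ 1} := h0 measurableSet_Iic
    exact Measurable.ite h1 (hZ M i hi p) measurable_const
  have hZ'1 : ∀ M i p ω, |Z' M i p ω| ≤ 1 := by
    intro M i p ω
    simp only [hZ']
    split_ifs with h1
    · exact h1
    · simp
  set Bad : ℕ → Set Ω := fun M => ⋃ i ∈ I M, {ω | K M i ≤ expo X q (Z' M i) (L M) ω} with hBad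
  have hb : ∀ M, P (Bad M) ≤ ENNReal.ofReal (∑ i ∈ I M, Real.exp (-K M i)) := by
    intro M
    calc P (Bad M) ≤ ∑ i ∈ I M, P {ω | K M i ≤ expo X q (Z' M i) (L M) ω} :=
          measure_biUnion_finset_le _ _
      _ ≤ ∑ i ∈ I M, ENNReal.ofReal (Real.exp (-K M i)) :=
          Finset.sum_le_sum fun i hi => expo_markov h _ (hZ'm M i hi) (hZ'1 M i) _ _
      _ = _ := (ENNReal.ofReal_sum_of_nonneg fun i _ => (Real.exp_pos _).le).symm
  have hs : ∑' M, P (Bad M) ≠ ⊤ := by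
    refine ne_top_of_le_ne_top ?_ (ENNReal.tsum_le_tsum hb)
    rw [← ENNReal.ofReal_tsum_of_nonneg
      (fun M => Finset.sum_nonneg fun i _ => (Real.exp_pos _).le) hK]
    exact ENNReal.ofReal_ne_top
  filter_upwards [ae_eventually_notMem hs] with ω hω
  filter_upwards [hω] with M hM i hi hz
  simp only [hBad, Set.mem_iUnion, Set.mem_ofPred_eq, not_exists, not_le] at hM
  have h1 := (hM i hi).le
  have h2 : expo X q (Z' M i) (L M) ω = ∑ p ∈ Finset.range (L M), (X p ω - q p) * Z M i p ω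
      - ∑ p ∈ Finset.range (L M), q p * (Z M i p ω) ^ 2 := by
    unfold expo
    rw [← Finset.sum_sub_distrib]
    refine Finset.sum_congr rfl fun p hp => ?_
    have : Z' M i p ω = Z M i p ω := by
      simp only [hZ']; rw [if_pos (hz p (Finset.mem_range.mp hp))]
    rw [this]
  linarith

theorem bern_bc (h : PredBern P X q F) {ι : Type*} (I : ℕ → Finset ι) (L : ℕ → ℕ)
    (Z : ℕ → ι → ℕ → Ω → ℝ) (K : ℕ → ι → ℝ)
    (hZ : ∀ M i p, Measurable[F p] (Z M i p))
    (hK : Summable fun M => ∑ i ∈ I M, Real.exp (-K M i)) :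
    ∀ᵐ ω ∂P, ∀ᶠ M in atTop, ∀ i ∈ I M, (∀ p < L M, |Z M i p ω| ≤ 1) →
      ∑ p ∈ Finset.range (L M), (X p ω - q p) * Z M i p ω
        ≤ ∑ p ∈ Finset.range (L M), q p * (Z M i p ω) ^ 2 + K M i :=
  bern_bc' h (ι := fun _ => ι) I L Z K (fun M i _ p => hZ M i p) hK

end Pool.Agent.Helper49.RS
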