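import Pool.Agent.Helper49.RS.Meas

set_option autoImplicit false
open MeasureTheory ProbabilityTheory Filter Topology

namespace Pool.Agent.Helper49.RS

set_option linter.unusedSectionVars false

open Classical in
/-- All characters of the torus (empty in the degenerate case). -/
noncomputable def chars (M B : ℕ) : Finset (AddChar (Tor M B) ℂ) :=
  if h : Finite (AddChar (Tor M B) ℂ) then (Set.finite_univ_iff.mpr h).toFinset else ∅

lemma finite_chars (M B : ℕ) (hM : 0 < M) (hB : 0 < B) : Finite (AddChar (Tor M B) ℂ) := by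
  have : NeZero (2 * M) := ⟨by omega⟩
  have : NeZero (2 * B) := ⟨by omega⟩
  exact Finite.of_fintype _

lemma mem_chars (M B : ℕ) (hM : 0 < M) (hB : 0 < B) (ψ : AddChar (Tor M B) ℂ) : ψ ∈ chars M B := by
  unfold chars
  rw [dif_pos (finite_chars M B hM hB)]
  simp

lemma card_chars (M B : ℕ) (hM : 0 < M) (hB : 0 < B) : (chars M B).card ≤ 4 * M * B := by
  have : NeZero (2 * M) := ⟨by omega⟩
  have : NeZero (2 * B) := ⟨by omega⟩
  have h1 : (chars M B).card ≤ Fintype.card (AddChar (Tor M B) ℂ) := Finset.card_le_univ _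
  rw [AddChar.card_eq, Fintype.card_prod, ZMod.card, ZMod.card] at h1
  calc _ ≤ _ := h1
    _ = _ := by ring

lemma sum_powerset (s : Finset ℕ) (t : ℝ) : ∑ S ∈ s.powerset, t ^ S.card = (1 + t) ^ s.card := by
  have := Finset.sum_pow_mul_eq_add_pow t 1 s
  simp only [one_pow, mul_one] at this
  rw [this, add_comm]

/-- The index set of the union bound. -/
noncomputable def idx (M B H D : ℕ) :
    Finset (AddChar (Tor M B) ℂ × Finset ℕ × Finset ℕ × Bool × Bool) :=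
  (chars M B) ×ˢ ((Finset.Ico 1 H).powerset ×ˢ ((Finset.range D).powerset ×ˢ Finset.univ))

lemma idx_sum (M B H D : ℕ) (κ : ℝ) :
    ∑ i ∈ idx M B H D, Real.exp (-(κ * ((i.2.1.card : ℝ) + i.2.2.1.card + 1)))
      = (chars M B).card * (4 * (Real.exp (-κ) * ((1 + Real.exp (-κ)) ^ (H - 1)
        * (1 + Real.exp (-κ)) ^ D))) := by
  unfold idx
  rw [Finset.sum_product]
  simp only
  rw [Finset.sum_const, nsmul_eq_mul]
  congr 1
  rw [Finset.sum_product]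
  simp only
  have h1 : ∀ S ∈ (Finset.Ico 1 H).powerset,
      ∑ y ∈ (Finset.range D).powerset ×ˢ (Finset.univ : Finset (Bool × Bool)),
        Real.exp (-(κ * ((S.card : ℝ) + y.1.card + 1)))
      = (Real.exp (-κ)) ^ S.card * (4 * (Real.exp (-κ) * (1 + Real.exp (-κ)) ^ D)) := by
    intro S _
    rw [Finset.sum_product]
    simp only
    have h2 : ∀ T ∈ (Finset.range D).powerset, ∑ _y ∈ (Finset.univ : Finset (Bool × Bool)),
        Real.exp (-(κ * ((S.card : ℝ) + T.card + 1)))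
        = ((Real.exp (-κ)) ^ S.card * (4 * Real.exp (-κ))) * (Real.exp (-κ)) ^ T.card := by
      intro T _
      rw [Finset.sum_const, Finset.card_univ, Fintype.card_prod, Fintype.card_bool, nsmul_eq_mul]
      rw [show -(κ * ((S.card : ℝ) + T.card + 1)) = (S.card : ℝ) * (-κ) + (T.card : ℝ) * (-κ) + (-κ) by
        ring, Real.exp_add, Real.exp_add, Real.exp_nat_mul, Real.exp_nat_mul]
      push_cast; ring
    rw [Finset.sum_congr rfl h2, ← Finset.mul_sum, sum_powerset, Finset.card_range]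
    ring
  rw [Finset.sum_congr rfl h1, ← Finset.sum_mul, sum_powerset, Nat.card_Ico]
  ring

lemma one_add_pow_le (t : ℝ) (ht : 0 ≤ t) (n : ℕ) (h : t * n ≤ 1) : (1 + t) ^ n ≤ 3 := by
  calc (1 + t) ^ n ≤ (Real.exp t) ^ n := by
        have := Real.add_one_le_exp t
        gcongr; linarith
    _ = Real.exp (n * t) := by rw [Real.exp_nat_mul]
    _ ≤ Real.exp 1 := Real.exp_le_exp.mpr (by linarith)
    _ ≤ 3 := by have := Real.exp_one_lt_d9; linarith

variable {a b ε τ : ℝ}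

lemma idx_summable (e : Exps a b ε τ) : Summable fun M : ℕ =>
    ∑ i ∈ idx M (pB τ M) (pH a ε M) (pD b ε τ M),
      Real.exp (-(pκ M * ((i.2.1.card : ℝ) + i.2.2.1.card + 1))) := by
  refine summable_of_le_sq _ 144 (fun M => Finset.sum_nonneg fun i _ => (Real.exp_pos _).le) ?_
  filter_upwards [base_ev e, base2_ev e] with M hb hb2
  have hM0 := Mpos e hb
  have hM1 := M1 e hb
  have hε := e.ε0
  have hpos : ∀ x : ℝ, 0 < (M : ℝ) ^ x := fun x => Real.rpow_pos_of_pos hM0 x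
  have hmono : ∀ x y : ℝ, x ≤ y → (M : ℝ) ^ x ≤ (M : ℝ) ^ y := fun x y h =>
    Real.rpow_le_rpow_of_exponent_le hM1 h
  have hadd : ∀ x y : ℝ, (M : ℝ) ^ x * (M : ℝ) ^ y = (M : ℝ) ^ (x + y) := fun x y =>
    (Real.rpow_add hM0 x y).symm
  rw [idx_sum]
  have hMn : 0 < M := by have := hb.M3; omega
  have hBn : 0 < pB τ M := Nat.ceil_pos.mpr (hpos _)
  have hexp : Real.exp (-pκ M) = (M : ℝ) ^ (-8 : ℝ) := by
    unfold pκ
    rw [Real.rpow_def_of_pos hM0]; congr 1; ring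
  rw [hexp]
  have hH : (pH a ε M : ℝ) ≤ (M : ℝ) ^ (2:ℝ) := by
    have h1 := H_le e hb
    have h2 := hmono (a + ε) 1 (by have := e.c2; linarith)
    have h3 : (4:ℝ) ≤ M := by simpa using hb2.g9
    calc _ ≤ 2 * (M : ℝ) ^ (1:ℝ) := by linarith
      _ = 2 * (M : ℝ) := by rw [Real.rpow_one]
      _ ≤ (M : ℝ) * (M : ℝ) := by nlinarith
      _ = _ := by rw [Real.rpow_two, sq]
  have hD : (pD b ε τ M : ℝ) ≤ (M : ℝ) ^ (3:ℝ) := by
    have h1 := D_le e hb
    have h2 := hb.f4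
    have h3 := hpos τ
    linarith
  have hB : (pB τ M : ℝ) ≤ (M : ℝ) ^ (3:ℝ) := by
    have h1 := B_le e hb
    have h2 := hb.f4
    have h3 := hpos τ
    linarith
  have ht0 : 0 ≤ (M : ℝ) ^ (-8 : ℝ) := (hpos _).le
  have p1 : (1 + (M : ℝ) ^ (-8 : ℝ)) ^ (pH a ε M - 1) ≤ 3 := by
    apply one_add_pow_le _ ht0
    have h1 : ((pH a ε M - 1 : ℕ) : ℝ) ≤ pH a ε M := by exact_mod_cast Nat.sub_le _ 1
    calc (M : ℝ) ^ (-8 : ℝ) * ((pH a ε M - 1 : ℕ) : ℝ) ≤ (M : ℝ) ^ (-8 : ℝ) * (M : ℝ) ^ (2:ℝ) := by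
          have := h1.trans hH
          gcongr
      _ = (M : ℝ) ^ (-6 : ℝ) := by rw [hadd]; norm_num
      _ ≤ 1 := Real.rpow_le_one_of_one_le_of_nonpos hM1 (by norm_num)
  have p2 : (1 + (M : ℝ) ^ (-8 : ℝ)) ^ (pD b ε τ M) ≤ 3 := by
    apply one_add_pow_le _ ht0
    calc (M : ℝ) ^ (-8 : ℝ) * (pD b ε τ M : ℝ) ≤ (M : ℝ) ^ (-8 : ℝ) * (M : ℝ) ^ (3:ℝ) := by
          gcongr
      _ = (M : ℝ) ^ (-5 : ℝ) := by rw [hadd]; norm_num
      _ ≤ 1 := Real.rpow_le_one_of_one_le_of_nonpos hM1 (by norm_num)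
  have p3 : ((chars M (pB τ M)).card : ℝ) ≤ 4 * ((M : ℝ) ^ (1:ℝ) * (M : ℝ) ^ (3:ℝ)) := by
    have h1 : ((chars M (pB τ M)).card : ℝ) ≤ ((4 * M * pB τ M : ℕ) : ℝ) := by
      exact_mod_cast card_chars M (pB τ M) hMn hBn
    push_cast at h1
    calc _ ≤ _ := h1
      _ ≤ 4 * (M : ℝ) * (M : ℝ) ^ (3:ℝ) := by gcongr
      _ = _ := by rw [Real.rpow_one]; ring
  calc _ ≤ (4 * ((M : ℝ) ^ (1:ℝ) * (M : ℝ) ^ (3:ℝ))) * (4 * ((M : ℝ) ^ (-8 : ℝ) * (3 * 3))) := by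
        gcongr
    _ = 144 * ((M : ℝ) ^ (1:ℝ) * ((M : ℝ) ^ (3:ℝ) * (M : ℝ) ^ (-8 : ℝ))) := by ring
    _ = 144 * (M : ℝ) ^ (-4 : ℝ) := by rw [hadd, hadd]; norm_num
    _ ≤ 144 * (M : ℝ) ^ (-2 : ℝ) := by
        have := hmono (-4) (-2) (by norm_num)
        gcongr
    _ = 144 * ((M:ℝ) ^ 2)⁻¹ := by
        rw [Real.rpow_neg hM0.le]; norm_cast

section P
variable {Ω : Type*} [m0 : MeasurableSpace Ω] {P : Measure Ω} [IsProbabilityMeasure P]

theorem prob_ev (e : Exps a b ε τ) (ξ η : ℕ → Ω → ℕ) (hξ : ∀ n, Measurable (ξ n))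
    (hη : ∀ n, Measurable (η n))
    (hind : iIndepFun (fun i : ℕ ⊕ ℕ => Sum.elim ξ η i) P)
    (hp : ∀ n : ℕ, P {ω | ξ n ω = 1} = ENNReal.ofReal (((n : ℝ) + 1) ^ (-a))) :
    ∀ᵐ ω ∂P, ∀ᶠ M : ℕ in atTop, ProbAt (pr ξ ω) (prb a) (bt (pr ξ ω) (pr η ω)) M (pB τ M)
      (pH a ε M) (pD b ε τ M) (pM0 ε M) (pκ M) (lamf (pPb a ε M) (pPi a ε M) (pW ε M) (pκ M)
        (pPb a ε M * pW ε M * (pW ε M * pCN b ε τ M))) := by
  have hPB := predBern_of ξ η hξ hη hind a e.a0.le hp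
  set lam : ℕ → Finset ℕ → Finset ℕ → ℝ := fun M => lamf (pPb a ε M) (pPi a ε M) (pW ε M) (pκ M)
        (pPb a ε M * pW ε M * (pW ε M * pCN b ε τ M)) with hlam
  have key := bern_bc' hPB
    (ι := fun M => AddChar (Tor M (pB τ M)) ℂ × Finset ℕ × Finset ℕ × Bool × Bool)
    (fun M => idx M (pB τ M) (pH a ε M) (pD b ε τ M)) (fun M => M)
    (fun M i p ω => lam M i.2.1 i.2.2.1 * (sgn i.2.2.2.2 * prt i.2.2.2.1
      (zz M (pB τ M) (xw (pr ξ ω) (prb a) (pM0 ε M) M) (bt (pr ξ ω) (pr η ω)) i.1 i.2.1 i.2.2.1 p)))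
    (fun M i => pκ M * ((i.2.1.card : ℝ) + i.2.2.1.card + 1))
    (by
      intro M i hi p
      obtain ⟨ψ, S, T, b', c'⟩ := i
      simp only [idx, Finset.mem_product, Finset.mem_powerset] at hi
      have h1 := @meas_zz Ω (pastF ξ η p) ξ η (prb a) (pM0 ε M) M (pB τ M) (pH a ε M) p
        (fun m hm => past_meas_inl ξ η p m hm) (fun m => past_meas_inr ξ η p m) ψ S T hi.2.1
      have h2 := (meas_prt b').comp h1
      exact (h2.const_mul (sgn c')).const_mul (lam M S T))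
    (idx_summable e)
  filter_upwards [key] with ω hω
  filter_upwards [hω, base_ev e] with M hM hb
  intro ψ S T b' c' hS hT hle
  have hM0 := Mpos e hb
  have hmem : ((ψ, S, T, b', c') : AddChar (Tor M (pB τ M)) ℂ × Finset ℕ × Finset ℕ × Bool × Bool)
      ∈ idx M (pB τ M) (pH a ε M) (pD b ε τ M) := by
    simp only [idx, Finset.mem_product, Finset.mem_powerset, Finset.mem_univ, and_true]
    exact ⟨mem_chars M _ (by have := hb.M3; omega) (Nat.ceil_pos.mpr (Real.rpow_pos_of_pos hM0 _)) ψ,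
      hS, hT⟩
  exact hM (ψ, S, T, b', c') hmem hle

lemma infinite_of_good (c : ℝ) (hc0 : 0 ≤ c) (hc1 : c < 1) {p : ℕ → Prop} [DecidablePred p]
    (hg : ∀ᶠ L : ℕ in atTop, GoodAt (ind p) (prb c) L) : (Set.ofPred p).Infinite := by
  intro hf
  have hc : 0 < 1 - c := by linarith
  obtain ⟨L, h1, h2, h3, h4⟩ := (hg.and ((ev_log 32 (1 - c) (by norm_num) hc).and
    (((tends_nat_rpow (1 - c) hc).eventually_gt_atTop (4 * (hf.toFinset.card : ℝ))).and
      (eventually_ge_atTop 1)))).exists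
  have h5 := h1.lo 0 L (Nat.zero_le _) le_rfl
  rw [← Finset.range_eq_Ico, sum_ind_range] at h5
  have h6 := sum_prb_lower c hc0 0 L L (Nat.zero_le _) le_rfl
  rw [← Finset.range_eq_Ico] at h6
  have hL : (0:ℝ) < L := by exact_mod_cast (by omega : 0 < L)
  have h7 : ((L : ℝ) - (0 : ℕ)) * (L : ℝ) ^ (-c) = (L : ℝ) ^ (1 - c) := by
    rw [show (1 - c) = 1 + (-c) by ring, Real.rpow_add hL, Real.rpow_one]; simp
  rw [h7] at h6
  have h8 : Nat.count p L ≤ hf.toFinset.card := by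
    rw [Nat.count_eq_card_filter_range]
    apply Finset.card_le_card
    intro x hx
    rw [Set.Finite.mem_toFinset]
    exact (Finset.mem_filter.mp hx).2
  have h9 : (Nat.count p L : ℝ) ≤ hf.toFinset.card := by exact_mod_cast h8
  linarith

/-- The probabilistic main theorem. -/
theorem ae_err (ha0 : 0 < a) (ha1 : a < 1 / 2) (hb0 : 0 < b) (hb1 : b < 1 / 2)
    (ξ η : ℕ → Ω → ℕ) (hξ : ∀ n, Measurable (ξ n)) (hη : ∀ n, Measurable (η n))
    (hind : iIndepFun (fun i : ℕ ⊕ ℕ => Sum.elim ξ η i) P)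
    (hp : ∀ n : ℕ, P {ω | ξ n ω = 1} = ENNReal.ofReal (((n : ℝ) + 1) ^ (-a)))
    (hq : ∀ n : ℕ, P {ω | η n ω = 1} = ENNReal.ofReal (((n : ℝ) + 1) ^ (-b))) :
    ∀ᵐ ω ∂P, (Set.ofPred (pr ξ ω)).Infinite ∧ (Set.ofPred (pr η ω)).Infinite ∧
      (∃ c, 0 < c ∧ ErrBound (pr ξ ω) (pr η ω) (prb a) c) ∧
      (∃ c, 0 < c ∧ ErrBound (pr η ω) (pr ξ ω) (prb b) c) := by
  obtain ⟨ε, τ, e⟩ := exists_exps a b ha0 ha1 hb0 hb1
  obtain ⟨ε', τ', e'⟩ := exists_exps b a hb0 hb1 ha0 ha1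
  have hind' : iIndepFun (fun i : ℕ ⊕ ℕ => Sum.elim η ξ i) P := by
    have := hind.precomp (g := Sum.swap) (Equiv.sumComm ℕ ℕ).injective
    convert this using 2 with i
    rcases i with i | i <;> rfl
  have g1 := good_fact (predBern_of ξ η hξ hη hind a ha0.le hp) (prb_anti a ha0.le)
  have g2 := good_fact (predBern_of η ξ hη hξ hind' b hb0.le hq) (prb_anti b hb0.le)
  filter_upwards [g1, g2, prob_ev e ξ η hξ hη hind hp, prob_ev e' η ξ hη hξ hind' hq]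
    with ω h1 h2 h3 h4
  have i1 := infinite_of_good a ha0.le (by linarith) h1
  have i2 := infinite_of_good b hb0.le (by linarith) h2
  exact ⟨i1, i2, ⟨ε / 2, by have := e.ε0; positivity, err_ev e i2 h1 h2 h3⟩,
    ⟨ε' / 2, by have := e'.ε0; positivity, err_ev e' i1 h2 h1 h4⟩⟩

end P

end Pool.Agent.Helper49.RS
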