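import Mathlib

set_option autoImplicit false
open MeasureTheory Filter Topology

namespace Pool.Agent.Helper49.RS

set_option linter.unusedSectionVars false

/-- Garsia's running maximum. -/
noncomputable def gmax {α : Type*} (T : α → α) (f : α → ℝ) : ℕ → α → ℝ
  | 0 => fun _ => 0
  | n + 1 => fun x => max 0 (f x + gmax T f n (T x))

lemma gmax_nonneg {α : Type*} (T : α → α) (f : α → ℝ) (n : ℕ) (x : α) : 0 ≤ gmax T f n x := by
  cases n with
  | zero => simp [gmax]
  | succ n => simp [gmax]

lemma gmax_mono {α : Type*} (T : α → α) (f : α → ℝ) (n : ℕ) (x : α) :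
    gmax T f n x ≤ gmax T f (n + 1) x := by
  induction n generalizing x with
  | zero => exact gmax_nonneg T f 1 x
  | succ n ih =>
    show max 0 (f x + gmax T f n (T x)) ≤ max 0 (f x + gmax T f (n + 1) (T x))
    have := ih (T x)
    exact max_le_max le_rfl (by linarith)

lemma gmax_ge_sum {α : Type*} (T : α → α) (f : α → ℝ) (n : ℕ) (x : α) :
    ∑ k ∈ Finset.range n, f (T^[k] x) ≤ gmax T f n x := by
  induction n generalizing x with
  | zero => simp [gmax]
  | succ n ih =>
    rw [Finset.sum_range_succ']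
    have h := ih (T x)
    show _ ≤ max 0 (f x + gmax T f n (T x))
    refine le_trans ?_ (le_max_right _ _)
    have : ∑ k ∈ Finset.range n, f (T^[k + 1] x) = ∑ k ∈ Finset.range n, f (T^[k] (T x)) :=
      Finset.sum_congr rfl fun k _ => by rw [Function.iterate_succ_apply]
    rw [this]
    simp only [Function.iterate_zero, id_eq]
    linarith

lemma gmax_zero_of_orbit {α : Type*} (T : α → α) (f : α → ℝ) (n : ℕ) (x : α)
    (h : ∀ k, f (T^[k] x) = 0) : gmax T f n x = 0 := by
  induction n generalizing x with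
  | zero => rfl
  | succ n ih =>
    show max 0 (f x + gmax T f n (T x)) = 0
    rw [ih (T x) (fun k => by rw [← Function.iterate_succ_apply]; exact h (k + 1))]
    have := h 0
    simp only [Function.iterate_zero, id_eq] at this
    rw [this]; simp

section
variable {α : Type*} [MeasurableSpace α] {μ : Measure α} [IsProbabilityMeasure μ] {T : α → α}

lemma gmax_meas (hT : Measurable T) (f : α → ℝ) (hf : Measurable f) (n : ℕ) :
    Measurable (gmax T f n) := by
  induction n with
  | zero => exact measurable_const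
  | succ n ih =>
    show Measurable fun x => max 0 (f x + gmax T f n (T x))
    exact measurable_const.max (hf.add (ih.comp hT))

lemma gmax_bdd (f : α → ℝ) (C : ℝ) (hC0 : 0 ≤ C) (hC : ∀ x, |f x| ≤ C) (n : ℕ) (x : α) :
    |gmax T f n x| ≤ n * C := by
  induction n generalizing x with
  | zero => simp [gmax]
  | succ n ih =>
    rw [abs_of_nonneg (gmax_nonneg T f (n + 1) x)]
    show max 0 (f x + gmax T f n (T x)) ≤ _
    have h1 := (abs_le.mp (hC x)).2
    have h2 := (abs_le.mp (ih (T x))).2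
    refine max_le (by positivity) ?_
    push_cast; linarith

lemma int_of_bdd (f : α → ℝ) (hf : Measurable f) (C : ℝ) (hC : ∀ x, |f x| ≤ C) : Integrable f μ :=
  Integrable.of_bound hf.aestronglyMeasurable C (Eventually.of_forall fun x => by simpa using hC x)

lemma int_comp (hT : MeasurePreserving T μ μ) (f : α → ℝ) (hf : Measurable f) :
    ∫ x, f (T x) ∂μ = ∫ x, f x ∂μ := by
  have := integral_map (μ := μ) hT.measurable.aemeasurable (f := f)
    (by rw [hT.map_eq]; exact hf.aestronglyMeasurable)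
  rw [hT.map_eq] at this
  exact this.symm

/-- The maximal ergodic theorem, finite version. -/
lemma maximal_fin (hT : MeasurePreserving T μ μ) (f : α → ℝ) (hf : Measurable f) (C : ℝ)
    (hC : ∀ x, |f x| ≤ C) (n : ℕ) : 0 ≤ ∫ x in {x | 0 < gmax T f (n + 1) x}, f x ∂μ := by
  have hC0 : 0 ≤ C := by
    have : Nonempty α := by
      by_contra h
      rw [not_nonempty_iff] at h
      have : μ Set.univ = 0 := by rw [Set.univ_eq_empty_iff.mpr h, measure_empty]
      rw [measure_univ] at this; exact one_ne_zero this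
    exact (abs_nonneg _).trans (hC (Classical.arbitrary α))
  set E := {x | 0 < gmax T f (n + 1) x} with hE
  have hEm : MeasurableSet E := measurableSet_lt measurable_const (gmax_meas hT.measurable f hf _)
  have hgm := gmax_meas hT.measurable f hf (n + 1)
  have hgi : Integrable (gmax T f (n + 1)) μ :=
    int_of_bdd _ hgm _ (gmax_bdd (T := T) f C hC0 hC (n + 1))
  have hgTi : Integrable (fun x => gmax T f (n + 1) (T x)) μ :=
    int_of_bdd _ (hgm.comp hT.measurable) _ (fun x => gmax_bdd (T := T) f C hC0 hC (n + 1) (T x))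
  have hfi : Integrable f μ := int_of_bdd f hf C hC
  have h1 : ∫ x in E, (gmax T f (n + 1) x - gmax T f (n + 1) (T x)) ∂μ ≤ ∫ x in E, f x ∂μ := by
    refine setIntegral_mono_on (hgi.sub hgTi).integrableOn hfi.integrableOn hEm fun x hx => ?_
    have h2 : 0 < gmax T f (n + 1) x := hx
    have h3 : gmax T f (n + 1) x = f x + gmax T f n (T x) := by
      change 0 < max 0 (f x + gmax T f n (T x)) at h2
      show max 0 (f x + gmax T f n (T x)) = _
      rcases max_choice 0 (f x + gmax T f n (T x)) with h | h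
      · rw [h] at h2; exact absurd h2 (lt_irrefl _)
      · exact h
    have h4 := gmax_mono T f n (T x)
    linarith
  have h5 : ∫ x in E, gmax T f (n + 1) x ∂μ = ∫ x, gmax T f (n + 1) x ∂μ := by
    refine setIntegral_eq_integral_of_forall_compl_eq_zero fun x hx => ?_
    have h6 : ¬ 0 < gmax T f (n + 1) x := hx
    exact le_antisymm (not_lt.mp h6) (gmax_nonneg T f _ x)
  have h7 : ∫ x in E, gmax T f (n + 1) (T x) ∂μ ≤ ∫ x, gmax T f (n + 1) (T x) ∂μ :=
    setIntegral_le_integral hgTi (Eventually.of_forall fun x => gmax_nonneg T f _ _)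
  have h8 : ∫ x, gmax T f (n + 1) (T x) ∂μ = ∫ x, gmax T f (n + 1) x ∂μ := int_comp hT _ hgm
  rw [integral_sub hgi.integrableOn hgTi.integrableOn] at h1
  linarith

/-- The maximal ergodic theorem on invariant sets. -/
lemma maximal_inv (hT : MeasurePreserving T μ μ) (f : α → ℝ) (hf : Measurable f) (C : ℝ)
    (hC : ∀ x, |f x| ≤ C) (A : Set α) (hA : MeasurableSet A) (hAT : T ⁻¹' A = A)
    (hpos : ∀ x ∈ A, ∃ n, 0 < ∑ k ∈ Finset.range n, f (T^[k] x)) :
    0 ≤ ∫ x in A, f x ∂μ := by
  classical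
  set g : α → ℝ := A.indicator f with hg
  have hgm : Measurable g := hf.indicator hA
  have hgb : ∀ x, |g x| ≤ C := by
    intro x
    simp only [hg, Set.indicator]
    split_ifs
    · exact hC x
    · rw [abs_zero]; exact (abs_nonneg _).trans (hC x)
  have hit : ∀ k x, T^[k] x ∈ A ↔ x ∈ A := by
    intro k
    induction k with
    | zero => intro x; simp
    | succ k ih =>
      intro x
      rw [Function.iterate_succ_apply, ih (T x)]
      show x ∈ T ⁻¹' A ↔ x ∈ A
      rw [hAT]
  set E : ℕ → Set α := fun n => {x | 0 < gmax T g (n + 1) x} with hE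
  have hEm : ∀ n, MeasurableSet (E n) := fun n =>
    measurableSet_lt measurable_const (gmax_meas hT.measurable g hgm _)
  have hmono : Monotone E := by
    refine monotone_nat_of_le_succ fun n x hx => ?_
    have h1 : 0 < gmax T g (n + 1) x := hx
    exact lt_of_lt_of_le h1 (gmax_mono T g (n + 1) x)
  have hU : ⋃ n, E n = A := by
    ext x
    rw [Set.mem_iUnion]
    constructor
    · rintro ⟨n, hn⟩
      by_contra hx
      have h1 : 0 < gmax T g (n + 1) x := hn
      rw [gmax_zero_of_orbit T g (n + 1) x (fun k => by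
        simp only [hg]
        exact Set.indicator_of_notMem (fun h => hx ((hit k x).mp h)) f)] at h1
      exact lt_irrefl _ h1
    · intro hx
      obtain ⟨n, hn⟩ := hpos x hx
      refine ⟨n, ?_⟩
      show 0 < gmax T g (n + 1) x
      have h2 : ∑ k ∈ Finset.range n, f (T^[k] x) = ∑ k ∈ Finset.range n, g (T^[k] x) := by
        refine Finset.sum_congr rfl fun k _ => ?_
        simp only [hg]
        rw [Set.indicator_of_mem ((hit k x).mpr hx)]
      rw [h2] at hn
      exact lt_of_lt_of_le hn ((gmax_ge_sum T g n x).trans (gmax_mono T g n x))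
  have hgi : Integrable g μ := int_of_bdd g hgm C hgb
  have h3 := tendsto_setIntegral_of_monotone hEm hmono hgi.integrableOn
  rw [hU] at h3
  have h4 : 0 ≤ ∫ x in A, g x ∂μ :=
    ge_of_tendsto h3 (Eventually.of_forall fun n => maximal_fin hT g hgm C hgb n)
  have h5 : ∫ x in A, g x ∂μ = ∫ x in A, f x ∂μ :=
    setIntegral_congr_fun hA fun x hx => by simp only [hg]; exact Set.indicator_of_mem hx f
  rwa [h5] at h4

/-- Birkhoff averages. -/
noncomputable def avg (T : α → α) (f : α → ℝ) (n : ℕ) (x : α) : ℝ :=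
  (n : ℝ)⁻¹ * ∑ k ∈ Finset.range n, f (T^[k] x)

lemma avg_meas (hT : Measurable T) (f : α → ℝ) (hf : Measurable f) (n : ℕ) :
    Measurable (avg T f n) := by
  unfold avg
  exact measurable_const.mul (Finset.measurable_sum _ fun k _ => hf.comp (hT.iterate k))

lemma avg_bdd (f : α → ℝ) (C : ℝ) (hC0 : 0 ≤ C) (hC : ∀ x, |f x| ≤ C) (n : ℕ) (x : α) :
    |avg T f n x| ≤ C := by
  unfold avg
  rcases Nat.eq_zero_or_pos n with h | h
  · subst h; simpa using hC0
  · have hn : (0:ℝ) < n := by exact_mod_cast h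
    rw [abs_mul, abs_inv, abs_of_pos hn, inv_mul_le_iff₀ hn]
    calc _ ≤ ∑ k ∈ Finset.range n, |f (T^[k] x)| := Finset.abs_sum_le_sum_abs _ _
      _ ≤ ∑ k ∈ Finset.range n, C := Finset.sum_le_sum fun k _ => hC _
      _ = n * C := by simp

lemma avg_shift (f : α → ℝ) (C : ℝ) (hC : ∀ x, |f x| ≤ C) (n : ℕ) (x : α) :
    |avg T f n (T x) - avg T f n x| ≤ (n : ℝ)⁻¹ * (2 * C) := by
  unfold avg
  rw [← mul_sub, abs_mul, abs_inv, Nat.abs_cast]
  have h1 : ∑ k ∈ Finset.range n, f (T^[k] (T x)) = ∑ k ∈ Finset.range n, f (T^[k + 1] x) :=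
    Finset.sum_congr rfl fun k _ => by rw [Function.iterate_succ_apply]
  have h2 : ∑ k ∈ Finset.range n, f (T^[k + 1] x) - ∑ k ∈ Finset.range n, f (T^[k] x)
      = f (T^[n] x) - f (T^[0] x) := by
    rw [← Finset.sum_sub_distrib]; exact Finset.sum_range_sub (fun k => f (T^[k] x)) n
  rw [h1, h2]
  refine mul_le_mul_of_nonneg_left ?_ (by positivity)
  calc _ ≤ |f (T^[n] x)| + |f (T^[0] x)| := abs_sub _ _
    _ ≤ 2 * C := by have := hC (T^[n] x); have := hC (T^[0] x); linarith

/-- The upper half of the pointwise ergodic theorem. -/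
lemma birkhoff_upper (hT : MeasurePreserving T μ μ) (f : α → ℝ) (hf : Measurable f) (C : ℝ)
    (hC : ∀ x, |f x| ≤ C) (h : α → ℝ) (hh : Measurable[MeasurableSpace.invariants T] h)
    (hhC : ∀ x, |h x| ≤ C)
    (hint : ∀ A, MeasurableSet[MeasurableSpace.invariants T] A → ∫ x in A, f x ∂μ = ∫ x in A, h x ∂μ)
    (ε : ℝ) (hε : 0 < ε) :
    ∀ᵐ x ∂μ, ∀ k : ℕ, ∀ᶠ n in atTop, avg T f n x < h x + ε + 1 / ((k : ℝ) + 1) := by
  have hhm : Measurable h := hh.mono (MeasurableSpace.invariants_le T) le_rfl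
  have hhT : ∀ x, h (T x) = h x := by
    intro x
    have := MeasurableSpace.comp_eq_of_measurable_invariants hh
    exact congrFun this x
  set G : Set α := {x | ∀ k : ℕ, ∀ᶠ n in atTop, avg T f n x < h x + ε + 1 / ((k : ℝ) + 1)} with hG
  have hGm : MeasurableSet G := by
    have : G = ⋂ k : ℕ, ⋃ N : ℕ, ⋂ n : ℕ, ⋂ (_ : N ≤ n),
        {x | avg T f n x < h x + ε + 1 / ((k : ℝ) + 1)} := by
      ext x; simp [hG, eventually_atTop]
    rw [this]
    refine MeasurableSet.iInter fun k => MeasurableSet.iUnion fun N => MeasurableSet.iInter fun n =>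
      MeasurableSet.iInter fun _ => ?_
    exact measurableSet_lt (avg_meas hT.measurable f hf n)
      ((hhm.add measurable_const).add measurable_const)
  have hGT : T ⁻¹' G = G := by
    have hsh : Tendsto (fun n : ℕ => (n : ℝ)⁻¹ * (2 * C)) atTop (𝓝 0) := by
      have := (tendsto_inv_atTop_nhds_zero_nat (𝕜 := ℝ)).mul_const (2 * C)
      simpa using this
    ext x
    constructor
    · intro hx k
      have h1 : ∀ᶠ n in atTop, avg T f n (T x) < h (T x) + ε + 1 / (((2 * k + 1 : ℕ) : ℝ) + 1) :=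
        hx (2 * k + 1)
      have hpos : (0:ℝ) < 1 / (2 * ((k : ℝ) + 1)) := by positivity
      filter_upwards [h1, hsh.eventually_lt_const hpos] with n h2 h3
      have h4 := avg_shift (T := T) f C hC n x
      rw [hhT] at h2
      have h5 : (1:ℝ) / (((2 * k + 1 : ℕ) : ℝ) + 1) = 1 / (2 * ((k : ℝ) + 1)) := by push_cast; ring
      have h6 : (1:ℝ) / (2 * ((k : ℝ) + 1)) + 1 / (2 * ((k : ℝ) + 1)) = 1 / ((k : ℝ) + 1) := by
        field_simp; norm_num
      rw [h5] at h2
      have h7 := (abs_le.mp h4).1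
      linarith
    · intro hx k
      have h1 : ∀ᶠ n in atTop, avg T f n x < h x + ε + 1 / (((2 * k + 1 : ℕ) : ℝ) + 1) :=
        hx (2 * k + 1)
      have hpos : (0:ℝ) < 1 / (2 * ((k : ℝ) + 1)) := by positivity
      filter_upwards [h1, hsh.eventually_lt_const hpos] with n h2 h3
      have h4 := avg_shift (T := T) f C hC n x
      rw [hhT]
      have h5 : (1:ℝ) / (((2 * k + 1 : ℕ) : ℝ) + 1) = 1 / (2 * ((k : ℝ) + 1)) := by push_cast; ring
      have h6 : (1:ℝ) / (2 * ((k : ℝ) + 1)) + 1 / (2 * ((k : ℝ) + 1)) = 1 / ((k : ℝ) + 1) := by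
        field_simp; norm_num
      rw [h5] at h2
      have h7 := (abs_le.mp h4).2
      linarith
  have hAm : MeasurableSet Gᶜ := hGm.compl
  have hAT : T ⁻¹' Gᶜ = Gᶜ := by rw [Set.preimage_compl, hGT]
  have hfi : Integrable f μ := int_of_bdd f hf C hC
  have hhi : Integrable h μ := int_of_bdd h hhm C hhC
  have hmax := maximal_inv hT (fun x => f x - h x - ε) ((hf.sub hhm).sub measurable_const)
    (C + C + ε) (fun x => by
      calc |f x - h x - ε| ≤ |f x - h x| + |ε| := abs_sub _ _
        _ ≤ (|f x| + |h x|) + |ε| := by have := abs_sub (f x) (h x); linarith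
        _ ≤ C + C + ε := by
          have := hC x; have := hhC x; rw [abs_of_pos hε]; linarith) Gᶜ hAm hAT
    (fun x hx => by
      have hx' : ¬ ∀ k : ℕ, ∀ᶠ n in atTop, avg T f n x < h x + ε + 1 / ((k : ℝ) + 1) := hx
      rw [not_forall] at hx'
      obtain ⟨k, hk⟩ := hx'
      rw [not_eventually] at hk
      obtain ⟨n, h1, h2⟩ := (hk.and_eventually (eventually_ge_atTop 1)).exists
      refine ⟨n, ?_⟩
      have hn : (0:ℝ) < n := by exact_mod_cast (by omega : 0 < n)
      have hhit : ∀ j, h (T^[j] x) = h x := by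
        intro j
        induction j with
        | zero => rfl
        | succ j ih => rw [Function.iterate_succ_apply', hhT, ih]
      have h3 : ∑ j ∈ Finset.range n, (f (T^[j] x) - h (T^[j] x) - ε)
          = n * (avg T f n x - h x - ε) := by
        rw [Finset.sum_sub_distrib, Finset.sum_sub_distrib]
        simp_rw [hhit]
        unfold avg
        simp only [Finset.sum_const, Finset.card_range, nsmul_eq_mul]
        field_simp
      show 0 < ∑ j ∈ Finset.range n, (f (T^[j] x) - h (T^[j] x) - ε)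
      rw [h3]
      apply mul_pos hn
      have h4 : (0:ℝ) < 1 / ((k : ℝ) + 1) := by positivity
      linarith)
  have hAinv : MeasurableSet[MeasurableSpace.invariants T] Gᶜ :=
    MeasurableSpace.measurableSet_invariants.mpr ⟨hAm, hAT⟩
  have h9 : ∫ x in Gᶜ, (f x - h x - ε) ∂μ = -(ε * μ.real Gᶜ) := by
    have e1 : ∫ x in Gᶜ, (f x - h x - ε) ∂μ
        = ∫ x in Gᶜ, f x ∂μ - ∫ x in Gᶜ, h x ∂μ - ∫ _ in Gᶜ, ε ∂μ := by
      have i1 : ∫ x in Gᶜ, (f x - h x - ε) ∂μ = ∫ x in Gᶜ, (f x - h x) ∂μ - ∫ _ in Gᶜ, ε ∂μ :=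
        integral_sub (hfi.sub hhi).integrableOn (integrable_const ε).integrableOn
      rw [i1, integral_sub hfi.integrableOn hhi.integrableOn]
    rw [e1, hint _ hAinv]
    simp
    ring
  rw [h9] at hmax
  have h10 : μ.real Gᶜ = 0 := by
    have : 0 ≤ μ.real Gᶜ := measureReal_nonneg
    nlinarith
  have h11 : μ Gᶜ = 0 := by
    rw [Measure.real, ENNReal.toReal_eq_zero_iff] at h10
    rcases h10 with h | h
    · exact h
    · exact absurd h (measure_ne_top _ _)
  have : ∀ᵐ x ∂μ, x ∈ G := by rw [ae_iff]; exact h11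
  exact this

/-- The pointwise ergodic theorem for bounded functions. -/
theorem birkhoff (hT : MeasurePreserving T μ μ) (f : α → ℝ) (hf : Measurable f) (C : ℝ)
    (hC : ∀ x, |f x| ≤ C) (h : α → ℝ) (hh : Measurable[MeasurableSpace.invariants T] h)
    (hhC : ∀ x, |h x| ≤ C)
    (hint : ∀ A, MeasurableSet[MeasurableSpace.invariants T] A → ∫ x in A, f x ∂μ = ∫ x in A, h x ∂μ) :
    ∀ᵐ x ∂μ, Tendsto (fun n => avg T f n x) atTop (𝓝 (h x)) := by
  have up : ∀ᵐ x ∂μ, ∀ j : ℕ, ∀ k : ℕ, ∀ᶠ n in atTop,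
      avg T f n x < h x + 1 / ((j : ℝ) + 1) + 1 / ((k : ℝ) + 1) := by
    rw [ae_all_iff]
    intro j
    exact birkhoff_upper hT f hf C hC h hh hhC hint (1 / ((j : ℝ) + 1)) (by positivity)
  have lo : ∀ᵐ x ∂μ, ∀ j : ℕ, ∀ k : ℕ, ∀ᶠ n in atTop,
      avg T (fun x => -f x) n x < -h x + 1 / ((j : ℝ) + 1) + 1 / ((k : ℝ) + 1) := by
    rw [ae_all_iff]
    intro j
    refine birkhoff_upper hT (fun x => -f x) hf.neg C (fun x => by rw [abs_neg]; exact hC x)
      (fun x => -h x) ?_ (fun x => by rw [abs_neg]; exact hhC x) ?_ (1 / ((j : ℝ) + 1))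
      (by positivity)
    · exact measurable_neg.comp hh
    · intro A hA
      rw [integral_neg, integral_neg, hint A hA]
  filter_upwards [up, lo] with x h1 h2
  rw [Metric.tendsto_atTop]
  intro δ hδ
  obtain ⟨j, hj⟩ := exists_nat_one_div_lt (half_pos hδ)
  have h3 := h1 j j
  have h4 := h2 j j
  have h5 := h3.and h4
  rw [eventually_atTop] at h5
  obtain ⟨N, hN⟩ := h5
  refine ⟨N, fun n hn => ?_⟩
  obtain ⟨h6, h7⟩ := hN n hn
  have h8 : avg T (fun x => -f x) n x = -avg T f n x := by
    unfold avg; rw [Finset.sum_neg_distrib]; ring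
  rw [h8] at h7
  rw [Real.dist_eq, abs_lt]
  constructor <;> linarith

end

end Pool.Agent.Helper49.RS
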