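import Mathlib

set_option autoImplicit false
open MeasureTheory Filter Topology

namespace Pool.Agent.Helper49.RS

set_option linter.unusedSectionVars false

lemma abel_id (π d : ℕ → ℝ) (M : ℕ) :
    ∑ n ∈ Finset.range M, π n * d n = π M * (∑ k ∈ Finset.range M, d k)
      + ∑ n ∈ Finset.range M, (π n - π (n + 1)) * ∑ k ∈ Finset.range (n + 1), d k := by
  induction M with
  | zero => simp
  | succ M ih =>
    rw [Finset.sum_range_succ, ih, Finset.sum_range_succ (fun n => (π n - π (n + 1)) *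
      ∑ k ∈ Finset.range (n + 1), d k), Finset.sum_range_succ d]
    ring

lemma weighted_bound (π d : ℕ → ℝ) (hπ : Antitone π) (h0 : ∀ n, 0 ≤ π n) (η K : ℝ)
    (h : ∀ n, |∑ k ∈ Finset.range n, d k| ≤ η * n + K) (M : ℕ) :
    |∑ n ∈ Finset.range M, π n * d n| ≤ η * (∑ n ∈ Finset.range M, π n) + K * π 0 := by
  have e1 : ∑ n ∈ Finset.range M, π n = π M * M + ∑ n ∈ Finset.range M, (π n - π (n + 1)) * ((n : ℝ) + 1) := by
    have := abel_id π (fun _ => 1) M
    simpa using this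
  have e2 : ∑ n ∈ Finset.range M, (π n - π (n + 1)) = π 0 - π M := by
    exact Finset.sum_range_sub' π M
  rw [abel_id π d M]
  calc _ ≤ |π M * (∑ k ∈ Finset.range M, d k)|
        + |∑ n ∈ Finset.range M, (π n - π (n + 1)) * ∑ k ∈ Finset.range (n + 1), d k| := abs_add_le _ _
    _ ≤ π M * (η * M + K) + ∑ n ∈ Finset.range M, (π n - π (n + 1)) * (η * ((n : ℝ) + 1) + K) := by
        refine add_le_add ?_ ?_
        · rw [abs_mul, abs_of_nonneg (h0 M)]
          exact mul_le_mul_of_nonneg_left (h M) (h0 M)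
        · refine (Finset.abs_sum_le_sum_abs _ _).trans (Finset.sum_le_sum fun n _ => ?_)
          have h1 : 0 ≤ π n - π (n + 1) := sub_nonneg.mpr (hπ (Nat.le_succ n))
          rw [abs_mul, abs_of_nonneg h1]
          have h2 := h (n + 1)
          push_cast at h2
          exact mul_le_mul_of_nonneg_left h2 h1
    _ = η * (π M * M + ∑ n ∈ Finset.range M, (π n - π (n + 1)) * ((n : ℝ) + 1))
        + K * (π M + ∑ n ∈ Finset.range M, (π n - π (n + 1))) := by
        have : ∑ n ∈ Finset.range M, (π n - π (n + 1)) * (η * ((n : ℝ) + 1) + K)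
            = η * ∑ n ∈ Finset.range M, (π n - π (n + 1)) * ((n : ℝ) + 1)
              + K * ∑ n ∈ Finset.range M, (π n - π (n + 1)) := by
          rw [Finset.mul_sum, Finset.mul_sum, ← Finset.sum_add_distrib]
          exact Finset.sum_congr rfl fun n _ => by ring
        rw [this]; ring
    _ = _ := by rw [← e1, e2]; ring

/-- Averages with decreasing weights. -/
theorem weighted_avg (π c : ℕ → ℝ) (hπ : Antitone π) (h0 : ∀ n, 0 ≤ π n)
    (hPt : Tendsto (fun M => ∑ n ∈ Finset.range M, π n) atTop atTop) (L : ℝ)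
    (hc : Tendsto (fun n : ℕ => (n : ℝ)⁻¹ * ∑ k ∈ Finset.range n, c k) atTop (𝓝 L)) :
    Tendsto (fun M => (∑ n ∈ Finset.range M, π n)⁻¹ * ∑ n ∈ Finset.range M, π n * c n) atTop (𝓝 L) := by
  rw [Metric.tendsto_atTop]
  intro δ hδ
  set d : ℕ → ℝ := fun k => c k - L with hd
  obtain ⟨n0, hn0⟩ := (Metric.tendsto_atTop.mp hc) (δ / 2) (by positivity)
  set K := ∑ n ∈ Finset.range (n0 + 1), |∑ k ∈ Finset.range n, d k| with hK
  have hK0 : 0 ≤ K := Finset.sum_nonneg fun _ _ => abs_nonneg _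
  have hbound : ∀ n, |∑ k ∈ Finset.range n, d k| ≤ (δ / 2) * n + K := by
    intro n
    rcases le_or_gt n n0 with h | h
    · have h1 : |∑ k ∈ Finset.range n, d k| ≤ K :=
        Finset.single_le_sum (f := fun n => |∑ k ∈ Finset.range n, d k|)
          (fun _ _ => abs_nonneg _) (Finset.mem_range.mpr (by omega))
      have : 0 ≤ (δ / 2) * n := by positivity
      linarith
    · have h1 := hn0 n h.le
      have hn : (0:ℝ) < n := by exact_mod_cast (by omega : 0 < n)
      rw [Real.dist_eq] at h1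
      have h2 : ∑ k ∈ Finset.range n, d k = n * ((n : ℝ)⁻¹ * ∑ k ∈ Finset.range n, c k - L) := by
        simp only [hd]
        rw [Finset.sum_sub_distrib]
        simp only [Finset.sum_const, Finset.card_range, nsmul_eq_mul]
        field_simp
      rw [h2, abs_mul, abs_of_pos hn]
      nlinarith
  obtain ⟨M1, hM1⟩ := (tendsto_atTop.mp hPt (2 * (K * π 0 + 1) / δ + 1)).exists_forall_of_atTop
  refine ⟨M1, fun M hM => ?_⟩
  have h3 := hM1 M hM
  have hpos : 0 < ∑ n ∈ Finset.range M, π n := by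
    have : 0 ≤ 2 * (K * π 0 + 1) / δ := by have := h0 0; positivity
    linarith
  have h4 := weighted_bound π d hπ h0 (δ / 2) K hbound M
  rw [Real.dist_eq]
  have h5 : (∑ n ∈ Finset.range M, π n)⁻¹ * ∑ n ∈ Finset.range M, π n * c n - L
      = (∑ n ∈ Finset.range M, π n)⁻¹ * ∑ n ∈ Finset.range M, π n * d n := by
    have : ∑ n ∈ Finset.range M, π n * d n
        = ∑ n ∈ Finset.range M, π n * c n - (∑ n ∈ Finset.range M, π n) * L := by
      rw [Finset.sum_mul, ← Finset.sum_sub_distrib]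
      exact Finset.sum_congr rfl fun n _ => by simp only [hd]; ring
    rw [this]; field_simp
  rw [h5, abs_mul, abs_inv, abs_of_pos hpos, inv_mul_lt_iff₀ hpos]
  have h6 : 2 * (K * π 0 + 1) / δ < ∑ n ∈ Finset.range M, π n := by linarith
  rw [div_lt_iff₀ hδ] at h6
  nlinarith

/-- A polynomially sparse subsequence controls averages of bounded sequences. -/
theorem avg_of_subseq (c : ℕ → ℝ) (C : ℝ) (hC : ∀ k, |c k| ≤ C) (p : ℕ) (hp : 1 ≤ p) (L : ℝ)
    (h : Tendsto (fun j : ℕ => ((j ^ p : ℕ) : ℝ)⁻¹ * ∑ k ∈ Finset.range (j ^ p), c k) atTop (𝓝 L)) :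
    Tendsto (fun n : ℕ => (n : ℝ)⁻¹ * ∑ k ∈ Finset.range n, c k) atTop (𝓝 L) := by
  set J : ℕ → ℕ := fun n => Nat.findGreatest (fun j => j ^ p ≤ n) n with hJ
  have hJle : ∀ n, (J n) ^ p ≤ n := by
    intro n
    have := Nat.findGreatest_spec (P := fun j => j ^ p ≤ n) (m := 0) (n := n) (Nat.zero_le n)
      (by rw [zero_pow (by omega)]; exact Nat.zero_le _)
    exact this
  have hJlt : ∀ n, n < (J n + 1) ^ p := by
    intro n
    by_contra hcon
    have h1 : (J n + 1) ^ p ≤ n := not_lt.mp hcon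
    have h2 : J n + 1 ≤ n := (Nat.le_self_pow (by omega) _).trans h1
    have := Nat.le_findGreatest (P := fun j => j ^ p ≤ n) h2 h1
    have h3 : J n + 1 ≤ J n := this
    omega
  have hJt : Tendsto J atTop atTop := by
    rw [tendsto_atTop]
    intro b
    filter_upwards [eventually_ge_atTop (b ^ p)] with n hn
    by_contra hcon
    have h1 : J n + 1 ≤ b := by omega
    have h2 : (J n + 1) ^ p ≤ b ^ p := Nat.pow_le_pow_left h1 p
    have := hJlt n
    omega
  have hC0 : 0 ≤ C := (abs_nonneg _).trans (hC 0)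
  have h1 : Tendsto (fun n => ((J n ^ p : ℕ) : ℝ)⁻¹ * ∑ k ∈ Finset.range (J n ^ p), c k) atTop (𝓝 L) :=
    h.comp hJt
  have h2 : Tendsto (fun n => 2 * C * (1 - ((J n : ℝ) / ((J n : ℝ) + 1)) ^ p)) atTop (𝓝 0) := by
    have h3 : Tendsto (fun j : ℕ => (j : ℝ) / ((j : ℝ) + 1)) atTop (𝓝 1) :=
      tendsto_natCast_div_add_atTop (1:ℝ)
    have h4 := ((h3.comp hJt).pow p)
    have h5 := ((tendsto_const_nhds (x := (1:ℝ))).sub h4).const_mul (2 * C)
    simpa using h5
  have h6 : Tendsto (fun n : ℕ => (n : ℝ)⁻¹ * ∑ k ∈ Finset.range n, c k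
      - ((J n ^ p : ℕ) : ℝ)⁻¹ * ∑ k ∈ Finset.range (J n ^ p), c k) atTop (𝓝 0) := by
    refine squeeze_zero_norm' ?_ h2
    filter_upwards [hJt.eventually_ge_atTop 1, eventually_ge_atTop 1] with n hj hn
    set N := J n ^ p with hN
    have hN1 : 1 ≤ N := Nat.one_le_pow _ _ hj
    have hNn : N ≤ n := hJle n
    have hNr : (0:ℝ) < N := by exact_mod_cast (by omega : 0 < N)
    have hnr : (0:ℝ) < n := by exact_mod_cast (by omega : 0 < n)
    have hNnr : (N : ℝ) ≤ n := by exact_mod_cast hNn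
    have hsplit : ∑ k ∈ Finset.range n, c k = ∑ k ∈ Finset.range N, c k + ∑ k ∈ Finset.Ico N n, c k :=
      (Finset.sum_range_add_sum_Ico c hNn).symm
    have b1 : |∑ k ∈ Finset.range N, c k| ≤ N * C := by
      calc _ ≤ ∑ k ∈ Finset.range N, |c k| := Finset.abs_sum_le_sum_abs _ _
        _ ≤ ∑ k ∈ Finset.range N, C := Finset.sum_le_sum fun k _ => hC k
        _ = N * C := by simp
    have b2 : |∑ k ∈ Finset.Ico N n, c k| ≤ ((n : ℝ) - N) * C := by
      calc _ ≤ ∑ k ∈ Finset.Ico N n, |c k| := Finset.abs_sum_le_sum_abs _ _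
        _ ≤ ∑ k ∈ Finset.Ico N n, C := Finset.sum_le_sum fun k _ => hC k
        _ = ((n : ℝ) - N) * C := by
            rw [Finset.sum_const, Nat.card_Ico, nsmul_eq_mul, Nat.cast_sub hNn]
    have e1 : (n : ℝ)⁻¹ * ∑ k ∈ Finset.range n, c k - (N : ℝ)⁻¹ * ∑ k ∈ Finset.range N, c k
        = (n : ℝ)⁻¹ * (∑ k ∈ Finset.Ico N n, c k
          - (((n : ℝ) - N) / N) * ∑ k ∈ Finset.range N, c k) := by
      rw [hsplit]; field_simp; ring
    rw [e1, norm_mul, norm_inv, Real.norm_of_nonneg hnr.le, Real.norm_eq_abs]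
    have b3 : |∑ k ∈ Finset.Ico N n, c k - (((n : ℝ) - N) / N) * ∑ k ∈ Finset.range N, c k|
        ≤ 2 * C * ((n : ℝ) - N) := by
      calc _ ≤ |∑ k ∈ Finset.Ico N n, c k| + |(((n : ℝ) - N) / N) * ∑ k ∈ Finset.range N, c k| :=
            abs_sub _ _
        _ ≤ ((n : ℝ) - N) * C + (((n : ℝ) - N) / N) * (N * C) := by
            rw [abs_mul (((n : ℝ) - N) / N), abs_of_nonneg (by
              have : 0 ≤ (n : ℝ) - N := by linarith
              positivity : 0 ≤ ((n : ℝ) - N) / N)]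
            have : 0 ≤ (n : ℝ) - N := by linarith
            gcongr
        _ = _ := by field_simp; ring
    have b4 : ((n : ℝ) - N) / n ≤ 1 - ((J n : ℝ) / ((J n : ℝ) + 1)) ^ p := by
      have h7 : (n : ℝ) ≤ ((J n : ℝ) + 1) ^ p := by exact_mod_cast (hJlt n).le
      have h8 : (N : ℝ) / ((J n : ℝ) + 1) ^ p ≤ (N : ℝ) / n := by gcongr
      have h9 : ((J n : ℝ) / ((J n : ℝ) + 1)) ^ p = (N : ℝ) / ((J n : ℝ) + 1) ^ p := by
        rw [div_pow, hN]; push_cast; rfl
      rw [h9, sub_div, div_self hnr.ne']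
      linarith
    calc (n : ℝ)⁻¹ * _ ≤ (n : ℝ)⁻¹ * (2 * C * ((n : ℝ) - N)) := by gcongr
      _ = 2 * C * (((n : ℝ) - N) / n) := by field_simp
      _ ≤ _ := by gcongr
  have := h6.add h1
  simpa using this

/-- Summable integrals force almost everywhere convergence to zero. -/
theorem ae_zero_of_summable {α : Type*} [MeasurableSpace α] {μ : Measure α} (h : ℕ → α → ℝ)
    (hm : ∀ j, Measurable (h j)) (h0 : ∀ j x, 0 ≤ h j x) (hi : ∀ j, Integrable (h j) μ)
    (hs : Summable fun j => ∫ x, h j x ∂μ) :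
    ∀ᵐ x ∂μ, Tendsto (fun j => h j x) atTop (𝓝 0) := by
  have h1 : ∫⁻ x, ∑' j, ENNReal.ofReal (h j x) ∂μ ≠ ⊤ := by
    rw [lintegral_tsum fun j => (hm j).ennreal_ofReal.aemeasurable]
    have h2 : ∀ j, ∫⁻ x, ENNReal.ofReal (h j x) ∂μ = ENNReal.ofReal (∫ x, h j x ∂μ) := fun j =>
      (ofReal_integral_eq_lintegral_ofReal (hi j) (Eventually.of_forall (h0 j))).symm
    simp_rw [h2]
    rw [← ENNReal.ofReal_tsum_of_nonneg (fun j => integral_nonneg (h0 j)) hs]
    exact ENNReal.ofReal_ne_top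
  have h3 := ae_lt_top' (AEMeasurable.tsum fun j => (hm j).ennreal_ofReal.aemeasurable) h1
  filter_upwards [h3] with x hx
  have h4 := ENNReal.tendsto_atTop_zero_of_tsum_ne_top hx.ne
  have h5 := (ENNReal.tendsto_toReal (ENNReal.zero_ne_top)).comp h4
  simp only [ENNReal.toReal_zero] at h5
  refine h5.congr fun j => ?_
  simp [ENNReal.toReal_ofReal (h0 j x)]

end Pool.Agent.Helper49.RS
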