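import Pool.Agent.Helper49.RS.Prob
import Pool.Agent.Helper49.RS.Birkhoff
import Pool.Agent.Helper49.RS.Weighted

set_option autoImplicit false
open MeasureTheory Filter Topology

namespace Pool.Agent.Helper49.RS

set_option linter.unusedSectionVars false

variable {pX pY : ℕ → Prop} [DecidablePred pX] [DecidablePred pY]

lemma pair_sum (Φ : ℕ → ℕ → ℝ) (M : ℕ) :
    ∑ n ∈ Finset.range M, ind pX n * Φ n (bt pX pY n)
      = ∑ k ∈ Finset.range (Nat.count pX M), Φ (Nat.nth pX k) (Nat.nth pY k) := by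
  induction M with
  | zero => simp
  | succ M ih =>
    rw [Finset.sum_range_succ, ih, Nat.count_succ]
    by_cases h : pX M
    · rw [if_pos h, Finset.sum_range_succ, Nat.nth_count h]
      unfold ind bt
      rw [if_pos h, one_mul]
    · rw [if_neg h, add_zero]
      unfold ind
      rw [if_neg h, zero_mul, add_zero]

lemma nth_ge (hX : (Set.ofPred pX).Infinite) (k : ℕ) : k ≤ Nat.nth pX k :=
  Nat.le_nth fun hf => absurd hf hX

section
variable {α : Type} [MeasurableSpace α] {μ : Measure α} [IsProbabilityMeasure μ] {T S : α → α}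

/-- Along a sparse subsequence the error term tends to zero almost everywhere. -/
lemma err_ae (hT : MeasurePreserving T μ μ) (hS : MeasurePreserving S μ μ)
    (hTS : ∀ z, T (S z) = S (T z)) (hX : (Set.ofPred pX).Infinite) {π : ℕ → ℝ} {c : ℝ} (hc : 0 < c)
    (hE : ErrBound pX pY π c) (f g : α → ℝ) (hf : Measurable f) (hg : Measurable g)
    (hf1 : ∀ z, |f z| ≤ 1) (hg1 : ∀ z, |g z| ≤ 1) (p : ℕ) (hp : 1 < p * c) :
    ∀ᵐ z ∂μ, Tendsto (fun j : ℕ => ((j ^ p : ℕ) : ℝ)⁻¹ *
      ∑ n ∈ Finset.range (Nat.nth pX (j ^ p)), (ind pX n - π n) *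
        (f (T^[n] z) * g (S^[bt pX pY n] z))) atTop (𝓝 0) := by
  have hp1 : 1 ≤ p := by
    rcases Nat.eq_zero_or_pos p with h | h
    · subst h; simp at hp; linarith
    · exact h
  set E : ℕ → α → ℝ := fun M z => ∑ n ∈ Finset.range M, (ind pX n - π n) *
        (f (T^[n] z) * g (S^[bt pX pY n] z)) with hEdef
  have hEm : ∀ M, Measurable (E M) := by
    intro M
    refine Finset.measurable_sum _ fun n _ => ?_
    exact measurable_const.mul ((hf.comp (hT.iterate n).measurable).mul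
      (hg.comp (hS.iterate _).measurable))
  have hEb : ∀ M z, |E M z| ≤ ∑ n ∈ Finset.range M, |ind pX n - π n| := by
    intro M z
    refine (Finset.abs_sum_le_sum_abs _ _).trans (Finset.sum_le_sum fun n _ => ?_)
    rw [abs_mul, abs_mul]
    have a1 := hf1 (T^[n] z)
    have a2 := hg1 (S^[bt pX pY n] z)
    calc _ ≤ |ind pX n - π n| * (1 * 1) := by gcongr
      _ = _ := by ring
  set M : ℕ → ℕ := fun j => Nat.nth pX (j ^ p) with hM
  have hMge : ∀ j, j ^ p ≤ M j := fun j => nth_ge hX _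
  have hMt : Tendsto M atTop atTop := by
    refine tendsto_atTop_mono (fun j => ?_) tendsto_id
    exact (Nat.le_self_pow (by omega) j).trans (hMge j)
  have hsq : ∀ᵐ z ∂μ, Tendsto (fun j : ℕ => (((j ^ p : ℕ) : ℝ)⁻¹ * E (M j) z) ^ 2) atTop (𝓝 0) := by
    refine ae_zero_of_summable (fun j z => (((j ^ p : ℕ) : ℝ)⁻¹ * E (M j) z) ^ 2)
      (fun j => (measurable_const.mul (hEm _)).pow_const 2) (fun j z => sq_nonneg _) (fun j => ?_) ?_
    · refine int_of_bdd _ ((measurable_const.mul (hEm _)).pow_const 2)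
        ((((j ^ p : ℕ) : ℝ)⁻¹ * ∑ n ∈ Finset.range (M j), |ind pX n - π n|) ^ 2) fun z => ?_
      rw [abs_pow, abs_mul, abs_of_nonneg (by positivity : (0:ℝ) ≤ ((j ^ p : ℕ) : ℝ)⁻¹)]
      have := hEb (M j) z
      gcongr
    · have hsum : Summable fun j : ℕ => (j : ℝ) ^ (-(p * c)) :=
        Real.summable_nat_rpow.mpr (by linarith)
      refine Summable.of_norm_bounded_eventually_nat hsum ?_
      filter_upwards [hMt.eventually hE, eventually_ge_atTop 1] with j hj hj1
      have hNpos : (0:ℝ) < ((j ^ p : ℕ) : ℝ) := by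
        have : 0 < j ^ p := Nat.pow_pos (by omega)
        exact_mod_cast this
      rw [Real.norm_of_nonneg (integral_nonneg fun z => sq_nonneg _)]
      have h1 := hj α μ T S hT hS hTS f g hf hg hf1 hg1
      have h2 : Nat.count pX (M j) = j ^ p := Nat.count_nth_of_infinite hX _
      rw [h2] at h1
      have e1 : ∫ z, (((j ^ p : ℕ) : ℝ)⁻¹ * E (M j) z) ^ 2 ∂μ
          = (((j ^ p : ℕ) : ℝ) ^ 2)⁻¹ * ∫ z, (E (M j) z) ^ 2 ∂μ := by
        rw [← integral_const_mul]
        refine integral_congr_ae (Eventually.of_forall fun z => ?_)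
        show (((j ^ p : ℕ) : ℝ)⁻¹ * E (M j) z) ^ 2 = (((j ^ p : ℕ) : ℝ) ^ 2)⁻¹ * (E (M j) z) ^ 2
        rw [mul_pow, inv_pow]
      rw [e1]
      calc _ ≤ (((j ^ p : ℕ) : ℝ) ^ 2)⁻¹ * (((j ^ p : ℕ) : ℝ) ^ 2 * (M j : ℝ) ^ (-c)) := by
            gcongr
        _ = (M j : ℝ) ^ (-c) := by field_simp
        _ ≤ (((j ^ p : ℕ) : ℝ)) ^ (-c) := by
            apply Real.rpow_le_rpow_of_nonpos hNpos _ (by linarith)
            exact_mod_cast hMge j
        _ = (j : ℝ) ^ (-(p * c)) := by
            push_cast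
            rw [← Real.rpow_natCast, ← Real.rpow_mul (Nat.cast_nonneg j)]
            congr 1; ring
  filter_upwards [hsq] with z hz
  have h1 := (Real.continuous_sqrt.tendsto 0).comp hz
  rw [Real.sqrt_zero] at h1
  refine (tendsto_zero_iff_abs_tendsto_zero _).mpr ?_
  refine h1.congr fun j => ?_
  simp only [Function.comp_apply, Real.sqrt_sq_eq_abs, hEdef, hM]

/-- Law of large numbers along the subsequence. -/
lemma lln_sub (hT : MeasurePreserving T μ μ) (hS : MeasurePreserving S μ μ)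
    (hTS : ∀ z, T (S z) = S (T z)) (hX : (Set.ofPred pX).Infinite) {π : ℕ → ℝ} {c : ℝ} (hc : 0 < c)
    (hE : ErrBound pX pY π c) (p : ℕ) (hp : 1 < p * c) :
    Tendsto (fun j : ℕ => ((j ^ p : ℕ) : ℝ)⁻¹ *
      ∑ n ∈ Finset.range (Nat.nth pX (j ^ p)), π n) atTop (𝓝 1) := by
  have hp1 : 1 ≤ p := by
    rcases Nat.eq_zero_or_pos p with h | h
    · subst h; simp at hp; linarith
    · exact h
  have h1 := err_ae hT hS hTS hX hc hE (fun _ => (1:ℝ)) (fun _ => (1:ℝ)) measurable_const
    measurable_const (fun _ => by simp) (fun _ => by simp) p hp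
  obtain ⟨z, hz⟩ := h1.exists
  have h2 := (tendsto_const_nhds (x := (1:ℝ))).sub hz
  rw [sub_zero] at h2
  refine h2.congr' ?_
  filter_upwards [eventually_ge_atTop 1] with j hj
  have hNpos : (0:ℝ) < ((j ^ p : ℕ) : ℝ) := by
    have : 0 < j ^ p := Nat.pow_pos (by omega)
    exact_mod_cast this
  have e1 : ∑ n ∈ Finset.range (Nat.nth pX (j ^ p)), (ind pX n - π n) * ((1:ℝ) * 1)
      = ((j ^ p : ℕ) : ℝ) - ∑ n ∈ Finset.range (Nat.nth pX (j ^ p)), π n := by
    simp only [mul_one]
    rw [Finset.sum_sub_distrib, sum_ind_range, Nat.count_nth_of_infinite hX]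
  rw [e1]
  field_simp
  ring

/-- Weighted averages along the random subsequence. -/
lemma wavg_sub {π : ℕ → ℝ} (hπ : Antitone π) (h0 : ∀ n, 0 ≤ π n)
    (hPt : Tendsto (fun M => ∑ n ∈ Finset.range M, π n) atTop atTop)
    (hX : (Set.ofPred pX).Infinite) (p : ℕ) (hp : 1 ≤ p)
    (hl : Tendsto (fun j : ℕ => ((j ^ p : ℕ) : ℝ)⁻¹ *
      ∑ n ∈ Finset.range (Nat.nth pX (j ^ p)), π n) atTop (𝓝 1)) (c : ℕ → ℝ) (L : ℝ)
    (hc : Tendsto (fun n : ℕ => (n : ℝ)⁻¹ * ∑ k ∈ Finset.range n, c k) atTop (𝓝 L)) :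
    Tendsto (fun j : ℕ => ((j ^ p : ℕ) : ℝ)⁻¹ *
      ∑ n ∈ Finset.range (Nat.nth pX (j ^ p)), π n * c n) atTop (𝓝 L) := by
  have hMt : Tendsto (fun j => Nat.nth pX (j ^ p)) atTop atTop := by
    refine tendsto_atTop_mono (fun j => ?_) tendsto_id
    exact (Nat.le_self_pow (by omega) j).trans (nth_ge hX _)
  have h1 := (weighted_avg π c hπ h0 hPt L hc).comp hMt
  have h2 := hl.mul h1
  rw [one_mul] at h2
  refine h2.congr' ?_
  filter_upwards [(hPt.comp hMt).eventually_gt_atTop 0] with j hj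
  simp only [Function.comp_apply] at hj ⊢
  field_simp

/-- Averages along one random sequence. -/
theorem single_ae (hT : MeasurePreserving T μ μ) (hS : MeasurePreserving S μ μ)
    (hTS : ∀ z, T (S z) = S (T z)) (hX : (Set.ofPred pX).Infinite) {π : ℕ → ℝ} {c : ℝ} (hc : 0 < c)
    (hπ : Antitone π) (h0 : ∀ n, 0 ≤ π n)
    (hPt : Tendsto (fun M => ∑ n ∈ Finset.range M, π n) atTop atTop)
    (hE : ErrBound pX pY π c) (f : α → ℝ) (hf : Measurable f)
    (hf1 : ∀ z, |f z| ≤ 1) (F : α → ℝ)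
    (hF : ∀ᵐ z ∂μ, Tendsto (fun n => avg T f n z) atTop (𝓝 (F z))) :
    ∀ᵐ z ∂μ, Tendsto (fun N : ℕ => (N : ℝ)⁻¹ * ∑ k ∈ Finset.range N, f (T^[Nat.nth pX k] z))
      atTop (𝓝 (F z)) := by
  obtain ⟨p, hp⟩ := exists_nat_gt (1 / c)
  have hp' : 1 < p * c := by rwa [div_lt_iff₀ hc] at hp
  have hp1 : 1 ≤ p := by
    rcases Nat.eq_zero_or_pos p with h | h
    · subst h; simp at hp'; linarith
    · exact h
  have hl := lln_sub hT hS hTS hX hc hE p hp'
  filter_upwards [hF, err_ae hT hS hTS hX hc hE f (fun _ => (1:ℝ)) hf measurable_const hf1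
    (fun _ => by simp) p hp'] with z h1 h2
  refine avg_of_subseq (fun k => f (T^[Nat.nth pX k] z)) 1 (fun k => hf1 _) p hp1 (F z) ?_
  have h3 := wavg_sub hπ h0 hPt hX p hp1 hl (fun n => f (T^[n] z)) (F z) h1
  have h4 := h2.add h3
  rw [zero_add] at h4
  refine h4.congr fun j => ?_
  have e1 := pair_sum (pX := pX) (pY := pY) (fun n _ => f (T^[n] z)) (Nat.nth pX (j ^ p))
  rw [Nat.count_nth_of_infinite hX] at e1
  rw [← e1, ← mul_add, ← Finset.sum_add_distrib]
  congr 1
  exact Finset.sum_congr rfl fun n _ => by ring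

/-- Summation by parts for coboundaries. -/
lemma cobdry (π : ℕ → ℝ) (hπ : Antitone π) (h0 : ∀ n, 0 ≤ π n) (U G : ℕ → ℝ) (C : ℝ)
    (hU : ∀ n, |U n| ≤ C) (hG : ∀ n, |G n| ≤ 1) (hGX : ∀ n, ¬ pX n → G (n + 1) = G n) (M : ℕ) :
    |∑ n ∈ Finset.range M, π n * ((U n - U (n + 1)) * G n)|
      ≤ C * (2 * π 0 + 2 * ∑ n ∈ Finset.range M, ind pX n * π n) := by
  have hC0 : 0 ≤ C := (abs_nonneg _).trans (hU 0)
  have e1 : ∑ n ∈ Finset.range M, π n * ((U n - U (n + 1)) * G n)
      = π 0 * G 0 * U 0 - π M * G M * U M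
        + ∑ n ∈ Finset.range M, (π (n + 1) * G (n + 1) - π n * G n) * U (n + 1) := by
    induction M with
    | zero => simp
    | succ M ih => rw [Finset.sum_range_succ, ih, Finset.sum_range_succ]; ring
  have e2 : ∀ n, |(π (n + 1) * G (n + 1) - π n * G n) * U (n + 1)|
      ≤ C * ((π n - π (n + 1)) + 2 * (ind pX n * π n)) := by
    intro n
    have h1 : 0 ≤ π n - π (n + 1) := sub_nonneg.mpr (hπ (Nat.le_succ n))
    have h2 : |π (n + 1) * G (n + 1) - π n * G n| ≤ (π n - π (n + 1)) + 2 * (ind pX n * π n) := by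
      have e3 : π (n + 1) * G (n + 1) - π n * G n
          = -((π n - π (n + 1)) * G (n + 1)) + π n * (G (n + 1) - G n) := by ring
      rw [e3]
      have h3 : |-((π n - π (n + 1)) * G (n + 1))| ≤ π n - π (n + 1) := by
        rw [abs_neg, abs_mul, abs_of_nonneg h1]
        have := hG (n + 1)
        nlinarith
      have h4 : |π n * (G (n + 1) - G n)| ≤ 2 * (ind pX n * π n) := by
        rw [abs_mul, abs_of_nonneg (h0 n)]
        by_cases hp : pX n
        · unfold ind
          rw [if_pos hp]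
          have h5 : |G (n + 1) - G n| ≤ 2 := by
            calc _ ≤ |G (n + 1)| + |G n| := abs_sub _ _
              _ ≤ 2 := by have := hG (n + 1); have := hG n; linarith
          have := h0 n
          nlinarith
        · rw [hGX n hp, sub_self, abs_zero, mul_zero]
          unfold ind
          rw [if_neg hp]; simp
      exact (abs_add_le _ _).trans (add_le_add h3 h4)
    rw [abs_mul, mul_comm]
    have := hU (n + 1)
    have h6 := abs_nonneg (π (n + 1) * G (n + 1) - π n * G n)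
    calc _ ≤ C * |π (n + 1) * G (n + 1) - π n * G n| := by gcongr
      _ ≤ _ := by gcongr
  rw [e1]
  have b0 : |π 0 * G 0 * U 0| ≤ C * π 0 := by
    rw [abs_mul, abs_mul, abs_of_nonneg (h0 0)]
    have := hG 0; have := hU 0; have := h0 0
    calc _ ≤ π 0 * 1 * C := by gcongr
      _ = _ := by ring
  have bM : |π M * G M * U M| ≤ C * π M := by
    rw [abs_mul, abs_mul, abs_of_nonneg (h0 M)]
    have := hG M; have := hU M; have := h0 M
    calc _ ≤ π M * 1 * C := by gcongr
      _ = _ := by ring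
  have bs : |∑ n ∈ Finset.range M, (π (n + 1) * G (n + 1) - π n * G n) * U (n + 1)|
      ≤ C * ((π 0 - π M) + 2 * ∑ n ∈ Finset.range M, ind pX n * π n) := by
    refine (Finset.abs_sum_le_sum_abs _ _).trans ((Finset.sum_le_sum fun n _ => e2 n).trans
      (le_of_eq ?_))
    rw [← Finset.mul_sum, Finset.sum_add_distrib, Finset.sum_range_sub' π M, Finset.mul_sum]
  calc _ ≤ |π 0 * G 0 * U 0 - π M * G M * U M|
        + |∑ n ∈ Finset.range M, (π (n + 1) * G (n + 1) - π n * G n) * U (n + 1)| := abs_add_le _ _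
    _ ≤ (|π 0 * G 0 * U 0| + |π M * G M * U M|)
        + |∑ n ∈ Finset.range M, (π (n + 1) * G (n + 1) - π n * G n) * U (n + 1)| := by
        have := abs_sub (π 0 * G 0 * U 0) (π M * G M * U M)
        linarith
    _ ≤ _ := by linarith

/-- The transfer function. -/
noncomputable def trf (T : α → α) (f : α → ℝ) (m : ℕ) (x : α) : ℝ :=
  (m : ℝ)⁻¹ * ∑ k ∈ Finset.range m, ∑ i ∈ Finset.range k, f (T^[i] x)

lemma trf_bdd (f : α → ℝ) (hf1 : ∀ z, |f z| ≤ 1) (m : ℕ) (x : α) : |trf T f m x| ≤ m := by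
  unfold trf
  rcases Nat.eq_zero_or_pos m with h | h
  · subst h; simp
  · have hm : (0:ℝ) < m := by exact_mod_cast h
    rw [abs_mul, abs_inv, abs_of_pos hm, inv_mul_le_iff₀ hm]
    calc _ ≤ ∑ k ∈ Finset.range m, |∑ i ∈ Finset.range k, f (T^[i] x)| :=
          Finset.abs_sum_le_sum_abs _ _
      _ ≤ ∑ k ∈ Finset.range m, (m : ℝ) := by
          refine Finset.sum_le_sum fun k hk => ?_
          calc _ ≤ ∑ i ∈ Finset.range k, |f (T^[i] x)| := Finset.abs_sum_le_sum_abs _ _
            _ ≤ ∑ i ∈ Finset.range k, (1:ℝ) := Finset.sum_le_sum fun i _ => hf1 _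
            _ = k := by simp
            _ ≤ m := by exact_mod_cast (Finset.mem_range.mp hk).le
      _ = m * m := by simp

lemma trf_eq (f : α → ℝ) (m : ℕ) (hm : 1 ≤ m) (x : α) :
    f x = (trf T f m x - trf T f m (T x)) + avg T f m x := by
  have hm' : (0:ℝ) < m := by exact_mod_cast hm
  unfold trf avg
  have h1 : ∀ k, ∑ i ∈ Finset.range k, f (T^[i] x) - ∑ i ∈ Finset.range k, f (T^[i] (T x))
      = f x - f (T^[k] x) := by
    intro k
    have e1 : ∑ i ∈ Finset.range k, f (T^[i] (T x)) = ∑ i ∈ Finset.range k, f (T^[i + 1] x) :=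
      Finset.sum_congr rfl fun i _ => by rw [Function.iterate_succ_apply]
    rw [e1, ← Finset.sum_sub_distrib]
    have := Finset.sum_range_sub' (fun i => f (T^[i] x)) k
    simpa using this
  rw [← mul_sub, ← Finset.sum_sub_distrib, Finset.sum_congr rfl fun k _ => h1 k,
    Finset.sum_sub_distrib]
  simp only [Finset.sum_const, Finset.card_range, nsmul_eq_mul]
  field_simp
  ring

/-- Limit functions for bounded functions. -/
lemma exists_lim (T : α → α) (f : α → ℝ) (hf : Measurable f) (C : ℝ)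
    (hC0 : 0 ≤ C) (hC : ∀ x, |f x| ≤ C) :
    ∃ h : α → ℝ, Measurable[MeasurableSpace.invariants T] h ∧ (∀ x, |h x| ≤ C) ∧
      (∀ A, MeasurableSet[MeasurableSpace.invariants T] A →
        ∫ x in A, f x ∂μ = ∫ x in A, h x ∂μ) ∧
      h =ᵐ[μ] μ[f | MeasurableSpace.invariants T] := by
  have hm := MeasurableSpace.invariants_le T
  set h0 := μ[f | MeasurableSpace.invariants T] with hh0
  have hsm : StronglyMeasurable[MeasurableSpace.invariants T] h0 := stronglyMeasurable_condExp
  have hfi : Integrable f μ := int_of_bdd f hf C hC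
  have hb : ∀ᵐ x ∂μ, |h0 x| ≤ C := by
    exact ae_bdd_abs_condExp_of_ae_bdd_abs (m := MeasurableSpace.invariants T)
      (Eventually.of_forall hC)
  set h : α → ℝ := fun x => max (min (h0 x) C) (-C) with hh
  have hae : h =ᵐ[μ] h0 := by
    filter_upwards [hb] with x hx
    rw [abs_le] at hx
    simp only [hh]
    rw [min_eq_left hx.2, max_eq_left hx.1]
  refine ⟨h, ?_, ?_, ?_, hae⟩
  · have h1 : Measurable[MeasurableSpace.invariants T] h0 := hsm.measurable
    have h2 : Measurable (fun y : ℝ => max (min y C) (-C)) :=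
      (measurable_id.min measurable_const).max measurable_const
    exact h2.comp h1
  · intro x
    simp only [hh]
    rw [abs_le]
    refine ⟨le_max_right _ _, max_le (min_le_right _ _) (by linarith)⟩
  · intro A hA
    have h1 := setIntegral_condExp hm hfi hA
    rw [← h1]
    refine integral_congr_ae ?_
    have h2 : ∀ᵐ x ∂(μ.restrict A), h x = h0 x := ae_restrict_of_ae hae
    filter_upwards [h2] with x hx
    exact hx.symm

end

end Pool.Agent.Helper49.RS
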