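import Pool.Agent.Helper49.RS.Sys

set_option autoImplicit false
open MeasureTheory Filter Topology

namespace Pool.Agent.Helper49.RS

set_option linter.unusedSectionVars false

lemma reindex {E : Type*} [AddCommMonoid E] (M r : ℕ) (φ : ℕ → E) :
    ∑ p ∈ Finset.range M, (if r ≤ p then φ (p - r) else 0) = ∑ n ∈ Finset.range (M - r), φ n := by
  rcases le_or_gt r M with h | h
  · have h1 : Finset.range M = Finset.range r ∪ Finset.Ico r M := by
      ext x; simp only [Finset.mem_range, Finset.mem_union, Finset.mem_Ico]; omega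
    have h2 : Disjoint (Finset.range r) (Finset.Ico r M) := by
      rw [Finset.disjoint_left]; intro x hx hx2
      simp only [Finset.mem_range, Finset.mem_Ico] at hx hx2; omega
    rw [h1, Finset.sum_union h2, Finset.sum_eq_zero, zero_add, Finset.sum_Ico_eq_sum_range]
    · refine Finset.sum_congr rfl fun n _ => ?_
      rw [if_pos (Nat.le_add_right _ _), Nat.add_sub_cancel_left]
    · intro x hx; rw [Finset.mem_range] at hx; rw [if_neg (by omega)]
  · rw [show M - r = 0 by omega, Finset.range_zero, Finset.sum_empty]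
    refine Finset.sum_eq_zero fun p hp => ?_
    rw [Finset.mem_range] at hp; rw [if_neg (by omega)]

/-- Predictable weight attached to a rectangle. -/
noncomputable def zz (M B : ℕ) (x : ℕ → ℝ) (β : ℕ → ℕ) (ψ : AddChar (Tor M B) ℂ)
    (S T : Finset ℕ) (p : ℕ) : ℂ :=
  ∑ r ∈ S, if r ≤ p ∧ β p - β (p - r) ∈ T then (x (p - r) : ℂ) * ψ (-sh M B β (p - r)) else 0

/-- The absolute version. -/
noncomputable def ww (x : ℕ → ℝ) (β : ℕ → ℕ) (S T : Finset ℕ) (p : ℕ) : ℝ :=
  ∑ r ∈ S, if r ≤ p ∧ β p - β (p - r) ∈ T then |x (p - r)| else 0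

variable {M B : ℕ} [NeZero M] [NeZero B] {x : ℕ → ℝ} {β : ℕ → ℕ} {ψ : AddChar (Tor M B) ℂ}

lemma norm_char (z : Tor M B) : ‖ψ z‖ = 1 := by
  have : NeZero (2 * M) := ⟨by have := NeZero.ne M; omega⟩
  have : NeZero (2 * B) := ⟨by have := NeZero.ne B; omega⟩
  exact AddChar.norm_apply ψ z

lemma ww_nonneg (S T : Finset ℕ) (p : ℕ) : 0 ≤ ww x β S T p := by
  unfold ww
  refine Finset.sum_nonneg fun r _ => ?_
  split_ifs
  · exact abs_nonneg _
  · exact le_rfl

lemma norm_zz (S T : Finset ℕ) (p : ℕ) : ‖zz M B x β ψ S T p‖ ≤ ww x β S T p := by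
  unfold zz ww
  refine (norm_sum_le _ _).trans (Finset.sum_le_sum fun r _ => ?_)
  split_ifs
  · rw [norm_mul, norm_char, mul_one, Complex.norm_real, Real.norm_eq_abs]
  · simp

lemma sum_zz (S T : Finset ℕ) (hx : ∀ n, M ≤ n → x n = 0) :
    ∑ p ∈ Finset.range M, (x p : ℂ) * zz M B x β ψ S T p
      = ∑ r ∈ S, ∑ l ∈ T, mat M B x β ψ r l := by
  unfold zz mat
  simp_rw [Finset.mul_sum]
  rw [Finset.sum_comm]
  refine Finset.sum_congr rfl fun r _ => ?_
  rw [Finset.sum_comm (s := T)]
  have e1 : ∀ p ∈ Finset.range M, (x p : ℂ) * (if r ≤ p ∧ β p - β (p - r) ∈ T then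
      (x (p - r) : ℂ) * ψ (-sh M B β (p - r)) else 0)
      = if r ≤ p then (fun n => if β (n + r) - β n ∈ T then
        ((x n * x (n + r) : ℝ) : ℂ) * ψ (-sh M B β n) else 0) (p - r) else 0 := by
    intro p _
    by_cases h : r ≤ p
    · simp only [h, true_and, if_true, Nat.sub_add_cancel h]
      split_ifs
      · push_cast; ring
      · simp
    · simp [h]
  rw [Finset.sum_congr rfl e1, reindex M r (fun n => if β (n + r) - β n ∈ T then
        ((x n * x (n + r) : ℝ) : ℂ) * ψ (-sh M B β n) else 0)]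
  have e2 : ∀ n ∈ Finset.range M, ∑ l ∈ T, (if β (n + r) - β n = l then
      ((x n * x (n + r) : ℝ) : ℂ) * ψ (-sh M B β n) else 0)
      = if β (n + r) - β n ∈ T then ((x n * x (n + r) : ℝ) : ℂ) * ψ (-sh M B β n) else 0 := by
    intro n _
    rw [Finset.sum_ite_eq]
  rw [Finset.sum_congr rfl e2]
  refine Finset.sum_subset (fun n hn => ?_) fun n hn hn2 => ?_
  · rw [Finset.mem_range] at hn ⊢; omega
  · rw [Finset.mem_range] at hn hn2
    rw [hx (n + r) (by omega)]; simp

lemma ww_le (H : ℕ) (W : ℝ) (S T : Finset ℕ) (hS : S ⊆ Finset.Ico 1 H) (p : ℕ)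
    (hwin : ∑ r ∈ Finset.Ico 1 H, (if r ≤ p then |x (p - r)| else 0) ≤ W) :
    ww x β S T p ≤ W := by
  refine le_trans ?_ hwin
  unfold ww
  calc _ ≤ ∑ r ∈ S, (if r ≤ p then |x (p - r)| else 0) := by
        refine Finset.sum_le_sum fun r _ => ?_
        by_cases h : r ≤ p
        · simp only [h, true_and, if_true]
          split_ifs
          · exact le_rfl
          · exact abs_nonneg _
        · simp [h]
    _ ≤ _ := by
        refine Finset.sum_le_sum_of_subset_of_nonneg hS fun r _ _ => ?_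
        split_ifs
        · exact abs_nonneg _
        · exact le_rfl

lemma sum_ww (S T : Finset ℕ) : ∑ p ∈ Finset.range M, ww x β S T p
    = ∑ r ∈ S, ∑ l ∈ T, ∑ n ∈ Finset.range (M - r), (if β (n + r) - β n = l then |x n| else 0) := by
  unfold ww
  rw [Finset.sum_comm]
  refine Finset.sum_congr rfl fun r _ => ?_
  rw [Finset.sum_comm (s := T)]
  have e1 : ∀ p ∈ Finset.range M, (if r ≤ p ∧ β p - β (p - r) ∈ T then |x (p - r)| else 0)
      = if r ≤ p then (fun n => if β (n + r) - β n ∈ T then |x n| else 0) (p - r) else 0 := by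
    intro p _
    by_cases h : r ≤ p
    · simp only [h, true_and, if_true, Nat.sub_add_cancel h]
    · simp [h]
  rw [Finset.sum_congr rfl e1, reindex M r (fun n => if β (n + r) - β n ∈ T then |x n| else 0)]
  refine Finset.sum_congr rfl fun n _ => ?_
  rw [Finset.sum_ite_eq]

lemma var_bound (H D : ℕ) (W Pb CY : ℝ) (hW : 0 ≤ W) (hPb : 0 ≤ Pb) (π : ℕ → ℝ)
    (S T : Finset ℕ) (hS : S ⊆ Finset.Ico 1 H) (hT : T ⊆ Finset.Ico 1 D)
    (hwin : ∀ p < M, ∑ r ∈ Finset.Ico 1 H, (if r ≤ p then |x (p - r)| else 0) ≤ W)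
    (hπ : ∀ p < M, ∀ r, r ≤ p → x (p - r) ≠ 0 → π p ≤ Pb)
    (hw : ∀ r ∈ Finset.Ico 1 H, ∀ l ∈ Finset.Ico 1 D,
      ∑ n ∈ Finset.range (M - r), (if β (n + r) - β n = l then |x n| else 0) ≤ CY) :
    ∑ p ∈ Finset.range M, π p * ‖zz M B x β ψ S T p‖ ^ 2
      ≤ Pb * W * CY * (S.card * T.card) := by
  have h1 : ∀ p ∈ Finset.range M, π p * ‖zz M B x β ψ S T p‖ ^ 2 ≤ Pb * W * ww x β S T p := by
    intro p hp
    have hp' := Finset.mem_range.mp hp
    have a1 := ww_le (β := β) H W S T hS p (hwin p hp')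
    have a2 := norm_zz (ψ := ψ) (x := x) (β := β) S T p
    have a0 := ww_nonneg (x := x) (β := β) S T p
    have a3 := norm_nonneg (zz M B x β ψ S T p)
    by_cases hz : zz M B x β ψ S T p = 0
    · rw [hz]; simp; positivity
    · have : π p ≤ Pb := by
        by_contra hcon
        apply hz
        unfold zz
        refine Finset.sum_eq_zero fun r _ => ?_
        split_ifs with hc
        · have : x (p - r) = 0 := by
            by_contra hne
            exact hcon (hπ p hp' r hc.1 hne)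
          rw [this]; simp
        · rfl
      calc π p * ‖zz M B x β ψ S T p‖ ^ 2 ≤ Pb * (ww x β S T p) ^ 2 := by gcongr
        _ = Pb * (ww x β S T p * ww x β S T p) := by ring
        _ ≤ Pb * (W * ww x β S T p) := by gcongr
        _ = _ := by ring
  refine (Finset.sum_le_sum h1).trans ?_
  rw [← Finset.mul_sum, sum_ww]
  have h2 : ∑ r ∈ S, ∑ l ∈ T, ∑ n ∈ Finset.range (M - r), (if β (n + r) - β n = l then |x n| else 0)
      ≤ ∑ r ∈ S, ∑ l ∈ T, CY :=
    Finset.sum_le_sum fun r hr => Finset.sum_le_sum fun l hl => hw r (hS hr) l (hT hl)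
  calc _ ≤ Pb * W * ∑ r ∈ S, ∑ l ∈ T, CY := mul_le_mul_of_nonneg_left h2 (by positivity)
    _ = _ := by simp; ring

lemma row_bound (H : ℕ) (CX : ℝ) (S T : Finset ℕ) (hS : S ⊆ Finset.Ico 1 H)
    (hCX : ∀ r ∈ Finset.Ico 1 H, ∑ n ∈ Finset.range M, |x n * x (n + r)| ≤ CX) :
    ‖∑ r ∈ S, ∑ l ∈ T, mat M B x β ψ r l‖ ≤ S.card * CX := by
  calc _ ≤ ∑ r ∈ S, ‖∑ l ∈ T, mat M B x β ψ r l‖ := norm_sum_le _ _
    _ ≤ ∑ r ∈ S, CX := by
        refine Finset.sum_le_sum fun r hr => ?_
        refine le_trans ?_ (hCX r (hS hr))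
        unfold mat
        rw [Finset.sum_comm]
        refine (norm_sum_le _ _).trans (Finset.sum_le_sum fun n _ => ?_)
        rw [Finset.sum_ite_eq]
        split_ifs
        · rw [norm_mul, norm_char, mul_one, Complex.norm_real, Real.norm_eq_abs]
        · rw [norm_zero]; exact abs_nonneg _
    _ = _ := by simp

lemma col_bound (H D : ℕ) (CY : ℝ) (S T : Finset ℕ) (hS : S ⊆ Finset.Ico 1 H)
    (hT : T ⊆ Finset.Ico 1 D)
    (hCY : ∀ l ∈ Finset.Ico 1 D, ∑ r ∈ Finset.Ico 1 H, ∑ n ∈ Finset.range M,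
      (if β (n + r) - β n = l then |x n * x (n + r)| else 0) ≤ CY) :
    ‖∑ r ∈ S, ∑ l ∈ T, mat M B x β ψ r l‖ ≤ T.card * CY := by
  rw [Finset.sum_comm]
  calc _ ≤ ∑ l ∈ T, ‖∑ r ∈ S, mat M B x β ψ r l‖ := norm_sum_le _ _
    _ ≤ ∑ l ∈ T, CY := by
        refine Finset.sum_le_sum fun l hl => ?_
        refine le_trans ?_ (hCY l (hT hl))
        calc _ ≤ ∑ r ∈ S, ‖mat M B x β ψ r l‖ := norm_sum_le _ _
          _ ≤ ∑ r ∈ S, ∑ n ∈ Finset.range M,
              (if β (n + r) - β n = l then |x n * x (n + r)| else 0) := by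
              refine Finset.sum_le_sum fun r _ => ?_
              unfold mat
              refine (norm_sum_le _ _).trans (Finset.sum_le_sum fun n _ => ?_)
              split_ifs
              · rw [norm_mul, norm_char, mul_one, Complex.norm_real, Real.norm_eq_abs]
              · simp
          _ ≤ _ := by
              refine Finset.sum_le_sum_of_subset_of_nonneg hS fun r _ _ => ?_
              refine Finset.sum_nonneg fun n _ => ?_
              split_ifs
              · exact abs_nonneg _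
              · exact le_rfl
    _ = _ := by simp

omit [NeZero M] [NeZero B] in
/-- The elementary inequality combining the probabilistic and the trivial bound. -/
lemma combine (m s t HD CX CY v κ w : ℝ) (hs : 1 ≤ s) (ht : 1 ≤ t)
    (hHD : s ≤ HD ∧ t ≤ HD) (hCX : 0 ≤ CX) (hCY : 0 ≤ CY) (hv : 0 < v) (hκ : 0 < κ)
    (hw : 0 < w) (h1 : m ≤ s * CX) (h2 : m ≤ t * CY)
    (h3 : m ≤ 2 * (min (1 / w) (Real.sqrt (κ / (v * min s t))) * (v * (s * t))
      + κ * (s + t + 1) / min (1 / w) (Real.sqrt (κ / (v * min s t))))) :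
    m ≤ ((6 * w * κ + 1) * Real.sqrt (CX + CY) + 8 * Real.sqrt (κ * v * HD))
      * (Real.sqrt s * Real.sqrt t) := by
  set mn := min s t with hmn
  set mx := max s t with hmx
  have hmn1 : 1 ≤ mn := le_min hs ht
  have hmx1 : 1 ≤ mx := hs.trans (le_max_left _ _)
  have hmm : mn * mx = s * t := min_mul_max s t
  have hst : Real.sqrt s * Real.sqrt t = Real.sqrt mn * Real.sqrt mx := by
    rw [← Real.sqrt_mul (by linarith), ← Real.sqrt_mul (by linarith), hmm]
  have hmn0 : 0 < mn := by linarith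
  have hmx0 : 0 < mx := by linarith
  set C := CX + CY with hC
  have hC0 : 0 ≤ C := by positivity
  have hA : m ≤ mn * C := by
    rcases le_total s t with h | h
    · rw [hmn, min_eq_left h]
      calc m ≤ s * CX := h1
        _ ≤ s * C := by rw [hC]; nlinarith
    · rw [hmn, min_eq_right h]
      calc m ≤ t * CY := h2
        _ ≤ t * C := by rw [hC]; nlinarith
  rw [hst]
  have hsq1 : 0 < Real.sqrt mn := Real.sqrt_pos.mpr hmn0
  have hsq2 : 0 < Real.sqrt mx := Real.sqrt_pos.mpr hmx0
  by_cases hcase : mx ≤ mn * C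
  · -- use the probabilistic bound
    set lam := min (1 / w) (Real.sqrt (κ / (v * mn))) with hlam
    have hvm : 0 < v * mn := by positivity
    have hlam0 : 0 < lam := lt_min (by positivity) (Real.sqrt_pos.mpr (by positivity))
    have b1 : lam * (v * (s * t)) ≤ mx * Real.sqrt (κ * v * mn) := by
      rw [← hmm]
      have : lam ≤ Real.sqrt (κ / (v * mn)) := min_le_right _ _
      calc lam * (v * (mn * mx)) ≤ Real.sqrt (κ / (v * mn)) * (v * (mn * mx)) := by gcongr
        _ = mx * (Real.sqrt (κ / (v * mn)) * (v * mn)) := by ring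
        _ = mx * Real.sqrt (κ * v * mn) := by
          congr 1
          rw [show κ * v * mn = κ / (v * mn) * ((v * mn) ^ 2) by field_simp,
            Real.sqrt_mul (by positivity), Real.sqrt_sq hvm.le]
    have b2 : κ * (s + t + 1) / lam ≤ 3 * κ * w * mx + 3 * (mx * Real.sqrt (κ * v * mn)) := by
      have c1 : s + t + 1 ≤ 3 * mx := by
        have := le_max_left s t
        have := le_max_right s t
        linarith
      have c2 : 1 / lam ≤ w + 1 / Real.sqrt (κ / (v * mn)) := by
        rcases le_total (1 / w) (Real.sqrt (κ / (v * mn))) with h | h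
        · rw [hlam, min_eq_left h, one_div_one_div]
          have : 0 < 1 / Real.sqrt (κ / (v * mn)) := by positivity
          linarith
        · rw [hlam, min_eq_right h]; linarith
      have c3 : κ * (1 / Real.sqrt (κ / (v * mn))) = Real.sqrt (κ * v * mn) := by
        rw [show κ * v * mn = κ ^ 2 * (κ / (v * mn))⁻¹ by field_simp,
          Real.sqrt_mul (by positivity), Real.sqrt_sq hκ.le, Real.sqrt_inv, one_div]
      calc κ * (s + t + 1) / lam = κ * (s + t + 1) * (1 / lam) := by rw [mul_one_div]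
        _ ≤ κ * (3 * mx) * (w + 1 / Real.sqrt (κ / (v * mn))) := by
            have : 0 ≤ 1 / lam := by positivity
            gcongr
        _ = 3 * κ * w * mx + 3 * (mx * (κ * (1 / Real.sqrt (κ / (v * mn))))) := by ring
        _ = _ := by rw [c3]
    have b3 : m ≤ 6 * w * κ * mx + 8 * (mx * Real.sqrt (κ * v * mn)) := by
      calc m ≤ _ := h3
        _ ≤ 2 * (mx * Real.sqrt (κ * v * mn) + (3 * κ * w * mx
            + 3 * (mx * Real.sqrt (κ * v * mn)))) := by linarith
        _ = _ := by ring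
    have b4 : mx ≤ Real.sqrt mn * Real.sqrt mx * Real.sqrt C := by
      calc mx = Real.sqrt mx * Real.sqrt mx := (Real.mul_self_sqrt hmx0.le).symm
        _ ≤ Real.sqrt mx * (Real.sqrt mn * Real.sqrt C) := by
            rw [← Real.sqrt_mul hmn0.le]; gcongr
        _ = _ := by ring
    have b5 : mx * Real.sqrt (κ * v * mn) ≤ Real.sqrt mn * Real.sqrt mx * Real.sqrt (κ * v * HD) := by
      have hmxHD : mx ≤ HD := max_le hHD.1 hHD.2
      calc mx * Real.sqrt (κ * v * mn) = Real.sqrt mx * Real.sqrt mx * (Real.sqrt (κ * v) * Real.sqrt mn) := by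
            rw [Real.mul_self_sqrt hmx0.le, ← Real.sqrt_mul (by positivity)]
        _ = Real.sqrt mn * Real.sqrt mx * (Real.sqrt (κ * v) * Real.sqrt mx) := by ring
        _ = Real.sqrt mn * Real.sqrt mx * Real.sqrt (κ * v * mx) := by
            rw [Real.sqrt_mul (by positivity : 0 ≤ κ * v) mx]
        _ ≤ _ := by gcongr
    have b6 : 6 * w * κ * mx ≤ 6 * w * κ * (Real.sqrt mn * Real.sqrt mx * Real.sqrt C) := by gcongr
    have b7 : 0 ≤ Real.sqrt mn * Real.sqrt mx * Real.sqrt C := by positivity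
    calc m ≤ _ := b3
      _ ≤ 6 * w * κ * (Real.sqrt mn * Real.sqrt mx * Real.sqrt C)
          + 8 * (Real.sqrt mn * Real.sqrt mx * Real.sqrt (κ * v * HD)) := by linarith
      _ ≤ _ := by nlinarith
  · have hcase' : mn * C ≤ mx := (not_le.mp hcase).le
    have b1 : mn * C ≤ Real.sqrt mn * Real.sqrt mx * Real.sqrt C := by
      calc mn * C = Real.sqrt (mn * C) * Real.sqrt (mn * C) :=
            (Real.mul_self_sqrt (by positivity)).symm
        _ ≤ Real.sqrt (mn * C) * Real.sqrt mx := by gcongr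
        _ = _ := by rw [Real.sqrt_mul hmn0.le]; ring
    have b2 : 0 ≤ Real.sqrt mn * Real.sqrt mx := by positivity
    have b3 : 0 ≤ 6 * w * κ * Real.sqrt C + 8 * Real.sqrt (κ * v * HD) := by positivity
    calc m ≤ _ := hA
      _ ≤ _ := b1
      _ ≤ _ := by nlinarith

end Pool.Agent.Helper49.RS
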