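import Pool.Agent.Helper49.RS.Exp

set_option autoImplicit false
open MeasureTheory ProbabilityTheory Filter Topology

namespace Pool.Agent.Helper49.RS

set_option linter.unusedSectionVars false

lemma sum_rpow_le (c : ℝ) (hc0 : 0 ≤ c) (hc1 : c < 1) (L : ℕ) :
    ∑ n ∈ Finset.range L, ((n : ℝ) + 1) ^ (-c) ≤ (L : ℝ) ^ (1 - c) / (1 - c) := by
  have hr : 0 < 1 - c := by linarith
  induction L with
  | zero => simp [Real.zero_rpow hr.ne']
  | succ L ih =>
    rw [Finset.sum_range_succ]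
    have h1 : (0:ℝ) < (L:ℝ) + 1 := by positivity
    have key : (L : ℝ) ^ (1 - c) + (1 - c) * ((L : ℝ) + 1) ^ (-c) ≤ ((L : ℝ) + 1) ^ (1 - c) := by
      have h2 : (1 + (-1 / ((L:ℝ) + 1))) ^ (1 - c) ≤ 1 + (1 - c) * (-1 / ((L:ℝ) + 1)) := by
        apply rpow_one_add_le_one_add_mul_self
        · rw [le_div_iff₀ h1]; linarith [(Nat.cast_nonneg L : (0:ℝ) ≤ L)]
        · exact hr.le
        · linarith
      have h3 : (1 + (-1 / ((L:ℝ) + 1))) = (L:ℝ) / ((L:ℝ) + 1) := by field_simp; ring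
      rw [h3, Real.div_rpow (Nat.cast_nonneg L) h1.le, div_le_iff₀ (Real.rpow_pos_of_pos h1 _)] at h2
      have h4 : ((L : ℝ) + 1) ^ (-c) = ((L : ℝ) + 1) ^ (1 - c) / ((L : ℝ) + 1) := by
        rw [show -c = (1 - c) - 1 by ring, Real.rpow_sub h1, Real.rpow_one]
      rw [h4]
      calc (L : ℝ) ^ (1 - c) + (1 - c) * (((L : ℝ) + 1) ^ (1 - c) / ((L : ℝ) + 1))
          ≤ (1 + (1 - c) * (-1 / ((L:ℝ) + 1))) * ((L:ℝ) + 1) ^ (1 - c)
            + (1 - c) * (((L : ℝ) + 1) ^ (1 - c) / ((L : ℝ) + 1)) := by linarith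
        _ = ((L : ℝ) + 1) ^ (1 - c) := by field_simp; ring
    push_cast
    calc _ ≤ (L : ℝ) ^ (1 - c) / (1 - c) + ((L : ℝ) + 1) ^ (-c) := by linarith
      _ = ((L : ℝ) ^ (1 - c) + (1 - c) * ((L : ℝ) + 1) ^ (-c)) / (1 - c) := by field_simp
      _ ≤ _ := by gcongr

lemma summable_of_le_sq (f : ℕ → ℝ) (C : ℝ) (h0 : ∀ n, 0 ≤ f n)
    (h : ∀ᶠ n : ℕ in atTop, f n ≤ C * ((n:ℝ) ^ 2)⁻¹) : Summable f := by
  have h1 : Summable (fun n : ℕ => C * ((n:ℝ) ^ 2)⁻¹) :=
    (Real.summable_nat_pow_inv.mpr (by norm_num)).mul_left C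
  refine Summable.of_norm_bounded_eventually_nat h1 ?_
  filter_upwards [h] with n hn
  rwa [Real.norm_of_nonneg (h0 n)]

/-- The facts about one random sequence that are used at level `L`. -/
structure GoodAt (x q : ℕ → ℝ) (L : ℕ) : Prop where
  up : ∀ i j, i ≤ j → j ≤ L →
    ∑ n ∈ Finset.Ico i j, x n ≤ 2 * ∑ n ∈ Finset.Ico i j, q n + 4 * Real.log L
  lo : ∀ i j, i ≤ j → j ≤ L →
    (1 / 2) * ∑ n ∈ Finset.Ico i j, q n - 8 * Real.log L ≤ ∑ n ∈ Finset.Ico i j, x n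
  pair : ∀ l, 1 ≤ l → l ≤ L → ∑ p ∈ Finset.Ico l L, x (p - l) * x p
    ≤ 4 * ∑ p ∈ Finset.range L, (q p) ^ 2 + 12 * Real.log L

variable {Ω : Type*} [m0 : MeasurableSpace Ω] {P : Measure Ω} [IsProbabilityMeasure P]
  {X : ℕ → Ω → ℝ} {q : ℕ → ℝ} {F : ℕ → MeasurableSpace Ω}

lemma exp_neg_four_log (L : ℕ) (hL : 1 ≤ L) : Real.exp (-(4 * Real.log L)) = ((L:ℝ) ^ 4)⁻¹ := by
  have : (0:ℝ) < L := by exact_mod_cast hL
  rw [Real.exp_neg, mul_comm, Real.exp_mul, Real.exp_log this]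
  norm_cast

lemma window_fact (h : PredBern P X q F) : ∀ᵐ ω ∂P, ∀ᶠ L : ℕ in atTop,
    ∀ i j, i ≤ j → j ≤ L →
    ∑ n ∈ Finset.Ico i j, X n ω ≤ 2 * ∑ n ∈ Finset.Ico i j, q n + 4 * Real.log L ∧
    (1 / 2) * ∑ n ∈ Finset.Ico i j, q n - 8 * Real.log L ≤ ∑ n ∈ Finset.Ico i j, X n ω := by
  classical
  have key := bern_bc h (ι := ℕ × ℕ × Bool)
    (fun L => Finset.range (L + 1) ×ˢ (Finset.range (L + 1) ×ˢ Finset.univ)) (fun L => L)
    (fun L i p ω => if p ∈ Finset.Ico i.1 i.2.1 then (if i.2.2 then 1 else -(1/2)) else 0)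
    (fun L i => 4 * Real.log L) (fun L i p => measurable_const) ?_
  · filter_upwards [key] with ω hω
    filter_upwards [hω] with L hL i j hij hj
    have hsub : Finset.Ico i j ⊆ Finset.range L := by
      intro n hn; rw [Finset.mem_Ico] at hn; rw [Finset.mem_range]; omega
    have e1 : ∀ (c : ℝ) (g : ℕ → ℝ), ∑ p ∈ Finset.range L, g p * (if p ∈ Finset.Ico i j then c else 0)
        = c * ∑ p ∈ Finset.Ico i j, g p := by
      intro c g
      rw [Finset.mul_sum, ← Finset.sum_subset hsub]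
      · refine Finset.sum_congr rfl fun p hp => ?_
        rw [if_pos hp]; ring
      · intro p _ hp; rw [if_neg hp, mul_zero]
    have e2 : ∀ (c : ℝ) (g : ℕ → ℝ), ∑ p ∈ Finset.range L, g p * (if p ∈ Finset.Ico i j then c else 0) ^ 2
        = c ^ 2 * ∑ p ∈ Finset.Ico i j, g p := by
      intro c g
      rw [Finset.mul_sum, ← Finset.sum_subset hsub]
      · refine Finset.sum_congr rfl fun p hp => ?_
        rw [if_pos hp]; ring
      · intro p _ hp; rw [if_neg hp]; ring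
    have h1 := hL (i, j, true) (by simp; omega) (by intro p _; simp only []; split_ifs <;> norm_num)
    have h2 := hL (i, j, false) (by simp; omega) (by
      intro p _; simp only []; split_ifs <;> norm_num)
    simp only [if_true, Bool.false_eq_true, if_false] at h1 h2
    rw [e1, e2] at h1 h2
    rw [Finset.sum_sub_distrib] at h1 h2
    constructor <;> linarith
  · refine summable_of_le_sq _ 8 (fun L => Finset.sum_nonneg fun i _ => (Real.exp_pos _).le) ?_
    filter_upwards [eventually_ge_atTop 1] with L hL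
    rw [Finset.sum_const, exp_neg_four_log L hL]
    simp only [Finset.card_product, Finset.card_range, Finset.card_univ, Fintype.card_bool,
      nsmul_eq_mul]
    have hL' : (1:ℝ) ≤ L := by exact_mod_cast hL
    push_cast
    have : ((L:ℝ) + 1) * (((L:ℝ) + 1) * 2) ≤ 8 * (L:ℝ) ^ 2 := by nlinarith
    calc ((L:ℝ) + 1) * (((L:ℝ) + 1) * 2) * ((L:ℝ) ^ 4)⁻¹ ≤ 8 * (L:ℝ) ^ 2 * ((L:ℝ) ^ 4)⁻¹ := by gcongr
      _ = 8 * ((L:ℝ) ^ 2)⁻¹ := by field_simp

lemma pair_fact (h : PredBern P X q F) : ∀ᵐ ω ∂P, ∀ᶠ L : ℕ in atTop,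
    ∀ l, 1 ≤ l → l ≤ L → ∑ p ∈ Finset.Ico l L, X (p - l) ω * X p ω
      ≤ 2 * ∑ p ∈ Finset.Ico l L, q p * X (p - l) ω + 4 * Real.log L := by
  classical
  have key := bern_bc h (ι := ℕ) (fun L => Finset.Icc 1 L) (fun L => L)
    (fun L l p ω => if 1 ≤ l ∧ l ≤ p then X (p - l) ω else 0)
    (fun L i => 4 * Real.log L) (fun L l p => ?_) ?_
  · filter_upwards [key] with ω hω
    filter_upwards [hω] with L hL l hl1 hl2
    have hsub : Finset.Ico l L ⊆ Finset.range L := by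
      intro n hn; rw [Finset.mem_Ico] at hn; rw [Finset.mem_range]; omega
    have h1 := hL l (by rw [Finset.mem_Icc]; exact ⟨hl1, hl2⟩) (by
      intro p _; split_ifs
      · rcases h.zo (p - l) ω with h0 | h0 <;> simp [h0]
      · simp)
    have e1 : ∑ p ∈ Finset.range L, (X p ω - q p) * (if 1 ≤ l ∧ l ≤ p then X (p - l) ω else 0)
        = ∑ p ∈ Finset.Ico l L, (X p ω - q p) * X (p - l) ω := by
      rw [← Finset.sum_subset hsub]
      · refine Finset.sum_congr rfl fun p hp => ?_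
        rw [Finset.mem_Ico] at hp; rw [if_pos ⟨hl1, hp.1⟩]
      · intro p hp hp2
        rw [Finset.mem_range] at hp
        rw [if_neg, mul_zero]
        rintro ⟨_, h3⟩; exact hp2 (Finset.mem_Ico.mpr ⟨h3, hp⟩)
    have e2 : ∑ p ∈ Finset.range L, q p * (if 1 ≤ l ∧ l ≤ p then X (p - l) ω else 0) ^ 2
        = ∑ p ∈ Finset.Ico l L, q p * X (p - l) ω := by
      rw [← Finset.sum_subset hsub]
      · refine Finset.sum_congr rfl fun p hp => ?_
        rw [Finset.mem_Ico] at hp; rw [if_pos ⟨hl1, hp.1⟩]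
        rcases h.zo (p - l) ω with h0 | h0 <;> simp [h0]
      · intro p hp hp2
        rw [Finset.mem_range] at hp
        rw [if_neg]
        · ring
        · rintro ⟨_, h3⟩; exact hp2 (Finset.mem_Ico.mpr ⟨h3, hp⟩)
    rw [e1, e2] at h1
    have e3 : ∑ p ∈ Finset.Ico l L, (X p ω - q p) * X (p - l) ω
        = ∑ p ∈ Finset.Ico l L, X (p - l) ω * X p ω - ∑ p ∈ Finset.Ico l L, q p * X (p - l) ω := by
      rw [← Finset.sum_sub_distrib]
      exact Finset.sum_congr rfl fun p _ => by ring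
    linarith
  · by_cases hc : 1 ≤ l ∧ l ≤ p
    · simp only [hc, and_self, if_true]
      exact h.meas_le (by omega)
    · simp only [hc, if_false]
      exact measurable_const
  · refine summable_of_le_sq _ 1 (fun L => Finset.sum_nonneg fun i _ => (Real.exp_pos _).le) ?_
    filter_upwards [eventually_ge_atTop 1] with L hL
    rw [Finset.sum_const, exp_neg_four_log L hL]
    simp only [Nat.card_Icc, nsmul_eq_mul]
    have hL' : (1:ℝ) ≤ L := by exact_mod_cast hL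
    have : ((L + 1 - 1 : ℕ) : ℝ) ≤ 1 * (L:ℝ) ^ 2 := by
      simp; nlinarith
    calc ((L + 1 - 1 : ℕ) : ℝ) * ((L:ℝ) ^ 4)⁻¹ ≤ 1 * (L:ℝ) ^ 2 * ((L:ℝ) ^ 4)⁻¹ := by gcongr
      _ = 1 * ((L:ℝ) ^ 2)⁻¹ := by field_simp

lemma qx_fact (h : PredBern P X q F) : ∀ᵐ ω ∂P, ∀ᶠ L : ℕ in atTop,
    ∑ p ∈ Finset.range L, q p * X p ω
      ≤ 2 * ∑ p ∈ Finset.range L, (q p) ^ 2 + 4 * Real.log L := by
  classical
  have key := bern_bc h (ι := Unit) (fun L => Finset.univ) (fun L => L)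
    (fun L l p ω => q p)
    (fun L i => 4 * Real.log L) (fun L l p => measurable_const) ?_
  · filter_upwards [key] with ω hω
    filter_upwards [hω] with L hL
    have h1 := hL () (Finset.mem_univ _) (by
      intro p _; rw [abs_of_nonneg (h.q0 p)]; exact h.q1 p)
    have e3 : ∑ p ∈ Finset.range L, (X p ω - q p) * q p
        = ∑ p ∈ Finset.range L, q p * X p ω - ∑ p ∈ Finset.range L, (q p) ^ 2 := by
      rw [← Finset.sum_sub_distrib]
      exact Finset.sum_congr rfl fun p _ => by ring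
    have e4 : ∑ p ∈ Finset.range L, q p * (q p) ^ 2 ≤ ∑ p ∈ Finset.range L, (q p) ^ 2 := by
      refine Finset.sum_le_sum fun p _ => ?_
      nlinarith [h.q0 p, h.q1 p, sq_nonneg (q p)]
    linarith
  · refine summable_of_le_sq _ 1 (fun L => Finset.sum_nonneg fun i _ => (Real.exp_pos _).le) ?_
    filter_upwards [eventually_ge_atTop 1] with L hL
    rw [Finset.sum_const, exp_neg_four_log L hL]
    simp only [Finset.card_univ, Fintype.card_unit, nsmul_eq_mul]
    have hL' : (1:ℝ) ≤ L := by exact_mod_cast hL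
    push_cast
    have : ((L:ℝ) ^ 2) ≤ (L:ℝ) ^ 4 := pow_le_pow_right₀ hL' (by norm_num)
    gcongr

theorem good_fact (h : PredBern P X q F) (hq : Antitone q) :
    ∀ᵐ ω ∂P, ∀ᶠ L : ℕ in atTop, GoodAt (fun n => X n ω) q L := by
  filter_upwards [window_fact h, pair_fact h, qx_fact h] with ω h1 h2 h3
  filter_upwards [h1, h2, h3] with L g1 g2 g3
  refine ⟨fun i j hij hj => (g1 i j hij hj).1, fun i j hij hj => (g1 i j hij hj).2, ?_⟩
  intro l hl1 hl2
  have e1 := g2 l hl1 hl2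
  have e2 : ∑ p ∈ Finset.Ico l L, q p * X (p - l) ω ≤ ∑ p ∈ Finset.range L, q p * X p ω := by
    rw [Finset.sum_Ico_eq_sum_range]
    have : ∀ k ∈ Finset.range (L - l), q (l + k) * X (l + k - l) ω ≤ q k * X k ω := by
      intro k _
      rw [Nat.add_sub_cancel_left]
      have : q (l + k) ≤ q k := hq (Nat.le_add_left _ _)
      rcases h.zo k ω with h0 | h0 <;> rw [h0] <;> linarith
    refine (Finset.sum_le_sum this).trans ?_
    refine Finset.sum_le_sum_of_subset_of_nonneg ?_ fun i _ _ => ?_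
    · intro n hn; rw [Finset.mem_range] at hn ⊢; omega
    · rcases h.zo i ω with h0 | h0 <;> rw [h0] <;> simp [h.q0 i]
  show ∑ p ∈ Finset.Ico l L, X (p - l) ω * X p ω ≤ _
  linarith

end Pool.Agent.Helper49.RS
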