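import Pool.Agent.Helper49.RS.ScaleEv

set_option autoImplicit false
open MeasureTheory Filter Topology

namespace Pool.Agent.Helper49.RS

set_option linter.unusedSectionVars false

variable {a b ε τ : ℝ}

/-- More size information. -/
structure Base2 (a b ε τ : ℝ) (M : ℕ) : Prop where
  g1 : 24 * Real.log M ≤ (M : ℝ) ^ (ε / 2)
  g2 : 96 * Real.log M ≤ (M : ℝ) ^ ε
  g3 : 4 * (M : ℝ) ^ (0:ℝ) ≤ (M : ℝ) ^ (ε / 2)
  g4 : 19 * (M : ℝ) ^ (7 * ε + ε / 2) ≤ (M : ℝ) ^ (8 * ε)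
  g5 : 4 * Real.log M ≤ (M : ℝ) ^ ((1 - a) / 2)
  g6 : 32 * Real.log M ≤ (M : ℝ) ^ (1 - a)
  g7 : 38400 * (M : ℝ) ^ (2 - 2 * a - ε) ≤ (M : ℝ) ^ (2 - 2 * a - ε / 2)
  g8 : 12 * Real.log M ≤ (M : ℝ) ^ (1 : ℝ)
  g9 : 4 * (M : ℝ) ^ (0:ℝ) ≤ (M : ℝ) ^ (1 : ℝ)

lemma base2_ev (e : Exps a b ε τ) : ∀ᶠ M : ℕ in atTop, Base2 a b ε τ M := by
  have hε := e.ε0
  have ha1 := e.a1
  filter_upwards [ev_log 24 (ε / 2) (by norm_num) (by linarith),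
    ev_log 96 ε (by norm_num) (by linarith), ev_pow 4 0 (ε / 2) (by linarith),
    ev_pow 19 (7 * ε + ε / 2) (8 * ε) (by linarith),
    ev_log 4 ((1 - a) / 2) (by norm_num) (by linarith),
    ev_log 32 (1 - a) (by norm_num) (by linarith),
    ev_pow 38400 (2 - 2 * a - ε) (2 - 2 * a - ε / 2) (by linarith),
    ev_log 12 1 (by norm_num) (by norm_num), ev_pow 4 0 1 (by norm_num)]
    with M h1 h2 h3 h4 h5 h6 h7 h8 h9
  exact ⟨h1, h2, h3, h4, h5, h6, h7, h8, h9⟩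

lemma sqrt_rpow (m x : ℝ) (hm : 0 < m) : Real.sqrt (m ^ x) = m ^ (x / 2) := by
  rw [Real.sqrt_eq_rpow, ← Real.rpow_mul hm.le]; congr 1; ring

lemma sqrt_add (x y : ℝ) (hx : 0 ≤ x) (hy : 0 ≤ y) : Real.sqrt (x + y) ≤ Real.sqrt x + Real.sqrt y := by
  rw [Real.sqrt_le_left (by positivity)]
  nlinarith [Real.sq_sqrt hx, Real.sq_sqrt hy, mul_nonneg (Real.sqrt_nonneg x) (Real.sqrt_nonneg y)]

lemma sqrt_two_mul (x : ℝ) : Real.sqrt (2 * x) ≤ 2 * Real.sqrt x := by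
  rw [Real.sqrt_mul (by norm_num)]
  have : Real.sqrt 2 ≤ 2 := by
    rw [Real.sqrt_le_left (by norm_num)]; norm_num
  gcongr

lemma κpos {M : ℕ} (_ : Exps a b ε τ) (hb : BaseAt a b ε τ M) : 0 < pκ M := by
  unfold pκ
  have h1 : (3:ℝ) ≤ M := by exact_mod_cast hb.M3
  have : 0 < Real.log M := Real.log_pos (lt_of_lt_of_le (by norm_num) h1)
  linarith

section Fix
variable {M : ℕ} (e : Exps a b ε τ) (hb : BaseAt a b ε τ M) (hb2 : Base2 a b ε τ M)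
include e hb hb2

lemma alph_le : alph (pH a ε M) (pD b ε τ M) (pW ε M) (pPb a ε M) (pCX a ε M) (pCN b ε τ M)
    (pκ M) (pPi a ε M)
      ≤ ((M : ℝ) ^ ((1 - 2 * a) / 2) + (M : ℝ) ^ ((1 - 2 * b) * τ / 2)) * (M : ℝ) ^ (8 * ε) := by
  have hM0 := Mpos e hb
  have hM1 := M1 e hb
  have hlog := log_nn e hb
  have hε := e.ε0
  have g2 := hb2.g2
  have g3 := hb2.g3
  rw [Real.rpow_zero] at g3
  have hone : ∀ x : ℝ, 0 ≤ x → 1 ≤ (M : ℝ) ^ x := fun x hx => Real.one_le_rpow hM1 hx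
  have hpos : ∀ x : ℝ, 0 < (M : ℝ) ^ x := fun x => Real.rpow_pos_of_pos hM0 x
  have hmono : ∀ x y : ℝ, x ≤ y → (M : ℝ) ^ x ≤ (M : ℝ) ^ y := fun x y h =>
    Real.rpow_le_rpow_of_exponent_le hM1 h
  have hadd : ∀ x y : ℝ, (M : ℝ) ^ x * (M : ℝ) ^ y = (M : ℝ) ^ (x + y) := fun x y =>
    (Real.rpow_add hM0 x y).symm
  set u := (1 - 2 * a) / 2 with hu
  set w := (1 - 2 * b) * τ / 2 with hw
  -- factor one
  have k1 : 6 * pW ε M * pκ M + 1 ≤ (M : ℝ) ^ (4 * ε) := by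
    unfold pW pκ
    have h1 : 96 * Real.log M * (M : ℝ) ^ (3 * ε) ≤ (M : ℝ) ^ (4 * ε) := by
      calc _ ≤ (M : ℝ) ^ ε * (M : ℝ) ^ (3 * ε) := by gcongr
        _ = _ := by rw [hadd]; congr 1; ring
    have h2 : 2 ≤ (M : ℝ) ^ (4 * ε) := by
      have := hmono (ε / 2) (4 * ε) (by linarith)
      linarith
    nlinarith
  have k2 : Real.sqrt (pCX a ε M + pW ε M * (pW ε M * pCN b ε τ M))
      ≤ (M : ℝ) ^ (u + ε) + (M : ℝ) ^ (w + 7 * ε / 2) := by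
    have h1 : pW ε M * (pW ε M * pCN b ε τ M) = (M : ℝ) ^ (2 * w + 7 * ε) := by
      unfold pW pCN
      rw [hadd, hadd]; congr 1; rw [hw]; ring
    have h2 : pCX a ε M = (M : ℝ) ^ (2 * u + 2 * ε) := by
      unfold pCX; congr 1; rw [hu]; ring
    rw [h1, h2]
    refine (sqrt_add _ _ (hpos _).le (hpos _).le).trans (le_of_eq ?_)
    rw [sqrt_rpow _ _ hM0, sqrt_rpow _ _ hM0]
    congr 2 <;> ring
  have k3 : Real.sqrt (pκ M * (pPb a ε M * pW ε M * (pW ε M * pCN b ε τ M)) *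
      ((pH a ε M : ℝ) + (pD b ε τ M : ℝ)))
      ≤ 2 * ((M : ℝ) ^ (w + 5 * ε) + (M : ℝ) ^ (u + 15 * ε / 2)) := by
    have h1 : pPb a ε M * pW ε M * (pW ε M * pCN b ε τ M) = (M : ℝ) ^ (-a + 2 * w + 8 * ε) := by
      unfold pPb pW pCN
      rw [hadd, hadd, hadd]; congr 1; rw [hw]; ring
    have h2 : pκ M ≤ (M : ℝ) ^ ε := by unfold pκ; linarith
    have h3 := H_le e hb
    have h4 := D_le' e hb
    have h5 : pκ M * (pPb a ε M * pW ε M * (pW ε M * pCN b ε τ M)) *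
        ((pH a ε M : ℝ) + (pD b ε τ M : ℝ))
        ≤ 2 * (M : ℝ) ^ (2 * w + 10 * ε) + 2 * (M : ℝ) ^ (2 * u + 15 * ε) := by
      rw [h1]
      calc _ ≤ (M : ℝ) ^ ε * (M : ℝ) ^ (-a + 2 * w + 8 * ε) *
            (2 * (M : ℝ) ^ (a + ε) + 2 * (M : ℝ) ^ (b * τ + 4 * ε)) := by gcongr
        _ = 2 * ((M : ℝ) ^ ε * (M : ℝ) ^ (-a + 2 * w + 8 * ε) * (M : ℝ) ^ (a + ε))
            + 2 * ((M : ℝ) ^ ε * (M : ℝ) ^ (-a + 2 * w + 8 * ε) * (M : ℝ) ^ (b * τ + 4 * ε)) := by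
            ring
        _ = _ := by
            rw [hadd, hadd, hadd]
            have e1 : ε + (-a + 2 * w + 8 * ε) + (a + ε) = 2 * w + 10 * ε := by ring
            have e2 : ε + (-a + 2 * w + 8 * ε) + (b * τ + 4 * ε) = 2 * u + 15 * ε := by
              have := e.hτ
              rw [hw, hu]; linarith
            rw [e1, e2]
    calc _ ≤ Real.sqrt (2 * (M : ℝ) ^ (2 * w + 10 * ε) + 2 * (M : ℝ) ^ (2 * u + 15 * ε)) :=
          Real.sqrt_le_sqrt h5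
      _ ≤ Real.sqrt (2 * (M : ℝ) ^ (2 * w + 10 * ε)) + Real.sqrt (2 * (M : ℝ) ^ (2 * u + 15 * ε)) :=
          sqrt_add _ _ (by positivity) (by positivity)
      _ ≤ 2 * Real.sqrt ((M : ℝ) ^ (2 * w + 10 * ε)) + 2 * Real.sqrt ((M : ℝ) ^ (2 * u + 15 * ε)) :=
          add_le_add (sqrt_two_mul _) (sqrt_two_mul _)
      _ = _ := by
          rw [sqrt_rpow _ _ hM0, sqrt_rpow _ _ hM0]
          have e1 : (2 * w + 10 * ε) / 2 = w + 5 * ε := by ring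
          have e2 : (2 * u + 15 * ε) / 2 = u + 15 * ε / 2 := by ring
          rw [e1, e2]; ring
  have k4 : Real.sqrt (pH a ε M) * (2 * (1 + 3 * pκ M) * (pPb a ε M * Real.sqrt (pPi a ε M)))
      ≤ 2 * (M : ℝ) ^ (u + 3 * ε) := by
    have h1 : Real.sqrt (pH a ε M) ≤ 2 * (M : ℝ) ^ ((a + ε) / 2) := by
      calc _ ≤ Real.sqrt (2 * (M : ℝ) ^ (a + ε)) := Real.sqrt_le_sqrt (H_le e hb)
        _ ≤ 2 * Real.sqrt ((M : ℝ) ^ (a + ε)) := sqrt_two_mul _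
        _ = _ := by rw [sqrt_rpow _ _ hM0]
    have h2 : 2 * (1 + 3 * pκ M) ≤ (M : ℝ) ^ ε := by
      unfold pκ
      have : (4:ℝ) ≤ (M : ℝ) ^ ε := by
        have := hmono (ε / 2) ε (by linarith)
        linarith
      linarith
    have h3 : pPb a ε M * Real.sqrt (pPi a ε M) = (M : ℝ) ^ (-a + ε + (1 - a + ε) / 2) := by
      unfold pPb pPi
      rw [sqrt_rpow _ _ hM0, hadd]
    rw [h3]
    have hκ0 := (κpos e hb).le
    calc _ ≤ 2 * (M : ℝ) ^ ((a + ε) / 2) * ((M : ℝ) ^ ε * (M : ℝ) ^ (-a + ε + (1 - a + ε) / 2)) := by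
          gcongr
      _ = 2 * ((M : ℝ) ^ ((a + ε) / 2) * ((M : ℝ) ^ ε * (M : ℝ) ^ (-a + ε + (1 - a + ε) / 2))) := by
          ring
      _ = _ := by
          rw [hadd, hadd]; congr 2; rw [hu]; ring
  unfold alph
  have hX : 0 < (M : ℝ) ^ u := hpos _
  have hYp : 0 < (M : ℝ) ^ w := hpos _
  have q1 : (M : ℝ) ^ (4 * ε) * ((M : ℝ) ^ (u + ε) + (M : ℝ) ^ (w + 7 * ε / 2))
      ≤ ((M : ℝ) ^ u + (M : ℝ) ^ w) * (M : ℝ) ^ (7 * ε + ε / 2) := by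
    rw [mul_add, add_mul, hadd, hadd, hadd, hadd]
    exact add_le_add (hmono _ _ (by linarith)) (hmono _ _ (by linarith))
  have q2 : (M : ℝ) ^ (w + 5 * ε) + (M : ℝ) ^ (u + 15 * ε / 2)
      ≤ ((M : ℝ) ^ u + (M : ℝ) ^ w) * (M : ℝ) ^ (7 * ε + ε / 2) := by
    rw [add_mul, hadd, hadd, add_comm ((M : ℝ) ^ (u + (7 * ε + ε / 2)))]
    exact add_le_add (hmono _ _ (by linarith)) (hmono _ _ (by linarith))
  have q3 : (M : ℝ) ^ (u + 3 * ε) ≤ ((M : ℝ) ^ u + (M : ℝ) ^ w) * (M : ℝ) ^ (7 * ε + ε / 2) := by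
    rw [add_mul, hadd, hadd]
    have h1 := hmono (u + 3 * ε) (u + (7 * ε + ε / 2)) (by linarith)
    have h2 := hpos (w + (7 * ε + ε / 2))
    linarith
  have q4 : 19 * (((M : ℝ) ^ u + (M : ℝ) ^ w) * (M : ℝ) ^ (7 * ε + ε / 2))
      ≤ ((M : ℝ) ^ u + (M : ℝ) ^ w) * (M : ℝ) ^ (8 * ε) := by
    have := mul_le_mul_of_nonneg_left hb2.g4 (by positivity : 0 ≤ (M : ℝ) ^ u + (M : ℝ) ^ w)
    linarith
  have q5 : (6 * pW ε M * pκ M + 1) * Real.sqrt (pCX a ε M + pW ε M * (pW ε M * pCN b ε τ M))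
      ≤ (M : ℝ) ^ (4 * ε) * ((M : ℝ) ^ (u + ε) + (M : ℝ) ^ (w + 7 * ε / 2)) :=
    mul_le_mul k1 k2 (Real.sqrt_nonneg _) (hpos _).le
  linarith

lemma opK_le : opK M (pH a ε M) (pD b ε τ M) (pW ε M) (pPb a ε M) (pCX a ε M) (pCN b ε τ M)
    (pκ M) (pPi a ε M) ⌈12 * Real.log M⌉₊
      ≤ 32 * (((M : ℝ) ^ ((1 - 2 * a) / 2) + (M : ℝ) ^ ((1 - 2 * b) * τ / 2)) * (M : ℝ) ^ (9 * ε)) := by
  have hM0 := Mpos e hb
  have hM1 := M1 e hb
  have hlog := log_nn e hb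
  have hε := e.ε0
  have hpos : ∀ x : ℝ, 0 < (M : ℝ) ^ x := fun x => Real.rpow_pos_of_pos hM0 x
  have hmono : ∀ x y : ℝ, x ≤ y → (M : ℝ) ^ x ≤ (M : ℝ) ^ y := fun x y h =>
    Real.rpow_le_rpow_of_exponent_le hM1 h
  have hadd : ∀ x y : ℝ, (M : ℝ) ^ x * (M : ℝ) ^ y = (M : ℝ) ^ (x + y) := fun x y =>
    (Real.rpow_add hM0 x y).symm
  set L := ⌈12 * Real.log M⌉₊ with hL
  have g3 := hb2.g3
  rw [Real.rpow_zero] at g3
  have g9 := hb2.g9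
  rw [Real.rpow_zero] at g9
  have hLle : (L : ℝ) ≤ 12 * Real.log M + 1 := (Nat.ceil_lt_add_one (by positivity)).le
  have hL1 : (L : ℝ) ≤ (M : ℝ) ^ (ε / 2) := by
    have := hb2.g1
    linarith
  have hL2 : (L : ℝ) ^ 2 ≤ (M : ℝ) ^ ε := by
    calc (L : ℝ) ^ 2 ≤ ((M : ℝ) ^ (ε / 2)) ^ 2 := by gcongr
      _ = (M : ℝ) ^ ε := by rw [sq, hadd]; congr 1; ring
  have hpow : (1 / 2 : ℝ) ^ L ≤ (M : ℝ) ^ (-8 : ℝ) := by
    have h1 : (12 * Real.log M) * Real.log 2 ≤ L * Real.log 2 :=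
      mul_le_mul_of_nonneg_right (Nat.le_ceil _) (Real.log_nonneg (by norm_num))
    have h2 : (8 / 12 : ℝ) ≤ Real.log 2 := by
      have := Real.log_two_gt_d9; linarith
    calc (1 / 2 : ℝ) ^ L = Real.exp (-(L * Real.log 2)) := by
          rw [one_div, inv_pow, Real.exp_neg, mul_comm, Real.exp_mul, Real.exp_log (by norm_num)]
          norm_cast
      _ ≤ Real.exp (-(8 * Real.log M)) := by
          apply Real.exp_le_exp.mpr
          nlinarith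
      _ = (M : ℝ) ^ (-8 : ℝ) := by
          rw [Real.rpow_def_of_pos hM0]; congr 1; ring
  have hH : (pH a ε M : ℝ) ≤ 2 * (M : ℝ) ^ (1:ℝ) := by
    have h1 := H_le e hb
    have h2 := hmono (a + ε) 1 (by have := e.c2; linarith)
    linarith
  have hD : (pD b ε τ M : ℝ) ≤ (M : ℝ) ^ (3:ℝ) := by
    have h1 := D_le e hb
    have h2 := hb.f4
    have h3 := hpos τ
    linarith
  have hrem : ((L : ℝ) + 1) * ((pH a ε M : ℝ) * (pD b ε τ M : ℝ) * M * (1 / 2) ^ L) ≤ 1 := by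
    have h1 : (L : ℝ) + 1 ≤ 2 * (M : ℝ) ^ (1:ℝ) := by
      have := hb2.g8
      linarith
    calc _ ≤ (2 * (M : ℝ) ^ (1:ℝ)) * ((2 * (M : ℝ) ^ (1:ℝ)) * (M : ℝ) ^ (3:ℝ) * (M:ℝ)^(1:ℝ)
          * (M : ℝ) ^ (-8 : ℝ)) := by
          conv_lhs => rw [show (M:ℝ) = (M:ℝ) ^ (1:ℝ) from (Real.rpow_one _).symm]
          rw [Real.rpow_one] at *
          gcongr
      _ = 4 * ((M : ℝ) ^ (1:ℝ) * ((M : ℝ) ^ (1:ℝ) * ((M : ℝ) ^ (3:ℝ) * ((M:ℝ)^(1:ℝ)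
          * (M : ℝ) ^ (-8 : ℝ))))) := by ring
      _ = 4 * (M : ℝ) ^ (-2 : ℝ) := by
          rw [hadd, hadd, hadd, hadd]; norm_num
      _ ≤ (M : ℝ) ^ (1:ℝ) * (M : ℝ) ^ (-2 : ℝ) := by
          have : (4:ℝ) ≤ (M : ℝ) ^ (1:ℝ) := by linarith
          gcongr
      _ = (M : ℝ) ^ (-1 : ℝ) := by rw [hadd]; norm_num
      _ ≤ 1 := Real.rpow_le_one_of_one_le_of_nonpos hM1 (by norm_num)
  have hal := alph_le e hb hb2
  have hX : 1 ≤ (M : ℝ) ^ ((1 - 2 * a) / 2) := Real.one_le_rpow hM1 (by have := e.a1; linarith)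
  have hYp : 0 < (M : ℝ) ^ ((1 - 2 * b) * τ / 2) := hpos _
  have h9 : 1 ≤ (M : ℝ) ^ (9 * ε) := Real.one_le_rpow hM1 (by linarith)
  have hal0 := alph_nonneg (H := pH a ε M) (D := pD b ε τ M) (W := pW ε M) (Pb := pPb a ε M)
    (CX := pCX a ε M) (CN := pCN b ε τ M) (κ := pκ M) (Pi := pPi a ε M)
    (κpos e hb) (hpos _) (hpos _)
  unfold opK
  have h5 : alph (pH a ε M) (pD b ε τ M) (pW ε M) (pPb a ε M) (pCX a ε M) (pCN b ε τ M)
    (pκ M) (pPi a ε M) * (L : ℝ) ^ 2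
      ≤ ((M : ℝ) ^ ((1 - 2 * a) / 2) + (M : ℝ) ^ ((1 - 2 * b) * τ / 2)) * (M : ℝ) ^ (9 * ε) := by
    calc _ ≤ ((M : ℝ) ^ ((1 - 2 * a) / 2) + (M : ℝ) ^ ((1 - 2 * b) * τ / 2)) * (M : ℝ) ^ (8 * ε)
          * (M : ℝ) ^ ε := by gcongr
      _ = _ := by rw [mul_assoc, hadd]; congr 2; ring
  have h6 : 1 ≤ ((M : ℝ) ^ ((1 - 2 * a) / 2) + (M : ℝ) ^ ((1 - 2 * b) * τ / 2)) * (M : ℝ) ^ (9 * ε) := by
    calc (1:ℝ) = 1 * 1 := by norm_num
      _ ≤ _ := by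
        have : 1 ≤ (M : ℝ) ^ ((1 - 2 * a) / 2) + (M : ℝ) ^ ((1 - 2 * b) * τ / 2) := by linarith
        gcongr
  linarith

lemma rhs_le {pX : ℕ → Prop} [DecidablePred pX] (hg : GoodAt (ind pX) (prb a) M) :
    2 * (((M : ℝ) / (pH a ε M : ℝ)) * ((∑ n ∈ Finset.range M, (ind pX n + prb a n))
          + 8 * opK M (pH a ε M) (pD b ε τ M) (pW ε M) (pPb a ε M) (pCX a ε M) (pCN b ε τ M)
    (pκ M) (pPi a ε M) ⌈12 * Real.log M⌉₊ * Real.sqrt ((pH a ε M : ℝ) * (pD b ε τ M : ℝ))))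
        + 2 * (∑ n ∈ Finset.range (pM0 ε M), (ind pX n + prb a n)) ^ 2
      ≤ (Nat.count pX M : ℝ) ^ 2 * (M : ℝ) ^ (-(ε / 2)) := by
  have hM0 := Mpos e hb
  have hM1 := M1 e hb
  have hlog := log_nn e hb
  have hε := e.ε0
  have hpos : ∀ x : ℝ, 0 < (M : ℝ) ^ x := fun x => Real.rpow_pos_of_pos hM0 x
  have hmono : ∀ x y : ℝ, x ≤ y → (M : ℝ) ^ x ≤ (M : ℝ) ^ y := fun x y h =>
    Real.rpow_le_rpow_of_exponent_le hM1 h
  have hadd : ∀ x y : ℝ, (M : ℝ) ^ x * (M : ℝ) ^ y = (M : ℝ) ^ (x + y) := fun x y =>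
    (Real.rpow_add hM0 x y).symm
  have hop := opK_le e hb hb2
  set X := (M : ℝ) ^ ((1 - 2 * a) / 2) with hX
  set Y := (M : ℝ) ^ ((1 - 2 * b) * τ / 2) with hY
  have hXp : 0 < X := hpos _
  have hYp : 0 < Y := hpos _
  have hHpos : 0 < (pH a ε M : ℝ) := by
    have : 0 < pH a ε M := Nat.ceil_pos.mpr (hpos _)
    exact_mod_cast this
  have hMH : (M : ℝ) / (pH a ε M : ℝ) ≤ (M : ℝ) ^ (1 - a - ε) := by
    rw [div_le_iff₀ hHpos]
    calc (M : ℝ) = (M : ℝ) ^ (1 - a - ε) * (M : ℝ) ^ (a + ε) := by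
          rw [hadd]; conv_lhs => rw [← Real.rpow_one (M : ℝ)]
          congr 1; ring
      _ ≤ _ := by
          have : (M : ℝ) ^ (a + ε) ≤ pH a ε M := Nat.le_ceil _
          gcongr
  have hHD : Real.sqrt ((pH a ε M : ℝ) * (pD b ε τ M : ℝ)) ≤ 2 * (M : ℝ) ^ ((a + b * τ + 5 * ε) / 2) := by
    have h1 := H_le e hb
    have h2 := D_le' e hb
    have h3 : (pH a ε M : ℝ) * (pD b ε τ M : ℝ) ≤ 2 ^ 2 * (M : ℝ) ^ (a + b * τ + 5 * ε) := by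
      calc _ ≤ (2 * (M : ℝ) ^ (a + ε)) * (2 * (M : ℝ) ^ (b * τ + 4 * ε)) := by gcongr
        _ = 2 ^ 2 * ((M : ℝ) ^ (a + ε) * (M : ℝ) ^ (b * τ + 4 * ε)) := by ring
        _ = _ := by rw [hadd]; congr 2; ring
    calc _ ≤ Real.sqrt (2 ^ 2 * (M : ℝ) ^ (a + b * τ + 5 * ε)) := Real.sqrt_le_sqrt h3
      _ = _ := by rw [Real.sqrt_mul (by norm_num), Real.sqrt_sq (by norm_num), sqrt_rpow _ _ hM0]
  have hsum1 : ∑ n ∈ Finset.range M, (ind pX n + prb a n) ≤ 7 * (M : ℝ) ^ (1 - a) := by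
    rw [Finset.sum_add_distrib, sum_ind_range]
    have h1 := cntX_le e hb hg M le_rfl
    have h2 := sumPi_le e hb
    linarith
  have hop0 : 0 ≤ opK M (pH a ε M) (pD b ε τ M) (pW ε M) (pPb a ε M) (pCX a ε M) (pCN b ε τ M)
    (pκ M) (pPi a ε M) ⌈12 * Real.log M⌉₊ := by
    have hal0 := alph_nonneg (H := pH a ε M) (D := pD b ε τ M) (W := pW ε M) (Pb := pPb a ε M)
      (CX := pCX a ε M) (CN := pCN b ε τ M) (κ := pκ M) (Pi := pPi a ε M)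
      (κpos e hb) (hpos _) (hpos _)
    unfold opK; positivity
  have t1 : ((M : ℝ) / (pH a ε M : ℝ)) * ((∑ n ∈ Finset.range M, (ind pX n + prb a n))
          + 8 * opK M (pH a ε M) (pD b ε τ M) (pW ε M) (pPb a ε M) (pCX a ε M) (pCN b ε τ M)
    (pκ M) (pPi a ε M) ⌈12 * Real.log M⌉₊ * Real.sqrt ((pH a ε M : ℝ) * (pD b ε τ M : ℝ)))
      ≤ 1031 * (M : ℝ) ^ (2 - 2 * a - ε) := by
    have s0 : 0 ≤ ∑ n ∈ Finset.range M, (ind pX n + prb a n) := Finset.sum_nonneg fun n _ =>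
      add_nonneg (by unfold ind; split_ifs <;> norm_num) (prb_nonneg a n)
    calc _ ≤ (M : ℝ) ^ (1 - a - ε) * (7 * (M : ℝ) ^ (1 - a)
          + 8 * (32 * ((X + Y) * (M : ℝ) ^ (9 * ε))) * (2 * (M : ℝ) ^ ((a + b * τ + 5 * ε) / 2))) := by
          gcongr
      _ = 7 * ((M : ℝ) ^ (1 - a - ε) * (M : ℝ) ^ (1 - a))
          + 512 * (X * ((M : ℝ) ^ (9 * ε) * ((M : ℝ) ^ ((a + b * τ + 5 * ε) / 2) * (M : ℝ) ^ (1 - a - ε))))
          + 512 * (Y * ((M : ℝ) ^ (9 * ε) * ((M : ℝ) ^ ((a + b * τ + 5 * ε) / 2) * (M : ℝ) ^ (1 - a - ε)))) := by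
          ring
      _ ≤ 7 * (M : ℝ) ^ (2 - 2 * a - ε) + 512 * (M : ℝ) ^ (2 - 2 * a - ε)
          + 512 * (M : ℝ) ^ (2 - 2 * a - ε) := by
          have c1 := e.c1
          have c2 := e.c2
          have cτ := e.hτ
          have r1 : (M : ℝ) ^ (1 - a - ε) * (M : ℝ) ^ (1 - a) = (M : ℝ) ^ (2 - 2 * a - ε) := by
            rw [hadd]; congr 1; ring
          have r2 : X * ((M : ℝ) ^ (9 * ε) * ((M : ℝ) ^ ((a + b * τ + 5 * ε) / 2) *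
              (M : ℝ) ^ (1 - a - ε))) ≤ (M : ℝ) ^ (2 - 2 * a - ε) := by
            rw [hX, hadd, hadd, hadd]
            apply hmono; linarith
          have r3 : Y * ((M : ℝ) ^ (9 * ε) * ((M : ℝ) ^ ((a + b * τ + 5 * ε) / 2) *
              (M : ℝ) ^ (1 - a - ε))) ≤ (M : ℝ) ^ (2 - 2 * a - ε) := by
            rw [hY, hadd, hadd, hadd]
            apply hmono; nlinarith
          linarith
      _ = _ := by ring
  have t2 : ∑ n ∈ Finset.range (pM0 ε M), (ind pX n + prb a n) ≤ 13 * (M : ℝ) ^ (1 - a - ε / 2) := by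
    have ha1 := e.a1
    have ha0 := e.a0
    have hM0le : pM0 ε M ≤ M := by
      unfold pM0
      rw [Nat.ceil_le]
      calc (M : ℝ) ^ (1 - ε) ≤ (M : ℝ) ^ (1:ℝ) := hmono _ _ (by linarith)
        _ = M := Real.rpow_one _
    have h1 := hg.up 0 (pM0 ε M) (Nat.zero_le _) hM0le
    rw [← Finset.range_eq_Ico] at h1
    have h2 := sum_rpow_le a ha0.le (by linarith) (pM0 ε M)
    have h3 : ∑ n ∈ Finset.range (pM0 ε M), prb a n ≤ 2 * (pM0 ε M : ℝ) ^ (1 - a) := by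
      unfold prb
      refine h2.trans ?_
      rw [div_le_iff₀ (by linarith)]
      have : 0 ≤ (pM0 ε M : ℝ) ^ (1 - a) := by positivity
      nlinarith
    have h4 : (pM0 ε M : ℝ) ^ (1 - a) ≤ 2 * (M : ℝ) ^ (1 - a - ε / 2) := by
      have h5 : (pM0 ε M : ℝ) ≤ 2 * (M : ℝ) ^ (1 - ε) := by
        apply ceil_le_two
        exact Real.one_le_rpow hM1 (by have := e.εsmall; linarith)
      calc (pM0 ε M : ℝ) ^ (1 - a) ≤ (2 * (M : ℝ) ^ (1 - ε)) ^ (1 - a) :=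
            Real.rpow_le_rpow (Nat.cast_nonneg _) h5 (by linarith)
        _ = 2 ^ (1 - a) * (M : ℝ) ^ ((1 - ε) * (1 - a)) := by
            rw [Real.mul_rpow (by norm_num) (hpos _).le, ← Real.rpow_mul hM0.le]
        _ ≤ 2 * (M : ℝ) ^ (1 - a - ε / 2) := by
            have h6 : (2:ℝ) ^ (1 - a) ≤ 2 ^ (1:ℝ) :=
              Real.rpow_le_rpow_of_exponent_le (by norm_num) (by linarith)
            rw [Real.rpow_one] at h6
            have h7 := hmono ((1 - ε) * (1 - a)) (1 - a - ε / 2) (by nlinarith)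
            gcongr
    have h8 : 4 * Real.log M ≤ (M : ℝ) ^ (1 - a - ε / 2) :=
      hb2.g5.trans (hmono _ _ (by have := e.εsmall; linarith))
    rw [Finset.sum_add_distrib]
    linarith
  have t3 : (1 / 4) * (M : ℝ) ^ (1 - a) ≤ Nat.count pX M := by
    have h1 := hg.lo 0 M (Nat.zero_le _) le_rfl
    have h2 := sum_prb_lower a e.a0.le 0 M M (Nat.zero_le _) le_rfl
    rw [← Finset.range_eq_Ico] at h1 h2
    rw [sum_ind_range] at h1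
    have h3 : ((M : ℝ) - (0 : ℕ)) * (M : ℝ) ^ (-a) = (M : ℝ) ^ (1 - a) := by
      rw [show (1 - a) = 1 + (-a) by ring, Real.rpow_add hM0, Real.rpow_one]; simp
    rw [h3] at h2
    have h4 := hb2.g6
    linarith
  have t4 : (∑ n ∈ Finset.range (pM0 ε M), (ind pX n + prb a n)) ^ 2
      ≤ 169 * (M : ℝ) ^ (2 - 2 * a - ε) := by
    have s0 : 0 ≤ ∑ n ∈ Finset.range (pM0 ε M), (ind pX n + prb a n) :=
      Finset.sum_nonneg fun n _ =>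
      add_nonneg (by unfold ind; split_ifs <;> norm_num) (prb_nonneg a n)
    calc _ ≤ (13 * (M : ℝ) ^ (1 - a - ε / 2)) ^ 2 := by gcongr
      _ = 169 * ((M : ℝ) ^ (1 - a - ε / 2) * (M : ℝ) ^ (1 - a - ε / 2)) := by ring
      _ = _ := by rw [hadd]; congr 2; ring
  have t5 : (1 / 16) * (M : ℝ) ^ (2 - 2 * a - ε / 2)
      ≤ (Nat.count pX M : ℝ) ^ 2 * (M : ℝ) ^ (-(ε / 2)) := by
    calc _ = ((1 / 4) * (M : ℝ) ^ (1 - a)) ^ 2 * (M : ℝ) ^ (-(ε / 2)) := by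
          rw [mul_pow, sq ((M : ℝ) ^ (1 - a)), hadd, mul_assoc, hadd]
          norm_num
          congr 1; ring
      _ ≤ _ := by gcongr
  have g7 := hb2.g7
  linarith

end Fix

/-- The uniform error estimate. -/
def ErrBound (pX pY : ℕ → Prop) [DecidablePred pX] (π : ℕ → ℝ) (c : ℝ) : Prop :=
  ∀ᶠ M : ℕ in atTop, ∀ (α : Type) [MeasurableSpace α] (μ : Measure α) [IsProbabilityMeasure μ]
    (T S : α → α), MeasurePreserving T μ μ → MeasurePreserving S μ μ →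
    (∀ z, T (S z) = S (T z)) → ∀ f g : α → ℝ, Measurable f → Measurable g →
    (∀ z, |f z| ≤ 1) → (∀ z, |g z| ≤ 1) →
    ∫ z, (∑ n ∈ Finset.range M, (ind pX n - π n) * (f (T^[n] z) * g (S^[bt pX pY n] z))) ^ 2 ∂μ
      ≤ (Nat.count pX M : ℝ) ^ 2 * (M : ℝ) ^ (-c)

theorem err_ev (e : Exps a b ε τ) {pX pY : ℕ → Prop} [DecidablePred pX] [DecidablePred pY]
    (hY : (Set.ofPred pY).Infinite)
    (hgX : ∀ᶠ L : ℕ in atTop, GoodAt (ind pX) (prb a) L)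
    (hgY : ∀ᶠ L : ℕ in atTop, GoodAt (ind pY) (prb b) L)
    (hprob : ∀ᶠ M : ℕ in atTop, ProbAt pX (prb a) (bt pX pY) M (pB τ M) (pH a ε M) (pD b ε τ M)
      (pM0 ε M) (pκ M) (lamf (pPb a ε M) (pPi a ε M) (pW ε M) (pκ M)
        (pPb a ε M * pW ε M * (pW ε M * pCN b ε τ M)))) :
    ErrBound pX pY (prb a) (ε / 2) := by
  unfold ErrBound
  filter_upwards [scale_ev e hgX hgY hprob, base2_ev e] with M h1 hb2
  obtain ⟨hb, hg, hs⟩ := h1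
  intro α _ μ _ T S hT hS hTS f g hf hg' hf1 hg1
  have h2 := scale_bound hs hY ⌈12 * Real.log M⌉₊ μ T S hT hS hTS f g hf hg' hf1 hg1
  exact h2.trans (rhs_le e hb hb2 hg)

end Pool.Agent.Helper49.RS
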