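import Mathlib

set_option autoImplicit false
open Filter Topology

namespace Pool.Agent.Helper49.RS

section Group
variable {G : Type*} [AddCommGroup G] [Fintype G] [DecidableEq G]

lemma corr (a b : G → ℂ) (s : G) : ∑ g, a (g + s) * b g
    = (Fintype.card G : ℂ)⁻¹ * ∑ ψ : AddChar G ℂ, ψ (-s) * ((∑ h, a h * ψ h) * ∑ g, b g * ψ (-g)) := by
  have hc : (Fintype.card G : ℂ) ≠ 0 := by
    exact_mod_cast (Fintype.card_pos (α := G)).ne'
  have e1 : ∑ ψ : AddChar G ℂ, ψ (-s) * ((∑ h, a h * ψ h) * ∑ g, b g * ψ (-g))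
      = ∑ h, ∑ g, (a h * b g) * ∑ ψ : AddChar G ℂ, ψ (h - g - s) := by
    simp_rw [Finset.sum_mul_sum, Finset.mul_sum]
    rw [Finset.sum_comm]
    refine Finset.sum_congr rfl fun h _ => ?_
    rw [Finset.sum_comm]
    refine Finset.sum_congr rfl fun g _ => Finset.sum_congr rfl fun ψ _ => ?_
    rw [show h - g - s = h + (-g) + (-s) by abel, AddChar.map_add_eq_mul, AddChar.map_add_eq_mul]
    ring
  rw [e1]
  simp_rw [AddChar.sum_apply_eq_ite]
  have e2 : ∀ h g : G, a h * b g * (if h - g - s = 0 then (Fintype.card G : ℂ) else 0)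
      = if h = g + s then (Fintype.card G : ℂ) * (a h * b g) else 0 := by
    intro h g
    have : h - g - s = 0 ↔ h = g + s := by
      rw [sub_sub, sub_eq_zero]
    simp only [this]
    split_ifs <;> ring
  simp_rw [e2]
  rw [Finset.sum_comm]
  simp only [Finset.sum_ite_eq', Finset.mem_univ, if_true]
  rw [← Finset.mul_sum, inv_mul_cancel_left₀ hc]

lemma parseval (a : G → ℂ) : ∑ ψ : AddChar G ℂ, ‖∑ h, a h * ψ h‖ ^ 2
    = Fintype.card G * ∑ h, ‖a h‖ ^ 2 := by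
  have hc : (Fintype.card G : ℂ) ≠ 0 := by
    exact_mod_cast (Fintype.card_pos (α := G)).ne'
  have h1 := corr a (fun g => (starRingEnd ℂ) (a g)) 0
  have e1 : ∀ ψ : AddChar G ℂ, ∑ g, (starRingEnd ℂ) (a g) * ψ (-g)
      = (starRingEnd ℂ) (∑ h, a h * ψ h) := by
    intro ψ
    rw [map_sum]
    refine Finset.sum_congr rfl fun g _ => ?_
    rw [map_mul, AddChar.map_neg_eq_conj]
  simp only [add_zero, neg_zero, AddChar.map_zero_eq_one, one_mul] at h1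
  simp_rw [e1] at h1
  simp_rw [Complex.mul_conj'] at h1
  have h2 : ((Fintype.card G * ∑ h, ‖a h‖ ^ 2 : ℝ) : ℂ)
      = ((∑ ψ : AddChar G ℂ, ‖∑ h, a h * ψ h‖ ^ 2 : ℝ) : ℂ) := by
    push_cast
    rw [h1, mul_inv_cancel_left₀ hc]
  exact_mod_cast h2.symm

lemma parseval_neg (a : G → ℂ) : ∑ ψ : AddChar G ℂ, ‖∑ h, a h * ψ (-h)‖ ^ 2
    = Fintype.card G * ∑ h, ‖a h‖ ^ 2 := by
  have h1 := parseval (fun h => (starRingEnd ℂ) (a h))
  simp only [RCLike.norm_conj] at h1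
  rw [← h1]
  refine Finset.sum_congr rfl fun ψ _ => ?_
  have : ∑ h, (starRingEnd ℂ) (a h) * ψ h = (starRingEnd ℂ) (∑ h, a h * ψ (-h)) := by
    rw [map_sum]
    refine Finset.sum_congr rfl fun g _ => ?_
    rw [map_mul, AddChar.map_neg_eq_conj, Complex.conj_conj]
  rw [this, RCLike.norm_conj]

theorem form_bound {ι κ : Type*} [DecidableEq κ] (R : Finset ι) (Lf : Finset κ) (Nn : Finset ℕ)
    (c : ι → ℕ → ℂ) (s : ℕ → G) (l : ι → ℕ → κ)
    (hl : ∀ r ∈ R, ∀ n ∈ Nn, c r n ≠ 0 → l r n ∈ Lf) (A : ι → G → ℂ) (B : κ → G → ℂ)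
    (K : ℝ)
    (hK : ∀ (ψ : AddChar G ℂ) (x : ι → ℂ) (y : κ → ℂ),
      ‖∑ r ∈ R, ∑ k ∈ Lf, x r * y k * (∑ n ∈ Nn, if l r n = k then c r n * ψ (-s n) else 0)‖
        ≤ K * (Real.sqrt (∑ r ∈ R, ‖x r‖ ^ 2) * Real.sqrt (∑ k ∈ Lf, ‖y k‖ ^ 2))) (hK0 : 0 ≤ K) :
    ‖∑ r ∈ R, ∑ n ∈ Nn, c r n * ∑ g, A r (g + s n) * B (l r n) g‖
      ≤ K * (Real.sqrt (∑ r ∈ R, ∑ g, ‖A r g‖ ^ 2) * Real.sqrt (∑ k ∈ Lf, ∑ g, ‖B k g‖ ^ 2)) := by
  have hc : (0:ℝ) < (Fintype.card G : ℝ) := by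
    exact_mod_cast (Fintype.card_pos (α := G))
  set a : ι → AddChar G ℂ → ℂ := fun r ψ => ∑ h, A r h * ψ h with ha
  set b : κ → AddChar G ℂ → ℂ := fun k ψ => ∑ h, B k h * ψ (-h) with hb
  have e1 : ∑ r ∈ R, ∑ n ∈ Nn, c r n * ∑ g, A r (g + s n) * B (l r n) g
      = (Fintype.card G : ℂ)⁻¹ * ∑ ψ : AddChar G ℂ, ∑ r ∈ R, ∑ k ∈ Lf,
        a r ψ * b k ψ * (∑ n ∈ Nn, if l r n = k then c r n * ψ (-s n) else 0) := by
    have e2 : ∀ r ∈ R, ∀ n ∈ Nn, c r n * ∑ g, A r (g + s n) * B (l r n) g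
        = (Fintype.card G : ℂ)⁻¹ * ∑ ψ : AddChar G ℂ, ∑ k ∈ Lf,
          a r ψ * b k ψ * (if l r n = k then c r n * ψ (-s n) else 0) := by
      intro r hr n hn
      rw [corr, mul_left_comm, Finset.mul_sum]
      congr 1
      refine Finset.sum_congr rfl fun ψ _ => ?_
      by_cases hcn : c r n = 0
      · simp [hcn]
      · rw [Finset.sum_eq_single (l r n)]
        · rw [if_pos rfl]; simp only [ha, hb]; ring
        · intro k _ hk; rw [if_neg (fun h => hk h.symm), mul_zero]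
        · intro h; exact absurd (hl r hr n hn hcn) h
    rw [Finset.sum_congr rfl fun r hr => Finset.sum_congr rfl fun n hn => e2 r hr n hn]
    simp_rw [Finset.mul_sum]
    rw [show (∑ r ∈ R, ∑ n ∈ Nn, ∑ ψ : AddChar G ℂ, ∑ k ∈ Lf,
        (Fintype.card G : ℂ)⁻¹ * (a r ψ * b k ψ * (if l r n = k then c r n * ψ (-s n) else 0)))
        = ∑ r ∈ R, ∑ ψ : AddChar G ℂ, ∑ k ∈ Lf, ∑ n ∈ Nn,
        (Fintype.card G : ℂ)⁻¹ * (a r ψ * b k ψ * (if l r n = k then c r n * ψ (-s n) else 0)) from ?_]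
    · rw [Finset.sum_comm]
    · refine Finset.sum_congr rfl fun r _ => ?_
      rw [Finset.sum_comm]
      refine Finset.sum_congr rfl fun ψ _ => ?_
      rw [Finset.sum_comm]
  rw [e1, norm_mul, norm_inv, Complex.norm_natCast]
  have h2 : ‖∑ ψ : AddChar G ℂ, ∑ r ∈ R, ∑ k ∈ Lf,
        a r ψ * b k ψ * (∑ n ∈ Nn, if l r n = k then c r n * ψ (-s n) else 0)‖
      ≤ K * (Real.sqrt (∑ ψ : AddChar G ℂ, ∑ r ∈ R, ‖a r ψ‖ ^ 2)
        * Real.sqrt (∑ ψ : AddChar G ℂ, ∑ k ∈ Lf, ‖b k ψ‖ ^ 2)) := by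
    calc _ ≤ ∑ ψ : AddChar G ℂ, K * (Real.sqrt (∑ r ∈ R, ‖a r ψ‖ ^ 2)
          * Real.sqrt (∑ k ∈ Lf, ‖b k ψ‖ ^ 2)) :=
          (norm_sum_le _ _).trans (Finset.sum_le_sum fun ψ _ => hK ψ (fun r => a r ψ) fun k => b k ψ)
      _ = K * ∑ ψ : AddChar G ℂ, (Real.sqrt (∑ r ∈ R, ‖a r ψ‖ ^ 2)
          * Real.sqrt (∑ k ∈ Lf, ‖b k ψ‖ ^ 2)) := (Finset.mul_sum _ _ _).symm
      _ ≤ _ := by
          refine mul_le_mul_of_nonneg_left ?_ hK0
          exact Real.sum_sqrt_mul_sqrt_le _ (fun ψ => Finset.sum_nonneg fun i _ => sq_nonneg _)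
            (fun ψ => Finset.sum_nonneg fun i _ => sq_nonneg _)
  have h3 : ∑ ψ : AddChar G ℂ, ∑ r ∈ R, ‖a r ψ‖ ^ 2
      = Fintype.card G * ∑ r ∈ R, ∑ g, ‖A r g‖ ^ 2 := by
    rw [Finset.sum_comm, Finset.mul_sum]
    exact Finset.sum_congr rfl fun r _ => parseval (A r)
  have h4 : ∑ ψ : AddChar G ℂ, ∑ k ∈ Lf, ‖b k ψ‖ ^ 2
      = Fintype.card G * ∑ k ∈ Lf, ∑ g, ‖B k g‖ ^ 2 := by
    rw [Finset.sum_comm, Finset.mul_sum]
    exact Finset.sum_congr rfl fun r _ => parseval_neg (B r)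
  rw [h3, h4, Real.sqrt_mul hc.le, Real.sqrt_mul hc.le] at h2
  calc (Fintype.card G : ℝ)⁻¹ * _ ≤ (Fintype.card G : ℝ)⁻¹ * (K * ((Real.sqrt (Fintype.card G) *
        Real.sqrt (∑ r ∈ R, ∑ g, ‖A r g‖ ^ 2)) * (Real.sqrt (Fintype.card G) *
        Real.sqrt (∑ k ∈ Lf, ∑ g, ‖B k g‖ ^ 2)))) := by gcongr
    _ = (Fintype.card G : ℝ)⁻¹ * (Real.sqrt (Fintype.card G) * Real.sqrt (Fintype.card G)) *
        (K * (Real.sqrt (∑ r ∈ R, ∑ g, ‖A r g‖ ^ 2) *
        Real.sqrt (∑ k ∈ Lf, ∑ g, ‖B k g‖ ^ 2))) := by ring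
    _ = _ := by rw [Real.mul_self_sqrt hc.le, inv_mul_cancel₀ hc.ne', one_mul]

end Group

/-- The finite torus used for the transference. -/
abbrev Tor (K1 K2 : ℕ) := ZMod (2 * K1) × ZMod (2 * K2)

/-- The shift attached to `n`. -/
def sh (K1 K2 : ℕ) (β : ℕ → ℕ) (n : ℕ) : Tor K1 K2 := ((n : ZMod (2 * K1)), -(β n : ZMod (2 * K2)))

lemma grid_sum (K1 K2 : ℕ) [NeZero K1] [NeZero K2] (β : ℕ → ℕ) (n : ℕ) (hn : n ≤ K1)
    (hb : β n ≤ K2) (F G : ℕ → ℕ → ℝ) :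
    ∑ g : Tor K1 K2, (fun g : Tor K1 K2 => if g.2.val < K2 then (F g.1.val g.2.val : ℂ) else 0)
        (g + sh K1 K2 β n) *
      (fun g : Tor K1 K2 => if g.1.val < K1 then (G g.1.val g.2.val : ℂ) else 0) g
    = ∑ i ∈ Finset.range K1, ∑ j ∈ Finset.range K2, ((F (i + n) j * G i (j + β n) : ℝ) : ℂ) := by
  have hK1 : 0 < K1 := Nat.pos_of_ne_zero (NeZero.ne K1)
  have hK2 : 0 < K2 := Nat.pos_of_ne_zero (NeZero.ne K2)
  have : NeZero (2 * K1) := ⟨by omega⟩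
  have : NeZero (2 * K2) := ⟨by omega⟩
  rw [← Finset.sum_product']
  symm
  refine Finset.sum_of_injOn (fun p : ℕ × ℕ => ((p.1 : ZMod (2 * K1)),
    ((p.2 + β n : ℕ) : ZMod (2 * K2)))) ?_ ?_ ?_ ?_
  · rintro ⟨i, j⟩ hij ⟨i', j'⟩ hij' h
    simp only [Finset.coe_product, Finset.coe_range, Set.mem_prod, Set.mem_Iio] at hij hij'
    simp only [Prod.mk.injEq] at h
    have h1 := congrArg ZMod.val h.1
    have h2 := congrArg ZMod.val h.2
    rw [ZMod.val_natCast_of_lt (by omega), ZMod.val_natCast_of_lt (by omega)] at h1 h2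
    rw [Prod.mk.injEq]; omega
  · intro p _; simp
  · rintro ⟨x, v⟩ _ hx
    by_cases h1 : x.val < K1
    · by_cases h2 : (v + -(β n : ZMod (2 * K2))).val < K2
      · exfalso
        apply hx
        refine ⟨(x.val, (v + -(β n : ZMod (2 * K2))).val), ?_, ?_⟩
        · simp only [Finset.coe_product, Finset.coe_range, Set.mem_prod, Set.mem_Iio]
          exact ⟨h1, h2⟩
        · simp only [Prod.mk.injEq]
          constructor
          · exact ZMod.natCast_zmod_val x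
          · push_cast
            rw [ZMod.natCast_zmod_val]; ring
      · simp [sh, h2]
    · simp [h1]
  · rintro ⟨i, j⟩ hij
    simp only [Finset.mem_product, Finset.mem_range] at hij
    have e1 : ((i : ZMod (2 * K1)) + (n : ZMod (2 * K1))).val = i + n := by
      rw [← Nat.cast_add, ZMod.val_natCast_of_lt (by omega)]
    have e2 : (((j + β n : ℕ) : ZMod (2 * K2)) + -(β n : ZMod (2 * K2))).val = j := by
      push_cast
      rw [add_neg_cancel_right, ZMod.val_natCast_of_lt (by omega)]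
    have e3 : ((i : ℕ) : ZMod (2 * K1)).val = i := ZMod.val_natCast_of_lt (by omega)
    have e4 : ((j + β n : ℕ) : ZMod (2 * K2)).val = j + β n := ZMod.val_natCast_of_lt (by omega)
    simp only [sh, Prod.fst_add, Prod.snd_add, e1, e2, e3, e4, hij.1, hij.2, if_true]
    push_cast; ring

/-- The matrix attached to the character `ψ`. -/
noncomputable def mat (K1 K2 : ℕ) (x : ℕ → ℝ) (β : ℕ → ℕ) (ψ : AddChar (Tor K1 K2) ℂ) (r l : ℕ) : ℂ :=
  ∑ n ∈ Finset.range K1, if β (n + r) - β n = l then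
    ((x n * x (n + r) : ℝ) : ℂ) * ψ (-sh K1 K2 β n) else 0

theorem grid_form (K1 K2 H D : ℕ) [NeZero K1] [NeZero K2] (x : ℕ → ℝ) (β : ℕ → ℕ)
    (hb : ∀ n < K1, β n ≤ K2)
    (hD : ∀ n < K1, ∀ r < H, x n * x (n + r) ≠ 0 → β (n + r) - β n < D)
    (K : ℝ) (hK0 : 0 ≤ K)
    (hK : ∀ (ψ : AddChar (Tor K1 K2) ℂ) (u v : ℕ → ℂ),
      ‖∑ r ∈ Finset.Ico 1 H, ∑ l ∈ Finset.range D, u r * v l * mat K1 K2 x β ψ r l‖
        ≤ K * (Real.sqrt (∑ r ∈ Finset.Ico 1 H, ‖u r‖ ^ 2) *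
          Real.sqrt (∑ l ∈ Finset.range D, ‖v l‖ ^ 2)))
    (F G : ℕ → ℕ → ℕ → ℝ) (hF : ∀ r i j, |F r i j| ≤ 1) (hG : ∀ r i j, |G r i j| ≤ 1) :
    |∑ r ∈ Finset.Ico 1 H, ∑ n ∈ Finset.range K1, (x n * x (n + r)) *
        ∑ i ∈ Finset.range K1, ∑ j ∈ Finset.range K2,
          F r (i + n) j * G (β (n + r) - β n) i (j + β n)|
      ≤ K * (4 * K1 * K2 * Real.sqrt (H * D)) := by
  have hK1 : 0 < K1 := Nat.pos_of_ne_zero (NeZero.ne K1)
  have hK2 : 0 < K2 := Nat.pos_of_ne_zero (NeZero.ne K2)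
  have : NeZero (2 * K1) := ⟨by omega⟩
  have : NeZero (2 * K2) := ⟨by omega⟩
  have h1 := form_bound (G := Tor K1 K2) (Finset.Ico 1 H) (Finset.range D) (Finset.range K1)
    (fun r n => ((x n * x (n + r) : ℝ) : ℂ)) (sh K1 K2 β) (fun r n => β (n + r) - β n)
    (fun r hr n hn hc => by
      rw [Finset.mem_range]
      refine hD n (Finset.mem_range.mp hn) r (Finset.mem_Ico.mp hr).2 ?_
      intro h0; apply hc; rw [h0]; simp)
    (fun r g => if g.2.val < K2 then (F r g.1.val g.2.val : ℂ) else 0)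
    (fun l g => if g.1.val < K1 then (G l g.1.val g.2.val : ℂ) else 0) K
    (fun ψ u v => by
      have := hK ψ u v
      unfold mat at this
      exact this) hK0
  have e1 : ∑ r ∈ Finset.Ico 1 H, ∑ n ∈ Finset.range K1, ((x n * x (n + r) : ℝ) : ℂ) *
      ∑ g : Tor K1 K2, (fun (r : ℕ) (g : Tor K1 K2) => if g.2.val < K2 then
          (F r g.1.val g.2.val : ℂ) else 0) r (g + sh K1 K2 β n) *
        (fun (l : ℕ) (g : Tor K1 K2) => if g.1.val < K1 then (G l g.1.val g.2.val : ℂ) else 0)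
          (β (n + r) - β n) g
      = ((∑ r ∈ Finset.Ico 1 H, ∑ n ∈ Finset.range K1, (x n * x (n + r)) *
        ∑ i ∈ Finset.range K1, ∑ j ∈ Finset.range K2,
          F r (i + n) j * G (β (n + r) - β n) i (j + β n) : ℝ) : ℂ) := by
    push_cast
    refine Finset.sum_congr rfl fun r _ => Finset.sum_congr rfl fun n hn => ?_
    have := grid_sum K1 K2 β n (Finset.mem_range.mp hn).le (hb n (Finset.mem_range.mp hn))
      (F r) (G (β (n + r) - β n))
    rw [this]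
    push_cast; rfl
  rw [e1, Complex.norm_real, Real.norm_eq_abs] at h1
  refine h1.trans ?_
  have hcard : (Fintype.card (Tor K1 K2) : ℝ) = 4 * K1 * K2 := by
    rw [Fintype.card_prod, ZMod.card, ZMod.card]; push_cast; ring
  have b1 : ∑ r ∈ Finset.Ico 1 H, ∑ g : Tor K1 K2,
      ‖(if g.2.val < K2 then (F r g.1.val g.2.val : ℂ) else 0)‖ ^ 2 ≤ H * (4 * K1 * K2) := by
    calc _ ≤ ∑ r ∈ Finset.Ico 1 H, ∑ g : Tor K1 K2, (1:ℝ) := by
          refine Finset.sum_le_sum fun r _ => Finset.sum_le_sum fun g _ => ?_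
          split_ifs
          · rw [Complex.norm_real, Real.norm_eq_abs]
            have := hF r g.1.val g.2.val
            have h0 := abs_nonneg (F r g.1.val g.2.val)
            nlinarith
          · simp
      _ = ((H - 1 : ℕ) : ℝ) * (4 * K1 * K2) := by
          rw [← hcard]; simp
      _ ≤ _ := by
          have : ((H - 1 : ℕ) : ℝ) ≤ H := by exact_mod_cast Nat.sub_le H 1
          gcongr
  have b2 : ∑ l ∈ Finset.range D, ∑ g : Tor K1 K2,
      ‖(if g.1.val < K1 then (G l g.1.val g.2.val : ℂ) else 0)‖ ^ 2 ≤ D * (4 * K1 * K2) := by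
    calc _ ≤ ∑ r ∈ Finset.range D, ∑ g : Tor K1 K2, (1:ℝ) := by
          refine Finset.sum_le_sum fun r _ => Finset.sum_le_sum fun g _ => ?_
          split_ifs
          · rw [Complex.norm_real, Real.norm_eq_abs]
            have := hG r g.1.val g.2.val
            have h0 := abs_nonneg (G r g.1.val g.2.val)
            nlinarith
          · simp
      _ = (D : ℝ) * (4 * K1 * K2) := by
          rw [← hcard]; simp
  refine mul_le_mul_of_nonneg_left ?_ hK0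
  calc _ ≤ Real.sqrt (H * (4 * K1 * K2)) * Real.sqrt (D * (4 * K1 * K2)) :=
        mul_le_mul (Real.sqrt_le_sqrt b1) (Real.sqrt_le_sqrt b2) (Real.sqrt_nonneg _)
          (Real.sqrt_nonneg _)
    _ = 4 * K1 * K2 * Real.sqrt (H * D) := by
        rw [← Real.sqrt_mul (by positivity), show ((H:ℝ) * (4 * K1 * K2)) * (D * (4 * K1 * K2))
          = (4 * K1 * K2) ^ 2 * (H * D) by ring, Real.sqrt_mul (by positivity),
          Real.sqrt_sq (by positivity)]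

end Pool.Agent.Helper49.RS
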