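import Pool.Agent.Helper49.RS.Final

set_option autoImplicit false
open MeasureTheory ProbabilityTheory Filter Topology

namespace Pool.Agent.Helper49.RS

set_option linter.unusedSectionVars false

/-- The event that position `n` is chosen. -/
abbrev pr {Ω : Type*} (ξ : ℕ → Ω → ℕ) (ω : Ω) : ℕ → Prop := fun n => ξ n ω = 1

lemma nth_eq_iff (p : ℕ → Prop) [DecidablePred p] (k m : ℕ) :
    Nat.nth p k = m ↔ (p m ∧ Nat.count p m = k) ∨ (m = 0 ∧ ∀ m', ¬ (p m' ∧ Nat.count p m' = k)) := by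
  constructor
  · intro h
    by_cases hc : ∀ hf : (Set.ofPred p).Finite, k < hf.toFinset.card
    · left
      rw [← h]
      exact ⟨Nat.nth_mem k hc, Nat.count_nth hc⟩
    · right
      rw [not_forall] at hc
      obtain ⟨hf, hk⟩ := hc
      have h0 := Nat.nth_of_card_le hf (not_lt.mp hk)
      refine ⟨by rw [← h, h0], ?_⟩
      rintro m' ⟨h1, h2⟩
      apply hk
      rw [← h2, Nat.count_eq_card_filter_range]
      apply Finset.card_lt_card
      constructor
      · intro x hx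
        rw [Set.Finite.mem_toFinset]
        exact (Finset.mem_filter.mp hx).2
      · intro hsub
        have : m' ∈ hf.toFinset := by rw [Set.Finite.mem_toFinset]; exact h1
        have := (Finset.mem_filter.mp (hsub this)).1
        simp at this
  · rintro (⟨h1, h2⟩ | ⟨h1, h2⟩)
    · rw [← h2]; exact Nat.nth_count h1
    · by_contra hne
      by_cases hc : ∀ hf : (Set.ofPred p).Finite, k < hf.toFinset.card
      · exact h2 (Nat.nth p k) ⟨Nat.nth_mem k hc, Nat.count_nth hc⟩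
      · rw [not_forall] at hc
        obtain ⟨hf, hk⟩ := hc
        apply hne
        rw [h1]; exact Nat.nth_of_card_le hf (not_lt.mp hk)

section M
variable {Ω : Type*} [MeasurableSpace Ω]

lemma meas_count (ξ : ℕ → Ω → ℕ) (n : ℕ) (hξ : ∀ m < n, Measurable (ξ m)) :
    Measurable (fun ω => Nat.count (pr ξ ω) n) := by
  induction n with
  | zero => simp
  | succ n ih =>
    have h1 : (fun ω => Nat.count (pr ξ ω) (n + 1))
        = fun ω => Nat.count (pr ξ ω) n + (fun k : ℕ => if k = 1 then 1 else 0) (ξ n ω) := by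
      ext ω; rw [Nat.count_succ]
    rw [h1]
    refine (ih fun m hm => hξ m (by omega)).add ?_
    exact (Measurable.of_discrete (f := fun k : ℕ => if k = 1 then 1 else 0)).comp (hξ n (by omega))

lemma meas_nth (η : ℕ → Ω → ℕ) (hη : ∀ m, Measurable (η m)) (k : ℕ) :
    Measurable (fun ω => Nat.nth (pr η ω) k) := by
  refine measurable_to_countable' fun m => ?_
  have h1 : (fun ω => Nat.nth (pr η ω) k) ⁻¹' {m}
      = ({ω | η m ω = 1} ∩ {ω | Nat.count (pr η ω) m = k}) ∪
        ({_ω | m = 0} ∩ ⋂ m', ({ω | η m' ω = 1} ∩ {ω | Nat.count (pr η ω) m' = k})ᶜ) := by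
    ext ω
    simp only [Set.mem_preimage, Set.mem_singleton_iff, nth_eq_iff, Set.mem_union, Set.mem_inter_iff,
      Set.mem_ofPred_eq, Set.mem_iInter, Set.mem_compl_iff]
  rw [h1]
  have h2 : ∀ m', MeasurableSet ({ω | η m' ω = 1} ∩ {ω | Nat.count (pr η ω) m' = k}) := by
    intro m'
    refine MeasurableSet.inter ?_ ?_
    · exact (hη m') (MeasurableSet.of_discrete (s := {1}))
    · exact (meas_count η m' fun m _ => hη m) (MeasurableSet.of_discrete (s := {k}))
  refine MeasurableSet.union (h2 m) (MeasurableSet.inter (MeasurableSet.const _) ?_)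
  exact MeasurableSet.iInter fun m' => (h2 m').compl

lemma meas_bt (ξ η : ℕ → Ω → ℕ) (n : ℕ) (hξ : ∀ m < n, Measurable (ξ m))
    (hη : ∀ m, Measurable (η m)) : Measurable (fun ω => bt (pr ξ ω) (pr η ω) n) := by
  refine measurable_to_countable' fun m => ?_
  have h1 : (fun ω => bt (pr ξ ω) (pr η ω) n) ⁻¹' {m}
      = ⋃ k, ({ω | Nat.count (pr ξ ω) n = k} ∩ {ω | Nat.nth (pr η ω) k = m}) := by
    ext ω
    simp only [bt, Set.mem_preimage, Set.mem_singleton_iff, Set.mem_iUnion, Set.mem_inter_iff,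
      Set.mem_ofPred_eq, exists_eq_left']
  rw [h1]
  refine MeasurableSet.iUnion fun k => MeasurableSet.inter ?_ ?_
  · exact (meas_count ξ n hξ) (MeasurableSet.of_discrete (s := {k}))
  · exact (meas_nth η hη k) (MeasurableSet.of_discrete (s := {m}))

lemma meas_ind (ξ : ℕ → Ω → ℕ) (n : ℕ) (hξ : Measurable (ξ n)) :
    Measurable (fun ω => ind (pr ξ ω) n) := by
  have h1 : (fun ω => ind (pr ξ ω) n) = fun ω => (fun k : ℕ => if k = 1 then (1:ℝ) else 0) (ξ n ω) := by
    ext ω; rfl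
  rw [h1]
  exact (Measurable.of_discrete (f := fun k : ℕ => if k = 1 then (1:ℝ) else 0)).comp hξ

lemma meas_xw (ξ : ℕ → Ω → ℕ) (π : ℕ → ℝ) (M0 M n : ℕ) (hξ : Measurable (ξ n)) :
    Measurable (fun ω => xw (pr ξ ω) π M0 M n) := by
  unfold xw
  by_cases h : M0 ≤ n ∧ n < M
  · simp only [h, and_self, if_true]
    exact (meas_ind ξ n hξ).sub measurable_const
  · simp only [h, if_false]; exact measurable_const

lemma meas_zz (ξ η : ℕ → Ω → ℕ) (π : ℕ → ℝ) (M0 M B H p : ℕ) (hξ : ∀ m < p, Measurable (ξ m))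
    (hη : ∀ m, Measurable (η m)) (ψ : AddChar (Tor M B) ℂ) (S T : Finset ℕ)
    (hS : S ⊆ Finset.Ico 1 H) :
    Measurable (fun ω => zz M B (xw (pr ξ ω) π M0 M) (bt (pr ξ ω) (pr η ω)) ψ S T p) := by
  unfold zz
  refine Finset.measurable_sum _ fun r hr => ?_
  have hr1 := (Finset.mem_Ico.mp (hS hr)).1
  by_cases hrp : r ≤ p
  · have e1 : (fun ω => if r ≤ p ∧ bt (pr ξ ω) (pr η ω) p - bt (pr ξ ω) (pr η ω) (p - r) ∈ T then
        ((xw (pr ξ ω) π M0 M (p - r) : ℝ) : ℂ) *
          ψ (-sh M B (bt (pr ξ ω) (pr η ω)) (p - r)) else 0)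
        = fun ω => ((xw (pr ξ ω) π M0 M (p - r) : ℝ) : ℂ) *
          (fun uv : ℕ × ℕ => if uv.1 - uv.2 ∈ T then
            ψ (-(((p - r : ℕ) : ZMod (2 * M)), -((uv.2 : ℕ) : ZMod (2 * B)))) else 0)
            (bt (pr ξ ω) (pr η ω) p, bt (pr ξ ω) (pr η ω) (p - r)) := by
      ext ω
      simp only [hrp, true_and, sh]
      split_ifs <;> simp
    rw [e1]
    refine Measurable.mul ?_ ?_
    · exact Complex.measurable_ofReal.comp (meas_xw ξ π M0 M (p - r) (hξ _ (by omega)))
    · refine (Measurable.of_discrete (f := fun uv : ℕ × ℕ => if uv.1 - uv.2 ∈ T then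
            ψ (-(((p - r : ℕ) : ZMod (2 * M)), -((uv.2 : ℕ) : ZMod (2 * B)))) else (0:ℂ))).comp ?_
      exact (meas_bt ξ η p hξ hη).prodMk (meas_bt ξ η (p - r) (fun m hm => hξ m (by omega)) hη)
  · simp only [hrp, false_and, if_false]; exact measurable_const

lemma meas_prt (b : Bool) : Measurable (prt b) := by
  cases b
  · have : prt false = Complex.im := by ext z; simp [prt]
    rw [this]; exact Complex.measurable_im
  · have : prt true = Complex.re := by ext z; simp [prt]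
    rw [this]; exact Complex.measurable_re

end M

section P
variable {Ω : Type*} [m0 : MeasurableSpace Ω] {P : Measure Ω} [IsProbabilityMeasure P]

/-- The indices of the past of position `n` (all of the second sequence included). -/
def pastIdx (n : ℕ) : Set (ℕ ⊕ ℕ) := {i | (∃ j < n, i = Sum.inl j) ∨ ∃ m, i = Sum.inr m}

/-- The past. -/
@[instance_reducible] def pastF (ξ η : ℕ → Ω → ℕ) (n : ℕ) : MeasurableSpace Ω :=
  ⨆ i ∈ pastIdx n, MeasurableSpace.comap (Sum.elim ξ η i) ⊤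

lemma past_meas_inl (ξ η : ℕ → Ω → ℕ) (n m : ℕ) (h : m < n) : Measurable[pastF ξ η n] (ξ m) := by
  have h1 : MeasurableSpace.comap (Sum.elim ξ η (Sum.inl m)) ⊤ ≤ pastF ξ η n :=
    le_iSup₂_of_le (f := fun i (_ : i ∈ pastIdx n) => MeasurableSpace.comap (Sum.elim ξ η i) ⊤)
      (Sum.inl m) (Or.inl ⟨m, h, rfl⟩) le_rfl
  intro s hs
  exact h1 _ ⟨s, trivial, rfl⟩

lemma past_meas_inr (ξ η : ℕ → Ω → ℕ) (n m : ℕ) : Measurable[pastF ξ η n] (η m) := by
  have h1 : MeasurableSpace.comap (Sum.elim ξ η (Sum.inr m)) ⊤ ≤ pastF ξ η n :=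
    le_iSup₂_of_le (f := fun i (_ : i ∈ pastIdx n) => MeasurableSpace.comap (Sum.elim ξ η i) ⊤)
      (Sum.inr m) (Or.inr ⟨m, rfl⟩) le_rfl
  intro s hs
  exact h1 _ ⟨s, trivial, rfl⟩

theorem predBern_of (ξ η : ℕ → Ω → ℕ) (hξ : ∀ n, Measurable (ξ n)) (hη : ∀ n, Measurable (η n))
    (hind : iIndepFun (fun i : ℕ ⊕ ℕ => Sum.elim ξ η i) P) (a : ℝ) (ha : 0 ≤ a)
    (hp : ∀ n : ℕ, P {ω | ξ n ω = 1} = ENNReal.ofReal (((n : ℝ) + 1) ^ (-a))) :
    PredBern P (fun n ω => ind (pr ξ ω) n) (prb a) (pastF ξ η) := by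
  have hle : ∀ i, MeasurableSpace.comap (Sum.elim ξ η i) ⊤ ≤ m0 := by
    intro i
    rcases i with i | i
    · exact (hξ i).comap_le
    · exact (hη i).comap_le
  refine
    { le := fun n => iSup₂_le fun i _ => hle i
      meas := fun n => ?_
      mono := ?_
      zo := fun n ω => ?_
      q0 := prb_nonneg a
      q1 := prb_le_one a ha
      fac := ?_ }
  · exact @meas_ind Ω (pastF ξ η (n + 1)) ξ n (past_meas_inl ξ η (n + 1) n (Nat.lt_succ_self n))
  · intro m n hmn
    refine biSup_mono fun i hi => ?_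
    rcases hi with ⟨j, hj, rfl⟩ | ⟨k, rfl⟩
    · exact Or.inl ⟨j, by omega, rfl⟩
    · exact Or.inr ⟨k, rfl⟩
  · show ind (pr ξ ω) n = 0 ∨ ind (pr ξ ω) n = 1
    unfold ind; split_ifs <;> simp
  · intro n Φ hΦ hC
    have h1 : Indep (⨆ i ∈ ({Sum.inl n} : Set (ℕ ⊕ ℕ)), MeasurableSpace.comap (Sum.elim ξ η i) ⊤)
        (⨆ i ∈ pastIdx n, MeasurableSpace.comap (Sum.elim ξ η i) ⊤) P := by
      refine indep_iSup_of_disjoint hle (hind.iIndep) ?_
      rw [Set.disjoint_left]
      intro i hi hi2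
      rw [Set.mem_singleton_iff] at hi
      subst hi
      rcases hi2 with ⟨j, hj, h⟩ | ⟨k, h⟩
      · rw [Sum.inl.injEq] at h; omega
      · exact absurd h (by simp)
    have hXm : Measurable[⨆ i ∈ ({Sum.inl n} : Set (ℕ ⊕ ℕ)), MeasurableSpace.comap (Sum.elim ξ η i) ⊤]
        (fun ω => ind (pr ξ ω) n) := by
      have h2 : MeasurableSpace.comap (Sum.elim ξ η (Sum.inl n)) ⊤
          ≤ ⨆ i ∈ ({Sum.inl n} : Set (ℕ ⊕ ℕ)), MeasurableSpace.comap (Sum.elim ξ η i) ⊤ :=
        le_iSup₂_of_le (f := fun i (_ : i ∈ ({Sum.inl n} : Set (ℕ ⊕ ℕ))) =>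
          MeasurableSpace.comap (Sum.elim ξ η i) ⊤) (Sum.inl n) rfl le_rfl
      refine @meas_ind Ω (⨆ i ∈ ({Sum.inl n} : Set (ℕ ⊕ ℕ)),
        MeasurableSpace.comap (Sum.elim ξ η i) ⊤) ξ n ?_
      intro s hs
      exact h2 _ ⟨s, trivial, rfl⟩
    have h3 : IndepFun (fun ω => ind (pr ξ ω) n) Φ P := by
      rw [IndepFun_iff_Indep]
      exact indep_of_indep_of_le_left (indep_of_indep_of_le_right h1 hΦ.comap_le) hXm.comap_le
    have hΦ' : Measurable Φ := hΦ.mono (iSup₂_le fun i _ => hle i) le_rfl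
    have hX' : Measurable (fun ω => ind (pr ξ ω) n) := meas_ind ξ n (hξ n)
    have h4 := h3.integral_fun_mul_eq_mul_integral hX'.aestronglyMeasurable hΦ'.aestronglyMeasurable
    rw [h4]
    congr 1
    have h5 : (fun ω => ind (pr ξ ω) n) = Set.indicator {ω | ξ n ω = 1} (fun _ => (1:ℝ)) := by
      ext ω
      unfold ind
      by_cases hc : ξ n ω = 1
      · rw [Set.indicator_of_mem (by exact hc), if_pos hc]
      · rw [Set.indicator_of_notMem (by exact hc), if_neg hc]
    have h6 : MeasurableSet {ω | ξ n ω = 1} := (hξ n) (MeasurableSet.of_discrete (s := {1}))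
    rw [h5, integral_indicator h6]
    simp only [integral_const, smul_eq_mul, mul_one, measureReal_restrict_apply_univ]
    rw [Measure.real, hp n, ENNReal.toReal_ofReal (by positivity)]
    rfl

end P

end Pool.Agent.Helper49.RS
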