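import Mathlib

set_option autoImplicit false
open Filter Topology

namespace Pool.Agent.Helper49.RS

/-- Binary digits: a bound on subset sums controls all weights in `[0,1]`. -/
lemma lin_bound {ι : Type*} (s : Finset ι) (c : ι → ℂ) (A R : ℝ)
    (hA : ∀ S ⊆ s, ‖∑ i ∈ S, c i‖ ≤ A * Real.sqrt S.card) (hR : ∀ i ∈ s, ‖c i‖ ≤ R)
    (hA0 : 0 ≤ A) (x : ι → ℝ) (hx0 : ∀ i ∈ s, 0 ≤ x i) (hx1 : ∀ i ∈ s, x i ≤ 1) (L : ℕ) :
    ‖∑ i ∈ s, (x i : ℂ) * c i‖ ≤ A * L * Real.sqrt (∑ i ∈ s, (x i) ^ 2)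
      + s.card * R * (1 / 2) ^ L := by
  classical
  have claim : ∀ L : ℕ, ∃ ρ : ι → ℝ, (∀ i ∈ s, 0 ≤ ρ i ∧ ρ i ≤ (1 / 2) ^ L ∧ ρ i ≤ x i) ∧
      ‖∑ i ∈ s, ((x i - ρ i : ℝ) : ℂ) * c i‖ ≤ A * L * Real.sqrt (∑ i ∈ s, (x i) ^ 2) := by
    intro L
    induction L with
    | zero =>
      exact ⟨x, fun i hi => ⟨hx0 i hi, by simpa using hx1 i hi, le_rfl⟩, by simp⟩
    | succ L ih =>
      obtain ⟨ρ, h1, h2⟩ := ih
      set S := s.filter (fun i => (1 / 2 : ℝ) ^ (L + 1) ≤ ρ i) with hS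
      have hpow : (1 / 2 : ℝ) ^ L = 2 * (1 / 2) ^ (L + 1) := by rw [pow_succ]; ring
      have hp0 : (0:ℝ) < (1 / 2) ^ (L + 1) := by positivity
      refine ⟨fun i => ρ i - (if i ∈ S then (1 / 2) ^ (L + 1) else 0), fun i hi => ?_, ?_⟩
      · obtain ⟨a1, a2, a3⟩ := h1 i hi
        by_cases hiS : i ∈ S
        · have := (Finset.mem_filter.mp hiS).2
          simp only [hiS, if_true]
          refine ⟨by linarith, by linarith, by linarith⟩
        · have h5 : ρ i < (1 / 2) ^ (L + 1) := by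
            by_contra hcon
            exact hiS (Finset.mem_filter.mpr ⟨hi, not_lt.mp hcon⟩)
          simp only [hiS, if_false]
          refine ⟨by linarith, by linarith, by linarith⟩
      · have e1 : ∑ i ∈ s, ((x i - (ρ i - (if i ∈ S then (1 / 2) ^ (L + 1) else 0)) : ℝ) : ℂ) * c i
            = ∑ i ∈ s, ((x i - ρ i : ℝ) : ℂ) * c i + ((1 / 2 : ℝ) ^ (L + 1) : ℝ) * ∑ i ∈ S, c i := by
          have e0 : ∑ i ∈ S, (((1 / 2 : ℝ) ^ (L + 1) : ℝ) : ℂ) * c i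
              = ∑ i ∈ s, (if i ∈ S then (((1 / 2 : ℝ) ^ (L + 1) : ℝ) : ℂ) * c i else 0) := by
            rw [Finset.sum_ite_mem, Finset.inter_eq_right.mpr (Finset.filter_subset _ _)]
          rw [Finset.mul_sum, e0, ← Finset.sum_add_distrib]
          refine Finset.sum_congr rfl fun i _ => ?_
          split_ifs <;> push_cast <;> ring
        rw [e1]
        have h6 : ‖∑ i ∈ S, c i‖ ≤ A * Real.sqrt S.card := hA S (Finset.filter_subset _ _)
        have h7 : (1 / 2 : ℝ) ^ (L + 1) * Real.sqrt S.card ≤ Real.sqrt (∑ i ∈ s, (x i) ^ 2) := by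
          rw [show (1 / 2 : ℝ) ^ (L + 1) * Real.sqrt S.card
            = Real.sqrt (((1 / 2 : ℝ) ^ (L + 1)) ^ 2 * S.card) by
              rw [Real.sqrt_mul (sq_nonneg _), Real.sqrt_sq hp0.le]]
          apply Real.sqrt_le_sqrt
          calc ((1 / 2 : ℝ) ^ (L + 1)) ^ 2 * S.card = ∑ i ∈ S, ((1 / 2 : ℝ) ^ (L + 1)) ^ 2 := by
                simp [mul_comm]
            _ ≤ ∑ i ∈ S, (x i) ^ 2 := by
                refine Finset.sum_le_sum fun i hi => ?_
                have h8 := (Finset.mem_filter.mp hi)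
                have h9 := h1 i h8.1
                have : (1 / 2 : ℝ) ^ (L + 1) ≤ x i := h8.2.trans h9.2.2
                gcongr
            _ ≤ ∑ i ∈ s, (x i) ^ 2 :=
                Finset.sum_le_sum_of_subset_of_nonneg (Finset.filter_subset _ _)
                  fun i _ _ => sq_nonneg _
        calc _ ≤ ‖∑ i ∈ s, ((x i - ρ i : ℝ) : ℂ) * c i‖
              + ‖((1 / 2 : ℝ) ^ (L + 1) : ℝ) * ∑ i ∈ S, c i‖ := norm_add_le _ _
          _ ≤ A * L * Real.sqrt (∑ i ∈ s, (x i) ^ 2)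
              + (1 / 2 : ℝ) ^ (L + 1) * (A * Real.sqrt S.card) := by
              rw [norm_mul, Complex.norm_real, Real.norm_of_nonneg hp0.le]
              gcongr
          _ ≤ A * L * Real.sqrt (∑ i ∈ s, (x i) ^ 2) + A * Real.sqrt (∑ i ∈ s, (x i) ^ 2) := by
              have := mul_le_mul_of_nonneg_left h7 hA0
              linarith
          _ = A * ((L + 1 : ℕ) : ℝ) * Real.sqrt (∑ i ∈ s, (x i) ^ 2) := by push_cast; ring
  obtain ⟨ρ, h1, h2⟩ := claim L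
  have e1 : ∑ i ∈ s, (x i : ℂ) * c i = ∑ i ∈ s, ((x i - ρ i : ℝ) : ℂ) * c i
      + ∑ i ∈ s, (ρ i : ℂ) * c i := by
    rw [← Finset.sum_add_distrib]
    refine Finset.sum_congr rfl fun i _ => ?_
    push_cast; ring
  rw [e1]
  refine (norm_add_le _ _).trans (add_le_add h2 ?_)
  calc ‖∑ i ∈ s, (ρ i : ℂ) * c i‖ ≤ ∑ i ∈ s, ‖(ρ i : ℂ) * c i‖ := norm_sum_le _ _
    _ ≤ ∑ i ∈ s, R * (1 / 2) ^ L := by
        refine Finset.sum_le_sum fun i hi => ?_
        rw [norm_mul, Complex.norm_real, Real.norm_of_nonneg (h1 i hi).1, mul_comm]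
        have := hR i hi
        have h3 := h1 i hi
        exact mul_le_mul this h3.2.1 h3.1 ((norm_nonneg _).trans this)
    _ = s.card * R * (1 / 2) ^ L := by rw [Finset.sum_const, nsmul_eq_mul]; ring

lemma bilin_unit {ι κ : Type*} (s : Finset ι) (t : Finset κ) (m : ι → κ → ℂ) (α R : ℝ)
    (hα : 0 ≤ α) (hR0 : 0 ≤ R)
    (hm : ∀ S ⊆ s, ∀ T ⊆ t, ‖∑ i ∈ S, ∑ j ∈ T, m i j‖ ≤ α * Real.sqrt S.card * Real.sqrt T.card)
    (hR : ∀ i ∈ s, ∀ j ∈ t, ‖m i j‖ ≤ R)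
    (x : ι → ℝ) (y : κ → ℝ) (hx0 : ∀ i ∈ s, 0 ≤ x i) (hx1 : ∀ i ∈ s, x i ≤ 1)
    (hy0 : ∀ i ∈ t, 0 ≤ y i) (hy1 : ∀ i ∈ t, y i ≤ 1)
    (hx : ∑ i ∈ s, (x i) ^ 2 ≤ 1) (hy : ∑ j ∈ t, (y j) ^ 2 ≤ 1) (L : ℕ) :
    ‖∑ i ∈ s, ∑ j ∈ t, (x i : ℂ) * (y j : ℂ) * m i j‖
      ≤ α * L ^ 2 + (L + 1) * (s.card * t.card * R * (1 / 2) ^ L) := by
  classical
  have hsx : Real.sqrt (∑ i ∈ s, (x i) ^ 2) ≤ 1 := Real.sqrt_le_one.mpr hx
  have hsy : Real.sqrt (∑ i ∈ t, (y i) ^ 2) ≤ 1 := Real.sqrt_le_one.mpr hy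
  have step1 : ∀ T ⊆ t, ‖∑ j ∈ T, ∑ i ∈ s, (x i : ℂ) * m i j‖
      ≤ (α * L + s.card * t.card * R * (1 / 2) ^ L) * Real.sqrt T.card := by
    intro T hT
    rcases T.eq_empty_or_nonempty with hTe | hTe
    · subst hTe; simp
    have h1 := lin_bound s (fun i => ∑ j ∈ T, m i j) (α * Real.sqrt T.card) (t.card * R)
      (fun S hS => by
        have := hm S hS T hT
        calc _ ≤ _ := this
          _ = _ := by ring)
      (fun i hi => by
        calc ‖∑ j ∈ T, m i j‖ ≤ ∑ j ∈ T, ‖m i j‖ := norm_sum_le _ _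
          _ ≤ ∑ j ∈ T, R := Finset.sum_le_sum fun j hj => hR i hi j (hT hj)
          _ = T.card * R := by simp
          _ ≤ t.card * R := by
            have := Finset.card_le_card hT
            gcongr)
      (by positivity) x hx0 hx1 L
    have e1 : ∑ j ∈ T, ∑ i ∈ s, (x i : ℂ) * m i j = ∑ i ∈ s, (x i : ℂ) * ∑ j ∈ T, m i j := by
      rw [Finset.sum_comm]
      exact Finset.sum_congr rfl fun i _ => (Finset.mul_sum _ _ _).symm
    rw [e1]
    refine h1.trans ?_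
    have hT1 : 1 ≤ Real.sqrt T.card := by
      rw [Real.one_le_sqrt]
      exact_mod_cast hTe.card_pos
    have h2 : α * Real.sqrt T.card * L * Real.sqrt (∑ i ∈ s, (x i) ^ 2)
        ≤ α * Real.sqrt T.card * L * 1 := by gcongr
    have h3 : (s.card : ℝ) * (t.card * R) * (1 / 2) ^ L
        ≤ (s.card : ℝ) * (t.card * R) * (1 / 2) ^ L * Real.sqrt T.card := by
      apply le_mul_of_one_le_right (by positivity) hT1
    calc _ ≤ α * Real.sqrt T.card * L * 1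
        + (s.card : ℝ) * (t.card * R) * (1 / 2) ^ L * Real.sqrt T.card := add_le_add h2 h3
      _ = _ := by ring
  have h4 := lin_bound t (fun j => ∑ i ∈ s, (x i : ℂ) * m i j)
    (α * L + s.card * t.card * R * (1 / 2) ^ L) (s.card * R) step1
    (fun j hj => by
      calc ‖∑ i ∈ s, (x i : ℂ) * m i j‖ ≤ ∑ i ∈ s, ‖(x i : ℂ) * m i j‖ := norm_sum_le _ _
        _ ≤ ∑ i ∈ s, R := by
          refine Finset.sum_le_sum fun i hi => ?_
          rw [norm_mul, Complex.norm_real, Real.norm_of_nonneg (hx0 i hi)]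
          calc _ ≤ 1 * R := mul_le_mul (hx1 i hi) (hR i hi j hj) (norm_nonneg _) (by norm_num)
            _ = R := one_mul _
        _ = s.card * R := by simp)
    (by positivity) y hy0 hy1 L
  have e2 : ∑ i ∈ s, ∑ j ∈ t, (x i : ℂ) * (y j : ℂ) * m i j
      = ∑ j ∈ t, (y j : ℂ) * ∑ i ∈ s, (x i : ℂ) * m i j := by
    rw [Finset.sum_comm]
    refine Finset.sum_congr rfl fun j _ => ?_
    rw [Finset.mul_sum]
    exact Finset.sum_congr rfl fun i _ => by ring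
  rw [e2]
  refine h4.trans ?_
  have h5 : (α * L + s.card * t.card * R * (1 / 2) ^ L) * L * Real.sqrt (∑ i ∈ t, (y i) ^ 2)
      ≤ (α * L + s.card * t.card * R * (1 / 2) ^ L) * L * 1 := by gcongr
  calc _ ≤ (α * L + s.card * t.card * R * (1 / 2) ^ L) * L * 1
      + (t.card : ℝ) * (s.card * R) * (1 / 2) ^ L := by linarith
    _ = _ := by ring

lemma bilin_nonneg {ι κ : Type*} (s : Finset ι) (t : Finset κ) (m : ι → κ → ℂ) (α R : ℝ)
    (hα : 0 ≤ α) (hR0 : 0 ≤ R)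
    (hm : ∀ S ⊆ s, ∀ T ⊆ t, ‖∑ i ∈ S, ∑ j ∈ T, m i j‖ ≤ α * Real.sqrt S.card * Real.sqrt T.card)
    (hR : ∀ i ∈ s, ∀ j ∈ t, ‖m i j‖ ≤ R) (a b : ℝ) (ha : 0 ≤ a) (hb : 0 ≤ b)
    (x : ι → ℝ) (y : κ → ℝ) (hx0 : ∀ i ∈ s, 0 ≤ x i)
    (hy0 : ∀ i ∈ t, 0 ≤ y i)
    (hx : ∑ i ∈ s, (x i) ^ 2 ≤ a ^ 2) (hy : ∑ j ∈ t, (y j) ^ 2 ≤ b ^ 2) (L : ℕ) :
    ‖∑ i ∈ s, ∑ j ∈ t, (x i : ℂ) * (y j : ℂ) * m i j‖
      ≤ (α * L ^ 2 + (L + 1) * (s.card * t.card * R * (1 / 2) ^ L)) * (a * b) := by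
  classical
  have hxa : ∀ i ∈ s, x i ≤ a := by
    intro i hi
    have : (x i) ^ 2 ≤ a ^ 2 :=
      (Finset.single_le_sum (f := fun i => (x i) ^ 2) (fun j _ => sq_nonneg _) hi).trans hx
    exact (abs_le_of_sq_le_sq' this ha).2
  have hyb : ∀ j ∈ t, y j ≤ b := by
    intro i hi
    have : (y i) ^ 2 ≤ b ^ 2 :=
      (Finset.single_le_sum (f := fun i => (y i) ^ 2) (fun j _ => sq_nonneg _) hi).trans hy
    exact (abs_le_of_sq_le_sq' this hb).2
  rcases ha.eq_or_lt with ha' | ha'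
  · have : ∀ i ∈ s, x i = 0 := fun i hi => le_antisymm (by rw [ha']; exact hxa i hi) (hx0 i hi)
    rw [Finset.sum_eq_zero]
    · rw [← ha']; simp
    · intro i hi; refine Finset.sum_eq_zero fun j _ => ?_
      rw [this i hi]; simp
  rcases hb.eq_or_lt with hb' | hb'
  · have : ∀ i ∈ t, y i = 0 := fun i hi => le_antisymm (by rw [hb']; exact hyb i hi) (hy0 i hi)
    rw [Finset.sum_eq_zero]
    · rw [← hb']; simp
    · intro i hi; refine Finset.sum_eq_zero fun j hj => ?_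
      rw [this j hj]; simp
  have h1 := bilin_unit s t m α R hα hR0 hm hR (fun i => x i / a) (fun j => y j / b)
    (fun i hi => div_nonneg (hx0 i hi) ha) (fun i hi => (div_le_one ha').mpr (hxa i hi))
    (fun i hi => div_nonneg (hy0 i hi) hb) (fun i hi => (div_le_one hb').mpr (hyb i hi))
    (by
      have : ∑ i ∈ s, (x i / a) ^ 2 = (∑ i ∈ s, (x i) ^ 2) / a ^ 2 := by
        rw [Finset.sum_div]; exact Finset.sum_congr rfl fun i _ => by rw [div_pow]
      rw [this, div_le_one (by positivity)]; exact hx)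
    (by
      have : ∑ i ∈ t, (y i / b) ^ 2 = (∑ i ∈ t, (y i) ^ 2) / b ^ 2 := by
        rw [Finset.sum_div]; exact Finset.sum_congr rfl fun i _ => by rw [div_pow]
      rw [this, div_le_one (by positivity)]; exact hy) L
  have e1 : ∑ i ∈ s, ∑ j ∈ t, (x i : ℂ) * (y j : ℂ) * m i j
      = ((a * b : ℝ) : ℂ) * ∑ i ∈ s, ∑ j ∈ t, ((x i / a : ℝ) : ℂ) * ((y j / b : ℝ) : ℂ) * m i j := by
    rw [Finset.mul_sum]
    refine Finset.sum_congr rfl fun i _ => ?_
    rw [Finset.mul_sum]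
    refine Finset.sum_congr rfl fun j _ => ?_
    have : (a : ℂ) ≠ 0 := by exact_mod_cast ha'.ne'
    have : (b : ℂ) ≠ 0 := by exact_mod_cast hb'.ne'
    push_cast
    field_simp
  rw [e1, norm_mul, Complex.norm_real, Real.norm_of_nonneg (by positivity), mul_comm]
  gcongr

/-- The four nonnegative parts of a complex number. -/
noncomputable def part4 (k : Fin 4) (z : ℂ) : ℝ :=
  match k with
  | 0 => max z.re 0
  | 1 => max z.im 0
  | 2 => max (-z.re) 0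
  | 3 => max (-z.im) 0

lemma part4_nonneg (k : Fin 4) (z : ℂ) : 0 ≤ part4 k z := by
  fin_cases k <;> simp [part4]

lemma part4_le (k : Fin 4) (z : ℂ) : part4 k z ≤ ‖z‖ := by
  have h1 := Complex.abs_re_le_norm z
  have h2 := Complex.abs_im_le_norm z
  rw [abs_le] at h1 h2
  fin_cases k <;> simp only [part4, max_le_iff] <;> constructor <;> linarith [norm_nonneg z]

lemma part4_sum (z : ℂ) : z = ∑ k : Fin 4, Complex.I ^ (k : ℕ) * (part4 k z : ℂ) := by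
  have hr : max z.re 0 - max (-z.re) 0 = z.re := by
    rcases le_total 0 z.re with h | h
    · rw [max_eq_left h, max_eq_right (by linarith)]; ring
    · rw [max_eq_right h, max_eq_left (by linarith)]; ring
  have hi : max z.im 0 - max (-z.im) 0 = z.im := by
    rcases le_total 0 z.im with h | h
    · rw [max_eq_left h, max_eq_right (by linarith)]; ring
    · rw [max_eq_right h, max_eq_left (by linarith)]; ring
  rw [Fin.sum_univ_four]
  have e3 : Complex.I ^ 3 = -Complex.I := Complex.I_pow_three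
  apply Complex.ext
  · simp only [part4, Fin.val_zero, Fin.val_one, Fin.val_two, pow_zero, pow_one, Complex.I_sq]
    have : ((3 : Fin 4) : ℕ) = 3 := rfl
    rw [this, e3]
    simp
    linarith
  · simp only [part4, Fin.val_zero, Fin.val_one, Fin.val_two, pow_zero, pow_one, Complex.I_sq]
    have : ((3 : Fin 4) : ℕ) = 3 := rfl
    rw [this, e3]
    simp
    linarith

/-- Discrepancy bounds on all rectangles give an operator norm bound with a logarithmic loss. -/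
theorem bilin_complex {ι κ : Type*} (s : Finset ι) (t : Finset κ) (m : ι → κ → ℂ) (α R : ℝ)
    (hα : 0 ≤ α) (hR0 : 0 ≤ R)
    (hm : ∀ S ⊆ s, ∀ T ⊆ t, ‖∑ i ∈ S, ∑ j ∈ T, m i j‖ ≤ α * Real.sqrt S.card * Real.sqrt T.card)
    (hR : ∀ i ∈ s, ∀ j ∈ t, ‖m i j‖ ≤ R)
    (x : ι → ℂ) (y : κ → ℂ) (L : ℕ) :
    ‖∑ i ∈ s, ∑ j ∈ t, x i * y j * m i j‖
      ≤ 16 * (α * L ^ 2 + (L + 1) * (s.card * t.card * R * (1 / 2) ^ L)) *
        (Real.sqrt (∑ i ∈ s, ‖x i‖ ^ 2) * Real.sqrt (∑ j ∈ t, ‖y j‖ ^ 2)) := by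
  classical
  set a := Real.sqrt (∑ i ∈ s, ‖x i‖ ^ 2) with ha
  set b := Real.sqrt (∑ j ∈ t, ‖y j‖ ^ 2) with hb
  have ha2 : a ^ 2 = ∑ i ∈ s, ‖x i‖ ^ 2 := Real.sq_sqrt (Finset.sum_nonneg fun i _ => sq_nonneg _)
  have hb2 : b ^ 2 = ∑ i ∈ t, ‖y i‖ ^ 2 := Real.sq_sqrt (Finset.sum_nonneg fun i _ => sq_nonneg _)
  have h1 : ∀ k l : Fin 4, ‖∑ i ∈ s, ∑ j ∈ t, (part4 k (x i) : ℂ) * (part4 l (y j) : ℂ) * m i j‖
      ≤ (α * L ^ 2 + (L + 1) * (s.card * t.card * R * (1 / 2) ^ L)) * (a * b) := by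
    intro k l
    refine bilin_nonneg s t m α R hα hR0 hm hR a b (Real.sqrt_nonneg _) (Real.sqrt_nonneg _)
      (fun i => part4 k (x i)) (fun j => part4 l (y j)) (fun i _ => part4_nonneg _ _)
      (fun i _ => part4_nonneg _ _) ?_ ?_ L
    · rw [ha2]
      refine Finset.sum_le_sum fun i _ => ?_
      have := part4_le k (x i)
      have := part4_nonneg k (x i)
      gcongr
    · rw [hb2]
      refine Finset.sum_le_sum fun i _ => ?_
      have := part4_le l (y i)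
      have := part4_nonneg l (y i)
      gcongr
  have e1 : ∑ i ∈ s, ∑ j ∈ t, x i * y j * m i j = ∑ k : Fin 4, ∑ l : Fin 4,
      (Complex.I ^ (k : ℕ) * Complex.I ^ (l : ℕ)) *
        ∑ i ∈ s, ∑ j ∈ t, (part4 k (x i) : ℂ) * (part4 l (y j) : ℂ) * m i j := by
    have e2 : ∀ i j, x i * y j * m i j = ∑ k : Fin 4, ∑ l : Fin 4,
        (Complex.I ^ (k : ℕ) * Complex.I ^ (l : ℕ)) *
          ((part4 k (x i) : ℂ) * (part4 l (y j) : ℂ) * m i j) := by
      intro i j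
      conv_lhs => rw [part4_sum (x i), part4_sum (y j)]
      rw [Finset.sum_mul_sum, Finset.sum_mul]
      refine Finset.sum_congr rfl fun k _ => ?_
      rw [Finset.sum_mul]
      refine Finset.sum_congr rfl fun l _ => ?_
      ring
    simp_rw [e2]
    simp_rw [Finset.mul_sum]
    rw [show (∑ i ∈ s, ∑ j ∈ t, ∑ k : Fin 4, ∑ l : Fin 4,
        (Complex.I ^ (k : ℕ) * Complex.I ^ (l : ℕ)) *
          ((part4 k (x i) : ℂ) * (part4 l (y j) : ℂ) * m i j))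
        = ∑ i ∈ s, ∑ k : Fin 4, ∑ l : Fin 4, ∑ j ∈ t,
        (Complex.I ^ (k : ℕ) * Complex.I ^ (l : ℕ)) *
          ((part4 k (x i) : ℂ) * (part4 l (y j) : ℂ) * m i j) from ?_]
    · rw [Finset.sum_comm]
      refine Finset.sum_congr rfl fun k _ => ?_
      rw [Finset.sum_comm]
    · refine Finset.sum_congr rfl fun i _ => ?_
      rw [Finset.sum_comm]
      refine Finset.sum_congr rfl fun k _ => ?_
      rw [Finset.sum_comm]
  rw [e1]
  calc _ ≤ ∑ k : Fin 4, ∑ l : Fin 4, ‖(Complex.I ^ (k : ℕ) * Complex.I ^ (l : ℕ)) *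
        ∑ i ∈ s, ∑ j ∈ t, (part4 k (x i) : ℂ) * (part4 l (y j) : ℂ) * m i j‖ := by
        refine (norm_sum_le _ _).trans (Finset.sum_le_sum fun k _ => norm_sum_le _ _)
    _ ≤ ∑ k : Fin 4, ∑ l : Fin 4,
        (α * L ^ 2 + (L + 1) * (s.card * t.card * R * (1 / 2) ^ L)) * (a * b) := by
        refine Finset.sum_le_sum fun k _ => Finset.sum_le_sum fun l _ => ?_
        rw [norm_mul, norm_mul, norm_pow, norm_pow, Complex.norm_I, one_pow, one_pow, one_mul,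
          one_mul]
        exact h1 k l
    _ = _ := by simp; ring

end Pool.Agent.Helper49.RS
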