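import Pool.Agent.Helper49.RS.Scale
import Pool.Agent.Helper49.RS.Facts

set_option autoImplicit false
open MeasureTheory Filter Topology

namespace Pool.Agent.Helper49.RS

set_option linter.unusedSectionVars false

lemma tends_nat_rpow (y : ℝ) (hy : 0 < y) : Tendsto (fun M : ℕ => (M : ℝ) ^ y) atTop atTop :=
  (tendsto_rpow_atTop hy).comp tendsto_natCast_atTop_atTop

lemma ev_pow (C x y : ℝ) (h : x < y) : ∀ᶠ M : ℕ in atTop, C * (M : ℝ) ^ x ≤ (M : ℝ) ^ y := by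
  filter_upwards [(tends_nat_rpow (y - x) (by linarith)).eventually_ge_atTop C,
    eventually_gt_atTop 0] with M h1 h2
  have hM : (0:ℝ) < M := by exact_mod_cast h2
  calc C * (M : ℝ) ^ x ≤ (M : ℝ) ^ (y - x) * (M : ℝ) ^ x := by gcongr
    _ = (M : ℝ) ^ y := by rw [← Real.rpow_add hM]; congr 1; ring

lemma ev_log (C y : ℝ) (hC : 0 ≤ C) (hy : 0 < y) :
    ∀ᶠ M : ℕ in atTop, C * Real.log M ≤ (M : ℝ) ^ y := by
  have h0 : Tendsto (fun M : ℕ => (M : ℝ)) atTop atTop := tendsto_natCast_atTop_atTop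
  have h1 := (isLittleO_log_rpow_atTop hy).comp_tendsto h0
  have h2 := h1.bound (c := 1 / (C + 1)) (by positivity)
  filter_upwards [h2, eventually_ge_atTop 1] with M h3 h4
  have hM : (1:ℝ) ≤ M := by exact_mod_cast h4
  simp only [Function.comp_apply] at h3
  rw [Real.norm_of_nonneg (Real.log_nonneg hM), Real.norm_of_nonneg (by positivity)] at h3
  have h5 : 0 ≤ Real.log M := Real.log_nonneg hM
  calc C * Real.log M ≤ (C + 1) * Real.log M := by nlinarith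
    _ ≤ (C + 1) * (1 / (C + 1) * (M : ℝ) ^ y) := by gcongr
    _ = (M : ℝ) ^ y := by field_simp

lemma ceil_le_two (t : ℝ) (ht : 1 ≤ t) : (⌈t⌉₊ : ℝ) ≤ 2 * t := by
  have := Nat.ceil_lt_add_one (by linarith : 0 ≤ t)
  linarith

/-- Admissible exponents. -/
structure Exps (a b ε τ : ℝ) : Prop where
  a0 : 0 < a
  a1 : a < 1 / 2
  b0 : 0 < b
  b1 : b < 1 / 2
  ε0 : 0 < ε
  hτ : τ * (1 - b) = 1 - a + 2 * ε
  c1 : b * τ + 23 * ε ≤ 1 - a
  c2 : a + 13 * ε ≤ 1 / 2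
  c3 : 48 * ε ≤ 1 - 2 * b

lemma exists_exps (a b : ℝ) (a0 : 0 < a) (a1 : a < 1 / 2) (b0 : 0 < b) (b1 : b < 1 / 2) :
    ∃ ε τ, Exps a b ε τ := by
  set ε := min (1 - 2 * a) (1 - 2 * b) / 200 with hε
  have h1 : 0 < min (1 - 2 * a) (1 - 2 * b) := lt_min (by linarith) (by linarith)
  have h2 : min (1 - 2 * a) (1 - 2 * b) ≤ 1 - 2 * a := min_le_left _ _
  have h3 : min (1 - 2 * a) (1 - 2 * b) ≤ 1 - 2 * b := min_le_right _ _
  have hε0 : 0 < ε := by positivity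
  have hb : (1 - b) ≠ 0 := by linarith
  have hb' : 0 < 1 - b := by linarith
  refine ⟨ε, (1 - a + 2 * ε) / (1 - b), a0, a1, b0, b1, hε0, by field_simp, ?_, ?_, ?_⟩
  · have : b * ((1 - a + 2 * ε) / (1 - b)) = b * (1 - a + 2 * ε) / (1 - b) := by ring
    rw [this, ← le_sub_iff_add_le, div_le_iff₀ hb']
    nlinarith
  · linarith
  · linarith

namespace Exps
variable {a b ε τ : ℝ} (e : Exps a b ε τ)
include e

lemma τ0 : 0 < τ := by
  have h1 := e.hτ; have h2 := e.a1; have h3 := e.b1; have h4 := e.ε0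
  by_contra hc
  have : τ * (1 - b) ≤ 0 := mul_nonpos_of_nonpos_of_nonneg (not_lt.mp hc) (by linarith)
  linarith

lemma τ3 : τ < 5 / 2 := by
  have h1 := e.hτ; have h2 := e.a0; have h3 := e.b1; have h4 := e.ε0
  have h5 := e.c2
  by_contra hc
  have : (5 / 2) * (1 - b) ≤ τ * (1 - b) := mul_le_mul_of_nonneg_right (not_lt.mp hc) (by linarith)
  nlinarith

lemma εsmall : ε < 1 / 26 := by have := e.c2; have := e.a0; linarith

lemma bτ : b * τ + 4 * ε ≤ τ := by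
  have h1 := e.hτ; have h2 := e.a1; have := e.εsmall
  have : τ - b * τ = 1 - a + 2 * ε := by rw [← h1]; ring
  linarith

end Exps

/-- Parameters at scale `M`. -/
noncomputable def pH (a ε : ℝ) (M : ℕ) : ℕ := ⌈(M : ℝ) ^ (a + ε)⌉₊
noncomputable def pM0 (ε : ℝ) (M : ℕ) : ℕ := ⌈(M : ℝ) ^ (1 - ε)⌉₊
noncomputable def pB (τ : ℝ) (M : ℕ) : ℕ := ⌈(M : ℝ) ^ τ⌉₊
noncomputable def pD (b ε τ : ℝ) (M : ℕ) : ℕ := ⌈(M : ℝ) ^ (b * τ + 4 * ε)⌉₊
noncomputable def pW (ε : ℝ) (M : ℕ) : ℝ := (M : ℝ) ^ (3 * ε)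
noncomputable def pPb (a ε : ℝ) (M : ℕ) : ℝ := (M : ℝ) ^ (-a + ε)
noncomputable def pCX (a ε : ℝ) (M : ℕ) : ℝ := (M : ℝ) ^ (1 - 2 * a + 2 * ε)
noncomputable def pCN (b ε τ : ℝ) (M : ℕ) : ℝ := (M : ℝ) ^ ((1 - 2 * b) * τ + ε)
noncomputable def pκ (M : ℕ) : ℝ := 8 * Real.log M
noncomputable def pPi (a ε : ℝ) (M : ℕ) : ℝ := (M : ℝ) ^ (1 - a + ε)

/-- The probability that position `n` belongs to the random sequence. -/
noncomputable def prb (a : ℝ) (n : ℕ) : ℝ := ((n : ℝ) + 1) ^ (-a)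

lemma prb_nonneg (a : ℝ) (n : ℕ) : 0 ≤ prb a n := by unfold prb; positivity

lemma prb_le_one (a : ℝ) (ha : 0 ≤ a) (n : ℕ) : prb a n ≤ 1 := by
  unfold prb
  apply Real.rpow_le_one_of_one_le_of_nonpos
  · linarith [(Nat.cast_nonneg n : (0:ℝ) ≤ n)]
  · linarith

lemma prb_anti (a : ℝ) (ha : 0 ≤ a) : Antitone (prb a) := by
  intro m n h
  unfold prb
  have h1 : (m:ℝ) ≤ n := by exact_mod_cast h
  exact Real.rpow_le_rpow_of_nonpos (by positivity) (by linarith) (by linarith)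

lemma prb_sq (a : ℝ) (n : ℕ) : (prb a n) ^ 2 = prb (2 * a) n := by
  unfold prb
  rw [← Real.rpow_natCast, ← Real.rpow_mul (by positivity)]
  congr 1
  push_cast; ring

lemma sum_prb_lower (a : ℝ) (ha : 0 ≤ a) (i j : ℕ) (x : ℝ) (hij : i ≤ j) (hx : (j : ℝ) ≤ x) :
    ((j : ℝ) - i) * x ^ (-a) ≤ ∑ n ∈ Finset.Ico i j, prb a n := by
  calc ((j : ℝ) - i) * x ^ (-a) = ∑ n ∈ Finset.Ico i j, x ^ (-a) := by
        rw [Finset.sum_const, Nat.card_Ico, nsmul_eq_mul, Nat.cast_sub hij]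
    _ ≤ _ := by
        refine Finset.sum_le_sum fun n hn => ?_
        unfold prb
        apply Real.rpow_le_rpow_of_nonpos (by positivity) _ (by linarith)
        have : (n : ℝ) + 1 ≤ j := by exact_mod_cast (Finset.mem_Ico.mp hn).2
        linarith

end Pool.Agent.Helper49.RS
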