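import Pool.Agent.Helper49.RS.Seq
import Pool.Agent.Helper49.RS.OpNorm

set_option autoImplicit false
open MeasureTheory Filter Topology

namespace Pool.Agent.Helper49.RS

set_option linter.unusedSectionVars false

variable {pX pY : ℕ → Prop} [DecidablePred pX] [DecidablePred pY]

/-- The scaling factors. -/
noncomputable def lamf (Pb Pi W κ v : ℝ) (S T : Finset ℕ) : ℝ :=
  if 0 ∈ T then 1 / (Pb * Real.sqrt Pi)
  else min (1 / W) (Real.sqrt (κ / (v * min (S.card : ℝ) (T.card : ℝ))))

/-- All deterministic and random facts used at scale `M`. -/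
structure ScaleData (pX pY : ℕ → Prop) [DecidablePred pX] [DecidablePred pY] (π : ℕ → ℝ)
    (M B H D M0 Wc : ℕ) (W Pb CX CN κ Pi : ℝ) : Prop where
  M_pos : 0 < M
  B_pos : 0 < B
  H_pos : 0 < H
  HM0 : H ≤ M0
  π0 : ∀ n, 0 ≤ π n
  π1 : ∀ n, π n ≤ 1
  Pb_pos : 0 < Pb
  πPb : ∀ n, M0 ≤ n → π n ≤ Pb
  W_pos : 0 < W
  CX0 : 0 ≤ CX
  CN_pos : 0 < CN
  κ_pos : 0 < κ
  Pi1 : 1 ≤ Pi
  sumPi : ∑ n ∈ Finset.range M, π n ≤ Pi
  bB : ∀ n < M, bt pX pY n < B
  win : ∀ i, ∑ n ∈ Finset.Ico i (i + H), |xw pX π M0 M n| ≤ W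
  cx : ∀ r ∈ Finset.Ico 1 H,
    ∑ n ∈ Finset.range M, |xw pX π M0 M n * xw pX π M0 M (n + r)| ≤ CX
  pairs : ∀ l ∈ Finset.Ico 1 D,
    (((Finset.range B).filter (fun m => pY m ∧ pY (m + l))).card : ℝ) ≤ CN
  cntX : ∀ i j, M0 ≤ i → i ≤ j → j ≤ M → j ≤ i + H → Nat.count pX j ≤ Nat.count pX i + Wc
  cntY : ∀ m < B, Nat.count pY m + Wc < Nat.count pY (m + D)
  prob : ProbAt pX π (bt pX pY) M B H D M0 κ (lamf Pb Pi W κ (Pb * W * (W * CN)))

variable {π : ℕ → ℝ} {M B H D M0 Wc : ℕ} {W Pb CX CN κ Pi : ℝ}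

lemma col_zero (h : ScaleData pX pY π M B H D M0 Wc W Pb CX CN κ Pi)
    (hY : (Set.ofPred pY).Infinite) (hD : 0 < D)
    (ψ : AddChar (Tor M B) ℂ) (r : ℕ) (hr : r ∈ Finset.Ico 1 H) :
    ‖mat M B (xw pX π M0 M) (bt pX pY) ψ r 0‖ ≤ 2 * (1 + 3 * κ) * (Pb * Real.sqrt Pi) := by
  have : NeZero M := ⟨h.M_pos.ne'⟩
  have : NeZero B := ⟨h.B_pos.ne'⟩
  have hPi0 : 0 < Real.sqrt Pi := Real.sqrt_pos.mpr (by linarith [h.Pi1])
  have hPi1 : 1 ≤ Real.sqrt Pi := Real.one_le_sqrt.mpr h.Pi1
  have hr' := Finset.mem_Ico.mp hr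
  have hlam : lamf Pb Pi W κ (Pb * W * (W * CN)) {r} {0} = 1 / (Pb * Real.sqrt Pi) := by
    unfold lamf; rw [if_pos (Finset.mem_singleton_self 0)]
  have hz : ∀ p < M, ‖zz M B (xw pX π M0 M) (bt pX pY) ψ {r} {0} p‖ ≤ Pb := by
    intro p hp
    refine (norm_zz _ _ _).trans ?_
    unfold ww
    rw [Finset.sum_singleton]
    split_ifs with hc
    · obtain ⟨h1, h2⟩ := hc
      rw [Finset.mem_singleton] at h2
      by_cases hin : M0 ≤ p - r ∧ p - r < M
      · have h3 : bt pX pY (p - r) ≤ bt pX pY p := bt_mono hY (Nat.sub_le _ _)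
        have h4 : bt pX pY p = bt pX pY (p - r) := by omega
        have h5 := bt_inj hY h4
        have h6 : ¬ pX (p - r) := by
          intro hcon
          have h7 : Nat.count pX (p - r + 1) = Nat.count pX (p - r) + 1 := by
            rw [Nat.count_succ, if_pos hcon]
          have h8 : Nat.count pX (p - r + 1) ≤ Nat.count pX p :=
            Nat.count_monotone pX (by omega)
          omega
        unfold xw ind
        rw [if_pos hin, if_neg h6, zero_sub, abs_neg, abs_of_nonneg (h.π0 _)]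
        exact h.πPb _ hin.1
      · unfold xw
        rw [if_neg hin, abs_zero]; exact h.Pb_pos.le
    · exact h.Pb_pos.le
  have h1 := bern_norm π (bt pX pY) M B H D M0 κ _ h.π0 h.prob ψ {r} {0}
    (by rw [Finset.singleton_subset_iff]; exact hr)
    (by rw [Finset.singleton_subset_iff, Finset.mem_range]; exact hD)
    (by rw [hlam]; have := h.Pb_pos; positivity)
    (fun p hp => by
      rw [hlam]
      have h2 := hz p hp
      have h3 := h.Pb_pos
      rw [div_mul_eq_mul_div, one_mul, div_le_one (by positivity)]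
      calc _ ≤ Pb * 1 := by rw [mul_one]; exact h2
        _ ≤ Pb * Real.sqrt Pi := by gcongr)
  simp only [Finset.sum_singleton, Finset.card_singleton] at h1
  rw [hlam] at h1
  refine h1.trans ?_
  have hPb := h.Pb_pos
  have hV : ∑ p ∈ Finset.range M, π p * ‖zz M B (xw pX π M0 M) (bt pX pY) ψ {r} {0} p‖ ^ 2
      ≤ Pb ^ 2 * Pi := by
    calc _ ≤ ∑ p ∈ Finset.range M, Pb ^ 2 * π p := by
          refine Finset.sum_le_sum fun p hp => ?_
          have h2 := hz p (Finset.mem_range.mp hp)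
          have h3 := h.π0 p
          rw [mul_comm (Pb ^ 2)]
          gcongr
      _ = Pb ^ 2 * ∑ p ∈ Finset.range M, π p := (Finset.mul_sum _ _ _).symm
      _ ≤ _ := by
          have := h.sumPi
          gcongr
  have e1 : 1 / (Pb * Real.sqrt Pi) * (Pb ^ 2 * Pi) = Pb * Real.sqrt Pi := by
    rw [div_mul_eq_mul_div, div_eq_iff (by positivity), one_mul]
    calc Pb ^ 2 * Pi = Pb ^ 2 * (Real.sqrt Pi * Real.sqrt Pi) := by
          rw [Real.mul_self_sqrt (by linarith [h.Pi1])]
      _ = _ := by ring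
  have e2 : κ * (((1 : ℕ) : ℝ) + ((1 : ℕ) : ℝ) + 1) / (1 / (Pb * Real.sqrt Pi))
      = 3 * κ * (Pb * Real.sqrt Pi) := by
    push_cast
    field_simp
    ring
  rw [e2]
  have e3 : 1 / (Pb * Real.sqrt Pi) * (∑ p ∈ Finset.range M, π p *
      ‖zz M B (xw pX π M0 M) (bt pX pY) ψ {r} {0} p‖ ^ 2) ≤ Pb * Real.sqrt Pi := by
    calc _ ≤ 1 / (Pb * Real.sqrt Pi) * (Pb ^ 2 * Pi) := by gcongr
      _ = _ := e1
  linarith

/-- The discrepancy constant. -/
noncomputable def alph (H D : ℕ) (W Pb CX CN κ Pi : ℝ) : ℝ :=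
  ((6 * W * κ + 1) * Real.sqrt (CX + W * (W * CN))
    + 8 * Real.sqrt (κ * (Pb * W * (W * CN)) * (H + D)))
  + Real.sqrt H * (2 * (1 + 3 * κ) * (Pb * Real.sqrt Pi))

lemma alph_nonneg (hκ : 0 < κ) (hW : 0 < W) (hPb : 0 < Pb) : 0 ≤ alph H D W Pb CX CN κ Pi := by
  unfold alph; positivity

theorem disc_rect (h : ScaleData pX pY π M B H D M0 Wc W Pb CX CN κ Pi)
    (hY : (Set.ofPred pY).Infinite) (ψ : AddChar (Tor M B) ℂ) (S T : Finset ℕ)
    (hS : S ⊆ Finset.Ico 1 H) (hT : T ⊆ Finset.range D) :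
    ‖∑ r ∈ S, ∑ l ∈ T, mat M B (xw pX π M0 M) (bt pX pY) ψ r l‖
      ≤ alph H D W Pb CX CN κ Pi * Real.sqrt S.card * Real.sqrt T.card := by
  have : NeZero M := ⟨h.M_pos.ne'⟩
  have : NeZero B := ⟨h.B_pos.ne'⟩
  have hPb := h.Pb_pos
  have hW := h.W_pos
  have hCN := h.CN_pos
  have hκ := h.κ_pos
  have hcl : ∀ l ∈ Finset.Ico 1 D, ∑ n ∈ Finset.range M, (if pY (bt pX pY n + l) ∧
      Nat.count pX n < Nat.count pX (n + H) then |xw pX π M0 M n| else 0) ≤ W * CN := by
    intro l hl
    refine (cl_bound hY M B H _ W h.bB h.win l).trans ?_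
    have := h.pairs l hl
    gcongr
  set α1 := (6 * W * κ + 1) * Real.sqrt (CX + W * (W * CN))
    + 8 * Real.sqrt (κ * (Pb * W * (W * CN)) * (H + D)) with hα1
  have hα10 : 0 ≤ α1 := by positivity
  -- rectangles avoiding the column zero
  have main : ∀ S' T' : Finset ℕ, S' ⊆ Finset.Ico 1 H → T' ⊆ Finset.Ico 1 D →
      ‖∑ r ∈ S', ∑ l ∈ T', mat M B (xw pX π M0 M) (bt pX pY) ψ r l‖
        ≤ α1 * (Real.sqrt S'.card * Real.sqrt T'.card) := by
    intro S' T' hS' hT'
    rcases S'.eq_empty_or_nonempty with he | hSne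
    · subst he; simp
    rcases T'.eq_empty_or_nonempty with he | hTne
    · subst he; simp
    have hs1 : (1:ℝ) ≤ S'.card := by exact_mod_cast hSne.card_pos
    have ht1 : (1:ℝ) ≤ T'.card := by exact_mod_cast hTne.card_pos
    have hsH : (S'.card : ℝ) ≤ H := by
      have := Finset.card_le_card hS'
      rw [Nat.card_Ico] at this
      exact_mod_cast this.trans (Nat.sub_le _ _)
    have htD : (T'.card : ℝ) ≤ D := by
      have := Finset.card_le_card hT'
      rw [Nat.card_Ico] at this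
      exact_mod_cast this.trans (Nat.sub_le _ _)
    have h0T : 0 ∉ T' := fun hc => by
      have := Finset.mem_Ico.mp (hT' hc); omega
    have hT'r : T' ⊆ Finset.range D := fun l hl => by
      have := Finset.mem_Ico.mp (hT' hl); rw [Finset.mem_range]; exact this.2
    have hlam : lamf Pb Pi W κ (Pb * W * (W * CN)) S' T'
        = min (1 / W) (Real.sqrt (κ / ((Pb * W * (W * CN)) * min (S'.card : ℝ) (T'.card : ℝ)))) := by
      unfold lamf; rw [if_neg h0T]
    have hv : 0 < Pb * W * (W * CN) := by positivity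
    have hmin : 0 < min (S'.card : ℝ) (T'.card : ℝ) := lt_min (by linarith) (by linarith)
    have hlam0 : 0 < lamf Pb Pi W κ (Pb * W * (W * CN)) S' T' := by
      rw [hlam]; exact lt_min (by positivity) (Real.sqrt_pos.mpr (by positivity))
    have hlamW : lamf Pb Pi W κ (Pb * W * (W * CN)) S' T' ≤ 1 / W := by
      rw [hlam]; exact min_le_left _ _
    have hzW : ∀ p, ‖zz M B (xw pX π M0 M) (bt pX pY) ψ S' T' p‖ ≤ W := fun p =>
      (norm_zz _ _ _).trans (ww_le H W S' T' hS' p (win_back H _ W h.win p))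
    have h1 := bern_norm π (bt pX pY) M B H D M0 κ _ h.π0 h.prob ψ S' T' hS' hT'r hlam0
      (fun p hp => by
        calc _ ≤ 1 / W * W := by
              have := hzW p
              gcongr
          _ = 1 := by field_simp)
    have hV := var_bound (M := M) (B := B) (x := xw pX π M0 M) (β := bt pX pY) (ψ := ψ)
      H D W Pb (W * CN) hW.le hPb.le π S' T' hS' hT' (fun p _ => win_back H _ W h.win p)
      (fun p _ r hrp hne => by
        have : M0 ≤ p - r := by
          by_contra hc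
          exact hne (xw_zero pX π M0 M (p - r) (Or.inl (not_le.mp hc)))
        exact h.πPb p (by omega))
      (fun r hr l hl => w_bound hY M H _ (W * CN) r l (Finset.mem_Ico.mp hr).2
        (Finset.mem_Ico.mp hl).1 (hcl l hl))
    have h2 : ‖∑ r ∈ S', ∑ l ∈ T', mat M B (xw pX π M0 M) (bt pX pY) ψ r l‖
        ≤ 2 * (min (1 / W) (Real.sqrt (κ / ((Pb * W * (W * CN)) *
            min (S'.card : ℝ) (T'.card : ℝ)))) * ((Pb * W * (W * CN)) * ((S'.card : ℝ) * T'.card))
          + κ * ((S'.card : ℝ) + T'.card + 1) / min (1 / W) (Real.sqrt (κ / ((Pb * W * (W * CN)) *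
            min (S'.card : ℝ) (T'.card : ℝ))))) := by
      rw [← hlam]
      refine h1.trans ?_
      have := mul_le_mul_of_nonneg_left hV hlam0.le
      linarith
    refine (combine _ (S'.card : ℝ) (T'.card : ℝ) ((H:ℝ) + D) CX (W * (W * CN))
      (Pb * W * (W * CN)) κ W hs1 ht1 ⟨by linarith [(Nat.cast_nonneg D : (0:ℝ) ≤ D)],
        by linarith [(Nat.cast_nonneg H : (0:ℝ) ≤ H)]⟩ h.CX0 (by positivity) hv hκ hW ?_ ?_ h2)
    · exact row_bound H CX S' T' hS' h.cx
    · exact col_bound H D (W * (W * CN)) S' T' hS' hT' (fun l hl =>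
        colsum_bound hY M H _ (W * CN) W hW.le l (Finset.mem_Ico.mp hl).1 h.win (hcl l hl))
  by_cases h0 : 0 ∈ T
  · have hD : 0 < D := by have := Finset.mem_range.mp (hT h0); omega
    have hsplit : ∀ r, ∑ l ∈ T, mat M B (xw pX π M0 M) (bt pX pY) ψ r l
        = mat M B (xw pX π M0 M) (bt pX pY) ψ r 0
          + ∑ l ∈ T.erase 0, mat M B (xw pX π M0 M) (bt pX pY) ψ r l := fun r =>
      (Finset.add_sum_erase T (fun l => mat M B (xw pX π M0 M) (bt pX pY) ψ r l) h0).symm
    rw [Finset.sum_congr rfl fun r _ => hsplit r, Finset.sum_add_distrib]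
    have g1 : ‖∑ r ∈ S, mat M B (xw pX π M0 M) (bt pX pY) ψ r 0‖
        ≤ S.card * (2 * (1 + 3 * κ) * (Pb * Real.sqrt Pi)) := by
      calc _ ≤ ∑ r ∈ S, ‖mat M B (xw pX π M0 M) (bt pX pY) ψ r 0‖ := norm_sum_le _ _
        _ ≤ ∑ r ∈ S, 2 * (1 + 3 * κ) * (Pb * Real.sqrt Pi) :=
            Finset.sum_le_sum fun r hr => col_zero h hY hD ψ r (hS hr)
        _ = _ := by rw [Finset.sum_const, nsmul_eq_mul]
    have g2 := main S (T.erase 0) hS (fun l hl => by
      have h1 := Finset.mem_erase.mp hl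
      have h2 := Finset.mem_range.mp (hT h1.2)
      rw [Finset.mem_Ico]; omega)
    have hSH : Real.sqrt S.card ≤ Real.sqrt H := by
      apply Real.sqrt_le_sqrt
      have := Finset.card_le_card hS
      rw [Nat.card_Ico] at this
      exact_mod_cast this.trans (Nat.sub_le _ _)
    have hT1 : 1 ≤ Real.sqrt T.card := by
      rw [Real.one_le_sqrt]; exact_mod_cast Finset.card_pos.mpr ⟨0, h0⟩
    have hTe : Real.sqrt (T.erase 0).card ≤ Real.sqrt T.card := by
      apply Real.sqrt_le_sqrt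
      exact_mod_cast Finset.card_le_card (Finset.erase_subset _ _)
    have g3 : (S.card : ℝ) ≤ Real.sqrt H * Real.sqrt S.card := by
      calc (S.card : ℝ) = Real.sqrt S.card * Real.sqrt S.card :=
            (Real.mul_self_sqrt (Nat.cast_nonneg _)).symm
        _ ≤ _ := mul_le_mul_of_nonneg_right hSH (Real.sqrt_nonneg _)
    have hΓ : 0 ≤ 2 * (1 + 3 * κ) * (Pb * Real.sqrt Pi) := by positivity
    calc _ ≤ S.card * (2 * (1 + 3 * κ) * (Pb * Real.sqrt Pi))
          + α1 * (Real.sqrt S.card * Real.sqrt (T.erase 0).card) :=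
          (norm_add_le _ _).trans (add_le_add g1 g2)
      _ ≤ (Real.sqrt H * Real.sqrt S.card * 1) * (2 * (1 + 3 * κ) * (Pb * Real.sqrt Pi))
          + α1 * (Real.sqrt S.card * Real.sqrt T.card) := by
          rw [mul_one]
          exact add_le_add (mul_le_mul_of_nonneg_right g3 hΓ)
            (mul_le_mul_of_nonneg_left (mul_le_mul_of_nonneg_left hTe (Real.sqrt_nonneg _)) hα10)
      _ ≤ (Real.sqrt H * Real.sqrt S.card * Real.sqrt T.card) *
          (2 * (1 + 3 * κ) * (Pb * Real.sqrt Pi))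
          + α1 * (Real.sqrt S.card * Real.sqrt T.card) := by
          refine add_le_add ?_ le_rfl
          refine mul_le_mul_of_nonneg_right ?_ hΓ
          exact mul_le_mul_of_nonneg_left hT1 (by positivity)
      _ = _ := by unfold alph; rw [← hα1]; ring
  · have g2 := main S T hS (fun l hl => by
      have h2 := Finset.mem_range.mp (hT hl)
      rw [Finset.mem_Ico]
      refine ⟨?_, h2⟩
      rcases Nat.eq_zero_or_pos l with h3 | h3
      · exact absurd (h3 ▸ hl) h0
      · exact h3)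
    refine g2.trans ?_
    unfold alph
    rw [← hα1]
    have : 0 ≤ Real.sqrt H * (2 * (1 + 3 * κ) * (Pb * Real.sqrt Pi)) := by positivity
    have h3 : 0 ≤ Real.sqrt S.card * Real.sqrt T.card := by positivity
    nlinarith

/-- The operator norm constant. -/
noncomputable def opK (M H D : ℕ) (W Pb CX CN κ Pi : ℝ) (L : ℕ) : ℝ :=
  16 * (alph H D W Pb CX CN κ Pi * L ^ 2 + (L + 1) * (H * D * M * (1 / 2) ^ L))

lemma mat_le (h : ScaleData pX pY π M B H D M0 Wc W Pb CX CN κ Pi)
    (ψ : AddChar (Tor M B) ℂ) (r l : ℕ) :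
    ‖mat M B (xw pX π M0 M) (bt pX pY) ψ r l‖ ≤ M := by
  have : NeZero M := ⟨h.M_pos.ne'⟩
  have : NeZero B := ⟨h.B_pos.ne'⟩
  have hx : ∀ n, |xw pX π M0 M n| ≤ 1 := by
    intro n
    unfold xw ind
    have := h.π0 n
    have := h.π1 n
    split_ifs <;> rw [abs_le] <;> constructor <;> linarith
  unfold mat
  refine (norm_sum_le _ _).trans ?_
  calc _ ≤ ∑ n ∈ Finset.range M, (1:ℝ) := by
        refine Finset.sum_le_sum fun n _ => ?_
        split_ifs
        · rw [norm_mul, norm_char, mul_one, Complex.norm_real, Real.norm_eq_abs, abs_mul]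
          have := hx n
          have := hx (n + r)
          calc _ ≤ (1:ℝ) * 1 := by gcongr
            _ = 1 := one_mul 1
        · simp
    _ = M := by simp

theorem op_bound (h : ScaleData pX pY π M B H D M0 Wc W Pb CX CN κ Pi)
    (hY : (Set.ofPred pY).Infinite) (ψ : AddChar (Tor M B) ℂ) (u v : ℕ → ℂ) (L : ℕ) :
    ‖∑ r ∈ Finset.Ico 1 H, ∑ l ∈ Finset.range D,
        u r * v l * mat M B (xw pX π M0 M) (bt pX pY) ψ r l‖
      ≤ opK M H D W Pb CX CN κ Pi L * (Real.sqrt (∑ r ∈ Finset.Ico 1 H, ‖u r‖ ^ 2) *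
          Real.sqrt (∑ l ∈ Finset.range D, ‖v l‖ ^ 2)) := by
  have h1 := bilin_complex (Finset.Ico 1 H) (Finset.range D)
    (fun r l => mat M B (xw pX π M0 M) (bt pX pY) ψ r l) (alph H D W Pb CX CN κ Pi) M
    (alph_nonneg h.κ_pos h.W_pos h.Pb_pos) (Nat.cast_nonneg M)
    (fun S hS T hT => disc_rect h hY ψ S T hS hT) (fun r _ l _ => mat_le h ψ r l) u v L
  refine h1.trans ?_
  refine mul_le_mul_of_nonneg_right ?_ (by positivity)
  unfold opK
  rw [Nat.card_Ico, Finset.card_range]
  have : ((H - 1 : ℕ) : ℝ) ≤ H := by exact_mod_cast Nat.sub_le H 1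
  gcongr

/-- The error estimate at one scale. -/
theorem scale_bound (h : ScaleData pX pY π M B H D M0 Wc W Pb CX CN κ Pi)
    (hY : (Set.ofPred pY).Infinite) (L : ℕ)
    {α : Type*} [MeasurableSpace α] (μ : Measure α) [IsProbabilityMeasure μ]
    (T S : α → α) (hT : MeasurePreserving T μ μ) (hS : MeasurePreserving S μ μ)
    (hTS : ∀ z, T (S z) = S (T z)) (f g : α → ℝ) (hf : Measurable f) (hg : Measurable g)
    (hf1 : ∀ z, |f z| ≤ 1) (hg1 : ∀ z, |g z| ≤ 1) :
    ∫ z, (∑ n ∈ Finset.range M, (ind pX n - π n) * (f (T^[n] z) * g (S^[bt pX pY n] z))) ^ 2 ∂μ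
      ≤ 2 * ((M / H) * ((∑ n ∈ Finset.range M, (ind pX n + π n))
          + 8 * opK M H D W Pb CX CN κ Pi L * Real.sqrt (H * D)))
        + 2 * (∑ n ∈ Finset.range M0, (ind pX n + π n)) ^ 2 := by
  have hH' : (0:ℝ) < H := by exact_mod_cast h.H_pos
  have hind0 : ∀ n, 0 ≤ ind pX n := by intro n; unfold ind; split_ifs <;> norm_num
  have hind1 : ∀ n, ind pX n ≤ 1 := by intro n; unfold ind; split_ifs <;> norm_num
  have hop0 : 0 ≤ opK M H D W Pb CX CN κ Pi L := by
    unfold opK
    have := alph_nonneg (H := H) (D := D) (CX := CX) (CN := CN) (Pi := Pi) h.κ_pos h.W_pos h.Pb_pos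
    positivity
  have h1 := sys_bound μ T S hT hS hTS f g hf hg hf1 hg1 M B H D h.M_pos h.B_pos h.H_pos
    (xw pX π M0 M) (bt pX pY)
    (fun n hn => by
      by_contra hc
      apply hn
      apply xw_zero
      have := h.HM0
      omega)
    (bt_mono hY) (fun n hn => (h.bB n hn).le)
    (fun n hn r hr hne => by
      have hx1 : xw pX π M0 M n ≠ 0 := left_ne_zero_of_mul hne
      have hx2 : xw pX π M0 M (n + r) ≠ 0 := right_ne_zero_of_mul hne
      have a1 : M0 ≤ n := by
        by_contra hc; exact hx1 (xw_zero pX π M0 M n (Or.inl (not_le.mp hc)))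
      have a2 : n + r < M := by
        by_contra hc; exact hx2 (xw_zero pX π M0 M (n + r) (Or.inr (not_lt.mp hc)))
      have a3 := h.cntX n (n + r) a1 (Nat.le_add_right _ _) a2.le (by omega)
      have a4 := h.cntY (bt pX pY n) (h.bB n hn)
      rw [count_bt hY] at a4
      have a5 : bt pX pY (n + r) < bt pX pY n + D := Nat.nth_lt_of_lt_count (by omega)
      have a6 : bt pX pY n ≤ bt pX pY (n + r) := bt_mono hY (Nat.le_add_right _ _)
      omega)
    (opK M H D W Pb CX CN κ Pi L) hop0 (fun ψ u v => op_bound h hY ψ u v L)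
  set U : α → ℝ := fun z => ∑ n ∈ Finset.range M, xw pX π M0 M n *
    (f (T^[n] z) * g (S^[bt pX pY n] z)) with hU
  set E0 := ∑ n ∈ Finset.range M0, (ind pX n + π n) with hE0
  have hpt : ∀ z, (∑ n ∈ Finset.range M, (ind pX n - π n) *
      (f (T^[n] z) * g (S^[bt pX pY n] z))) ^ 2 ≤ 2 * U z ^ 2 + 2 * E0 ^ 2 := by
    intro z
    set Rz := ∑ n ∈ Finset.range M, (if n < M0 then (ind pX n - π n) else 0) *
      (f (T^[n] z) * g (S^[bt pX pY n] z)) with hRz
    have e1 : ∑ n ∈ Finset.range M, (ind pX n - π n) * (f (T^[n] z) * g (S^[bt pX pY n] z))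
        = U z + Rz := by
      simp only [hU, hRz]
      rw [← Finset.sum_add_distrib]
      refine Finset.sum_congr rfl fun n hn => ?_
      have hn' := Finset.mem_range.mp hn
      rw [← add_mul]
      congr 1
      unfold xw
      by_cases hc : n < M0
      · rw [if_neg (by omega), if_pos hc, zero_add]
      · rw [if_pos ⟨not_lt.mp hc, hn'⟩, if_neg hc, add_zero]
    have e2 : |Rz| ≤ E0 := by
      calc |Rz| ≤ ∑ n ∈ Finset.range M, |(if n < M0 then (ind pX n - π n) else 0) *
            (f (T^[n] z) * g (S^[bt pX pY n] z))| := Finset.abs_sum_le_sum_abs _ _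
        _ ≤ ∑ n ∈ Finset.range M, (if n < M0 then (ind pX n + π n) else 0) := by
            refine Finset.sum_le_sum fun n _ => ?_
            rw [abs_mul, abs_mul]
            have b1 := hf1 (T^[n] z)
            have b2 := hg1 (S^[bt pX pY n] z)
            have b3 : |(if n < M0 then (ind pX n - π n) else 0)|
                ≤ (if n < M0 then (ind pX n + π n) else 0) := by
              split_ifs
              · rw [abs_le]
                constructor <;> linarith [hind0 n, h.π0 n]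
              · simp
            calc _ ≤ (if n < M0 then (ind pX n + π n) else 0) * (1 * 1) := by
                  have := (abs_nonneg _).trans b3
                  gcongr
              _ = _ := by ring
        _ = ∑ n ∈ (Finset.range M).filter (fun n => n < M0), (ind pX n + π n) := by
            rw [Finset.sum_filter]
        _ ≤ E0 := by
            refine Finset.sum_le_sum_of_subset_of_nonneg ?_ fun n _ _ =>
              add_nonneg (hind0 n) (h.π0 n)
            intro n hn
            rw [Finset.mem_range]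
            exact (Finset.mem_filter.mp hn).2
    rw [e1]
    have e3 : Rz ^ 2 ≤ E0 ^ 2 := by
      rw [← sq_abs]; exact pow_le_pow_left₀ (abs_nonneg _) e2 2
    nlinarith [sq_nonneg (U z - Rz)]
  have hUm : Measurable U := by
    refine Finset.measurable_sum _ fun n _ => ?_
    exact measurable_const.mul ((hf.comp (hT.iterate n).measurable).mul
      (hg.comp (hS.iterate _).measurable))
  have hUb : ∀ z, |U z| ≤ ∑ n ∈ Finset.range M, |xw pX π M0 M n| := by
    intro z
    refine (Finset.abs_sum_le_sum_abs _ _).trans (Finset.sum_le_sum fun n _ => ?_)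
    rw [abs_mul, abs_mul]
    have a1 := hf1 (T^[n] z)
    have a2 := hg1 (S^[bt pX pY n] z)
    calc _ ≤ |xw pX π M0 M n| * (1 * 1) := by gcongr
      _ = _ := by ring
  have hU2 : Integrable (fun z => U z ^ 2) μ :=
    Integrable.of_bound (hUm.pow_const 2).aestronglyMeasurable
      ((∑ n ∈ Finset.range M, |xw pX π M0 M n|) ^ 2)
      (Eventually.of_forall fun z => by
        rw [Real.norm_eq_abs, abs_pow]
        exact pow_le_pow_left₀ (abs_nonneg _) (hUb z) 2)
  have h2 : ∫ z, U z ^ 2 ∂μ ≤ (M / H) * ((∑ n ∈ Finset.range M, (ind pX n + π n))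
          + 8 * opK M H D W Pb CX CN κ Pi L * Real.sqrt (H * D)) := by
    rw [div_mul_eq_mul_div, le_div_iff₀ hH', mul_comm]
    refine h1.trans ?_
    have e4 : ∑ n ∈ Finset.range M, (xw pX π M0 M n) ^ 2
        ≤ ∑ n ∈ Finset.range M, (ind pX n + π n) := by
      refine Finset.sum_le_sum fun n _ => ?_
      have a1 := hind0 n
      have a2 := hind1 n
      have a3 := h.π0 n
      have a4 := h.π1 n
      unfold xw
      split_ifs
      · have : |ind pX n - π n| ≤ 1 := by rw [abs_le]; constructor <;> linarith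
        have h5 : |ind pX n - π n| ≤ ind pX n + π n := by
          rw [abs_le]; constructor <;> linarith
        rw [← sq_abs]
        nlinarith [abs_nonneg (ind pX n - π n)]
      · simp; linarith
    gcongr
  calc _ ≤ ∫ z, (2 * U z ^ 2 + 2 * E0 ^ 2) ∂μ := by
        refine integral_mono_of_nonneg (Eventually.of_forall fun z => sq_nonneg _)
          ((hU2.const_mul 2).add (integrable_const _)) (Eventually.of_forall hpt)
    _ = 2 * ∫ z, U z ^ 2 ∂μ + 2 * E0 ^ 2 := by
        rw [integral_add (hU2.const_mul 2) (integrable_const _), integral_const_mul]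
        simp
    _ ≤ _ := by linarith

end Pool.Agent.Helper49.RS
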