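import Pool.Agent.Helper49.RS.Disc

set_option autoImplicit false
open MeasureTheory Filter Topology

namespace Pool.Agent.Helper49.RS

set_option linter.unusedSectionVars false

/-- The second time that is paired with the position `n` of the first sequence. -/
noncomputable def bt (pX pY : ℕ → Prop) [DecidablePred pX] (n : ℕ) : ℕ :=
  Nat.nth pY (Nat.count pX n)

/-- Indicator of a predicate, as a real number. -/
noncomputable def ind (p : ℕ → Prop) [DecidablePred p] (n : ℕ) : ℝ := if p n then 1 else 0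

/-- Compensated weights restricted to a block. -/
noncomputable def xw (pX : ℕ → Prop) [DecidablePred pX] (π : ℕ → ℝ) (M0 M n : ℕ) : ℝ :=
  if M0 ≤ n ∧ n < M then ind pX n - π n else 0

variable {pX pY : ℕ → Prop} [DecidablePred pX] [DecidablePred pY]

lemma bt_mono (hY : (Set.ofPred pY).Infinite) : Monotone (bt pX pY) := by
  intro m n h
  exact Nat.nth_monotone hY (Nat.count_monotone pX h)

lemma bt_mem (hY : (Set.ofPred pY).Infinite) (n : ℕ) : pY (bt pX pY n) :=
  Nat.nth_mem_of_infinite hY _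

lemma bt_inj (hY : (Set.ofPred pY).Infinite) {m n : ℕ} (h : bt pX pY m = bt pX pY n) :
    Nat.count pX m = Nat.count pX n := Nat.nth_injective hY h

lemma count_bt (hY : (Set.ofPred pY).Infinite) (n : ℕ) :
    Nat.count pY (bt pX pY n) = Nat.count pX n := Nat.count_nth_of_infinite hY _

lemma sum_ind (p : ℕ → Prop) [DecidablePred p] (i j : ℕ) (hij : i ≤ j) :
    ∑ n ∈ Finset.Ico i j, ind p n = (Nat.count p j : ℝ) - Nat.count p i := by
  induction j, hij using Nat.le_induction with
  | base => simp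
  | succ j hj ih =>
    rw [Finset.sum_Ico_succ_top hj, ih, Nat.count_succ]
    unfold ind
    push_cast
    split_ifs <;> push_cast <;> ring

lemma sum_ind_range (p : ℕ → Prop) [DecidablePred p] (j : ℕ) :
    ∑ n ∈ Finset.range j, ind p n = (Nat.count p j : ℝ) := by
  have := sum_ind p 0 j (Nat.zero_le _)
  rw [Finset.range_eq_Ico, this]; simp

lemma cl_bound (hY : (Set.ofPred pY).Infinite) (M B H : ℕ) (x : ℕ → ℝ) (W : ℝ)
    (hb : ∀ n < M, bt pX pY n < B)
    (hwin : ∀ i, ∑ n ∈ Finset.Ico i (i + H), |x n| ≤ W) (l : ℕ) :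
    ∑ n ∈ Finset.range M, (if pY (bt pX pY n + l) ∧ Nat.count pX n < Nat.count pX (n + H)
      then |x n| else 0) ≤ W * ((Finset.range B).filter (fun m => pY m ∧ pY (m + l))).card := by
  rw [← Finset.sum_filter]
  set N := (Finset.range M).filter (fun n => pY (bt pX pY n + l) ∧
    Nat.count pX n < Nat.count pX (n + H)) with hN
  set Q := (Finset.range B).filter (fun m => pY m ∧ pY (m + l)) with hQ
  have hmaps : ∀ n ∈ N, bt pX pY n ∈ Q := by
    intro n hn
    obtain ⟨h1, h2, h3⟩ := Finset.mem_filter.mp hn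
    exact Finset.mem_filter.mpr ⟨Finset.mem_range.mpr (hb n (Finset.mem_range.mp h1)),
      bt_mem hY n, h2⟩
  rw [← Finset.sum_fiberwise_of_maps_to hmaps]
  calc _ ≤ ∑ m ∈ Q, W := by
        refine Finset.sum_le_sum fun m _ => ?_
        set Fb := N.filter (fun n => bt pX pY n = m) with hFb
        rcases Fb.eq_empty_or_nonempty with he | hne
        · rw [he, Finset.sum_empty]
          exact le_trans (Finset.sum_nonneg fun _ _ => abs_nonneg _) (hwin 0)
        · set n0 := Fb.min' hne with hn0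
          have hn0mem : n0 ∈ Fb := Finset.min'_mem _ _
          refine le_trans (Finset.sum_le_sum_of_subset_of_nonneg ?_ fun _ _ _ => abs_nonneg _)
            (hwin n0)
          intro n hn
          rw [Finset.mem_Ico]
          refine ⟨Finset.min'_le _ _ hn, ?_⟩
          by_contra hcon
          have h1 : Nat.count pX (n0 + H) ≤ Nat.count pX n := Nat.count_monotone pX (not_lt.mp hcon)
          obtain ⟨g1, g2⟩ := Finset.mem_filter.mp hn0mem
          obtain ⟨g3, g4⟩ := Finset.mem_filter.mp hn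
          obtain ⟨_, _, g5⟩ := Finset.mem_filter.mp g1
          have h2 : Nat.count pX n = Nat.count pX n0 := bt_inj hY (by rw [g2, g4])
          omega
    _ = _ := by rw [Finset.sum_const, nsmul_eq_mul, mul_comm]

lemma col_cond (hY : (Set.ofPred pY).Infinite) (H n r l : ℕ) (hr : r < H) (hl : 1 ≤ l)
    (h : bt pX pY (n + r) - bt pX pY n = l) :
    pY (bt pX pY n + l) ∧ Nat.count pX n < Nat.count pX (n + H) := by
  have h1 : bt pX pY (n + r) = bt pX pY n + l := by omega
  refine ⟨by rw [← h1]; exact bt_mem hY _, ?_⟩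
  have h2 : Nat.count pX n ≤ Nat.count pX (n + r) := Nat.count_monotone pX (Nat.le_add_right _ _)
  have h3 : Nat.count pX (n + r) ≤ Nat.count pX (n + H) := Nat.count_monotone pX (by omega)
  have h4 : Nat.count pX n ≠ Nat.count pX (n + r) := by
    intro h5
    have : bt pX pY n = bt pX pY (n + r) := by unfold bt; rw [h5]
    omega
  omega

lemma win_back (H : ℕ) (x : ℕ → ℝ) (W : ℝ) (hwin : ∀ i, ∑ n ∈ Finset.Ico i (i + H), |x n| ≤ W)
    (p : ℕ) : ∑ r ∈ Finset.Ico 1 H, (if r ≤ p then |x (p - r)| else 0) ≤ W := by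
  refine le_trans ?_ (hwin (p - (H - 1)))
  rw [← Finset.sum_filter]
  have : ∑ r ∈ (Finset.Ico 1 H).filter (fun r => r ≤ p), |x (p - r)|
      = ∑ n ∈ ((Finset.Ico 1 H).filter (fun r => r ≤ p)).image (fun r => p - r), |x n| := by
    rw [Finset.sum_image]
    intro a ha b hb hab
    have h1 := (Finset.mem_filter.mp ha).2
    have h2 := (Finset.mem_filter.mp hb).2
    simp only at hab
    omega
  rw [this]
  refine Finset.sum_le_sum_of_subset_of_nonneg ?_ fun _ _ _ => abs_nonneg _
  intro n hn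
  obtain ⟨r, hr, rfl⟩ := Finset.mem_image.mp hn
  obtain ⟨h1, h2⟩ := Finset.mem_filter.mp hr
  rw [Finset.mem_Ico] at h1 ⊢
  omega

lemma win_fwd (H : ℕ) (x : ℕ → ℝ) (W : ℝ) (hwin : ∀ i, ∑ n ∈ Finset.Ico i (i + H), |x n| ≤ W)
    (n : ℕ) : ∑ r ∈ Finset.Ico 1 H, |x (n + r)| ≤ W := by
  refine le_trans ?_ (hwin n)
  rw [Finset.sum_Ico_eq_sum_range (fun m => |x m|), Nat.add_sub_cancel_left]
  refine Finset.sum_le_sum_of_subset_of_nonneg ?_ fun _ _ _ => abs_nonneg _
  intro r hr
  rw [Finset.mem_Ico] at hr; rw [Finset.mem_range]; exact hr.2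

lemma w_bound (hY : (Set.ofPred pY).Infinite) (M H : ℕ) (x : ℕ → ℝ) (CY : ℝ)
    (r l : ℕ) (hr : r < H) (hl : 1 ≤ l)
    (hcl : ∑ n ∈ Finset.range M, (if pY (bt pX pY n + l) ∧ Nat.count pX n < Nat.count pX (n + H)
      then |x n| else 0) ≤ CY) :
    ∑ n ∈ Finset.range (M - r), (if bt pX pY (n + r) - bt pX pY n = l then |x n| else 0) ≤ CY := by
  refine le_trans ?_ hcl
  calc _ ≤ ∑ n ∈ Finset.range (M - r), (if pY (bt pX pY n + l) ∧
        Nat.count pX n < Nat.count pX (n + H) then |x n| else 0) := by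
        refine Finset.sum_le_sum fun n _ => ?_
        by_cases h : bt pX pY (n + r) - bt pX pY n = l
        · rw [if_pos h, if_pos (col_cond hY H n r l hr hl h)]
        · rw [if_neg h]
          split_ifs
          · exact abs_nonneg _
          · exact le_rfl
    _ ≤ _ := by
        refine Finset.sum_le_sum_of_subset_of_nonneg ?_ fun _ _ _ => ?_
        · intro n hn; rw [Finset.mem_range] at hn ⊢; omega
        · split_ifs
          · exact abs_nonneg _
          · exact le_rfl

lemma colsum_bound (hY : (Set.ofPred pY).Infinite) (M H : ℕ) (x : ℕ → ℝ) (CY W : ℝ) (hW : 0 ≤ W)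
    (l : ℕ) (hl : 1 ≤ l)
    (hwin : ∀ i, ∑ n ∈ Finset.Ico i (i + H), |x n| ≤ W)
    (hcl : ∑ n ∈ Finset.range M, (if pY (bt pX pY n + l) ∧ Nat.count pX n < Nat.count pX (n + H)
      then |x n| else 0) ≤ CY) :
    ∑ r ∈ Finset.Ico 1 H, ∑ n ∈ Finset.range M,
      (if bt pX pY (n + r) - bt pX pY n = l then |x n * x (n + r)| else 0) ≤ W * CY := by
  rw [Finset.sum_comm]
  calc _ ≤ ∑ n ∈ Finset.range M, (if pY (bt pX pY n + l) ∧
        Nat.count pX n < Nat.count pX (n + H) then |x n| else 0) * W := by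
        refine Finset.sum_le_sum fun n _ => ?_
        calc _ ≤ ∑ r ∈ Finset.Ico 1 H, (if pY (bt pX pY n + l) ∧
              Nat.count pX n < Nat.count pX (n + H) then |x n| else 0) * |x (n + r)| := by
              refine Finset.sum_le_sum fun r hr => ?_
              by_cases h : bt pX pY (n + r) - bt pX pY n = l
              · rw [if_pos h, if_pos (col_cond hY H n r l (Finset.mem_Ico.mp hr).2 hl h), abs_mul]
              · rw [if_neg h]
                split_ifs
                · exact mul_nonneg (abs_nonneg _) (abs_nonneg _)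
                · simp
          _ = (if pY (bt pX pY n + l) ∧
              Nat.count pX n < Nat.count pX (n + H) then |x n| else 0) *
              ∑ r ∈ Finset.Ico 1 H, |x (n + r)| := (Finset.mul_sum _ _ _).symm
          _ ≤ _ := by
              refine mul_le_mul_of_nonneg_left (win_fwd H x W hwin n) ?_
              split_ifs
              · exact abs_nonneg _
              · exact le_rfl
    _ = W * ∑ n ∈ Finset.range M, (if pY (bt pX pY n + l) ∧
        Nat.count pX n < Nat.count pX (n + H) then |x n| else 0) := by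
        rw [← Finset.sum_mul, mul_comm]
    _ ≤ _ := mul_le_mul_of_nonneg_left hcl hW

/-- Real or imaginary part. -/
def prt (b : Bool) (z : ℂ) : ℝ := if b then z.re else z.im

/-- Sign. -/
def sgn (b : Bool) : ℝ := if b then 1 else -1

lemma prt_le (b : Bool) (z : ℂ) : |prt b z| ≤ ‖z‖ := by
  unfold prt
  split_ifs
  · exact Complex.abs_re_le_norm z
  · exact Complex.abs_im_le_norm z

/-- The probabilistic information used at scale `M`. -/
def ProbAt (pX : ℕ → Prop) [DecidablePred pX] (π : ℕ → ℝ) (β : ℕ → ℕ) (M B H D M0 : ℕ) (κ : ℝ)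
    (lam : Finset ℕ → Finset ℕ → ℝ) : Prop :=
  ∀ (ψ : AddChar (Tor M B) ℂ) (S T : Finset ℕ) (b c : Bool), S ⊆ Finset.Ico 1 H →
    T ⊆ Finset.range D →
    (∀ p < M, |lam S T * (sgn c * prt b (zz M B (xw pX π M0 M) β ψ S T p))| ≤ 1) →
    ∑ p ∈ Finset.range M, (ind pX p - π p) *
        (lam S T * (sgn c * prt b (zz M B (xw pX π M0 M) β ψ S T p)))
      ≤ ∑ p ∈ Finset.range M, π p *
        (lam S T * (sgn c * prt b (zz M B (xw pX π M0 M) β ψ S T p))) ^ 2
        + κ * (S.card + T.card + 1)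

lemma xw_zero (pX : ℕ → Prop) [DecidablePred pX] (π : ℕ → ℝ) (M0 M n : ℕ) (h : n < M0 ∨ M ≤ n) :
    xw pX π M0 M n = 0 := by
  unfold xw; rw [if_neg (by omega)]

lemma zz_zero (π : ℕ → ℝ) (β : ℕ → ℕ) (M B M0 : ℕ)
    (ψ : AddChar (Tor M B) ℂ) (S T : Finset ℕ) (p : ℕ) (hp : p < M0) :
    zz M B (xw pX π M0 M) β ψ S T p = 0 := by
  unfold zz
  refine Finset.sum_eq_zero fun r _ => ?_
  split_ifs
  · rw [xw_zero pX π M0 M (p - r) (Or.inl (by omega))]; simp
  · rfl

lemma bern_norm (π : ℕ → ℝ) (β : ℕ → ℕ) (M B H D M0 : ℕ) [NeZero M] [NeZero B] (κ : ℝ)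
    (lam : Finset ℕ → Finset ℕ → ℝ) (hπ : ∀ n, 0 ≤ π n)
    (hP : ProbAt pX π β M B H D M0 κ lam) (ψ : AddChar (Tor M B) ℂ) (S T : Finset ℕ)
    (hS : S ⊆ Finset.Ico 1 H) (hT : T ⊆ Finset.range D) (hlam : 0 < lam S T)
    (hle : ∀ p < M, lam S T * ‖zz M B (xw pX π M0 M) β ψ S T p‖ ≤ 1) :
    ‖∑ r ∈ S, ∑ l ∈ T, mat M B (xw pX π M0 M) β ψ r l‖
      ≤ 2 * (lam S T * (∑ p ∈ Finset.range M, π p * ‖zz M B (xw pX π M0 M) β ψ S T p‖ ^ 2)
        + κ * (S.card + T.card + 1) / lam S T) := by
  rw [← sum_zz S T (fun n hn => xw_zero pX π M0 M n (Or.inr hn))]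
  set z : ℕ → ℂ := fun p => zz M B (xw pX π M0 M) β ψ S T p with hz
  set V := ∑ p ∈ Finset.range M, π p * ‖z p‖ ^ 2 with hV
  set K := κ * ((S.card : ℝ) + T.card + 1) with hK
  have e1 : ∑ p ∈ Finset.range M, ((xw pX π M0 M p : ℝ) : ℂ) * z p
      = ∑ p ∈ Finset.range M, ((ind pX p - π p : ℝ) : ℂ) * z p := by
    refine Finset.sum_congr rfl fun p hp => ?_
    have hp' := Finset.mem_range.mp hp
    by_cases h : M0 ≤ p
    · unfold xw; rw [if_pos ⟨h, hp'⟩]
    · simp only [hz]
      rw [zz_zero π β M B M0 ψ S T p (not_le.mp h)]; simp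
  have hprt : ∀ b : Bool, prt b (∑ p ∈ Finset.range M, ((ind pX p - π p : ℝ) : ℂ) * z p)
      = ∑ p ∈ Finset.range M, (ind pX p - π p) * prt b (z p) := by
    intro b
    unfold prt
    cases b
    · simp only [Bool.false_eq_true, if_false]
      rw [Complex.im_sum]
      exact Finset.sum_congr rfl fun p _ => by rw [Complex.im_ofReal_mul]
    · simp only [if_true]
      rw [Complex.re_sum]
      exact Finset.sum_congr rfl fun p _ => by rw [Complex.re_ofReal_mul]
  have key : ∀ b : Bool, |prt b (∑ p ∈ Finset.range M, ((ind pX p - π p : ℝ) : ℂ) * z p)|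
      ≤ lam S T * V + K / lam S T := by
    intro b
    have h1 : ∀ c : Bool, sgn c * prt b (∑ p ∈ Finset.range M, ((ind pX p - π p : ℝ) : ℂ) * z p)
        ≤ lam S T * V + K / lam S T := by
      intro c
      have hs1 : |sgn c| = 1 := by unfold sgn; split_ifs <;> simp
      have h2 := hP ψ S T b c hS hT (fun p hp => by
        rw [abs_mul, abs_mul, hs1, one_mul, abs_of_pos hlam]
        exact (mul_le_mul_of_nonneg_left (prt_le b _) hlam.le).trans (hle p hp))
      have h3 : ∑ p ∈ Finset.range M, (ind pX p - π p) * (lam S T * (sgn c * prt b (z p)))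
          = lam S T * (sgn c * prt b (∑ p ∈ Finset.range M, ((ind pX p - π p : ℝ) : ℂ) * z p)) := by
        rw [hprt b, Finset.mul_sum, Finset.mul_sum]
        exact Finset.sum_congr rfl fun p _ => by ring
      have h4 : ∑ p ∈ Finset.range M, π p * (lam S T * (sgn c * prt b (z p))) ^ 2
          ≤ lam S T ^ 2 * V := by
        rw [hV, Finset.mul_sum]
        refine Finset.sum_le_sum fun p _ => ?_
        have h5 : (sgn c) ^ 2 = 1 := by rw [← sq_abs, hs1]; norm_num
        have h6 : (prt b (z p)) ^ 2 ≤ ‖z p‖ ^ 2 := by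
          rw [← sq_abs]
          exact pow_le_pow_left₀ (abs_nonneg _) (prt_le b _) 2
        calc π p * (lam S T * (sgn c * prt b (z p))) ^ 2
            = lam S T ^ 2 * (π p * ((sgn c) ^ 2 * (prt b (z p)) ^ 2)) := by ring
          _ ≤ lam S T ^ 2 * (π p * ‖z p‖ ^ 2) := by
              rw [h5, one_mul]
              have := hπ p
              gcongr
      simp only [← hz] at h2
      rw [h3] at h2
      have h7 : lam S T * (sgn c * prt b (∑ p ∈ Finset.range M, ((ind pX p - π p : ℝ) : ℂ) * z p))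
          ≤ lam S T * (lam S T * V + K / lam S T) := by
        calc _ ≤ _ := h2
          _ ≤ lam S T ^ 2 * V + K := by linarith
          _ = _ := by field_simp
      exact le_of_mul_le_mul_left h7 hlam
    rw [abs_le]
    have a1 := h1 true
    have a2 := h1 false
    simp only [sgn, if_true, one_mul, Bool.false_eq_true, if_false] at a1 a2
    constructor <;> linarith
  rw [e1]
  have k1 := key true
  have k2 := key false
  simp only [prt, if_true, Bool.false_eq_true, if_false] at k1 k2
  calc _ ≤ |(∑ p ∈ Finset.range M, ((ind pX p - π p : ℝ) : ℂ) * z p).re|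
        + |(∑ p ∈ Finset.range M, ((ind pX p - π p : ℝ) : ℂ) * z p).im| :=
        Complex.norm_le_abs_re_add_abs_im _
    _ ≤ _ := by linarith

end Pool.Agent.Helper49.RS
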