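import Pool.Agent.Helper49.RS.Fourier

set_option autoImplicit false
open MeasureTheory Filter Topology

namespace Pool.Agent.Helper49.RS

/-- Correlations of a finitely supported sequence depend on the difference only. -/
lemma corr_shift (v : ℕ → ℝ) (M H : ℕ) (hs : ∀ n, v n ≠ 0 → H ≤ n ∧ n < M) (h r : ℕ) (hh : h ≤ H) :
    ∑ m ∈ Finset.range M, v (m + h) * v (m + h + r) = ∑ n ∈ Finset.range M, v n * v (n + r) := by
  have h1 : ∀ n, (n < H ∨ M ≤ n) → v n = 0 := by
    intro n hn
    by_contra hc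
    have := hs n hc
    omega
  have e1 : ∑ m ∈ Finset.range M, v (m + h) * v (m + h + r)
      = ∑ n ∈ Finset.Ico h (M + h), v n * v (n + r) := by
    rw [Finset.sum_Ico_eq_sum_range]
    rw [Nat.add_sub_cancel]
    exact Finset.sum_congr rfl fun m _ => by rw [add_comm h m]
  rw [e1]
  have e2 : ∑ n ∈ Finset.Ico h (M + h), v n * v (n + r) = ∑ n ∈ Finset.range (M + h), v n * v (n + r) := by
    refine Finset.sum_subset (fun n hn => ?_) fun n hn hn2 => ?_
    · rw [Finset.mem_Ico] at hn; rw [Finset.mem_range]; exact hn.2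
    · rw [Finset.mem_range] at hn
      rw [Finset.mem_Ico] at hn2
      rw [h1 n (Or.inl (by omega)), zero_mul]
  have e3 : ∑ n ∈ Finset.range M, v n * v (n + r) = ∑ n ∈ Finset.range (M + h), v n * v (n + r) := by
    refine Finset.sum_subset (fun n hn => ?_) fun n hn hn2 => ?_
    · rw [Finset.mem_range] at hn ⊢; omega
    · rw [Finset.mem_range] at hn hn2
      rw [h1 n (Or.inr (by omega)), zero_mul]
  rw [e2, e3]

lemma sum_shift (v : ℕ → ℝ) (M H : ℕ) (hs : ∀ n, v n ≠ 0 → H ≤ n ∧ n < M) (h : ℕ) (hh : h ≤ H) :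
    ∑ m ∈ Finset.range M, v (m + h) = ∑ n ∈ Finset.range M, v n := by
  have h1 : ∀ n, (n < H ∨ M ≤ n) → v n = 0 := by
    intro n hn
    by_contra hc
    have := hs n hc
    omega
  have e1 : ∑ m ∈ Finset.range M, v (m + h) = ∑ n ∈ Finset.Ico h (M + h), v n := by
    rw [Finset.sum_Ico_eq_sum_range, Nat.add_sub_cancel]
    exact Finset.sum_congr rfl fun m _ => by rw [add_comm h m]
  rw [e1]
  have e2 : ∑ n ∈ Finset.Ico h (M + h), v n = ∑ n ∈ Finset.range (M + h), v n := by
    refine Finset.sum_subset (fun n hn => ?_) fun n hn hn2 => ?_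
    · rw [Finset.mem_Ico] at hn; rw [Finset.mem_range]; exact hn.2
    · rw [Finset.mem_range] at hn
      rw [Finset.mem_Ico] at hn2
      exact h1 n (Or.inl (by omega))
  have e3 : ∑ n ∈ Finset.range M, v n = ∑ n ∈ Finset.range (M + h), v n := by
    refine Finset.sum_subset (fun n hn => ?_) fun n hn hn2 => ?_
    · rw [Finset.mem_range] at hn ⊢; omega
    · rw [Finset.mem_range] at hn hn2
      exact h1 n (Or.inr (by omega))
  rw [e2, e3]

/-- Van der Corput inequality for a family of finitely supported sequences. -/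
lemma vdc {κ : Type*} (s : Finset κ) (v : κ → ℕ → ℝ) (M H : ℕ)
    (hs : ∀ k, ∀ n, v k n ≠ 0 → H ≤ n ∧ n < M) :
    (H : ℝ) * ((H : ℝ) * ∑ k ∈ s, (∑ n ∈ Finset.range M, v k n) ^ 2)
      ≤ M * (H * ((∑ k ∈ s, ∑ n ∈ Finset.range M, v k n ^ 2)
        + 2 * ∑ r ∈ Finset.Ico 1 H, |∑ k ∈ s, ∑ n ∈ Finset.range M, v k n * v k (n + r)|)) := by
  set C : ℕ → ℝ := fun r => ∑ k ∈ s, ∑ n ∈ Finset.range M, v k n * v k (n + r) with hC
  have h1 : ∀ k, (H : ℝ) * ((H : ℝ) * (∑ n ∈ Finset.range M, v k n) ^ 2)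
      ≤ M * ∑ h ∈ Finset.range H, ∑ h' ∈ Finset.range H,
        ∑ n ∈ Finset.range M, v k n * v k (n + (max h h' - min h h')) := by
    intro k
    have e1 : (H : ℝ) * (∑ n ∈ Finset.range M, v k n)
        = ∑ m ∈ Finset.range M, ∑ h ∈ Finset.range H, v k (m + h) := by
      rw [Finset.sum_comm]
      rw [Finset.sum_congr rfl fun h hh => sum_shift (v k) M H (hs k) h (Finset.mem_range.mp hh).le]
      simp
    have e2 : (∑ m ∈ Finset.range M, ∑ h ∈ Finset.range H, v k (m + h)) ^ 2
        ≤ (Finset.range M).card * ∑ m ∈ Finset.range M, (∑ h ∈ Finset.range H, v k (m + h)) ^ 2 :=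
      sq_sum_le_card_mul_sum_sq
    rw [Finset.card_range] at e2
    have e3 : ∑ m ∈ Finset.range M, (∑ h ∈ Finset.range H, v k (m + h)) ^ 2
        = ∑ h ∈ Finset.range H, ∑ h' ∈ Finset.range H,
        ∑ n ∈ Finset.range M, v k n * v k (n + (max h h' - min h h')) := by
      simp_rw [sq, Finset.sum_mul_sum]
      rw [Finset.sum_comm]
      refine Finset.sum_congr rfl fun h hh => ?_
      rw [Finset.sum_comm]
      refine Finset.sum_congr rfl fun h' hh' => ?_
      rw [← corr_shift (v k) M H (hs k) (min h h') (max h h' - min h h')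
        ((min_le_left _ _).trans (Finset.mem_range.mp hh).le)]
      refine Finset.sum_congr rfl fun m _ => ?_
      rcases le_total h h' with hle | hle
      · rw [min_eq_left hle, max_eq_right hle, show m + h + (h' - h) = m + h' by omega]
      · rw [min_eq_right hle, max_eq_left hle, show m + h' + (h - h') = m + h by omega, mul_comm]
    calc (H : ℝ) * ((H : ℝ) * (∑ n ∈ Finset.range M, v k n) ^ 2)
        = ((H : ℝ) * (∑ n ∈ Finset.range M, v k n)) ^ 2 := by ring
      _ ≤ _ := by rw [e1, ← e3]; exact e2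
  have h2 : (H : ℝ) * ((H : ℝ) * ∑ k ∈ s, (∑ n ∈ Finset.range M, v k n) ^ 2)
      ≤ M * ∑ h ∈ Finset.range H, ∑ h' ∈ Finset.range H, C (max h h' - min h h') := by
    rw [Finset.mul_sum, Finset.mul_sum]
    refine (Finset.sum_le_sum fun k _ => h1 k).trans (le_of_eq ?_)
    rw [← Finset.mul_sum, Finset.sum_comm]
    congr 1
    refine Finset.sum_congr rfl fun h _ => ?_
    rw [Finset.sum_comm]
  have h3 : ∀ h ∈ Finset.range H, ∑ h' ∈ Finset.range H, C (max h h' - min h h')
      ≤ C 0 + 2 * ∑ r ∈ Finset.Ico 1 H, |C r| := by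
    intro h hh
    have hh' := Finset.mem_range.mp hh
    have hsplit : Finset.range H = Finset.range h ∪ ({h} ∪ Finset.Ico (h + 1) H) := by
      ext x; simp only [Finset.mem_range, Finset.mem_union, Finset.mem_singleton, Finset.mem_Ico]
      omega
    have d1 : Disjoint (Finset.range h) ({h} ∪ Finset.Ico (h + 1) H) := by
      rw [Finset.disjoint_left]; intro x hx hx2
      simp only [Finset.mem_range, Finset.mem_union, Finset.mem_singleton, Finset.mem_Ico] at hx hx2
      omega
    have d2 : Disjoint ({h} : Finset ℕ) (Finset.Ico (h + 1) H) := by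
      rw [Finset.disjoint_left]; intro x hx hx2
      simp only [Finset.mem_singleton, Finset.mem_Ico] at hx hx2
      omega
    rw [hsplit, Finset.sum_union d1, Finset.sum_union d2, Finset.sum_singleton]
    have b1 : ∑ x ∈ Finset.range h, C (max h x - min h x) ≤ ∑ r ∈ Finset.Ico 1 H, |C r| := by
      calc _ ≤ ∑ x ∈ Finset.range h, |C (h - x)| := by
            refine Finset.sum_le_sum fun x hx => ?_
            have := Finset.mem_range.mp hx
            rw [max_eq_left this.le, min_eq_right this.le]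
            exact le_abs_self _
        _ = ∑ r ∈ (Finset.range h).image (fun x => h - x), |C r| := by
            rw [Finset.sum_image]
            intro x hx y hy hxy
            have := Finset.mem_range.mp hx
            have := Finset.mem_range.mp hy
            simp only at hxy
            omega
        _ ≤ _ := by
            refine Finset.sum_le_sum_of_subset_of_nonneg ?_ fun _ _ _ => abs_nonneg _
            intro r hr
            obtain ⟨x, hx, rfl⟩ := Finset.mem_image.mp hr
            have := Finset.mem_range.mp hx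
            rw [Finset.mem_Ico]; omega
    have b2 : ∑ x ∈ Finset.Ico (h + 1) H, C (max h x - min h x) ≤ ∑ r ∈ Finset.Ico 1 H, |C r| := by
      calc _ ≤ ∑ x ∈ Finset.Ico (h + 1) H, |C (x - h)| := by
            refine Finset.sum_le_sum fun x hx => ?_
            have := Finset.mem_Ico.mp hx
            rw [max_eq_right (by omega), min_eq_left (by omega)]
            exact le_abs_self _
        _ = ∑ r ∈ (Finset.Ico (h + 1) H).image (fun x => x - h), |C r| := by
            rw [Finset.sum_image]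
            intro x hx y hy hxy
            have := Finset.mem_Ico.mp hx
            have := Finset.mem_Ico.mp hy
            simp only at hxy
            omega
        _ ≤ _ := by
            refine Finset.sum_le_sum_of_subset_of_nonneg ?_ fun _ _ _ => abs_nonneg _
            intro r hr
            obtain ⟨x, hx, rfl⟩ := Finset.mem_image.mp hr
            have := Finset.mem_Ico.mp hx
            rw [Finset.mem_Ico]; omega
    have b3 : C (max h h - min h h) = C 0 := by simp
    rw [b3]; linarith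
  have h4 : C 0 = ∑ k ∈ s, ∑ n ∈ Finset.range M, v k n ^ 2 := by
    simp only [hC, add_zero]
    exact Finset.sum_congr rfl fun k _ => Finset.sum_congr rfl fun n _ => (sq _).symm
  refine h2.trans (mul_le_mul_of_nonneg_left ?_ (Nat.cast_nonneg M))
  refine (Finset.sum_le_sum h3).trans (le_of_eq ?_)
  rw [Finset.sum_const, Finset.card_range, nsmul_eq_mul, h4]

/-- The grid inequality. -/
theorem grid_bound (M B H D : ℕ) (hM : 0 < M) (hB : 0 < B) (hH : 0 < H) (x : ℕ → ℝ) (β : ℕ → ℕ)
    (hx : ∀ n, x n ≠ 0 → H ≤ n ∧ n < M)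
    (hmono : Monotone β)
    (hb : ∀ n < M, β n ≤ B)
    (hD : ∀ n < M, ∀ r < H, x n * x (n + r) ≠ 0 → β (n + r) - β n < D)
    (K : ℝ) (hK0 : 0 ≤ K)
    (hK : ∀ (ψ : AddChar (Tor M B) ℂ) (u v : ℕ → ℂ),
      ‖∑ r ∈ Finset.Ico 1 H, ∑ l ∈ Finset.range D, u r * v l * mat M B x β ψ r l‖
        ≤ K * (Real.sqrt (∑ r ∈ Finset.Ico 1 H, ‖u r‖ ^ 2) *
          Real.sqrt (∑ l ∈ Finset.range D, ‖v l‖ ^ 2)))
    (F G : ℕ → ℕ → ℝ) (hF : ∀ i j, |F i j| ≤ 1) (hG : ∀ i j, |G i j| ≤ 1) :
    (H : ℝ) * ∑ i ∈ Finset.range M, ∑ j ∈ Finset.range B,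
        (∑ n ∈ Finset.range M, x n * (F (i + n) j * G i (j + β n))) ^ 2
      ≤ M * (M * B * (∑ n ∈ Finset.range M, (x n) ^ 2 + 8 * K * Real.sqrt (H * D))) := by
  have : NeZero M := ⟨hM.ne'⟩
  have : NeZero B := ⟨hB.ne'⟩
  set s : Finset (ℕ × ℕ) := Finset.range M ×ˢ Finset.range B with hs
  set v : ℕ × ℕ → ℕ → ℝ := fun k n => x n * (F (k.1 + n) k.2 * G k.1 (k.2 + β n)) with hv
  have hsv : ∀ k n, v k n ≠ 0 → H ≤ n ∧ n < M := by
    intro k n hn
    apply hx n
    intro h0; apply hn; simp only [hv, h0, zero_mul]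
  have h1 := vdc s v M H hsv
  set C : ℕ → ℝ := fun r => ∑ k ∈ s, ∑ n ∈ Finset.range M, v k n * v k (n + r) with hC
  set σ : ℕ → ℝ := fun r => if 0 ≤ C r then 1 else -1 with hσ
  have hσC : ∀ r, σ r * C r = |C r| := by
    intro r; simp only [hσ]
    split_ifs with h
    · rw [one_mul, abs_of_nonneg h]
    · rw [abs_of_neg (not_le.mp h)]; ring
  have hσ1 : ∀ r, |σ r| ≤ 1 := by
    intro r; simp only [hσ]; split_ifs <;> simp
  have h2 := grid_form M B H D x β hb hD K hK0 hK
    (fun r i j => σ r * (F i j * F (i + r) j)) (fun l i j => G i j * G i (j + l))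
    (fun r i j => by
      rw [abs_mul, abs_mul]
      have a1 := hσ1 r
      have a2 := hF i j
      have a3 := hF (i + r) j
      calc _ ≤ (1:ℝ) * (1 * 1) := by gcongr
        _ = 1 := by norm_num)
    (fun l i j => by
      rw [abs_mul]
      have a2 := hG i j
      have a3 := hG i (j + l)
      calc _ ≤ (1:ℝ) * 1 := by gcongr
        _ = 1 := by norm_num)
  have e1 : ∑ r ∈ Finset.Ico 1 H, ∑ n ∈ Finset.range M, (x n * x (n + r)) *
        ∑ i ∈ Finset.range M, ∑ j ∈ Finset.range B,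
          (σ r * (F (i + n) j * F (i + n + r) j)) *
            (G i (j + β n) * G i (j + β n + (β (n + r) - β n)))
      = ∑ r ∈ Finset.Ico 1 H, |C r| := by
    refine Finset.sum_congr rfl fun r _ => ?_
    rw [← hσC r]
    simp only [hC]
    rw [Finset.sum_comm, Finset.mul_sum]
    refine Finset.sum_congr rfl fun n _ => ?_
    rw [hs, Finset.sum_product, Finset.mul_sum, Finset.mul_sum]
    refine Finset.sum_congr rfl fun i _ => ?_
    rw [Finset.mul_sum, Finset.mul_sum]
    refine Finset.sum_congr rfl fun j _ => ?_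
    have : β n ≤ β (n + r) := hmono (Nat.le_add_right _ _)
    simp only [hv]
    rw [show j + β n + (β (n + r) - β n) = j + β (n + r) by omega, show i + n + r = i + (n + r) by ring]
    ring
  rw [e1, abs_of_nonneg (Finset.sum_nonneg fun r _ => abs_nonneg _)] at h2
  have h3 : ∑ k ∈ s, ∑ n ∈ Finset.range M, v k n ^ 2 ≤ M * B * ∑ n ∈ Finset.range M, (x n) ^ 2 := by
    calc _ ≤ ∑ k ∈ s, ∑ n ∈ Finset.range M, (x n) ^ 2 := by
          refine Finset.sum_le_sum fun k _ => Finset.sum_le_sum fun n _ => ?_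
          simp only [hv]
          rw [mul_pow]
          have a2 := hF (k.1 + n) k.2
          have a3 := hG k.1 (k.2 + β n)
          have a4 : |F (k.1 + n) k.2 * G k.1 (k.2 + β n)| ≤ 1 := by
            rw [abs_mul]
            calc _ ≤ (1:ℝ) * 1 := by gcongr
              _ = 1 := by norm_num
          have a5 : (F (k.1 + n) k.2 * G k.1 (k.2 + β n)) ^ 2 ≤ 1 := by
            rw [← sq_abs]
            nlinarith [abs_nonneg (F (k.1 + n) k.2 * G k.1 (k.2 + β n))]
          nlinarith [sq_nonneg (x n)]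
      _ = _ := by rw [Finset.sum_const, hs, Finset.card_product, Finset.card_range,
          Finset.card_range, nsmul_eq_mul]; push_cast; ring
  have hH' : (0:ℝ) < H := by exact_mod_cast hH
  have e2 : ∑ i ∈ Finset.range M, ∑ j ∈ Finset.range B,
        (∑ n ∈ Finset.range M, x n * (F (i + n) j * G i (j + β n))) ^ 2
      = ∑ k ∈ s, (∑ n ∈ Finset.range M, v k n) ^ 2 := by
    rw [hs, Finset.sum_product]
  rw [e2]
  have h4 : (H : ℝ) * ∑ k ∈ s, (∑ n ∈ Finset.range M, v k n) ^ 2
      ≤ M * ((∑ k ∈ s, ∑ n ∈ Finset.range M, v k n ^ 2) + 2 * ∑ r ∈ Finset.Ico 1 H, |C r|) := by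
    have := h1
    rw [show (M:ℝ) * (H * ((∑ k ∈ s, ∑ n ∈ Finset.range M, v k n ^ 2)
        + 2 * ∑ r ∈ Finset.Ico 1 H, |∑ k ∈ s, ∑ n ∈ Finset.range M, v k n * v k (n + r)|))
      = H * (M * ((∑ k ∈ s, ∑ n ∈ Finset.range M, v k n ^ 2)
        + 2 * ∑ r ∈ Finset.Ico 1 H, |C r|)) by simp only [hC]; ring] at this
    exact le_of_mul_le_mul_left this hH'
  refine h4.trans ?_
  refine mul_le_mul_of_nonneg_left ?_ (Nat.cast_nonneg M)
  calc _ ≤ M * B * ∑ n ∈ Finset.range M, (x n) ^ 2 + 2 * (K * (4 * M * B * Real.sqrt (H * D))) := by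
        linarith
    _ = _ := by ring

/-- Transference to a system. -/
theorem sys_bound {α : Type*} [MeasurableSpace α] (μ : Measure α) [IsProbabilityMeasure μ]
    (T S : α → α) (hT : MeasurePreserving T μ μ) (hS : MeasurePreserving S μ μ)
    (hTS : ∀ z, T (S z) = S (T z)) (f g : α → ℝ) (hf : Measurable f) (hg : Measurable g)
    (hf1 : ∀ z, |f z| ≤ 1) (hg1 : ∀ z, |g z| ≤ 1)
    (M B H D : ℕ) (hM : 0 < M) (hB : 0 < B) (hH : 0 < H) (x : ℕ → ℝ) (β : ℕ → ℕ)
    (hx : ∀ n, x n ≠ 0 → H ≤ n ∧ n < M)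
    (hmono : Monotone β)
    (hb : ∀ n < M, β n ≤ B)
    (hD : ∀ n < M, ∀ r < H, x n * x (n + r) ≠ 0 → β (n + r) - β n < D)
    (K : ℝ) (hK0 : 0 ≤ K)
    (hK : ∀ (ψ : AddChar (Tor M B) ℂ) (u v : ℕ → ℂ),
      ‖∑ r ∈ Finset.Ico 1 H, ∑ l ∈ Finset.range D, u r * v l * mat M B x β ψ r l‖
        ≤ K * (Real.sqrt (∑ r ∈ Finset.Ico 1 H, ‖u r‖ ^ 2) *
          Real.sqrt (∑ l ∈ Finset.range D, ‖v l‖ ^ 2))) :
    (H : ℝ) * ∫ z, (∑ n ∈ Finset.range M, x n * (f (T^[n] z) * g (S^[β n] z))) ^ 2 ∂μ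
      ≤ M * (∑ n ∈ Finset.range M, (x n) ^ 2 + 8 * K * Real.sqrt (H * D)) := by
  set Φ : α → ℝ := fun z => (∑ n ∈ Finset.range M, x n * (f (T^[n] z) * g (S^[β n] z))) ^ 2 with hΦ
  have hΦm : Measurable Φ := by
    refine Measurable.pow_const (Finset.measurable_sum _ fun n _ => ?_) 2
    exact measurable_const.mul ((hf.comp (hT.iterate n).measurable).mul
      (hg.comp (hS.iterate (β n)).measurable))
  have hΦb : ∀ z, |Φ z| ≤ (∑ n ∈ Finset.range M, |x n|) ^ 2 := by
    intro z
    simp only [hΦ]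
    rw [abs_pow]
    have : |∑ n ∈ Finset.range M, x n * (f (T^[n] z) * g (S^[β n] z))|
        ≤ ∑ n ∈ Finset.range M, |x n| := by
      refine (Finset.abs_sum_le_sum_abs _ _).trans (Finset.sum_le_sum fun n _ => ?_)
      rw [abs_mul, abs_mul]
      have a1 := hf1 (T^[n] z)
      have a2 := hg1 (S^[β n] z)
      calc _ ≤ |x n| * (1 * 1) := by gcongr
        _ = |x n| := by ring
    gcongr
  have hΦi : Integrable Φ μ := Integrable.of_bound hΦm.aestronglyMeasurable _
    (Eventually.of_forall fun z => by simpa using hΦb z)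
  have hinv : ∀ i j, ∫ z, Φ (T^[i] (S^[j] z)) ∂μ = ∫ z, Φ z ∂μ := by
    intro i j
    have h1 : MeasurePreserving (fun z => T^[i] (S^[j] z)) μ μ := (hT.iterate i).comp (hS.iterate j)
    have := integral_map (μ := μ) h1.measurable.aemeasurable
      (f := Φ) (by rw [h1.map_eq]; exact hΦm.aestronglyMeasurable)
    rw [h1.map_eq] at this
    exact this.symm
  have hi : ∀ i j, Integrable (fun z => Φ (T^[i] (S^[j] z))) μ := by
    intro i j
    have h1 : MeasurePreserving (fun z => T^[i] (S^[j] z)) μ μ := (hT.iterate i).comp (hS.iterate j)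
    exact Integrable.of_bound (hΦm.comp h1.measurable).aestronglyMeasurable _
      (Eventually.of_forall fun z => by simpa using hΦb _)
  have hpt : ∀ z, (H : ℝ) * ∑ i ∈ Finset.range M, ∑ j ∈ Finset.range B, Φ (T^[i] (S^[j] z))
      ≤ M * (M * B * (∑ n ∈ Finset.range M, (x n) ^ 2 + 8 * K * Real.sqrt (H * D))) := by
    intro z
    have h1 := grid_bound M B H D hM hB hH x β hx hmono hb hD K hK0 hK
      (fun i j => f (T^[i] (S^[j] z))) (fun i j => g (T^[i] (S^[j] z)))
      (fun i j => hf1 _) (fun i j => hg1 _)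
    refine le_trans (le_of_eq ?_) h1
    congr 1
    refine Finset.sum_congr rfl fun i _ => Finset.sum_congr rfl fun j _ => ?_
    simp only [hΦ]
    congr 1
    refine Finset.sum_congr rfl fun n _ => ?_
    have c0 : Function.Commute T S := hTS
    have c1 : T^[n] (T^[i] (S^[j] z)) = T^[i + n] (S^[j] z) := by
      rw [← Function.iterate_add_apply, add_comm]
    have c2 : S^[β n] (T^[i] (S^[j] z)) = T^[i] (S^[j + β n] z) := by
      rw [← (c0.iterate_iterate i (β n)).eq, ← Function.iterate_add_apply, add_comm]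
    rw [c1, c2]
  have hint : ∫ z, (H : ℝ) * ∑ i ∈ Finset.range M, ∑ j ∈ Finset.range B, Φ (T^[i] (S^[j] z)) ∂μ
      = (M * B : ℝ) * ((H : ℝ) * ∫ z, Φ z ∂μ) := by
    rw [integral_const_mul, integral_finsetSum _ fun i _ => integrable_finsetSum _ fun j _ => hi i j]
    rw [Finset.sum_congr rfl fun i _ => integral_finsetSum _ fun j _ => hi i j]
    simp_rw [hinv]
    simp; ring
  have hle : ∫ z, (H : ℝ) * ∑ i ∈ Finset.range M, ∑ j ∈ Finset.range B, Φ (T^[i] (S^[j] z)) ∂μ
      ≤ ∫ _, (M * (M * B * (∑ n ∈ Finset.range M, (x n) ^ 2 + 8 * K * Real.sqrt (H * D))) : ℝ) ∂μ := by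
    refine integral_mono ?_ (integrable_const _) hpt
    exact (integrable_finsetSum _ fun i _ => integrable_finsetSum _ fun j _ => hi i j).const_mul _
  rw [hint] at hle
  simp only [integral_const, probReal_univ, smul_eq_mul, one_mul] at hle
  have hMB : (0:ℝ) < M * B := by positivity
  have : (M * B : ℝ) * ((H : ℝ) * ∫ z, Φ z ∂μ)
      ≤ (M * B : ℝ) * (M * (∑ n ∈ Finset.range M, (x n) ^ 2 + 8 * K * Real.sqrt (H * D))) := by
    calc _ ≤ _ := hle
      _ = _ := by ring
  exact le_of_mul_le_mul_left this hMB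

end Pool.Agent.Helper49.RS
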